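import Pool.Agent.Run7.h342.DEF

/-!
# The completion of a quotient singularity
-/

set_option autoImplicit false
set_option linter.unusedSectionVars false
set_option linter.unusedTactic false

noncomputable section

namespace Run7.h342

open MvPowerSeries IsLocalRing

variable {k : Type} [Field k] {d : ℕ} {O : Type} [CommRing O] [IsDomain O] [IsLocalRing O]
  [IsNoetherianRing O] [Algebra k O] {G : Subgroup (GL (Fin d) k)}

theorem phiOf_apply (e : AdicCompletion (maximalIdeal O) O ≃ₐ[k] invS G) (x : O) :
    phiOf e x = (e (algebraMap O (AdicCompletion (maximalIdeal O) O) x) :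
      MvPowerSeries (Fin d) k) := rfl

theorem isUnit_of_invS {c : invS G} (h : IsUnit (c : MvPowerSeries (Fin d) k)) : IsUnit c := by
  obtain ⟨u, hu⟩ := h.exists_right_inv
  have hu' : u ∈ invS G := by
    intro g hg
    have h1 := congrArg (lin (g : Matrix (Fin d) (Fin d) k)) hu
    rw [map_mul, map_one, c.2 g hg, ← hu] at h1
    exact mul_left_cancel₀ h.ne_zero h1
  exact IsUnit.of_mul_eq_one ⟨u, hu'⟩ (Subtype.ext hu)

theorem phiOf_max (e : AdicCompletion (maximalIdeal O) O ≃ₐ[k] invS G) (N : ℕ) (x : O)
    (hx : x ∈ maximalIdeal O ^ N) :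
    phiOf e x ∈ maximalIdeal (MvPowerSeries (Fin d) k) ^ N := by
  have h1 : (maximalIdeal O).map (phiOf e : O →+* MvPowerSeries (Fin d) k) ≤
      maximalIdeal (MvPowerSeries (Fin d) k) := by
    rw [Ideal.map_le_iff_le_comap]
    intro y hy
    rw [Ideal.mem_comap, mem_maximalIdeal, mem_nonunits_iff]
    intro hu
    have h2 := isUnit_of_invS (c := e (algebraMap O (AdicCompletion (maximalIdeal O) O) y)) hu
    have h3 : IsUnit (algebraMap O (AdicCompletion (maximalIdeal O) O) y) := by
      have := h2.map e.symm
      rwa [AlgEquiv.symm_apply_apply] at this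
    exact hy (isUnit_of_map_unit _ _ h3)
  have h2 := Ideal.mem_map_of_mem (phiOf e : O →+* MvPowerSeries (Fin d) k) hx
  rw [Ideal.map_pow] at h2
  exact Ideal.pow_right_mono h1 N h2

theorem locDat_of (e : AdicCompletion (maximalIdeal O) O ≃ₐ[k] invS G)
    (halg : ∀ i, ∃ P : Polynomial O, P ≠ 0 ∧
      P.eval₂ (phiOf e : O →+* MvPowerSeries (Fin d) k) (X i) = 0) :
    LocDat O G (phiOf e) where
  inj := by
    intro x y hxy
    have h1 : e (algebraMap O _ x) = e (algebraMap O _ y) := Subtype.ext hxy
    have h2 := e.injective h1
    exact AdicCompletion.of_injective (maximalIdeal O) O h2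
  inv := fun x => (e (algebraMap O _ x)).2
  dens := by
    intro c hc N
    set y := e.symm ⟨c, hc⟩ with hy
    obtain ⟨x, hx⟩ := Submodule.Quotient.mk_surjective _ (AdicCompletion.eval (maximalIdeal O) O N y)
    refine ⟨x, ?_⟩
    have h1 : y - algebraMap O _ x ∈ (AdicCompletion.eval (maximalIdeal O) O N).ker := by
      rw [LinearMap.mem_ker, map_sub, ← hx]
      exact sub_self _
    rw [← AdicCompletion.pow_smul_top_eq_ker_eval (maximalIdeal O).fg_of_isNoetherianRing] at h1
    have h2 : ∀ z : AdicCompletion (maximalIdeal O) O,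
        z ∈ maximalIdeal O ^ N • (⊤ : Submodule O (AdicCompletion (maximalIdeal O) O)) →
        (e z : MvPowerSeries (Fin d) k) ∈ maximalIdeal (MvPowerSeries (Fin d) k) ^ N := by
      intro z hz
      refine Submodule.smul_induction_on hz (fun r hr t _ => ?_) (fun a b ha hb => ?_)
      · rw [Algebra.smul_def, map_mul]
        exact Ideal.mul_mem_right _ _ (phiOf_max e N r hr)
      · rw [map_add]
        exact add_mem ha hb
    have h3 := h2 _ h1
    rw [map_sub, hy, AlgEquiv.apply_symm_apply] at h3
    exact h3
  flat := by
    classical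
    intro I _ z0 z1 F hF h
    have := Fintype.ofFinite I
    choose Y hY hFY using h
    set Fh := e.symm ⟨F, hF⟩ with hFh
    set Yh := fun i => e.symm ⟨Y i, hY i⟩ with hYh
    let A := AdicCompletion (maximalIdeal O) O
    let f : (I →₀ O) →ₗ[O] (Option I →₀ O) := Finsupp.linearCombination O
      (fun i => z1 i • Finsupp.single none 1 - z0 i • Finsupp.single (some i) 1)
    let x : (Option I →₀ O) →ₗ[O] A := Finsupp.linearCombination O
      (fun o => match o with
        | none => Fh
        | some i => Yh i)
    have hx0 : x (Finsupp.single none 1) = Fh := by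
      simp only [x, Finsupp.linearCombination_single, one_smul]
    have hx1 : ∀ i, x (Finsupp.single (some i) 1) = Yh i := by
      intro i
      simp only [x, Finsupp.linearCombination_single, one_smul]
    have hxf : x ∘ₗ f = 0 := by
      apply Finsupp.lhom_ext'
      intro i
      refine LinearMap.ext_ring ?_
      simp only [LinearMap.comp_apply, Finsupp.lsingle_apply, f,
        Finsupp.linearCombination_single, one_smul, map_sub, map_smul, hx0, hx1,
        LinearMap.zero_apply]
      have h1 : e (z1 i • Fh - z0 i • Yh i) = 0 := by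
        rw [map_sub, Algebra.smul_def, Algebra.smul_def, map_mul, map_mul]
        apply Subtype.ext
        change phiOf e (z1 i) * (e Fh : MvPowerSeries (Fin d) k) -
          phiOf e (z0 i) * (e (Yh i) : MvPowerSeries (Fin d) k) = 0
        rw [hFh, AlgEquiv.apply_symm_apply, hYh]
        dsimp only
        rw [AlgEquiv.apply_symm_apply]
        dsimp only
        rw [mul_comm, hFY i, mul_comm, sub_self]
      have h2 := congrArg e.symm h1
      rwa [AlgEquiv.symm_apply_apply, map_zero] at h2
    obtain ⟨s, a, y, hxy, haf⟩ := Module.Flat.exists_factorization_of_comp_eq_zero_of_free hxf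
    refine ⟨s, fun j => a (Finsupp.single none 1) j,
      fun j => (e (y (Finsupp.single j 1)) : MvPowerSeries (Fin d) k),
      fun j => (e (y (Finsupp.single j 1))).2, ?_, fun j i => ?_⟩
    · have h1 : Fh = ∑ j, a (Finsupp.single none 1) j • y (Finsupp.single j 1) := by
        rw [← hx0, hxy, LinearMap.comp_apply]
        conv_lhs => rw [← Finsupp.sum_single (a (Finsupp.single none 1)),
          Finsupp.sum_fintype _ _ (by intro i; simp)]
        rw [map_sum]
        refine Finset.sum_congr rfl fun j _ => ?_
        rw [← map_smul, Finsupp.smul_single, smul_eq_mul, mul_one]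
      have h2 := congrArg e h1
      rw [hFh, AlgEquiv.apply_symm_apply, map_sum] at h2
      have h3 := congrArg Subtype.val h2
      dsimp only at h3
      rw [h3, AddSubmonoidClass.coe_finsetSum]
      refine Finset.sum_congr rfl fun j _ => ?_
      rw [Algebra.smul_def, map_mul, mul_comm]
      rfl
    · have h1 := LinearMap.congr_fun haf (Finsupp.single i 1)
      simp only [LinearMap.comp_apply, f, Finsupp.linearCombination_single, one_smul, map_sub,
        map_smul, LinearMap.zero_apply] at h1
      have h2 := DFunLike.congr_fun h1 j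
      rw [Finsupp.sub_apply, Finsupp.smul_apply, Finsupp.smul_apply, Finsupp.zero_apply,
        smul_eq_mul, smul_eq_mul, sub_eq_zero] at h2
      exact ⟨_, by rw [mul_comm]; exact h2⟩
  ff := by
    rintro a b ⟨c, hc, h⟩
    have hff : Module.FaithfullyFlat O (AdicCompletion (maximalIdeal O) O) :=
      Module.FaithfullyFlat.of_flat_of_isLocalHom
    have h1 : algebraMap O (AdicCompletion (maximalIdeal O) O) a =
        algebraMap O (AdicCompletion (maximalIdeal O) O) b * e.symm ⟨c, hc⟩ := by
      apply e.injective
      rw [map_mul, AlgEquiv.apply_symm_apply]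
      exact Subtype.ext h
    have h2 := Ideal.comap_map_eq_self_of_faithfullyFlat
      (B := AdicCompletion (maximalIdeal O) O) (Ideal.span {b})
    have h3 : a ∈ (Ideal.span {b}).comap (algebraMap O O) := by
      rw [Algebra.algebraMap_self, Ideal.comap_id, ← h2, Ideal.mem_comap, h1]
      exact Ideal.mul_mem_right _ _ (Ideal.mem_map_of_mem _ (Ideal.mem_span_singleton_self b))
    rw [Algebra.algebraMap_self, Ideal.comap_id, Ideal.mem_span_singleton] at h3
    exact h3
  alg := halg

end Run7.h342
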