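import Pool.Agent.Run7.h342.DIAG

/-!
# Conjugation of the group and diagonalization
-/

set_option autoImplicit false
set_option linter.unusedSectionVars false
set_option linter.unusedTactic false

noncomputable section

namespace Run7.h342

open MvPowerSeries IsLocalRing

section diag

variable {k : Type} [Field k] [IsAlgClosed k] [CharZero k] {d : ℕ}

theorem exists_diag (g : Matrix (Fin d) (Fin d) k) (r : ℕ) (hr : 0 < r) (hg : g ^ r = 1)
    (ζ : k) (hζ : IsPrimitiveRoot ζ r) :
    ∃ (C : GL (Fin d) k) (a : Fin d → ℕ),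
      g * (C : Matrix (Fin d) (Fin d) k) = C * Matrix.diagonal (fun i => ζ ^ a i) := by
  classical
  set T : Module.End k (Fin d → k) := Matrix.mulVecLin g with hT
  have hTr : T ^ r = 1 := by
    have h1 : Matrix.toLinAlgEquiv' (R := k) (n := Fin d) g = T := by
      ext
      simp [hT]
    rw [← h1, ← map_pow, hg, map_one]
  have hss : T.IsSemisimple := by
    refine Module.End.isSemisimple_of_squarefree_aeval_eq_zero
      (p := (Polynomial.X ^ r - Polynomial.C (1 : k))) ?_ ?_
    · exact (Polynomial.separable_X_pow_sub_C (1 : k) (by exact_mod_cast hr.ne')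
        one_ne_zero).squarefree
    · rw [map_sub, map_pow, Polynomial.aeval_X, hTr]
      simp
  have htop : ⨆ μ, T.eigenspace μ = ⊤ := by
    have h1 := Module.End.iSup_maxGenEigenspace_eq_top T
    have h2 := (Module.End.isFinitelySemisimple_iff_isSemisimple.mpr hss)
    simpa only [h2.maxGenEigenspace_eq_eigenspace] using h1
  -- the set of eigenvectors
  set E : Set (Fin d → k) := {v | ∃ s : ℕ, T v = ζ ^ s • v} with hE
  have hspan : Submodule.span k E = ⊤ := by
    rw [eq_top_iff, ← htop]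
    refine iSup_le fun μ => ?_
    intro v hv
    by_cases hv0 : v = 0
    · rw [hv0]
      exact Submodule.zero_mem _
    apply Submodule.subset_span
    have h1 : T v = μ • v := Module.End.mem_eigenspace_iff.1 hv
    have h2 : ∀ n : ℕ, (T ^ n) v = μ ^ n • v := by
      intro n
      induction n with
      | zero => simp
      | succ n ih =>
        rw [pow_succ', Module.End.mul_apply, ih, map_smul, h1, smul_smul, pow_succ]
    have h3 := h2 r
    rw [hTr, Module.End.one_apply] at h3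
    have h4 : (μ ^ r - 1) • v = 0 := by
      rw [sub_smul, one_smul, ← h3, sub_self]
    have h5 : μ ^ r = 1 := by
      rcases smul_eq_zero.1 h4 with h | h
      · exact sub_eq_zero.1 h
      · exact absurd h hv0
    have : NeZero r := ⟨hr.ne'⟩
    obtain ⟨s, _, hs⟩ := hζ.eq_pow_of_pow_eq_one h5
    exact ⟨s, by rw [hs]; exact h1⟩
  obtain ⟨z, hz, hzE⟩ : ∃ z : Fin d → (Fin d → k), LinearIndependent k z ∧ ∀ j, z j ∈ E := by
    obtain ⟨b, hb1⟩ : ∃ (b : Module.Basis ((linearIndepOn_empty k id).extend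
        (Set.empty_subset E)) k (Fin d → k)), ∀ i, b i ∈ E := by
      refine ⟨Module.Basis.ofSpan (K := k) (s := E) hspan.ge, ?_⟩
      intro i
      exact Module.Basis.ofSpan_subset _ ⟨i, rfl⟩
    have hfin : Fintype ((linearIndepOn_empty k id).extend
        (Set.empty_subset E)) := FiniteDimensional.fintypeBasisIndex b
    have hcard : Fintype.card ((linearIndepOn_empty k id).extend
        (Set.empty_subset E)) = d := by
      rw [← Module.finrank_eq_card_basis b, Module.finrank_fin_fun]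
    let e := (Fintype.equivFinOfCardEq hcard).symm
    exact ⟨fun j => b (e j), b.linearIndependent.comp e e.injective, fun j => hb1 _⟩
  choose a ha using hzE
  have hu : IsUnit (Matrix.of z) := Matrix.linearIndependent_rows_iff_isUnit.1 hz
  have hut : IsUnit (Matrix.of z).transpose := by
    rw [Matrix.isUnit_iff_isUnit_det, Matrix.det_transpose, ← Matrix.isUnit_iff_isUnit_det]
    exact hu
  obtain ⟨C, hC⟩ := hut
  refine ⟨C, a, ?_⟩
  rw [hC]
  ext i j
  rw [Matrix.mul_diagonal]
  have h1 := congrFun (ha j) i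
  rw [hT, Matrix.mulVecLin_apply] at h1
  rw [Matrix.mul_apply]
  simp only [Matrix.mulVec, dotProduct, Pi.smul_apply, smul_eq_mul] at h1
  simp only [Matrix.transpose_apply, Matrix.of_apply]
  rw [h1, mul_comm]

end diag

section conj

variable {k : Type} [Field k] {d : ℕ}

/-- the conjugate group -/
def cj (C : GL (Fin d) k) (G : Subgroup (GL (Fin d) k)) : Subgroup (GL (Fin d) k) :=
  G.map (MulAut.conj C⁻¹).toMonoidHom

theorem mem_cj {C : GL (Fin d) k} {G : Subgroup (GL (Fin d) k)} {g' : GL (Fin d) k} :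
    g' ∈ cj C G ↔ ∃ g ∈ G, g' = C⁻¹ * g * C := by
  rw [cj, Subgroup.mem_map]
  constructor
  · rintro ⟨g, hg, rfl⟩
    refine ⟨g, hg, ?_⟩
    change C⁻¹ * g * C⁻¹⁻¹ = _
    rw [inv_inv]
  · rintro ⟨g, hg, rfl⟩
    refine ⟨g, hg, ?_⟩
    change C⁻¹ * g * C⁻¹⁻¹ = _
    rw [inv_inv]

theorem lin_cj (C g : GL (Fin d) k) (f : MvPowerSeries (Fin d) k) :
    lin ((C⁻¹ * g * C : GL (Fin d) k) : Matrix (Fin d) (Fin d) k)
      (lin (C : Matrix (Fin d) (Fin d) k) f) =
    lin (C : Matrix (Fin d) (Fin d) k) (lin (g : Matrix (Fin d) (Fin d) k) f) := by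
  rw [lin_lin, lin_lin, ← Units.val_mul, ← Units.val_mul]
  congr 2
  group

theorem lin_mem_cj {C : GL (Fin d) k} {G : Subgroup (GL (Fin d) k)}
    {f : MvPowerSeries (Fin d) k} (hf : f ∈ invS G) :
    lin (C : Matrix (Fin d) (Fin d) k) f ∈ invS (cj C G) := by
  intro g' hg'
  obtain ⟨g, hg, rfl⟩ := mem_cj.1 hg'
  rw [lin_cj, hf g hg]

theorem lin_inv_mem {C : GL (Fin d) k} {G : Subgroup (GL (Fin d) k)}
    {f : MvPowerSeries (Fin d) k} (hf : f ∈ invS (cj C G)) :
    lin ((C⁻¹ : GL (Fin d) k) : Matrix (Fin d) (Fin d) k) f ∈ invS G := by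
  intro g hg
  have h1 := hf (C⁻¹ * g * C) (mem_cj.2 ⟨g, hg, rfl⟩)
  have h2 : lin (C : Matrix (Fin d) (Fin d) k) (lin (g : Matrix (Fin d) (Fin d) k)
      (lin ((C⁻¹ : GL (Fin d) k) : Matrix (Fin d) (Fin d) k) f)) = f := by
    rw [← lin_cj, lin_cancel, h1]
  have h3 := congrArg (lin ((C⁻¹ : GL (Fin d) k) : Matrix (Fin d) (Fin d) k)) h2
  rwa [lin_cancel'] at h3

theorem locDat_cj {O : Type} [CommRing O] [IsDomain O] [Algebra k O]
    {G : Subgroup (GL (Fin d) k)} {φ : O →ₐ[k] MvPowerSeries (Fin d) k} (H : LocDat O G φ)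
    (C : GL (Fin d) k) :
    LocDat O (cj C G) ((lin (C : Matrix (Fin d) (Fin d) k)).comp φ) where
  inj := by
    intro x y hxy
    apply H.inj
    have h1 := congrArg (lin ((C⁻¹ : GL (Fin d) k) : Matrix (Fin d) (Fin d) k)) hxy
    change lin _ (lin _ (φ x)) = lin _ (lin _ (φ y)) at h1
    rwa [lin_cancel', lin_cancel'] at h1
  inv := fun x => lin_mem_cj (H.inv x)
  dens := by
    intro c hc N
    obtain ⟨x, hx⟩ := H.dens _ (lin_inv_mem hc) N
    refine ⟨x, ?_⟩
    have h1 := lin_mem_pow (C : Matrix (Fin d) (Fin d) k) hx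
    rwa [map_sub, lin_cancel] at h1
  flat := by
    intro ι _ z0 z1 F hF h
    obtain ⟨s, z, c, hc, hsum, hz⟩ := H.flat ι z0 z1 _ (lin_inv_mem hF) (by
      intro i
      obtain ⟨Y, hY, hFY⟩ := h i
      refine ⟨_, lin_inv_mem hY, ?_⟩
      have h1 := congrArg (lin ((C⁻¹ : GL (Fin d) k) : Matrix (Fin d) (Fin d) k)) hFY
      rw [map_mul, map_mul] at h1
      change _ * lin _ (lin _ (φ (z1 i))) = _ * lin _ (lin _ (φ (z0 i))) at h1
      rwa [lin_cancel', lin_cancel'] at h1)
    refine ⟨s, z, fun j => lin (C : Matrix (Fin d) (Fin d) k) (c j),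
      fun j => lin_mem_cj (hc j), ?_, hz⟩
    have h1 := congrArg (lin (C : Matrix (Fin d) (Fin d) k)) hsum
    rw [lin_cancel, map_sum] at h1
    rw [h1]
    refine Finset.sum_congr rfl fun j _ => ?_
    rw [map_mul]
    rfl
  ff := by
    rintro a b ⟨c, hc, h⟩
    refine H.ff a b ⟨_, lin_inv_mem hc, ?_⟩
    have h1 := congrArg (lin ((C⁻¹ : GL (Fin d) k) : Matrix (Fin d) (Fin d) k)) h
    rw [map_mul] at h1
    change lin _ (lin _ (φ a)) = lin _ (lin _ (φ b)) * _ at h1
    rwa [lin_cancel', lin_cancel'] at h1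
  alg := by
    intro i
    let _ : Algebra O (MvPowerSeries (Fin d) k) := (φ : O →+* MvPowerSeries (Fin d) k).toAlgebra
    have : FaithfulSMul O (MvPowerSeries (Fin d) k) := by
      rw [faithfulSMul_iff_algebraMap_injective]
      exact H.inj
    have h1 : ∀ j, IsAlgebraic O (X j : MvPowerSeries (Fin d) k) := fun j => H.alg j
    have hC : ∀ c : k, IsAlgebraic O (algebraMap k (MvPowerSeries (Fin d) k) c) := by
      intro c
      have : algebraMap k (MvPowerSeries (Fin d) k) c =
          algebraMap O (MvPowerSeries (Fin d) k) (algebraMap k O c) := (φ.commutes c).symm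
      rw [this]
      exact isAlgebraic_algebraMap _
    have h2 : IsAlgebraic O (lin ((C⁻¹ : GL (Fin d) k) : Matrix (Fin d) (Fin d) k)
        (X i : MvPowerSeries (Fin d) k)) := by
      rw [lin_X]
      refine Finset.sum_induction _ (fun x => IsAlgebraic O x) (fun _ _ ha hb => ha.add hb)
        isAlgebraic_zero fun j _ => ?_
      rw [Algebra.smul_def]
      exact (hC _).mul (h1 j)
    obtain ⟨P, hP, hP2⟩ := h2
    refine ⟨P, hP, ?_⟩
    have h3 : (((lin (C : Matrix (Fin d) (Fin d) k)).comp φ : O →ₐ[k] _) :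
        O →+* MvPowerSeries (Fin d) k) =
        ((lin (C : Matrix (Fin d) (Fin d) k) : _ →ₐ[k] _) : _ →+* MvPowerSeries (Fin d) k).comp
          (φ : O →+* MvPowerSeries (Fin d) k) := rfl
    have h4 := congrArg (lin (C : Matrix (Fin d) (Fin d) k)) hP2
    rw [map_zero] at h4
    rw [h3]
    have h5 := Polynomial.hom_eval₂ P (φ : O →+* MvPowerSeries (Fin d) k)
      ((lin (C : Matrix (Fin d) (Fin d) k) : _ →ₐ[k] _) : _ →+* MvPowerSeries (Fin d) k)
      (lin ((C⁻¹ : GL (Fin d) k) : Matrix (Fin d) (Fin d) k) (X i : MvPowerSeries (Fin d) k))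
    have h6 : ((lin (C : Matrix (Fin d) (Fin d) k) : _ →ₐ[k] _) : _ →+* MvPowerSeries (Fin d) k)
      (lin ((C⁻¹ : GL (Fin d) k) : Matrix (Fin d) (Fin d) k) (X i : MvPowerSeries (Fin d) k)) =
        X i := lin_cancel C _
    rw [h6] at h5
    rw [← h5]
    exact h4

theorem rank_cj (C g : GL (Fin d) k) :
    (((C⁻¹ * g * C : GL (Fin d) k) : Matrix (Fin d) (Fin d) k) - 1).rank =
      ((g : Matrix (Fin d) (Fin d) k) - 1).rank := by
  have h1 : ((C⁻¹ * g * C : GL (Fin d) k) : Matrix (Fin d) (Fin d) k) - 1 =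
      ((C⁻¹ : GL (Fin d) k) : Matrix (Fin d) (Fin d) k) *
        ((g : Matrix (Fin d) (Fin d) k) - 1) * (C : Matrix (Fin d) (Fin d) k) := by
    rw [mul_sub, sub_mul, mul_one, ← Units.val_mul, ← Units.val_mul, ← Units.val_mul,
      inv_mul_cancel, Units.val_one]
  rw [h1, Matrix.rank_mul_eq_left_of_isUnit_det _ _ ((Matrix.isUnit_iff_isUnit_det _).1 C.isUnit),
    Matrix.rank_mul_eq_right_of_isUnit_det _ _ ((Matrix.isUnit_iff_isUnit_det _).1 (C⁻¹).isUnit)]

end conj

end Run7.h342
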