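import Mathlib

/-!
# Definitions

Proper normal models of a function field, their prime divisors, Cartier indices, discrepancies and
quotient singularities.
-/

set_option autoImplicit false

noncomputable section

namespace Run7.h342

open AlgebraicGeometry CategoryTheory MvPowerSeries

/-! ## Discrete valuations and top forms -/

/-- A normalized discrete valuation of the field `K`, trivial on `k` (by convention the value at
zero is zero). -/
structure DVal (k K : Type) [Field k] [Field K] [Algebra k K] where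
  /-- the valuation -/
  ord : K → ℤ
  ord_zero : ord 0 = 0
  map_mul : ∀ x y, x ≠ 0 → y ≠ 0 → ord (x * y) = ord x + ord y
  map_add : ∀ x y, x ≠ 0 → y ≠ 0 → x + y ≠ 0 → min (ord x) (ord y) ≤ ord (x + y)
  surj : ∃ x, x ≠ 0 ∧ ord x = 1
  const : ∀ c : k, c ≠ 0 → ord (algebraMap k K c) = 0

section

variable {k K : Type} [Field k] [Field K] [Algebra k K] {d : ℕ}

/-- A discrete valuation of a field `K` of transcendence degree `d` over `k` is divisorial if
its residue field has transcendence degree (at least) `d - 1` over `k`. -/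
def IsDivisorial (d : ℕ) (v : DVal k K) : Prop :=
  ∃ t : Fin (d - 1) → K, ∀ P : MvPolynomial (Fin (d - 1)) k, P ≠ 0 →
    MvPolynomial.aeval t P ≠ 0 ∧ v.ord (MvPolynomial.aeval t P) = 0

/-- The rational top form `ω = b 0 ∧ ⋯ ∧ b (d-1)` has order `c` along `v`. One has
`dg₁ ∧ ⋯ ∧ dg_d = b.det (dg) • ω`, and the top forms regular along `v` are generated by the
forms `dg₁ ∧ ⋯ ∧ dg_d` with all `g i` regular along `v`. -/
def IsOrd (b : Module.Basis (Fin d) K (Ω[K⁄k])) (v : DVal k K) (c : ℤ) : Prop :=
  IsLeast {n : ℤ | ∃ g : Fin d → K, (∀ i, 0 ≤ v.ord (g i)) ∧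
    b.det (fun i => KaehlerDifferential.D k K (g i)) ≠ 0 ∧
    v.ord (b.det (fun i => KaehlerDifferential.D k K (g i))) = n} (-c)

theorem DVal.ord_pow_aux (v : DVal k K) {z : K} (hz : z ≠ 0) (n : ℕ) :
    v.ord (z ^ n) = n * v.ord z := by
  induction n with
  | zero =>
    have h := v.map_mul 1 1 one_ne_zero one_ne_zero
    rw [mul_one] at h
    rw [pow_zero]
    push_cast
    omega
  | succ n ih =>
    rw [pow_succ, v.map_mul _ _ (pow_ne_zero n hz) hz, ih]
    push_cast
    ring

theorem DVal.ord_zpow_aux (v : DVal k K) {z : K} (hz : z ≠ 0) (c : ℤ) :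
    v.ord (z ^ c) = c * v.ord z := by
  obtain ⟨n, rfl | rfl⟩ := Int.eq_nat_or_neg c
  · rw [zpow_natCast, v.ord_pow_aux hz]
  · have h := v.map_mul (z ^ n) (z ^ (-(n : ℤ))) (pow_ne_zero n hz) (zpow_ne_zero _ hz)
    rw [zpow_neg, zpow_natCast, mul_inv_cancel₀ (pow_ne_zero n hz)] at h
    have h0 := v.ord_pow_aux one_ne_zero 0
    rw [pow_zero, v.ord_pow_aux hz] at *
    rw [zpow_neg, zpow_natCast]
    push_cast at *
    linarith

/-- The divisors on a set `S` of discrete valuations which are principal up to elements of the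
group `P`. -/
def PDP (P : AddSubgroup (DVal k K → ℤ)) (S : Set (DVal k K)) : Submodule ℤ (S →₀ ℤ) where
  carrier := {D | ∃ z : K, z ≠ 0 ∧ ∃ p ∈ P, ∀ v : S, D v = (v : DVal k K).ord z + p v}
  zero_mem' := ⟨1, one_ne_zero, 0, P.zero_mem, fun v => by
    rw [← pow_zero (1 : K), (v : DVal k K).ord_pow_aux one_ne_zero, Nat.cast_zero, zero_mul]
    rfl⟩
  add_mem' := by
    rintro D E ⟨z, hz, p, hp, hD⟩ ⟨z', hz', p', hp', hE⟩
    refine ⟨z * z', mul_ne_zero hz hz', p + p', P.add_mem hp hp', fun v => ?_⟩
    rw [Finsupp.add_apply, hD, hE, (v : DVal k K).map_mul _ _ hz hz', Pi.add_apply]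
    ring
  smul_mem' := by
    rintro c D ⟨z, hz, p, hp, hD⟩
    refine ⟨z ^ c, zpow_ne_zero _ hz, c • p, P.zsmul_mem hp c, fun v => ?_⟩
    rw [Finsupp.smul_apply, hD, smul_eq_mul, Pi.smul_apply, smul_eq_mul,
      (v : DVal k K).ord_zpow_aux hz]
    ring

end

/-! ## Models -/

/-- A proper normal model `X` over `k` of the field `K`: a normal integral scheme, proper over `k`,
together with an identification of its function field with `K` over `k`. -/
structure Model (k K : Type) [Field k] [Field K] [Algebra k K] where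
  /-- the variety -/
  X : Scheme.{0}
  /-- its structure morphism -/
  str : X ⟶ Spec (CommRingCat.of k)
  [integral : IsIntegral X]
  [proper : IsProper str]
  normal : ∀ x : X, IsIntegrallyClosed (X.presheaf.stalk x)
  /-- the identification of the function field -/
  toK : X.functionField ≃+* K
  toK_const : ∀ c : k, toK (X.presheaf.germ ⊤ (genericPoint X) trivial (str.appTop
    ((Scheme.ΓSpecIso (CommRingCat.of k)).inv c))) = algebraMap k K c

attribute [instance] Model.integral Model.proper

section

variable {k K : Type} [Field k] [Field K] [Algebra k K]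

/-- the map from the stalk at `x` to `K` -/
def Model.stalkToK (M : Model k K) (x : M.X) : M.X.presheaf.stalk x →+* K :=
  (M.toK : M.X.functionField →+* K).comp (algebraMap (M.X.presheaf.stalk x) M.X.functionField)

/-- the constants in the stalks -/
def Model.cst (M : Model k K) (x : M.X) (c : k) : M.X.presheaf.stalk x :=
  M.X.presheaf.germ ⊤ x trivial (M.str.appTop ((Scheme.ΓSpecIso (CommRingCat.of k)).inv c))

theorem Model.stalkToK_cst (M : Model k K) (x : M.X) (c : k) :
    M.stalkToK x (M.cst x c) = algebraMap k K c := by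
  have hne : Nonempty (⊤ : M.X.Opens) := ⟨⟨x, trivial⟩⟩
  have h := Scheme.algebraMap_germ_eq_germToFunctionField (X := M.X) (U := ⊤) (x := x) trivial
    (M.str.appTop ((Scheme.ΓSpecIso (CommRingCat.of k)).inv c))
  rw [← M.toK_const c]
  exact congrArg M.toK h

/-- The local ring of `M` at `x`, as a subalgebra of `K`. -/
def Model.loc (M : Model k K) (x : M.X) : Subalgebra k K where
  carrier := Set.range (M.stalkToK x)
  mul_mem' := by
    rintro _ _ ⟨a, rfl⟩ ⟨b, rfl⟩
    exact ⟨a * b, map_mul _ _ _⟩
  one_mem' := ⟨1, map_one _⟩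
  add_mem' := by
    rintro _ _ ⟨a, rfl⟩ ⟨b, rfl⟩
    exact ⟨a + b, map_add _ _ _⟩
  zero_mem' := ⟨0, map_zero _⟩
  algebraMap_mem' := fun c => ⟨M.cst x c, M.stalkToK_cst x c⟩

theorem Model.isLocalRing_loc (M : Model k K) (x : M.X) : IsLocalRing (M.loc x) :=
  IsLocalRing.of_surjective' ((M.stalkToK x).codRestrict (M.loc x).toSubring (fun a => ⟨a, rfl⟩))
    (fun ⟨_, a, h⟩ => ⟨a, Subtype.ext h⟩)

instance (M : Model k K) (x : M.X) : IsLocalRing (M.loc x) := M.isLocalRing_loc x

/-- The valuation ring of `v` is the local ring of `M` at `x`; then `x` is the generic point of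
a prime divisor of `M` and `v` is the order of vanishing along it. -/
def Model.IsValOf (M : Model k K) (v : DVal k K) (x : M.X) : Prop :=
  ∀ f : K, f ≠ 0 → (0 ≤ v.ord f ↔ f ∈ M.loc x)

/-- The prime divisors of `M`, each given by its order of vanishing. -/
def Model.Div (M : Model k K) : Set (DVal k K) := {v | ∃ x : M.X, M.IsValOf v x}

/-- The Weil divisor `D` is Cartier at `y`: there is a rational function `h` such that the
divisors of `h` and `D` agree along all prime divisors of `M` through `y`. -/
def Model.CartierAt (M : Model k K) (D : M.Div →₀ ℤ) (y : M.X) : Prop :=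
  ∃ h : K, h ≠ 0 ∧ ∀ (v : M.Div) (x : M.X), M.IsValOf (v : DVal k K) x → x ⤳ y →
    (v : DVal k K).ord h = D v

/-- The Weil divisor `D` is Cartier. -/
def Model.IsCartier (M : Model k K) (D : M.Div →₀ ℤ) : Prop := ∀ y, M.CartierAt D y

/-- The Weil divisor `D` is `ℚ`-Cartier. -/
def Model.IsQCartier (M : Model k K) (D : M.Div →₀ ℤ) : Prop :=
  ∃ n : ℕ, 0 < n ∧ M.IsCartier (n • D)

/-- `N` is the total Cartier index of `M`: the smallest positive integer `N` such that `N • D` is
Cartier for all `ℚ`-Cartier Weil divisors `D`. -/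
def Model.IsTotalCartierIndex (M : Model k K) (N : ℕ) : Prop :=
  IsLeast {N : ℕ | 0 < N ∧ ∀ D : M.Div →₀ ℤ, M.IsQCartier D → M.IsCartier (N • D)} N

/-- `P` is a group of Cartier divisors on `M`, each given by its multiplicities along all
divisorial valuations, none of which is linearly equivalent to a nonzero effective divisor. For
example, `P` may be zero, or consist of all Cartier divisors algebraically equivalent to zero. -/
structure Model.IsNeg (M : Model k K) (d : ℕ) (P : AddSubgroup (DVal k K → ℤ)) : Prop where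
  cartier : ∀ q ∈ P, ∀ y : M.X, ∃ h : K, h ≠ 0 ∧ ∀ v, IsDivisorial d v →
    (∀ f ∈ M.loc y, 0 ≤ v.ord f) → q v = v.ord h
  eff : ∀ q ∈ P, ∀ z : K, z ≠ 0 → (∀ v ∈ M.Div, 0 ≤ v.ord z + q v) →
    ∀ v ∈ M.Div, v.ord z + q v = 0

/-- The divisor class group of `M` modulo `P`: Weil divisors modulo the divisors which are
principal up to elements of `P`. -/
abbrev Model.Cl (M : Model k K) (P : AddSubgroup (DVal k K → ℤ)) : Type :=
  (M.Div →₀ ℤ) ⧸ PDP P M.Div

/-- A nowhere vanishing rational `m`-canonical form `a • (b 0 ∧ ⋯ ∧ b (d-1))^m` on `M`; it shows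
that `m K_M` is linearly equivalent to zero. -/
structure Triv (M : Model k K) (d : ℕ) where
  /-- the basis whose wedge product is the rational top form -/
  b : Module.Basis (Fin d) K (Ω[K⁄k])
  /-- the coefficient -/
  a : K
  /-- the exponent -/
  m : ℕ
  a_ne : a ≠ 0
  m_pos : 0 < m
  triv : ∀ v ∈ M.Div, ∃ c : ℤ, IsOrd b v c ∧ v.ord a + m * c = 0

/-- `K_M` is `ℚ`-linearly equivalent to zero. -/
def Model.KTrivial (M : Model k K) (d : ℕ) : Prop := Nonempty (Triv M d)

/-- The discrepancy of the discrete valuation `v` with respect to `M` is `q`, where `T` is a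
nowhere vanishing pluricanonical form of `M`. -/
def Triv.HasDiscr {M : Model k K} {d : ℕ} (T : Triv M d) (v : DVal k K) (q : ℚ) : Prop :=
  ∃ c : ℤ, IsOrd T.b v c ∧ (T.m : ℚ) * q = v.ord T.a + T.m * c

/-- `M` has `ε`-log canonical singularities with `ε = 1 / p`: all discrepancies are at least
`1 / p - 1`. -/
def Triv.IsLC {M : Model k K} {d : ℕ} (T : Triv M d) (p : ℕ) : Prop :=
  ∀ v : DVal k K, IsDivisorial d v → ∃ q : ℚ, T.HasDiscr v q ∧ 1 ≤ p * (q + 1)

/-- The exceptional prime divisors over `M` whose discrepancy is not positive. -/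
def Triv.NonPos {M : Model k K} {d : ℕ} (T : Triv M d) : Set (DVal k K) :=
  {v | IsDivisorial d v ∧ v ∉ M.Div ∧ ∃ q : ℚ, T.HasDiscr v q ∧ q ≤ 0}

end

/-! ## Quotient singularities -/

section

variable {k : Type} [Field k] {d : ℕ}

/-- the linear form with coefficients the `i`-th row of `A` -/
def linX (A : Matrix (Fin d) (Fin d) k) (i : Fin d) : MvPowerSeries (Fin d) k :=
  ∑ j, A i j • X j

theorem constantCoeff_linX (A : Matrix (Fin d) (Fin d) k) (i : Fin d) :
    constantCoeff (linX A i) = 0 := by
  simp [linX]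

theorem hasSubst_linX (A : Matrix (Fin d) (Fin d) k) : HasSubst (linX A) :=
  hasSubst_of_constantCoeff_zero (constantCoeff_linX A)

/-- the linear substitution `x ↦ A x` in power series -/
def lin (A : Matrix (Fin d) (Fin d) k) : MvPowerSeries (Fin d) k →ₐ[k] MvPowerSeries (Fin d) k :=
  substAlgHom (hasSubst_linX A)

/-- the ring of power series invariant under the linear substitutions in `G` -/
def invS (G : Subgroup (GL (Fin d) k)) : Subalgebra k (MvPowerSeries (Fin d) k) where
  carrier := {f | ∀ g ∈ G, lin (g : Matrix (Fin d) (Fin d) k) f = f}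
  mul_mem' := by
    intro a b ha hb g hg
    rw [map_mul, ha g hg, hb g hg]
  one_mem' := by
    intro g hg
    rw [map_one]
  add_mem' := by
    intro a b ha hb g hg
    rw [map_add, ha g hg, hb g hg]
  zero_mem' := by
    intro g hg
    rw [map_zero]
  algebraMap_mem' := by
    intro c g hg
    rw [AlgHom.commutes]

/-- the ring homomorphism from a local ring to the power series ring attached to an isomorphism
of its completion with the ring of invariants of `G` -/
def phiOf {O : Type} [CommRing O] [IsLocalRing O] [Algebra k O] {G : Subgroup (GL (Fin d) k)}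
    (e : AdicCompletion (IsLocalRing.maximalIdeal O) O ≃ₐ[k] invS G) :
    O →ₐ[k] MvPowerSeries (Fin d) k :=
  (invS G).val.comp ((e : _ →ₐ[k] invS G).comp
    (IsScalarTower.toAlgHom k O (AdicCompletion (IsLocalRing.maximalIdeal O) O)))

/-- The local ring `O` has a quotient singularity of dimension `d`: its completion is isomorphic
to the ring of invariants in `k[[x_1,…,x_d]]` of a finite group `G` of linear substitutions,
containing no reflections, and whose elements `g` of determinant one satisfy `rank (g - 1) ≤ 3`;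
the isomorphism is such that the `x i` are algebraic over `O`. -/
def IsQuotSing (d : ℕ) (O : Type) [CommRing O] [IsLocalRing O] [Algebra k O] : Prop :=
  ∃ G : Subgroup (GL (Fin d) k), Finite G ∧
    (∀ g ∈ G, g ≠ 1 → 2 ≤ ((g : Matrix (Fin d) (Fin d) k) - 1).rank) ∧
    (∀ g ∈ G, (g : Matrix (Fin d) (Fin d) k).det = 1 →
      ((g : Matrix (Fin d) (Fin d) k) - 1).rank ≤ 3) ∧
    ∃ e : AdicCompletion (IsLocalRing.maximalIdeal O) O ≃ₐ[k] invS G,
      ∀ i, ∃ P : Polynomial O, P ≠ 0 ∧ P.eval₂ (phiOf e : O →+* MvPowerSeries (Fin d) k) (X i) = 0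

end

end Run7.h342
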