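import Pool.Agent.Run7.h342.UFD
import Pool.Agent.Run7.h342.DEFS

/-!
# Linear substitutions in power series
-/

set_option autoImplicit false

noncomputable section

namespace Run7.h342

open MvPowerSeries IsLocalRing

variable {k : Type} [Field k] {d : ℕ}

theorem lin_apply (A : Matrix (Fin d) (Fin d) k) (f : MvPowerSeries (Fin d) k) :
    lin A f = subst (linX A) f := substAlgHom_apply _ _

theorem lin_X (A : Matrix (Fin d) (Fin d) k) (i : Fin d) :
    lin A (X i : MvPowerSeries (Fin d) k) = ∑ j, A i j • X j := substAlgHom_X _ _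

theorem lin_lin (A B : Matrix (Fin d) (Fin d) k) (f : MvPowerSeries (Fin d) k) :
    lin A (lin B f) = lin (B * A) f := by
  rw [lin_apply B, lin_apply A, subst_comp_subst_apply (hasSubst_linX B) (hasSubst_linX A),
    lin_apply]
  congr 1
  funext i
  rw [← lin_apply]
  simp only [linX, map_sum, map_smul, lin_X, Matrix.mul_apply, Finset.smul_sum, Finset.sum_smul,
    smul_smul]
  rw [Finset.sum_comm]

theorem lin_one (f : MvPowerSeries (Fin d) k) : lin (1 : Matrix (Fin d) (Fin d) k) f = f := by
  rw [lin_apply]
  have : linX (1 : Matrix (Fin d) (Fin d) k) = X := by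
    funext i
    simp [linX, Matrix.one_apply]
  rw [this, subst_self]
  rfl

theorem constantCoeff_lin (A : Matrix (Fin d) (Fin d) k) (f : MvPowerSeries (Fin d) k) :
    constantCoeff (lin A f) = constantCoeff f := by
  have h1 : f = C (constantCoeff f) + (f - C (constantCoeff f)) := by ring
  have h2 : constantCoeff (f - C (constantCoeff f)) = 0 := by simp
  have h3 : constantCoeff (lin A (f - C (constantCoeff f))) = 0 := by
    rw [lin_apply]
    exact constantCoeff_subst_eq_zero (hasSubst_linX A) (constantCoeff_linX A) h2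
  conv_lhs => rw [h1]
  rw [map_add, map_add, h3, add_zero]
  have h4 : lin A (C (constantCoeff f)) = C (constantCoeff f) := by
    have := (lin A).commutes (constantCoeff f)
    rwa [MvPowerSeries.algebraMap_apply, Algebra.algebraMap_self, RingHom.id_apply] at this
  rw [h4, constantCoeff_C]

theorem mem_max_iff (f : MvPowerSeries (Fin d) k) :
    f ∈ maximalIdeal (MvPowerSeries (Fin d) k) ↔ constantCoeff f = 0 := by
  rw [mem_maximalIdeal, mem_nonunits_iff, MvPowerSeries.isUnit_iff_constantCoeff,
    isUnit_iff_ne_zero, not_not]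

theorem lin_max_le (A : Matrix (Fin d) (Fin d) k) :
    (maximalIdeal (MvPowerSeries (Fin d) k)).map (lin A : _ →+* MvPowerSeries (Fin d) k) ≤
      maximalIdeal (MvPowerSeries (Fin d) k) := by
  rw [Ideal.map_le_iff_le_comap]
  intro f hf
  rw [Ideal.mem_comap]
  rw [mem_max_iff] at hf ⊢
  rw [← hf]
  exact constantCoeff_lin A f

theorem lin_mem_pow (A : Matrix (Fin d) (Fin d) k) {N : ℕ} {f : MvPowerSeries (Fin d) k}
    (hf : f ∈ maximalIdeal (MvPowerSeries (Fin d) k) ^ N) :
    lin A f ∈ maximalIdeal (MvPowerSeries (Fin d) k) ^ N := by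
  have h1 := Ideal.mem_map_of_mem (lin A : _ →+* MvPowerSeries (Fin d) k) hf
  rw [Ideal.map_pow] at h1
  exact Ideal.pow_right_mono (lin_max_le A) N h1

theorem coeff_lin_diagonal (a : Fin d → k) (f : MvPowerSeries (Fin d) k) (m : Fin d →₀ ℕ) :
    coeff m (lin (Matrix.diagonal a) f) = (∏ i, a i ^ m i) * coeff m f := by
  have h1 : linX (Matrix.diagonal a) = a • (X : Fin d → MvPowerSeries (Fin d) k) := by
    funext i
    rw [linX, Finset.sum_eq_single i]
    · simp
    · intro j _ hj
      rw [Matrix.diagonal_apply_ne _ hj.symm, zero_smul]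
    · intro h
      exact absurd (Finset.mem_univ i) h
  rw [lin_apply, h1, ← rescale_eq_subst, coeff_rescale]
  congr 1
  rw [Finsupp.prod_fintype]
  intro i
  exact pow_zero _

/-- derivations respect powers of the maximal ideal -/
theorem pderiv_mem_pow (i : Fin d) {N : ℕ} {f : MvPowerSeries (Fin d) k}
    (hf : f ∈ maximalIdeal (MvPowerSeries (Fin d) k) ^ (N + 1)) :
    pderiv k i f ∈ maximalIdeal (MvPowerSeries (Fin d) k) ^ N := by
  induction N generalizing f with
  | zero => simp
  | succ N ih =>
    rw [pow_succ] at hf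
    refine Submodule.mul_induction_on hf (fun a ha b hb => ?_) (fun a b ha hb => ?_)
    · rw [Derivation.leibniz]
      refine add_mem ?_ ?_
      · exact Ideal.mul_mem_right _ _ ha
      · have h1 := Ideal.mul_mem_mul (ih ha) hb
        rw [← pow_succ] at h1
        rwa [smul_eq_mul, mul_comm b]
    · rw [map_add]
      exact add_mem ha hb

end Run7.h342
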