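import Pool.Agent.Run7.h342.VAL
import Pool.Agent.Run7.h342.LIN

/-!
# Valuations of a function field, orders of rational top forms
-/

set_option autoImplicit false

noncomputable section

namespace Run7.h342

open MvPowerSeries IsLocalRing

section

variable {k K : Type} [Field k] [Field K] [Algebra k K] {d : ℕ}

/-- the underlying valuation -/
def DVal.toV0 (v : DVal k K) : V0 K where
  ord := v.ord
  ord_zero := v.ord_zero
  map_mul := v.map_mul
  map_add := v.map_add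

theorem DVal.ext' {v w : DVal k K} (h : ∀ x, x ≠ 0 → v.ord x = w.ord x) : v = w := by
  have h1 : v.ord = w.ord := by
    funext x
    by_cases hx : x = 0
    · rw [hx, v.ord_zero, w.ord_zero]
    · exact h x hx
  cases v
  cases w
  congr

/-- A set of valuations presenting the domain `O` as a Krull domain of the kind of a noetherian
normal domain. -/
structure KD (O : Type) [CommRing O] [Algebra O K] (V : Set (DVal k K)) : Prop where
  nonneg : ∀ v ∈ V, ∀ x : O, 0 ≤ v.ord (algebraMap O K x)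
  mem : ∀ z : K, (∀ v ∈ V, 0 ≤ v.ord z) → ∃ x : O, algebraMap O K x = z
  frac : ∀ v ∈ V, ∀ z : K, 0 ≤ v.ord z → ∃ a b : O, algebraMap O K b ≠ 0 ∧
    v.ord (algebraMap O K b) = 0 ∧ z = algebraMap O K a / algebraMap O K b
  fin : ∀ z : K, z ≠ 0 → {v | v ∈ V ∧ v.ord z ≠ 0}.Finite
  sep : ∀ v ∈ V, ∀ v' ∈ V, v ≠ v' → ∃ x : O, 0 < v.ord (algebraMap O K x) ∧
    algebraMap O K x ≠ 0 ∧ v'.ord (algebraMap O K x) = 0
  ht : ∀ v ∈ V, ∀ p : Ideal O, p.IsPrime → p ≠ ⊥ →
    (∀ x ∈ p, x ≠ 0 → 0 < v.ord (algebraMap O K x)) →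
    ∀ x, 0 < v.ord (algebraMap O K x) → x ∈ p

end

section

variable {k : Type} [Field k] {d : ℕ}

theorem mem_invS {G : Subgroup (GL (Fin d) k)} {f : MvPowerSeries (Fin d) k} :
    f ∈ invS G ↔ ∀ g ∈ G, lin (g : Matrix (Fin d) (Fin d) k) f = f := Iff.rfl

/-- the properties of the completion map used below -/
structure LocDat (O : Type) [CommRing O] [Algebra k O] (G : Subgroup (GL (Fin d) k))
    (φ : O →ₐ[k] MvPowerSeries (Fin d) k) : Prop where
  inj : Function.Injective φ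
  inv : ∀ x, φ x ∈ invS G
  dens : ∀ c ∈ invS G, ∀ N : ℕ, ∃ x, c - φ x ∈ maximalIdeal (MvPowerSeries (Fin d) k) ^ N
  flat : ∀ (ι : Type) [Finite ι] (z0 z1 : ι → O) (F : MvPowerSeries (Fin d) k), F ∈ invS G →
    (∀ i, ∃ Y ∈ invS G, F * φ (z1 i) = Y * φ (z0 i)) →
    ∃ (s : ℕ) (z : Fin s → O) (c : Fin s → MvPowerSeries (Fin d) k), (∀ j, c j ∈ invS G) ∧
      F = ∑ j, c j * φ (z j) ∧ ∀ j i, z0 i ∣ z j * z1 i
  ff : ∀ a b : O, (∃ c ∈ invS G, φ a = φ b * c) → b ∣ a
  alg : ∀ i, ∃ P : Polynomial O, P ≠ 0 ∧ P.eval₂ (φ : O →+* MvPowerSeries (Fin d) k) (X i) = 0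

theorem lin_cancel (g : GL (Fin d) k) (f : MvPowerSeries (Fin d) k) :
    lin (g : Matrix (Fin d) (Fin d) k) (lin ((g⁻¹ : GL (Fin d) k) : Matrix (Fin d) (Fin d) k) f)
      = f := by
  rw [lin_lin, ← Units.val_mul, inv_mul_cancel, Units.val_one, lin_one]

theorem lin_cancel' (g : GL (Fin d) k) (f : MvPowerSeries (Fin d) k) :
    lin ((g⁻¹ : GL (Fin d) k) : Matrix (Fin d) (Fin d) k) (lin (g : Matrix (Fin d) (Fin d) k) f)
      = f := by
  rw [lin_lin, ← Units.val_mul, mul_inv_cancel, Units.val_one, lin_one]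

/-- the norm -/
def nrm (G : Subgroup (GL (Fin d) k)) [Fintype G] (f : MvPowerSeries (Fin d) k) :
    MvPowerSeries (Fin d) k := ∏ g : G, lin ((g : GL (Fin d) k) : Matrix (Fin d) (Fin d) k) f

theorem nrm_mem (G : Subgroup (GL (Fin d) k)) [Fintype G] (f : MvPowerSeries (Fin d) k) :
    nrm G f ∈ invS G := by
  intro h hh
  rw [nrm, map_prod]
  have h1 : ∀ g : G, lin (h : Matrix (Fin d) (Fin d) k)
      (lin ((g : GL (Fin d) k) : Matrix (Fin d) (Fin d) k) f) =
      lin (((g * ⟨h, hh⟩ : G) : GL (Fin d) k) : Matrix (Fin d) (Fin d) k) f := by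
    intro g
    rw [lin_lin]
    rfl
  rw [Finset.prod_congr rfl fun g _ => h1 g]
  exact Fintype.prod_equiv (Equiv.mulRight (⟨h, hh⟩ : G)) _ _ (fun g => rfl)

theorem nrm_mul (G : Subgroup (GL (Fin d) k)) [Fintype G] (f g : MvPowerSeries (Fin d) k) :
    nrm G (f * g) = nrm G f * nrm G g := by
  simp [nrm, Finset.prod_mul_distrib]

theorem nrm_inv (G : Subgroup (GL (Fin d) k)) [Fintype G] {f : MvPowerSeries (Fin d) k}
    (hf : f ∈ invS G) : nrm G f = f ^ Fintype.card G := by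
  have h1 : ∀ g : G, lin ((g : GL (Fin d) k) : Matrix (Fin d) (Fin d) k) f = f :=
    fun g => hf (g : GL (Fin d) k) (Subtype.property g)
  rw [nrm, Finset.prod_congr rfl fun g _ => h1 g, Finset.prod_const, Finset.card_univ]

theorem dvd_nrm (G : Subgroup (GL (Fin d) k)) [Fintype G] (f : MvPowerSeries (Fin d) k) :
    f ∣ nrm G f := by
  have h1 : f = lin (((1 : G) : GL (Fin d) k) : Matrix (Fin d) (Fin d) k) f := by
    rw [OneMemClass.coe_one, Units.val_one, lin_one]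
  conv_lhs => rw [h1]
  exact Finset.dvd_prod_of_mem _ (Finset.mem_univ _)

end

end Run7.h342
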