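import Pool.Agent.Run7.h342.LOCA

/-!
# Flat descent of divisors
-/

set_option autoImplicit false
set_option linter.unusedSectionVars false

noncomputable section

namespace Run7.h342

open MvPowerSeries IsLocalRing

theorem inv_of_mul {k : Type} [Field k] {d : ℕ} {G : Subgroup (GL (Fin d) k)}
    {F Y : MvPowerSeries (Fin d) k} (hF : F ∈ invS G) (hF0 : F ≠ 0) (h : F * Y ∈ invS G) :
    Y ∈ invS G := by
  intro g hg
  have h1 := h g hg
  rw [map_mul, hF g hg] at h1
  exact mul_left_cancel₀ hF0 h1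

variable {k K : Type} [Field k] [Field K] [Algebra k K] {d : ℕ}
  {O : Type} [CommRing O] [IsDomain O] [Algebra k O] [Algebra O K] [IsFractionRing O K]

/-- approximation -/
theorem approx {V : Set (DVal k K)} (hV : KD O V) (v0 : DVal k K) (hv0 : v0 ∈ V) (m : ℕ) :
    ∃ z0 z1 : O, z0 ≠ 0 ∧ z1 ≠ 0 ∧
      v0.ord (algebraMap O K z1) = v0.ord (algebraMap O K z0) - m ∧
      ∀ v ∈ V, v ≠ v0 → v.ord (algebraMap O K z0) ≤ v.ord (algebraMap O K z1) := by
  classical
  have hinj : Function.Injective (algebraMap O K) := IsFractionRing.injective O K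
  obtain ⟨t0, ht0, ht1⟩ := v0.surj
  set t : K := t0 ^ (-(m : ℤ)) with ht
  have ht00 : t ≠ 0 := zpow_ne_zero _ ht0
  have hvt : v0.ord t = -m := by
    have : v0.ord t = -(m : ℤ) * v0.ord t0 := v0.toV0.ord_zpow _ _
    rw [this, ht1, mul_one]
  set T := (hV.fin t ht00).toFinset.erase v0 with hT
  have hTm : ∀ v, v ∈ T ↔ v ≠ v0 ∧ v ∈ V ∧ v.ord t ≠ 0 := by
    intro v
    rw [hT, Finset.mem_erase, Set.Finite.mem_toFinset]
    rfl
  have hx : ∀ v : DVal k K, ∃ x : O, v ∈ T → 0 < v.ord (algebraMap O K x) ∧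
      algebraMap O K x ≠ 0 ∧ v0.ord (algebraMap O K x) = 0 := by
    intro v
    by_cases hv : v ∈ T
    · obtain ⟨x, hx⟩ := hV.sep v ((hTm v).1 hv).2.1 v0 hv0 ((hTm v).1 hv).1
      exact ⟨x, fun _ => hx⟩
    · exact ⟨0, fun h => absurd h hv⟩
  choose x hx using hx
  set c : O := ∏ v ∈ T, x v ^ (v.ord t).natAbs with hc
  have hxv0 : ∀ v ∈ T, algebraMap O K (x v ^ (v.ord t).natAbs) ≠ 0 := by
    intro v hv
    rw [map_pow]
    exact pow_ne_zero _ (hx v hv).2.1
  have hordc : ∀ u : DVal k K, u.ord (algebraMap O K c) =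
      ∑ v ∈ T, ((v.ord t).natAbs : ℤ) * u.ord (algebraMap O K (x v)) := by
    intro u
    have h1 : u.ord (algebraMap O K c) = ∑ v ∈ T, u.ord (algebraMap O K (x v ^ (v.ord t).natAbs)) := by
      rw [hc, map_prod]
      exact u.toV0.ord_prod T _ hxv0
    rw [h1]
    refine Finset.sum_congr rfl fun v _ => ?_
    rw [map_pow]
    exact u.toV0.ord_pow _ _
  have hc0 : algebraMap O K c ≠ 0 := by
    rw [hc, map_prod]
    exact Finset.prod_ne_zero_iff.2 hxv0
  have hcv0 : v0.ord (algebraMap O K c) = 0 := by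
    rw [hordc]
    refine Finset.sum_eq_zero fun v hv => ?_
    rw [(hx v hv).2.2, mul_zero]
  have hcv : ∀ v ∈ T, -v.ord t ≤ v.ord (algebraMap O K c) := by
    intro v hv
    rw [hordc]
    have h1 : ((v.ord t).natAbs : ℤ) * v.ord (algebraMap O K (x v)) ≤
        ∑ u ∈ T, ((u.ord t).natAbs : ℤ) * v.ord (algebraMap O K (x u)) := by
      refine Finset.single_le_sum (f := fun u : DVal k K => ((u.ord t).natAbs : ℤ) *
        v.ord (algebraMap O K (x u))) (fun u _ => ?_) hv
      exact mul_nonneg (by positivity) (hV.nonneg v ((hTm v).1 hv).2.1 _)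
    have h2 : ((v.ord t).natAbs : ℤ) ≤ ((v.ord t).natAbs : ℤ) * v.ord (algebraMap O K (x v)) :=
      le_mul_of_one_le_right (by positivity) (hx v hv).1
    have h3 : -v.ord t ≤ ((v.ord t).natAbs : ℤ) := by
      rw [Int.natCast_natAbs]
      exact neg_le_abs _
    omega
  obtain ⟨a, b, hb, hab⟩ := IsFractionRing.div_surjective (A := O) (t * algebraMap O K c)
  have hb0 : b ≠ 0 := nonZeroDivisors.ne_zero hb
  have hbK : algebraMap O K b ≠ 0 := fun h => hb0 (hinj (by rw [h, map_zero]))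
  have haK : algebraMap O K a ≠ 0 := by
    intro h
    rw [h, zero_div] at hab
    exact mul_ne_zero ht00 hc0 hab.symm
  have hord : ∀ v : DVal k K, v.ord (algebraMap O K a) - v.ord (algebraMap O K b) =
      v.ord t + v.ord (algebraMap O K c) := by
    intro v
    have h1 : v.ord (algebraMap O K a / algebraMap O K b) = _ := v.toV0.ord_div _ _ haK hbK
    rw [hab, v.map_mul _ _ ht00 hc0] at h1
    exact h1.symm
  refine ⟨b, a, hb0, fun h => haK (by rw [h, map_zero]), ?_, fun v hv hne => ?_⟩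
  · have := hord v0
    rw [hvt, hcv0] at this
    omega
  · have h1 := hord v
    by_cases h2 : v ∈ T
    · have := hcv v h2
      omega
    · have h3 : v.ord t = 0 := by
        by_contra h
        exact h2 ((hTm v).2 ⟨hne, hv, h⟩)
      have := hV.nonneg v hv c
      omega

/-- descent of an invariant divisor -/
theorem descent {V : Set (DVal k K)} (hV : KD O V) {G : Subgroup (GL (Fin d) k)}
    [Finite G] {φ : O →ₐ[k] MvPowerSeries (Fin d) k} (H : LocDat O G φ)
    (ι : K →+* FractionRing (MvPowerSeries (Fin d) k))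
    (hι : ∀ x, ι (algebraMap O K x) = algebraMap _ _ (φ x))
    (E : DVal k K → ℤ) (hE : ∀ v ∈ V, 0 ≤ E v) (F : MvPowerSeries (Fin d) k) (hF : F ∈ invS G)
    (N : ℕ) (hN : 0 < N) (H0 : O) (hH0 : H0 ≠ 0) (ε : MvPowerSeries (Fin d) k) (hε : IsUnit ε)
    (hFN : F ^ N = ε * φ H0)
    (hord : ∀ v ∈ V, v.ord (algebraMap O K H0) = N * E v) :
    ∃ z : O, z ≠ 0 ∧ ∀ v ∈ V, v.ord (algebraMap O K z) = E v := by
  classical
  have hinj : Function.Injective (algebraMap O K) := IsFractionRing.injective O K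
  have hne : ∀ a : O, a ≠ 0 → algebraMap O K a ≠ 0 :=
    fun a ha h => ha (hinj (by rw [h, map_zero]))
  have hφ0 : ∀ a : O, a ≠ 0 → φ a ≠ 0 := fun a ha h => ha (H.inj (by rw [h, map_zero]))
  have hι0 : ∀ x : K, x ≠ 0 → ι x ≠ 0 := fun x hx => (map_ne_zero ι).2 hx
  have hSinj : Function.Injective (algebraMap (MvPowerSeries (Fin d) k)
      (FractionRing (MvPowerSeries (Fin d) k))) := IsFractionRing.injective _ _
  have hF0 : F ≠ 0 := by
    intro h
    rw [h, zero_pow hN.ne'] at hFN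
    exact mul_ne_zero hε.ne_zero (hφ0 _ hH0) hFN.symm
  have hN' : (0 : ℤ) < N := by exact_mod_cast hN
  -- multiplicities of F
  have hmF : ∀ (p : MvPowerSeries (Fin d) k) (hp : Prime p),
      (N : ℤ) * multiplicity p F =
        (V0.ofPrime (FractionRing (MvPowerSeries (Fin d) k)) p hp).ord
          (ι (algebraMap O K H0)) := by
    intro p hp
    rw [hι, V0.ofPrime_algebraMap p hp _ (hφ0 _ hH0)]
    have h1 : multiplicity p (F ^ N) = N * multiplicity p F :=
      (fin_mult hp hF0).multiplicity_pow hp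
    rw [hFN, multiplicity_mul hp (fin_mult hp (mul_ne_zero hε.ne_zero (hφ0 _ hH0))),
      multiplicity_of_isUnit_right hp.not_isUnit hε, zero_add] at h1
    rw [h1]
    push_cast
    ring
  have hmF1 : ∀ (p : MvPowerSeries (Fin d) k) (hp : Prime p), (∀ x : K, x ≠ 0 →
      (V0.ofPrime (FractionRing (MvPowerSeries (Fin d) k)) p hp).ord (ι x) = 0) →
      multiplicity p F = 0 := by
    intro p hp h
    have h1 := hmF p hp
    rw [h _ (hne _ hH0)] at h1
    rcases mul_eq_zero.1 h1 with h2 | h2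
    · exact absurd h2 hN'.ne'
    · exact_mod_cast h2
  have hmF2 : ∀ (p : MvPowerSeries (Fin d) k) (hp : Prime p), ∀ v ∈ V, ∀ e : ℤ,
      (∀ x : K, x ≠ 0 → (V0.ofPrime (FractionRing (MvPowerSeries (Fin d) k)) p hp).ord (ι x) =
        e * v.ord x) → (multiplicity p F : ℤ) = e * E v := by
    intro p hp v hv e h
    have h1 := hmF p hp
    rw [h _ (hne _ hH0), hord v hv] at h1
    have h2 : (N : ℤ) * multiplicity p F = N * (e * E v) := by rw [h1]; ring
    exact mul_left_cancel₀ hN'.ne' h2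
  -- the finite set of relevant valuations
  have hTfin : {v : DVal k K | v ∈ V ∧ E v ≠ 0}.Finite := by
    refine (hV.fin (algebraMap O K H0) (hne _ hH0)).subset ?_
    rintro v ⟨hv, hEv⟩
    refine ⟨hv, ?_⟩
    rw [hord v hv]
    exact mul_ne_zero hN'.ne' hEv
  have hTf : Finite {v : DVal k K | v ∈ V ∧ E v ≠ 0} := hTfin
  have hex : ∀ i : {v : DVal k K | v ∈ V ∧ E v ≠ 0}, ∃ z : O × O, z.1 ≠ 0 ∧ z.2 ≠ 0 ∧
      (i : DVal k K).ord (algebraMap O K z.2) =
        (i : DVal k K).ord (algebraMap O K z.1) - E i ∧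
      ∀ v ∈ V, v ≠ i → v.ord (algebraMap O K z.1) ≤ v.ord (algebraMap O K z.2) := by
    rintro ⟨v0, hv0, hE0⟩
    obtain ⟨z0, z1, h0, h1, h2, h3⟩ := approx hV v0 hv0 (E v0).toNat
    refine ⟨(z0, z1), h0, h1, ?_, h3⟩
    have := Int.toNat_of_nonneg (hE v0 hv0)
    dsimp only
    rw [h2, this]
  choose z hz0 hz1 hzi hzo using hex
  have hY : ∀ i, ∃ Y ∈ invS G, F * φ (z i).2 = Y * φ (z i).1 := by
    intro i
    obtain ⟨Y, hY⟩ := mem_of_primes (S := MvPowerSeries (Fin d) k)
      (algebraMap (MvPowerSeries (Fin d) k) (FractionRing (MvPowerSeries (Fin d) k)) F *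
        ι (algebraMap O K (z i).2 / algebraMap O K (z i).1)) (by
        intro p hp
        have hFL : algebraMap (MvPowerSeries (Fin d) k)
          (FractionRing (MvPowerSeries (Fin d) k)) F ≠ 0 :=
            fun h => hF0 (hSinj (by rw [h, map_zero]))
        have hq : algebraMap O K (z i).2 / algebraMap O K (z i).1 ≠ 0 :=
          div_ne_zero (hne _ (hz1 i)) (hne _ (hz0 i))
        rw [V0.map_mul _ _ _ hFL (hι0 _ hq), V0.ofPrime_algebraMap p hp F hF0]
        rcases prime_restr hV H ι hι p hp with h | ⟨v, hv, e, he, h⟩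
        · rw [h _ hq]
          positivity
        · rw [h _ hq, hmF2 p hp v hv e h, ← mul_add]
          refine mul_nonneg he.le ?_
          have h1 : v.ord (algebraMap O K (z i).2 / algebraMap O K (z i).1) = _ :=
            v.toV0.ord_div _ _ (hne _ (hz1 i)) (hne _ (hz0 i))
          rw [h1]
          change 0 ≤ E v + (v.ord (algebraMap O K (z i).2) - v.ord (algebraMap O K (z i).1))
          by_cases hvi : v = i
          · have := hzi i
            rw [← hvi] at this
            omega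
          · have h2 := hzo i v hv hvi
            have h3 := hE v hv
            omega)
    have h1 : F * φ (z i).2 = Y * φ (z i).1 := by
      apply hSinj
      rw [map_mul, map_mul, hY, map_div₀, hι, hι]
      have : algebraMap (MvPowerSeries (Fin d) k) (FractionRing (MvPowerSeries (Fin d) k))
        (φ (z i).1) ≠ 0 := fun h => hφ0 _ (hz0 i) (hSinj (by rw [h, map_zero]))
      field_simp
    refine ⟨Y, ?_, h1⟩
    refine inv_of_mul (H.inv (z i).1) (hφ0 _ (hz0 i)) ?_
    rw [mul_comm, ← h1]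
    exact Subalgebra.mul_mem _ hF (H.inv _)
  obtain ⟨s, y, c, hc, hsum, hdiv⟩ := H.flat _ (fun i => (z i).1) (fun i => (z i).2) F hF hY
  -- orders of the `y j`
  have hyord : ∀ j, y j ≠ 0 → ∀ v ∈ V, E v ≤ v.ord (algebraMap O K (y j)) := by
    intro j hj v hv
    by_cases hEv : E v = 0
    · rw [hEv]
      exact hV.nonneg v hv _
    set i : {v : DVal k K | v ∈ V ∧ E v ≠ 0} := ⟨v, hv, hEv⟩ with hi
    obtain ⟨q, hq⟩ := hdiv j i
    have hq0 : q ≠ 0 := by
      intro h
      rw [h, mul_zero] at hq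
      exact mul_ne_zero hj (hz1 i) hq
    have h1 := congrArg (fun t => v.ord (algebraMap O K t)) hq
    simp only [map_mul] at h1
    rw [v.map_mul _ _ (hne _ hj) (hne _ (hz1 i)), v.map_mul _ _ (hne _ (hz0 i)) (hne _ hq0)] at h1
    have h2 := hzi i
    have h3 := hV.nonneg v hv q
    have h4 : (i : DVal k K) = v := rfl
    rw [h4] at h2
    omega
  have hFdvd : ∀ j, ∃ t, φ (y j) = F * t := by
    intro j
    by_cases hj : y j = 0
    · exact ⟨0, by rw [hj, map_zero, mul_zero]⟩
    refine dvd_of_primes hF0 (fun p hp => ?_) (hφ0 _ hj)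
    rcases prime_restr hV H ι hι p hp with h | ⟨v, hv, e, he, h⟩
    · rw [hmF1 p hp h]
      exact Nat.zero_le _
    · have h1 := hmF2 p hp v hv e h
      have h2 := h _ (hne _ hj)
      rw [hι, V0.ofPrime_algebraMap p hp _ (hφ0 _ hj)] at h2
      have h3 := hyord j hj v hv
      have h4 : e * E v ≤ e * v.ord (algebraMap O K (y j)) := mul_le_mul_of_nonneg_left h3 he.le
      rw [← h1, ← h2] at h4
      exact_mod_cast h4
  choose t ht using hFdvd
  have htinv : ∀ j, t j ∈ invS G := by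
    intro j
    refine inv_of_mul hF hF0 ?_
    rw [← ht j]
    exact H.inv _
  have hone : ∑ j, c j * t j = 1 := by
    have h1 : F * ∑ j, c j * t j = F * 1 := by
      rw [mul_one, Finset.mul_sum]
      conv_rhs => rw [hsum]
      refine Finset.sum_congr rfl fun j _ => ?_
      rw [ht j]
      ring
    exact mul_left_cancel₀ hF0 h1
  obtain ⟨j, hj⟩ : ∃ j, constantCoeff (t j) ≠ 0 := by
    by_contra hcon
    push Not at hcon
    have h1 := congrArg constantCoeff hone
    rw [map_sum, map_one] at h1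
    rw [Finset.sum_eq_zero fun j _ => by rw [map_mul, hcon j, mul_zero]] at h1
    exact zero_ne_one h1
  have htj : IsUnit (t j) := by
    rw [MvPowerSeries.isUnit_iff_constantCoeff]
    exact isUnit_iff_ne_zero.2 hj
  have hyj : y j ≠ 0 := by
    intro h
    have := ht j
    rw [h, map_zero] at this
    exact mul_ne_zero hF0 htj.ne_zero this.symm
  have hrel : φ (y j ^ N) = φ H0 * (ε * t j ^ N) := by
    rw [map_pow, ht j, mul_pow, hFN]
    ring
  have hu : IsUnit (ε * t j ^ N) := hε.mul (htj.pow N)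
  have huinv : ε * t j ^ N ∈ invS G := by
    refine inv_of_mul (H.inv H0) (hφ0 _ hH0) ?_
    rw [← hrel]
    exact H.inv _
  obtain ⟨q1, hq1⟩ := H.ff (y j ^ N) H0 ⟨_, huinv, hrel⟩
  obtain ⟨ui, hui⟩ := hu.exists_right_inv
  have hrel2 : φ H0 = φ (y j ^ N) * ui := by
    rw [hrel, mul_assoc, hui, mul_one]
  obtain ⟨q2, hq2⟩ := H.ff H0 (y j ^ N) ⟨ui, by
    refine inv_of_mul (H.inv (y j ^ N)) (hφ0 _ (pow_ne_zero N hyj)) ?_
    rw [← hrel2]
    exact H.inv _, hrel2⟩
  refine ⟨y j, hyj, fun v hv => ?_⟩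
  have hyN := hne _ (pow_ne_zero N hyj)
  have hH0' := hne _ hH0
  have hq10 : q1 ≠ 0 := by
    intro h
    rw [h, mul_zero] at hq1
    exact pow_ne_zero N hyj hq1
  have hq20 : q2 ≠ 0 := by
    intro h
    rw [h, mul_zero] at hq2
    exact hH0 hq2
  have e1 := congrArg (fun t => v.ord (algebraMap O K t)) hq1
  have e2 := congrArg (fun t => v.ord (algebraMap O K t)) hq2
  simp only [map_mul] at e1 e2
  rw [v.map_mul _ _ hH0' (hne _ hq10)] at e1
  rw [v.map_mul _ _ hyN (hne _ hq20)] at e2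
  have e3 : v.ord (algebraMap O K (y j ^ N)) = N * v.ord (algebraMap O K (y j)) := by
    rw [map_pow]; exact v.toV0.ord_pow _ _
  have e4 := hord v hv
  have e5 := hV.nonneg v hv q1
  have e6 := hV.nonneg v hv q2
  have e7 : (N : ℤ) * v.ord (algebraMap O K (y j)) = N * E v := by
    rw [← e3, ← e4]
    omega
  exact mul_left_cancel₀ hN'.ne' e7

end Run7.h342
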