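import Pool.Agent.Run7.h342.CONJ

/-!
# The determinants of the elements of the group
-/

set_option autoImplicit false
set_option linter.unusedSectionVars false

noncomputable section

namespace Run7.h342

open MvPowerSeries IsLocalRing

section

variable {k : Type} [Field k] {d : ℕ}

theorem pderiv_semi {c : Fin d → k} (hc : ∀ i, c i ≠ 0) {F : MvPowerSeries (Fin d) k}
    (hF : lin (Matrix.diagonal c) F = F) (i : Fin d) :
    C (c i) * lin (Matrix.diagonal c) (pderiv k i F) = pderiv k i F := by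
  ext m
  rw [coeff_C_mul, coeff_lin_diagonal, coeff_pderiv]
  by_cases h0 : coeff (m + Finsupp.single i 1) F = 0
  · rw [h0, zero_mul, mul_zero, mul_zero]
  have h1 := congrArg (coeff (m + Finsupp.single i 1)) hF
  rw [coeff_lin_diagonal] at h1
  have h2 : ∏ l, c l ^ (m + Finsupp.single i 1 : Fin d →₀ ℕ) l = 1 := by
    have h3 : (∏ l, c l ^ (m + Finsupp.single i 1 : Fin d →₀ ℕ) l) * coeff (m + Finsupp.single i 1) F =
        1 * coeff (m + Finsupp.single i 1) F := by rw [h1, one_mul]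
    exact mul_right_cancel₀ h0 h3
  have h3 : ∏ l, c l ^ (m + Finsupp.single i 1 : Fin d →₀ ℕ) l = c i * ∏ l, c l ^ m l := by
    have h4 : ∀ l, c l ^ (m + Finsupp.single i 1 : Fin d →₀ ℕ) l = c l ^ m l * (if l = i then c i else 1) := by
      intro l
      rw [Finsupp.add_apply, pow_add]
      congr 1
      by_cases hl : l = i
      · rw [if_pos hl, hl, Finsupp.single_eq_same, pow_one]
      · rw [if_neg hl, Finsupp.single_eq_of_ne hl, pow_zero]
    rw [Finset.prod_congr rfl fun l _ => h4 l, Finset.prod_mul_distrib,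
      Finset.prod_ite_eq' Finset.univ i, if_pos (Finset.mem_univ i), mul_comm]
  rw [h3] at h2
  rw [← mul_assoc, h2, one_mul]

theorem jac_semi {c : Fin d → k} (hc : ∀ i, c i ≠ 0) {F : Fin d → MvPowerSeries (Fin d) k}
    (hF : ∀ j, lin (Matrix.diagonal c) (F j) = F j) :
    C (∏ i, c i) * lin (Matrix.diagonal c) (Matrix.det (Matrix.of fun i j => pderiv k i (F j))) =
      Matrix.det (Matrix.of fun i j => pderiv k i (F j)) := by
  have h1 : Matrix.of (fun i j => pderiv k i (F j)) = Matrix.diagonal (fun i => C (c i)) *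
      (Matrix.of fun i j => lin (Matrix.diagonal c) (pderiv k i (F j))) := by
    ext1 i j
    rw [Matrix.diagonal_mul, Matrix.of_apply, Matrix.of_apply, pderiv_semi hc (hF j)]
  conv_rhs => rw [h1]
  rw [Matrix.det_mul, Matrix.det_diagonal, map_prod]
  congr 1
  have h2 := AlgHom.map_det (lin (Matrix.diagonal c)) (Matrix.of fun i j => pderiv k i (F j))
  rw [h2]
  rfl

end

variable {k K : Type} [Field k] [CharZero k] [Field K] [Algebra k K] {d : ℕ}
  {O : Type} [CommRing O] [IsDomain O] [Algebra k O] [Algebra O K] [IsFractionRing O K]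

theorem det_diag {V : Set (DVal k K)} (hV : KD O V)
    {G : Subgroup (GL (Fin d) k)}
    [Finite G] (hG : ∀ g ∈ G, g ≠ 1 → 2 ≤ ((g : Matrix (Fin d) (Fin d) k) - 1).rank)
    {φ : O →ₐ[k] MvPowerSeries (Fin d) k} (H : LocDat O G φ)
    (ι : K →ₐ[k] FractionRing (MvPowerSeries (Fin d) k))
    (hι : ∀ x, ι (algebraMap O K x) = algebraMap _ _ (φ x))
    (b : Module.Basis (Fin d) K (Ω[K⁄k])) (a : K) (ha : a ≠ 0) (m : ℕ)
    (hb : ∀ v ∈ V, ∃ c : ℤ, IsOrd b v c ∧ v.ord a + m * c = 0)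
    (g : GL (Fin d) k) (hgG : g ∈ G) (a' : Fin d → ℕ) (r : ℕ) (hr : 0 < r) (ζ : k)
    (hζ : IsPrimitiveRoot ζ r)
    (hgd : (g : Matrix (Fin d) (Fin d) k) = Matrix.diagonal (fun i => ζ ^ a' i)) :
    r ∣ m * ∑ i, a' i := by
  classical
  by_cases hd : IsEmpty (Fin d)
  · rw [Finset.univ_eq_empty, Finset.sum_empty, mul_zero]
    exact dvd_zero r
  rw [not_isEmpty_iff] at hd
  obtain ⟨i0⟩ := hd
  have hinj : Function.Injective (algebraMap O K) := IsFractionRing.injective O K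
  have hne : ∀ a : O, a ≠ 0 → algebraMap O K a ≠ 0 :=
    fun a ha h => ha (hinj (by rw [h, map_zero]))
  have hφ0 : ∀ a : O, a ≠ 0 → φ a ≠ 0 := fun a ha h => ha (H.inj (by rw [h, map_zero]))
  have hι0 : ∀ x : K, x ≠ 0 → ι x ≠ 0 := fun x hx => (map_ne_zero ι).2 hx
  have hζ0 : ζ ≠ 0 := hζ.ne_zero hr.ne'
  obtain ⟨Dl, hDl⟩ := exists_partials k d
  obtain ⟨Δ, hΔ⟩ := exists_delta ι Dl b
  set bw : Fin d → ℕ := fun i => (1 * a' i) % r with hbw
  set w := wv (k := k) bw with hw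
  have hdivO : ∀ x : O, x ≠ 0 → (r : ℤ) ∣ w.ord (ι (algebraMap O K x)) := by
    intro x hx
    rw [hι, hw, wv_alg bw (hφ0 x hx)]
    obtain ⟨m1, hm1, hm1w⟩ := exists_wo bw (hφ0 x hx)
    have h1 := H.inv x g hgG
    have h2 : coeff m1 (lin (g : Matrix (Fin d) (Fin d) k) (φ x)) =
        (∏ i, (ζ ^ a' i) ^ m1 i) * coeff m1 (φ x) := by
      rw [hgd, coeff_lin_diagonal]
    rw [h1] at h2
    have h3 : (1 : k) * coeff m1 (φ x) = (∏ i, (ζ ^ a' i) ^ m1 i) * coeff m1 (φ x) := by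
      rw [one_mul]; exact h2
    have h4 := mul_right_cancel₀ hm1 h3
    have h5 := wt_mod hζ a' 1 h4.symm
    rw [one_pow] at h5
    have h6 := hζ.dvd_of_pow_eq_one _ h5
    rw [← hm1w]
    exact_mod_cast h6
  have hdiv : ∀ z : K, z ≠ 0 → (r : ℤ) ∣ w.ord (ι z) := by
    intro z hz
    obtain ⟨x, y, hy, hxy⟩ := IsFractionRing.div_surjective (A := O) z
    have hy0 : y ≠ 0 := nonZeroDivisors.ne_zero hy
    have hx0 : x ≠ 0 := by
      intro h0
      rw [h0, map_zero, zero_div] at hxy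
      exact hz hxy.symm
    rw [← hxy, map_div₀, w.ord_div _ _ (hι0 _ (hne x hx0)) (hι0 _ (hne y hy0))]
    exact dvd_sub (hdivO x hx0) (hdivO y hy0)
  -- a nonzero Jacobian
  have hX0 : (X i0 : MvPowerSeries (Fin d) k) ≠ 0 := by
    intro h
    have h0 : coeff (Finsupp.single i0 1) (X i0 : MvPowerSeries (Fin d) k) ≠ 0 := by
      rw [coeff_X, if_pos rfl]
      exact one_ne_zero
    exact h0 (by rw [h, map_zero])
  have hXu : ¬ IsUnit (X i0 : MvPowerSeries (Fin d) k) := by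
    intro h
    have := (MvPowerSeries.isUnit_iff_constantCoeff).1 h
    rw [constantCoeff_X] at this
    exact not_isUnit_zero this
  obtain ⟨p, hp, _⟩ := WfDvdMonoid.exists_irreducible_factor hXu hX0
  obtain ⟨z, hz⟩ := exists_unit_jac hG H p hp.prime
  set Jc := Matrix.det (Matrix.of fun i j => pderiv k i (φ (z j))) with hJc
  have hJ0 : Jc ≠ 0 := fun h => hz (h ▸ dvd_zero _)
  have hJΔ : algebraMap (MvPowerSeries (Fin d) k) (FractionRing (MvPowerSeries (Fin d) k)) Jc =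
      Δ * ι (b.det (fun j => KaehlerDifferential.D k K (algebraMap O K (z j)))) := by
    rw [← hΔ (fun j => algebraMap O K (z j)), hJc, RingHom.map_det]
    congr 1
    ext i j
    rw [Matrix.of_apply, hι, hDl]
    rfl
  set B := b.det (fun j => KaehlerDifferential.D k K (algebraMap O K (z j))) with hB
  have hΔ0 : Δ ≠ 0 := by
    intro h0
    rw [h0, zero_mul] at hJΔ
    exact alg_ne hJ0 hJΔ
  have hB0 : B ≠ 0 := by
    intro h0
    rw [h0, map_zero, mul_zero] at hJΔ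
    exact alg_ne hJ0 hJΔ
  obtain ⟨s, hs, hsΔ⟩ := unit_delta hV hG H ι hι Dl hDl b Δ hΔ hΔ0 a ha m hb
  have hwΔ : (m : ℤ) * w.ord Δ + w.ord (ι a) = 0 := by
    have h1 := congrArg w.ord hsΔ
    rw [w.map_mul _ _ (pow_ne_zero m hΔ0) (hι0 a ha), w.ord_pow, hw, wv_unit bw hs] at h1
    exact h1.symm
  have hwJ : w.ord Δ + w.ord (ι B) = wo bw Jc := by
    rw [← w.map_mul _ _ hΔ0 (hι0 _ hB0), ← hJΔ, hw, wv_alg bw hJ0]
  -- the weight of the Jacobian
  have hJw : (r : ℤ) ∣ wo bw Jc + ∑ i, (a' i : ℤ) := by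
    obtain ⟨m1, hm1, hm1w⟩ := exists_wo bw hJ0
    have hinv : ∀ j, lin (Matrix.diagonal (fun i => ζ ^ a' i)) (φ (z j)) = φ (z j) := by
      intro j
      rw [← hgd]
      exact H.inv (z j) g hgG
    have h1 := congrArg (coeff m1) (jac_semi (fun i => pow_ne_zero (a' i) hζ0) hinv)
    rw [← hJc, coeff_C_mul, coeff_lin_diagonal, ← mul_assoc] at h1
    have h2 : (∏ i, ζ ^ a' i) * ∏ i, (ζ ^ a' i) ^ m1 i = 1 := by
      have h3 : ((∏ i, ζ ^ a' i) * ∏ i, (ζ ^ a' i) ^ m1 i) * coeff m1 Jc = 1 * coeff m1 Jc := by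
        rw [h1, one_mul]
      exact mul_right_cancel₀ hm1 h3
    have h4 := wt_mod hζ a' 1 (m := m1) rfl
    rw [pow_one] at h4
    rw [← h4, Finset.prod_pow_eq_pow_sum, ← pow_add] at h2
    have h5 := hζ.dvd_of_pow_eq_one _ h2
    rw [← hm1w, add_comm]
    exact_mod_cast h5
  obtain ⟨x1, hx1⟩ := hJw
  obtain ⟨x2, hx2⟩ := hdiv B hB0
  obtain ⟨x3, hx3⟩ := hdiv a ha
  have hfin : (r : ℤ) ∣ m * ∑ i, (a' i : ℤ) := by
    refine ⟨m * x1 - m * x2 + x3, ?_⟩
    have e1 : (wo bw Jc : ℤ) = w.ord Δ + r * x2 := by rw [← hwJ, hx2]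
    rw [e1] at hx1
    rw [hx3] at hwΔ
    have e2 : (∑ i, (a' i : ℤ)) = r * x1 - w.ord Δ - r * x2 := by linarith
    rw [e2]
    have e3 : (m : ℤ) * w.ord Δ = - (r * x3) := by linarith
    calc (m : ℤ) * (r * x1 - w.ord Δ - r * x2) = m * r * x1 - m * w.ord Δ - m * r * x2 := by ring
      _ = r * (m * x1 - m * x2 + x3) := by rw [e3]; ring
  exact_mod_cast hfin

end Run7.h342
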