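import Pool.Agent.Run7.h342.WGT

/-!
# Laurent monomials of weight zero
-/

set_option autoImplicit false
set_option linter.unusedSectionVars false

noncomputable section

namespace Run7.h342

open MvPowerSeries

variable {k : Type} [Field k] {d : ℕ}

/-- Laurent monomials -/
def lau (b : Fin d → ℕ) (i0 : Fin d) (i : {i : Fin d // i ≠ i0}) :
    FractionRing (MvPowerSeries (Fin d) k) :=
  algebraMap (MvPowerSeries (Fin d) k) _ (X (i : Fin d)) ^ b i0 /
    algebraMap (MvPowerSeries (Fin d) k) _ (X i0) ^ b i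

/-- the exponent -/
def mex (b : Fin d → ℕ) (i0 : Fin d) (M : ℕ) (e : {i : Fin d // i ≠ i0} →₀ ℕ) : Fin d →₀ ℕ :=
  Finsupp.equivFunOnFinite.symm (fun i => if h : i = i0 then M - ∑ j : {i : Fin d // i ≠ i0}, b (j : Fin d) * e j
    else b i0 * e ⟨i, h⟩)

theorem mex_self (b : Fin d → ℕ) (i0 : Fin d) (M : ℕ) (e : {i : Fin d // i ≠ i0} →₀ ℕ) :
    mex b i0 M e i0 = M - ∑ j : {i : Fin d // i ≠ i0}, b (j : Fin d) * e j := by
  simp [mex]

theorem mex_ne (b : Fin d → ℕ) (i0 : Fin d) (M : ℕ) (e : {i : Fin d // i ≠ i0} →₀ ℕ)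
    (i : {i : Fin d // i ≠ i0}) : mex b i0 M e i = b i0 * e i := by
  have := i.2
  simp [mex, this]

theorem mex_inj {b : Fin d → ℕ} {i0 : Fin d} (hb : b i0 ≠ 0) (M : ℕ) :
    Function.Injective (mex b i0 M) := by
  intro e e' h
  ext i
  have h1 := DFunLike.congr_fun h (i : Fin d)
  rw [mex_ne, mex_ne] at h1
  exact Nat.eq_of_mul_eq_mul_left (Nat.pos_of_ne_zero hb) h1

theorem sum_split (i0 : Fin d) (f : Fin d → ℕ) :
    ∑ i, f i = f i0 + ∑ j : {i : Fin d // i ≠ i0}, f j := by
  classical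
  rw [← Finset.add_sum_erase Finset.univ f (Finset.mem_univ i0)]
  congr 1
  exact (Finset.sum_subtype _ (by intro x; simp) f)

theorem prod_split {M : Type*} [CommMonoid M] (i0 : Fin d) (f : Fin d → M) :
    ∏ i, f i = f i0 * ∏ j : {i : Fin d // i ≠ i0}, f j := by
  classical
  rw [← Finset.mul_prod_erase Finset.univ f (Finset.mem_univ i0)]
  congr 1
  exact (Finset.prod_subtype _ (by intro x; simp) f)

theorem wt_mex (b : Fin d → ℕ) (i0 : Fin d) (M : ℕ) (e : {i : Fin d // i ≠ i0} →₀ ℕ)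
    (hM : ∑ j : {i : Fin d // i ≠ i0}, b (j : Fin d) * e j ≤ M) : wt b (mex b i0 M e) = b i0 * M := by
  rw [wt, sum_split i0, mex_self]
  have h1 : ∑ j : {i : Fin d // i ≠ i0}, b j * mex b i0 M e j =
      b i0 * ∑ j : {i : Fin d // i ≠ i0}, b (j : Fin d) * e j := by
    rw [Finset.mul_sum]
    refine Finset.sum_congr rfl fun j _ => ?_
    rw [mex_ne]
    ring
  rw [h1, ← mul_add, Nat.sub_add_cancel hM]

theorem lau_indep (b : Fin d → ℕ) (i0 : Fin d) (hb : b i0 ≠ 0)
    (P : MvPolynomial {i : Fin d // i ≠ i0} k) (hP : P ≠ 0) :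
    MvPolynomial.aeval (lau (k := k) b i0) P ≠ 0 ∧
      (wv b).ord (MvPolynomial.aeval (lau (k := k) b i0) P) = 0 := by
  classical
  set al := algebraMap (MvPowerSeries (Fin d) k) (FractionRing (MvPowerSeries (Fin d) k))
    with hal
  set M : ℕ := ∑ e ∈ P.support, ∑ j : {i : Fin d // i ≠ i0}, b (j : Fin d) * e j with hM
  have hMe : ∀ e ∈ P.support, ∑ j : {i : Fin d // i ≠ i0}, b (j : Fin d) * e j ≤ M := fun e he =>
    Finset.single_le_sum (f := fun e : {i : Fin d // i ≠ i0} →₀ ℕ => ∑ j : {i : Fin d // i ≠ i0}, b (j : Fin d) * e j)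
      (fun _ _ => Nat.zero_le _) he
  set Q : MvPowerSeries (Fin d) k := ∑ e ∈ P.support, monomial (mex b i0 M e) (P.coeff e)
    with hQ
  have hcQ : ∀ e ∈ P.support, coeff (mex b i0 M e) Q = P.coeff e := by
    intro e he
    rw [hQ, map_sum, Finset.sum_eq_single e]
    · rw [coeff_monomial_same]
    · intro e' _ hne
      rw [coeff_monomial, if_neg (fun h => hne ((mex_inj hb M h).symm))]
    · intro h
      exact absurd he h
  have hcQ2 : ∀ m, coeff m Q ≠ 0 → wt b m = b i0 * M := by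
    intro m hm
    rw [hQ, map_sum] at hm
    obtain ⟨e, he, h1⟩ := Finset.exists_ne_zero_of_sum_ne_zero hm
    rw [coeff_monomial] at h1
    have h2 : m = mex b i0 M e := by
      by_contra h
      rw [if_neg h] at h1
      exact h1 rfl
    rw [h2]
    exact wt_mex b i0 M e (hMe e he)
  obtain ⟨e0, he0⟩ := MvPolynomial.support_nonempty.2 hP
  have hQ0 : Q ≠ 0 := by
    intro h
    have := hcQ e0 he0
    rw [h, map_zero] at this
    exact (MvPolynomial.mem_support_iff.1 he0) this.symm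
  have hwQ : wo b Q = b i0 * M := by
    obtain ⟨m, hm, h1⟩ := exists_wo b hQ0
    rw [← h1]
    exact hcQ2 m hm
  have hX0 : (X i0 : MvPowerSeries (Fin d) k) ≠ 0 := by
    intro h
    have h0 : coeff (Finsupp.single i0 1) (X i0 : MvPowerSeries (Fin d) k) ≠ 0 := by
      rw [coeff_X, if_pos rfl]
      exact one_ne_zero
    exact h0 (by rw [h, map_zero])
  have hx0 : al (X i0) ≠ 0 := alg_ne hX0
  have hrel : al (X i0) ^ M * MvPolynomial.aeval (lau (k := k) b i0) P = al Q := by
    rw [MvPolynomial.aeval_def, MvPolynomial.eval₂_eq, Finset.mul_sum, hQ, map_sum]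
    refine Finset.sum_congr rfl fun e he => ?_
    have h1 : (monomial (mex b i0 M e) (P.coeff e) : MvPowerSeries (Fin d) k) =
        algebraMap k _ (P.coeff e) * ∏ i, X i ^ (mex b i0 M e i) := by
      rw [MvPowerSeries.algebraMap_apply, Algebra.algebraMap_self, RingHom.id_apply]
      have h2 := MvPowerSeries.monomial_eq' (mex b i0 M e) (P.coeff e)
      rw [h2, Finsupp.prod_fintype _ _ (by intro i; exact pow_zero _)]
    rw [h1, map_mul, ← IsScalarTower.algebraMap_apply, map_prod]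
    have h3 : ∏ i, al (X i ^ (mex b i0 M e i)) = al (X i0) ^ M * ∏ i ∈ e.support, lau b i0 i ^ e i := by
      have h4 : ∏ i ∈ e.support, lau (k := k) b i0 i ^ e i = ∏ i, lau b i0 i ^ e i := by
        refine Finset.prod_subset (Finset.subset_univ _) fun i _ hi => ?_
        rw [Finsupp.notMem_support_iff.1 hi, pow_zero]
      rw [h4, prod_split i0]
      have h5 : ∏ i : {i : Fin d // i ≠ i0}, lau (k := k) b i0 i ^ e i =
          (∏ i : {i : Fin d // i ≠ i0}, al (X (i : Fin d)) ^ (b i0 * e i)) /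
            al (X i0) ^ (∑ j : {i : Fin d // i ≠ i0}, b (j : Fin d) * e j) := by
        rw [← Finset.prod_pow_eq_pow_sum, ← Finset.prod_div_distrib]
        refine Finset.prod_congr rfl fun i _ => ?_
        rw [lau, div_pow, ← pow_mul, ← pow_mul]
      rw [h5, mex_self, map_pow]
      have h6 : ∏ j : {i : Fin d // i ≠ i0}, al (X (j : Fin d) ^ (mex b i0 M e j)) =
          ∏ i : {i : Fin d // i ≠ i0}, al (X (i : Fin d)) ^ (b i0 * e i) := by
        refine Finset.prod_congr rfl fun i _ => ?_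
        rw [map_pow, mex_ne]
      rw [h6]
      have h7 : al (X i0) ^ M = al (X i0) ^ (M - ∑ j : {i : Fin d // i ≠ i0}, b (j : Fin d) * e j) *
          al (X i0) ^ (∑ j : {i : Fin d // i ≠ i0}, b (j : Fin d) * e j) := by
        rw [← pow_add, Nat.sub_add_cancel (hMe e he)]
      rw [h7]
      field_simp
    rw [h3]
    ring
  have hne : MvPolynomial.aeval (lau (k := k) b i0) P ≠ 0 := by
    intro h
    rw [h, mul_zero] at hrel
    exact alg_ne hQ0 hrel.symm
  refine ⟨hne, ?_⟩
  have h1 := congrArg (wv b).ord hrel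
  rw [(wv b).map_mul _ _ (pow_ne_zero M hx0) hne, (wv b).ord_pow, hal, wv_X, wv_alg b hQ0, hwQ] at h1
  push_cast at h1
  linarith

end Run7.h342
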