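import Pool.Agent.Run7.h342.PREL
import Pool.Agent.Run7.h342.LAU

/-!
# The valuations attached to a diagonal element
-/

set_option autoImplicit false
set_option linter.unusedSectionVars false
set_option linter.unusedTactic false

noncomputable section

namespace Run7.h342

open MvPowerSeries IsLocalRing

variable {k K : Type} [Field k] [CharZero k] [Field K] [Algebra k K] {d : ℕ}
  {O : Type} [CommRing O] [IsDomain O] [Algebra k O] [Algebra O K] [IsFractionRing O K]

theorem diag_local (htr : Algebra.trdeg k K ≤ d) {V : Set (DVal k K)} (hV : KD O V)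
    {G : Subgroup (GL (Fin d) k)}
    [Finite G] (hG : ∀ g ∈ G, g ≠ 1 → 2 ≤ ((g : Matrix (Fin d) (Fin d) k) - 1).rank)
    {φ : O →ₐ[k] MvPowerSeries (Fin d) k} (H : LocDat O G φ)
    (ι : K →ₐ[k] FractionRing (MvPowerSeries (Fin d) k))
    (hι : ∀ x, ι (algebraMap O K x) = algebraMap _ _ (φ x))
    (b : Module.Basis (Fin d) K (Ω[K⁄k])) (a : K) (ha : a ≠ 0) (m : ℕ) (hm : 0 < m)
    (hb : ∀ v ∈ V, ∃ c : ℤ, IsOrd b v c ∧ v.ord a + m * c = 0)
    (h : O) (hh : h ≠ 0) (n : ℕ) (hn : 0 < n) (f ε : MvPowerSeries (Fin d) k)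
    (hε : IsUnit ε) (hf : φ h = ε * f ^ n)
    (g : GL (Fin d) k) (hgG : g ∈ G) (a' : Fin d → ℕ) (r : ℕ) (hr : 0 < r) (ζ : k)
    (hζ : IsPrimitiveRoot ζ r)
    (hgd : (g : Matrix (Fin d) (Fin d) k) = Matrix.diagonal (fun i => ζ ^ a' i))
    (u : MvPowerSeries (Fin d) k)
    (hu : lin (g : Matrix (Fin d) (Fin d) k) f = u * f)
    (hun : IsPrimitiveRoot (constantCoeff u) n) (J : ℕ) (hJ : ¬ n ∣ J) :
    ∃ (v : DVal k K) (c e : ℤ), IsDivisorial d v ∧ (∀ x : O, 0 ≤ v.ord (algebraMap O K x)) ∧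
      IsOrd b v c ∧ 1 ≤ e ∧
      r * e * (v.ord a + m * c + m) ≤ m * ∑ i, (((J * a' i) % r : ℕ) : ℤ) ∧ n ∣ r ∧
      (ζ ^ (r / n)) ^ (e * v.ord (algebraMap O K h)) = (constantCoeff u) ^ J := by
  classical
  have hinj : Function.Injective (algebraMap O K) := IsFractionRing.injective O K
  have hne : ∀ a : O, a ≠ 0 → algebraMap O K a ≠ 0 :=
    fun a ha h => ha (hinj (by rw [h, map_zero]))
  have hφ0 : ∀ a : O, a ≠ 0 → φ a ≠ 0 := fun a ha h => ha (H.inj (by rw [h, map_zero]))
  have hι0 : ∀ x : K, x ≠ 0 → ι x ≠ 0 := fun x hx => (map_ne_zero ι).2 hx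
  have hf0 : f ≠ 0 := by
    intro h0
    rw [h0, zero_pow hn.ne', mul_zero] at hf
    exact hφ0 h hh hf
  obtain ⟨Dl, hDl⟩ := exists_partials k d
  obtain ⟨Δ, hΔ⟩ := exists_delta ι Dl b
  set bw : Fin d → ℕ := fun i => (J * a' i) % r with hbw
  set w := wv (k := k) bw with hw
  -- weights of semi-invariants
  have hsemi : ∀ (J' : ℕ), ζ ^ wo (fun i => (J' * a' i) % r) f = (constantCoeff u) ^ J' := by
    intro J'
    -- choose a monomial of minimal weight and then of minimal degree
    set bw' : Fin d → ℕ := fun i => (J' * a' i) % r with hbw'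
    set N := wo bw' f with hN
    obtain ⟨m0, hm0, hm0w⟩ := exists_wo bw' hf0
    have hex : ∃ D : ℕ, ∃ m1, coeff m1 f ≠ 0 ∧ wt bw' m1 = N ∧ m1.degree = D :=
      ⟨_, m0, hm0, hm0w, rfl⟩
    obtain ⟨m1, hm1, hm1w, hm1d⟩ := Nat.find_spec hex
    have hmin : ∀ m2, coeff m2 f ≠ 0 → wt bw' m2 = N → m1.degree ≤ m2.degree := by
      intro m2 h1 h2
      rw [hm1d]
      exact Nat.find_min' hex ⟨m2, h1, h2, rfl⟩
    have h1 : coeff m1 (u * f) = constantCoeff u * coeff m1 f := by
      rw [coeff_mul, Finset.sum_eq_single (0, m1)]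
      · rw [coeff_zero_eq_constantCoeff_apply]
      · rintro ⟨p, q⟩ hpq hne
        have hpq : p + q = m1 := Finset.HasAntidiagonal.mem_antidiagonal.1 hpq
        by_cases hq : coeff q f = 0
        · rw [hq, mul_zero]
        exfalso
        have h2 : N ≤ wt bw' q := wo_le bw' hq
        have h3 : wt bw' p + wt bw' q = N := by rw [← wt_add, hpq, hm1w]
        have h4 : wt bw' q = N := by omega
        have h5 := hmin q hq h4
        have h6 : p.degree + q.degree = m1.degree := by rw [← hpq, map_add]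
        have h7 : p.degree = 0 := by omega
        have h8 : p = 0 := (Finsupp.degree_eq_zero_iff p).1 h7
        apply hne
        rw [h8, zero_add] at hpq
        rw [h8, hpq]
      · intro h2
        exfalso
        apply h2
        rw [Finset.HasAntidiagonal.mem_antidiagonal, zero_add]
    have h2 : coeff m1 (lin (g : Matrix (Fin d) (Fin d) k) f) =
        (∏ i, (ζ ^ a' i) ^ m1 i) * coeff m1 f := by
      rw [hgd, coeff_lin_diagonal]
    rw [hu, h1] at h2
    have h3 := mul_right_cancel₀ hm1 h2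
    have h4 := wt_mod hζ a' J' h3.symm
    rw [← h4, ← hm1w]
  have hnr : n ∣ r := by
    have h1 := hsemi 1
    rw [pow_one] at h1
    apply hun.dvd_of_pow_eq_one
    rw [← h1, ← pow_mul, mul_comm, pow_mul, hζ.pow_eq_one, one_pow]
  obtain ⟨r', hr'⟩ := hnr
  have hr'0 : 0 < r' := by
    rcases Nat.eq_zero_or_pos r' with h0 | h0
    · rw [h0, mul_zero] at hr'
      omega
    · exact h0
  -- weights of invariants are divisible by `r`
  have hdivO : ∀ x : O, x ≠ 0 → (r : ℤ) ∣ w.ord (ι (algebraMap O K x)) := by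
    intro x hx
    rw [hι, hw, wv_alg bw (hφ0 x hx)]
    obtain ⟨m1, hm1, hm1w⟩ := exists_wo bw (hφ0 x hx)
    have h1 := H.inv x g hgG
    have h2 : coeff m1 (lin (g : Matrix (Fin d) (Fin d) k) (φ x)) =
        (∏ i, (ζ ^ a' i) ^ m1 i) * coeff m1 (φ x) := by
      rw [hgd, coeff_lin_diagonal]
    rw [h1] at h2
    have h3 : (1 : k) * coeff m1 (φ x) = (∏ i, (ζ ^ a' i) ^ m1 i) * coeff m1 (φ x) := by
      rw [one_mul]; exact h2
    have h4 := mul_right_cancel₀ hm1 h3
    have h5 := wt_mod hζ a' J h4.symm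
    rw [one_pow] at h5
    have h6 := hζ.dvd_of_pow_eq_one _ h5
    rw [← hm1w]
    exact_mod_cast h6
  have hdiv : ∀ z : K, z ≠ 0 → (r : ℤ) ∣ w.ord (ι z) := by
    intro z hz
    obtain ⟨x, y, hy, hxy⟩ := IsFractionRing.div_surjective (A := O) z
    have hy0 : y ≠ 0 := nonZeroDivisors.ne_zero hy
    have hx0 : x ≠ 0 := by
      intro h0
      rw [h0, map_zero, zero_div] at hxy
      exact hz hxy.symm
    rw [← hxy, map_div₀, w.ord_div _ _ (hι0 _ (hne x hx0)) (hι0 _ (hne y hy0))]
    exact dvd_sub (hdivO x hx0) (hdivO y hy0)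
  -- the weight of `h`
  have hwh : w.ord (ι (algebraMap O K h)) = n * wo bw f := by
    rw [hι, hw, wv_alg bw (hφ0 h hh), hf, wo_mul bw hε.ne_zero (pow_ne_zero n hf0)]
    have h1 : wo bw ε = 0 := by
      have := wv_unit bw hε
      rw [wv_alg bw hε.ne_zero] at this
      exact_mod_cast this
    have h2 : ∀ n : ℕ, wo bw (f ^ n) = n * wo bw f := by
      intro n
      have := (wv (k := k) bw).ord_pow (algebraMap (MvPowerSeries (Fin d) k) _ f) n
      rw [← map_pow, wv_alg bw (pow_ne_zero n hf0), wv_alg bw hf0] at this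
      exact_mod_cast this
    rw [h1, h2, zero_add]
    push_cast
    ring
  have hwf0 : wo bw f ≠ 0 := by
    intro h0
    have h1 := hsemi J
    rw [h0, pow_zero] at h1
    exact hJ (hun.dvd_of_pow_eq_one _ h1.symm)
  -- a variable with nonzero weight
  obtain ⟨i0, hi0⟩ : ∃ i0, bw i0 ≠ 0 := by
    by_contra hcon
    push Not at hcon
    obtain ⟨m1, _, hm1w⟩ := exists_wo bw hf0
    apply hwf0
    rw [← hm1w, wt]
    refine Finset.sum_eq_zero fun i _ => ?_
    rw [hcon i, zero_mul]
  -- the generator of the value group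
  have hex : ∃ e0 : ℕ, 0 < e0 ∧ ∃ z : K, z ≠ 0 ∧ w.ord (ι z) = r * e0 := by
    obtain ⟨s, hs⟩ := hdivO h hh
    have h1 : (0 : ℤ) < r * s := by
      rw [← hs, hwh]
      have : 0 < wo bw f := Nat.pos_of_ne_zero hwf0
      positivity
    have h2 : 0 < s := by
      have : (0 : ℤ) < r := by exact_mod_cast hr
      exact (mul_pos_iff_of_pos_left this).1 h1
    refine ⟨s.toNat, by omega, algebraMap O K h, hne h hh, ?_⟩
    rw [hs, Int.toNat_of_nonneg h2.le]
  obtain ⟨e0, ⟨he0, z0, hz0, hz0w⟩, hemin⟩ : ∃ e0 : ℕ, (0 < e0 ∧ ∃ z : K, z ≠ 0 ∧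
      w.ord (ι z) = r * e0) ∧ ∀ e1 : ℕ, (0 < e1 ∧ ∃ z : K, z ≠ 0 ∧ w.ord (ι z) = r * e1) →
        e0 ≤ e1 := ⟨Nat.find hex, Nat.find_spec hex, fun e1 h1 => Nat.find_min' hex h1⟩
  have hr0 : (0 : ℤ) < r := by exact_mod_cast hr
  have he00 : (0 : ℤ) < e0 := by exact_mod_cast he0
  have hdiv2 : ∀ z : K, z ≠ 0 → ((r : ℤ) * e0) ∣ w.ord (ι z) := by
    intro z hz
    obtain ⟨s, hs⟩ := hdiv z hz
    rw [hs]
    apply mul_dvd_mul_left
    by_contra hcon
    have h1 : 0 ≤ s % e0 := Int.emod_nonneg s he00.ne'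
    have h2 : s % e0 < e0 := Int.emod_lt_of_pos s he00
    have h3 : s % e0 ≠ 0 := fun h0 => hcon (Int.dvd_of_emod_eq_zero h0)
    have h4 := hemin (s % e0).toNat ⟨by omega, z / z0 ^ (s / e0),
      div_ne_zero hz (zpow_ne_zero _ hz0), by
        rw [map_div₀, map_zpow₀, w.ord_div _ _ (hι0 z hz) (zpow_ne_zero _ (hι0 z0 hz0)),
          w.ord_zpow, hs, hz0w, Int.toNat_of_nonneg h1]
        have h5 := Int.mul_ediv_add_emod s e0
        have h6 : s % e0 = s - e0 * (s / e0) := by omega
        rw [h6]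
        ring⟩
    omega
  have hre0 : (0 : ℤ) < r * e0 := mul_pos hr0 he00
  -- the valuation
  let v : DVal k K :=
    { ord := fun z => w.ord (ι z) / (r * e0)
      ord_zero := by
        change w.ord (ι 0) / (r * e0) = 0
        rw [map_zero, w.ord_zero, Int.zero_ediv]
      map_mul := by
        intro x y hx hy
        change w.ord (ι (x * y)) / (r * e0) = w.ord (ι x) / (r * e0) + w.ord (ι y) / (r * e0)
        rw [map_mul, w.map_mul _ _ (hι0 x hx) (hι0 y hy), Int.add_ediv_of_dvd_left (hdiv2 x hx)]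
      map_add := by
        intro x y hx hy hxy
        change min (w.ord (ι x) / (r * e0)) (w.ord (ι y) / (r * e0)) ≤
          w.ord (ι (x + y)) / (r * e0)
        have h1 := w.map_add _ _ (hι0 x hx) (hι0 y hy) (by rw [← map_add]; exact hι0 _ hxy)
        rw [← map_add] at h1
        rcases le_total (w.ord (ι x)) (w.ord (ι y)) with h2 | h2
        · rw [min_eq_left h2] at h1
          exact (min_le_left _ _).trans (Int.ediv_le_ediv hre0 h1)
        · rw [min_eq_right h2] at h1
          exact (min_le_right _ _).trans (Int.ediv_le_ediv hre0 h1)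
      surj := ⟨z0, hz0, by
        change w.ord (ι z0) / (r * e0) = 1
        rw [hz0w, Int.ediv_self hre0.ne']⟩
      const := by
        intro c hc
        change w.ord (ι (algebraMap k K c)) / (r * e0) = 0
        rw [AlgHom.commutes, hw, wv_const bw hc, Int.zero_ediv] }
  have hv : ∀ z : K, (r : ℤ) * e0 * v.ord z = w.ord (ι z) := by
    intro z
    by_cases hz : z = 0
    · rw [hz, v.ord_zero, map_zero, w.ord_zero, mul_zero]
    · exact Int.mul_ediv_cancel' (hdiv2 z hz)
  -- a uniform bound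
  have hΔ0 : Δ ≠ 0 := by
    have hX0 : (X i0 : MvPowerSeries (Fin d) k) ≠ 0 := by
      intro h
      have h0 : coeff (Finsupp.single i0 1) (X i0 : MvPowerSeries (Fin d) k) ≠ 0 := by
        rw [coeff_X, if_pos rfl]
        exact one_ne_zero
      exact h0 (by rw [h, map_zero])
    have hXu : ¬ IsUnit (X i0 : MvPowerSeries (Fin d) k) := by
      intro h
      have := (MvPowerSeries.isUnit_iff_constantCoeff).1 h
      rw [constantCoeff_X] at this
      exact not_isUnit_zero this
    obtain ⟨p, hp, _⟩ := WfDvdMonoid.exists_irreducible_factor hXu hX0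
    obtain ⟨z, hz⟩ := exists_unit_jac hG H p hp.prime
    intro h0
    have h1 := hΔ (fun j => algebraMap O K (z j))
    rw [h0, zero_mul] at h1
    have h2 : algebraMap (MvPowerSeries (Fin d) k) (FractionRing (MvPowerSeries (Fin d) k))
        (Matrix.det (Matrix.of fun i j => pderiv k i (φ (z j)))) = 0 := by
      rw [← h1, RingHom.map_det]
      congr 1
      ext i j
      rw [Matrix.of_apply, hι, hDl]
      rfl
    have h3 : Matrix.det (Matrix.of fun i j => pderiv k i (φ (z j))) = 0 := by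
      by_contra h4
      exact alg_ne h4 h2
    exact hz (h3 ▸ dvd_zero _)
  obtain ⟨s, hs, hsΔ⟩ := unit_delta hV hG H ι hι Dl hDl b Δ hΔ hΔ0 a ha m hb
  have hwΔ : (m : ℤ) * w.ord Δ + w.ord (ι a) = 0 := by
    have h1 := congrArg w.ord hsΔ
    rw [w.map_mul _ _ (pow_ne_zero m hΔ0) (hι0 a ha), w.ord_pow, hw, wv_unit bw hs] at h1
    exact h1.symm
  have hGe : ∀ (c : ℤ) (z : K), v.toV0.Ge c z → w.Ge (r * e0 * c) (ι z) := by
    intro c z hz h0
    have hz0 : z ≠ 0 := fun h1 => h0 (by rw [h1, map_zero])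
    rw [← hv]
    exact mul_le_mul_of_nonneg_left (hz hz0) hre0.le
  set α : ℤ := ∑ i, (bw i : ℤ) with hα
  have hbound : ∀ g : Fin d → K, (∀ i, 0 ≤ v.ord (g i)) →
      b.det (fun i => KaehlerDifferential.D k K (g i)) ≠ 0 →
      (m : ℤ) * (r * e0) - m * α + r * e0 * v.ord a ≤
        m * (r * e0) * v.ord (b.det (fun i => KaehlerDifferential.D k K (g i))) := by
    intro g hg hB
    obtain ⟨l, g', hg', hgl, hB', hvB'⟩ := better_tuple htr v b g hg hB
    rw [← hvB']
    set B' := b.det (fun i => KaehlerDifferential.D k K (g' i)) with hB'def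
    have h1 : w.Ge (∑ j, (if j = l then (r : ℤ) * e0 else 0) - ∑ i, (bw i : ℤ))
        (Matrix.det (Matrix.of fun i j => Dl i (ι (g' j)))) := by
      refine wv_jac Dl hDl bw (fun j => ι (g' j)) _ fun j => ?_
      by_cases hj : j = l
      · rw [if_pos hj, hj]
        have := hGe 1 _ hgl
        rwa [mul_one] at this
      · rw [if_neg hj]
        have := hGe 0 _ (hg' j)
        rwa [mul_zero] at this
    rw [hΔ, Finset.sum_ite_eq' Finset.univ l, if_pos (Finset.mem_univ l)] at h1
    have h2 := h1 (mul_ne_zero hΔ0 (hι0 _ hB'))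
    rw [w.map_mul _ _ hΔ0 (hι0 _ hB'), ← hv B'] at h2
    have h3 : (m : ℤ) * (r * e0 - α) ≤ m * (w.ord Δ + r * e0 * v.ord B') :=
      mul_le_mul_of_nonneg_left h2 (by positivity)
    have h4 := hv a
    nlinarith
  -- existence of the order of the canonical form
  have hm0 : (0 : ℤ) < m := by exact_mod_cast hm
  have hordex : ∃ c : ℤ, IsOrd b v c := by
    obtain ⟨z, hz⟩ : ∃ z : Fin d → O, b.det (fun j => KaehlerDifferential.D k K
        (algebraMap O K (z j))) ≠ 0 := by
      have hX0 : (X i0 : MvPowerSeries (Fin d) k) ≠ 0 := by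
        intro h
        have h0 : coeff (Finsupp.single i0 1) (X i0 : MvPowerSeries (Fin d) k) ≠ 0 := by
          rw [coeff_X, if_pos rfl]
          exact one_ne_zero
        exact h0 (by rw [h, map_zero])
      have hXu : ¬ IsUnit (X i0 : MvPowerSeries (Fin d) k) := by
        intro h
        have := (MvPowerSeries.isUnit_iff_constantCoeff).1 h
        rw [constantCoeff_X] at this
        exact not_isUnit_zero this
      obtain ⟨p, hp, _⟩ := WfDvdMonoid.exists_irreducible_factor hXu hX0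
      obtain ⟨z, hz⟩ := exists_unit_jac hG H p hp.prime
      refine ⟨z, fun h0 => ?_⟩
      have h1 := hΔ (fun j => algebraMap O K (z j))
      rw [h0, map_zero, mul_zero] at h1
      have h2 : algebraMap (MvPowerSeries (Fin d) k) (FractionRing (MvPowerSeries (Fin d) k))
          (Matrix.det (Matrix.of fun i j => pderiv k i (φ (z j)))) = 0 := by
        rw [← h1, RingHom.map_det]
        congr 1
        ext i j
        rw [Matrix.of_apply, hι, hDl]
        rfl
      have h3 : Matrix.det (Matrix.of fun i j => pderiv k i (φ (z j))) = 0 := by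
        by_contra h4
        exact alg_ne h4 h2
      exact hz (h3 ▸ dvd_zero _)
    have hvO : ∀ x : O, 0 ≤ v.ord (algebraMap O K x) := by
      intro x
      have h1 : 0 ≤ w.ord (ι (algebraMap O K x)) := by
        by_cases hx : x = 0
        · rw [hx, map_zero, map_zero, w.ord_zero]
        · rw [hι, hw, wv_alg bw (hφ0 x hx)]
          positivity
      exact Int.ediv_nonneg h1 hre0.le
    obtain ⟨lb, ⟨g, hg, hB, hlb⟩, hlb2⟩ := Int.exists_least_of_bdd
      (P := fun n => ∃ g : Fin d → K, (∀ i, 0 ≤ v.ord (g i)) ∧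
        b.det (fun i => KaehlerDifferential.D k K (g i)) ≠ 0 ∧
        v.ord (b.det (fun i => KaehlerDifferential.D k K (g i))) = n) (by
      refine ⟨-|(m : ℤ) * (r * e0) - m * α + r * e0 * v.ord a|, ?_⟩
      rintro n ⟨g, hg, hB, hgn⟩
      have h1 := hbound g hg hB
      rw [hgn] at h1
      have h2 : (1 : ℤ) ≤ m * (r * e0) := Int.add_one_le_iff.2 (mul_pos hm0 hre0)
      have h3 := neg_abs_le ((m : ℤ) * (r * e0) - m * α + r * e0 * v.ord a)
      by_contra hcon
      push Not at hcon
      have h4 : n < 0 := lt_of_lt_of_le hcon (neg_nonpos.2 (abs_nonneg _))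
      have h5 : (m : ℤ) * (r * e0) * n ≤ n := by nlinarith
      linarith) ⟨_, fun j => algebraMap O K (z j), fun i => hvO _, hz, rfl⟩
    refine ⟨-lb, ?_⟩
    rw [IsOrd, neg_neg]
    exact ⟨⟨g, hg, hB, hlb⟩, fun n hn => hlb2 n hn⟩
  obtain ⟨c, hc⟩ := hordex
  refine ⟨v, c, e0, ?_, ?_, hc, by omega, ?_, ⟨r', hr'⟩, ?_⟩
  · -- divisorial
    have hcard : Fintype.card {i : Fin d // i ≠ i0} = d - 1 := by
      rw [Fintype.card_subtype_compl, Fintype.card_fin, Fintype.card_subtype_eq]
    let eqv := (Fintype.equivFinOfCardEq hcard).symm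
    have halgX : ∀ i : Fin d, ∃ P : Polynomial K, P ≠ 0 ∧ P.eval₂ (ι : K →+* _)
        (algebraMap (MvPowerSeries (Fin d) k) (FractionRing (MvPowerSeries (Fin d) k)) (X i)) = 0 := by
      intro i
      obtain ⟨P, hP, hP2⟩ := H.alg i
      refine ⟨P.map (algebraMap O K), (Polynomial.map_ne_zero_iff hinj).2 hP, ?_⟩
      rw [Polynomial.eval₂_map]
      have h1 : ((ι : K →+* FractionRing (MvPowerSeries (Fin d) k)).comp (algebraMap O K)) =
          (algebraMap (MvPowerSeries (Fin d) k) (FractionRing (MvPowerSeries (Fin d) k))).comp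
            (φ : O →+* MvPowerSeries (Fin d) k) := RingHom.ext fun x => hι x
      rw [h1, ← Polynomial.hom_eval₂, hP2, map_zero]
    have halg : ∀ j : Fin (d - 1), ∃ P : Polynomial K, P ≠ 0 ∧
        P.eval₂ (ι : K →+* _) (lau (k := k) bw i0 (eqv j)) = 0 := by
      intro j
      let _ : Algebra K (FractionRing (MvPowerSeries (Fin d) k)) := ι.toRingHom.toAlgebra
      have h1 : ∀ i, IsAlgebraic K (algebraMap (MvPowerSeries (Fin d) k)
          (FractionRing (MvPowerSeries (Fin d) k)) (X i)) := fun i => halgX i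
      have h2 : IsAlgebraic K (lau (k := k) bw i0 (eqv j)) := by
        rw [lau, div_eq_mul_inv]
        exact ((h1 _).pow _).mul ((h1 _).pow _).inv
      exact h2
    obtain ⟨t, ht⟩ := exists_indep ι w (fun c hc => wv_const bw hc)
      (fun j => lau (k := k) bw i0 (eqv j)) halg (by
        intro P hP
        have h1 := lau_indep bw i0 hi0 (MvPolynomial.rename eqv P) (by
          intro h0
          apply hP
          apply MvPolynomial.rename_injective eqv eqv.injective
          rw [h0, map_zero])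
        rw [MvPolynomial.aeval_rename] at h1
        exact h1)
    refine ⟨t, fun P hP => ?_⟩
    obtain ⟨h1, h2⟩ := ht P hP
    refine ⟨fun h0 => h1 (by rw [h0, map_zero]), ?_⟩
    have h3 := hv (MvPolynomial.aeval t P)
    rw [h2] at h3
    rcases mul_eq_zero.1 h3 with h4 | h4
    · exact absurd h4 hre0.ne'
    · exact h4
  · intro x
    have h1 : 0 ≤ w.ord (ι (algebraMap O K x)) := by
      by_cases hx : x = 0
      · rw [hx, map_zero, map_zero, w.ord_zero]
      · rw [hι, hw, wv_alg bw (hφ0 x hx)]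
        positivity
    exact Int.ediv_nonneg h1 hre0.le
  · obtain ⟨g, hg, hB, hgc⟩ := hc.1
    have h1 := hbound g hg hB
    rw [hgc] at h1
    linarith
  · have h1 := hv (algebraMap O K h)
    rw [hwh, hr'] at h1
    have hn0 : (n : ℤ) ≠ 0 := by exact_mod_cast hn.ne'
    have h2 : (r' : ℤ) * (e0 * v.ord (algebraMap O K h)) = wo bw f := by
      have h3 : (n : ℤ) * (r' * (e0 * v.ord (algebraMap O K h))) = n * wo bw f := by
        rw [← h1]
        push_cast
        ring
      exact mul_left_cancel₀ hn0 h3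
    have h3 : r / n = r' := by
      rw [hr', Nat.mul_div_cancel_left _ hn]
    rw [h3, ← zpow_natCast ζ r', ← zpow_mul, h2, zpow_natCast]
    exact hsemi J

end Run7.h342
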