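import Pool.Agent.Run7.h342.SCH5

/-!
# The total Cartier index
-/

set_option autoImplicit false

noncomputable section

namespace Run7.h342

open AlgebraicGeometry CategoryTheory

variable {k K : Type} [Field k] [Field K] [Algebra k K]

section cartier

variable {M : Model k K}

theorem Model.loc_le {x y : M.X} (h : x ⤳ y) : M.loc y ≤ M.loc x := by
  rintro _ ⟨s, rfl⟩
  refine ⟨(M.X.presheaf.stalkSpecializes h).hom s, ?_⟩
  have h1 : M.X.presheaf.stalkSpecializes h ≫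
      M.X.presheaf.stalkSpecializes ((genericPoint_spec M.X).specializes trivial) =
      M.X.presheaf.stalkSpecializes ((genericPoint_spec M.X).specializes trivial) :=
    TopCat.Presheaf.stalkSpecializes_comp _ _ _
  have h2 := congrArg (fun G => M.toK (G.hom s)) h1
  exact h2

theorem cartierAt_sub {D E : M.Div →₀ ℤ} {y : M.X} (hD : M.CartierAt D y)
    (hE : M.CartierAt E y) : M.CartierAt (D - E) y := by
  obtain ⟨h, hh, hv⟩ := hD
  obtain ⟨h', hh', hv'⟩ := hE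
  refine ⟨h / h', div_ne_zero hh hh', fun v x hx hxy => ?_⟩
  rw [(v : DVal k K).ord_div _ _ hh hh', hv v x hx hxy, hv' v x hx hxy, Finsupp.sub_apply]

theorem cartierAt_nsmul {D : M.Div →₀ ℤ} {y : M.X} (hD : M.CartierAt D y) (n : ℕ) :
    M.CartierAt (n • D) y := by
  obtain ⟨h, hh, hv⟩ := hD
  refine ⟨h ^ n, pow_ne_zero _ hh, fun v x hx hxy => ?_⟩
  have e1 : (v : DVal k K).ord (h ^ n) = n * (v : DVal k K).ord h :=
    (v : DVal k K).toV0.ord_pow _ _
  rw [e1, hv v x hx hxy, Finsupp.smul_apply, nsmul_eq_mul]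

theorem cartierAt_of_specializes {D : M.Div →₀ ℤ} {x y : M.X} (hxy : x ⤳ y)
    (hD : M.CartierAt D y) : M.CartierAt D x := by
  obtain ⟨h, hh, hv⟩ := hD
  exact ⟨h, hh, fun v z hz hzx => hv v z hz (hzx.trans hxy)⟩

theorem exists_closed (M : Model k K) (x : M.X) : ∃ y : M.X, IsClosed {y} ∧ x ⤳ y := by
  have hqc : CompactSpace M.X := QuasiCompact.compactSpace_of_compactSpace M.str
  obtain ⟨y, hy, hyc⟩ := IsClosed.exists_closed_singleton (S := closure {x}) isClosed_closure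
    ⟨x, subset_closure rfl⟩
  exact ⟨y, hyc, specializes_iff_mem_closure.2 hy⟩

theorem isCartier_iff_closed {D : M.Div →₀ ℤ} :
    M.IsCartier D ↔ ∀ y : M.X, IsClosed {y} → M.CartierAt D y := by
  constructor
  · intro h y _
    exact h y
  · intro h x
    obtain ⟨y, hy, hxy⟩ := exists_closed M x
    exact cartierAt_of_specializes hxy (h y hy)

/-- arithmetic of total Cartier indices -/
theorem exists_index {L : ℕ} (hL : 0 < L)
    (h : ∀ D : M.Div →₀ ℤ, M.IsQCartier D → M.IsCartier (L • D)) :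
    ∃ N, M.IsTotalCartierIndex N ∧ N ∣ L := by
  classical
  have hex : ∃ N, 0 < N ∧ ∀ D : M.Div →₀ ℤ, M.IsQCartier D → M.IsCartier (N • D) := ⟨L, hL, h⟩
  refine ⟨Nat.find hex, ⟨Nat.find_spec hex, fun N hN => Nat.find_min' hex hN⟩, ?_⟩
  obtain ⟨hN0, hN⟩ := Nat.find_spec hex
  rw [Nat.dvd_iff_mod_eq_zero]
  by_contra hne
  have hr : 0 < L % Nat.find hex := Nat.pos_of_ne_zero hne
  refine Nat.find_min hex (Nat.mod_lt L hN0) ⟨hr, fun D hD y => ?_⟩
  have h1 := h D hD y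
  have h2 := cartierAt_nsmul (hN D hD y) (L / Nat.find hex)
  have h3 : (L % Nat.find hex) • D = L • D - (L / Nat.find hex) • (Nat.find hex • D) := by
    have h4 := Nat.div_add_mod L (Nat.find hex)
    conv_rhs => lhs; rw [← h4]
    rw [add_smul, mul_comm, mul_smul]
    simp
  rw [h3]
  exact cartierAt_sub h1 h2

end cartier

section

variable [CharZero k] [IsAlgClosed k]

/-- the local statement: the Cartier index at a quotient singularity -/
theorem local_index {d p ρ s : ℕ} (htr : Algebra.trdeg k K = d) {X Y : Model k K} (T : Triv X d)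
    (hlc : T.IsLC p) (hY : Y.KTrivial d)
    (hYX : ∀ v ∈ Y.Div, ∃ q : ℚ, T.HasDiscr v q ∧ 0 ≤ q)
    (P : AddSubgroup (DVal k K → ℤ)) (hP : Y.IsNeg d P)
    (hρ : Module.rank ℤ (X.Cl P) ≤ ρ) (hs : T.NonPos.encard ≤ s)
    (y : Y.X) (hy : IsQuotSing (k := k) d (Y.loc y)) (D : Y.Div →₀ ℤ)
    (hD : ∃ n : ℕ, 0 < n ∧ Y.CartierAt (n • D) y) :
    Y.CartierAt ((T.m * (Finset.Icc 1 (2 * p * (ρ + s - 1) + 1)).lcm id) • D) y := by
  classical
  set n := Nat.find hD with hn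
  obtain ⟨hnpos, hnD⟩ := Nat.find_spec hD
  suffices hn1 : n / n.gcd T.m ≤ 2 * p * (ρ + s - 1) + 1 by
    have hgpos : 0 < n.gcd T.m := Nat.gcd_pos_of_pos_left _ hnpos
    have hn1pos : 0 < n / n.gcd T.m := Nat.div_pos (Nat.gcd_le_left _ hnpos) hgpos
    have h1 : n / n.gcd T.m ∣ (Finset.Icc 1 (2 * p * (ρ + s - 1) + 1)).lcm id :=
      Finset.dvd_lcm (f := id) (Finset.mem_Icc.2 ⟨hn1pos, hn1⟩)
    have h2 : n ∣ T.m * (Finset.Icc 1 (2 * p * (ρ + s - 1) + 1)).lcm id := by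
      have h3 : n.gcd T.m * (n / n.gcd T.m) = n := Nat.mul_div_cancel' (Nat.gcd_dvd_left n T.m)
      rw [← h3]
      exact mul_dvd_mul (Nat.gcd_dvd_right n T.m) h1
    obtain ⟨w, hw⟩ := h2
    rw [hw, mul_comm, mul_smul]
    exact cartierAt_nsmul hnD w
  obtain ⟨h, hh, hv⟩ := hnD
  obtain ⟨TY⟩ := hY
  obtain ⟨G, hGfin, hG, hG3, e, halg⟩ := hy
  have hfin : Finite G := hGfin
  let D' : DVal k K → ℤ := fun v => if hv : v ∈ Y.Div then D ⟨v, hv⟩ else 0
  have hD' : ∀ (v : DVal k K) (hv : v ∈ Y.Div), D' v = D ⟨v, hv⟩ := fun v hv => dif_pos hv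
  have hm0 : (0 : ℚ) < T.m := by exact_mod_cast T.m_pos
  refine global_bound2 (d := d) htr.le (PX := X.Div) (PY := Y.Div)
    (fun z _ hz => Y.const_of_nonneg z hz) (fun v hv => Y.divisorial htr.ge hv)
    TY.b TY.a TY.a_ne TY.m TY.m_pos TY.triv T.b T.a T.a_ne T.m T.m_pos p ?_ ?_ P ?_ hP.eff ρ s hρ ?_
    (V := VO k K (Y.loc y)) kd_VO (Y.vo_sub_div y) (fun v hv hvy => Y.sub_vo y v hv hvy) hG hG3
    (locDat_of e halg) D' n hnpos h hh ?_ ?_
  · intro v hv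
    obtain ⟨q, ⟨c, hc, hq⟩, hq0⟩ := hlc v hv
    refine ⟨c, hc, ?_⟩
    have h1 : ((T.m : ℤ) : ℚ) ≤ ((p * (v.ord T.a + T.m * c + T.m) : ℤ) : ℚ) := by
      push_cast
      rw [← hq]
      have h2 : (p : ℚ) * (T.m * q + T.m) = T.m * (p * (q + 1)) := by ring
      rw [h2]
      nlinarith
    exact_mod_cast h1
  · intro v hv c hc
    obtain ⟨q, ⟨c', hc', hq⟩, hq0⟩ := hYX v hv
    rw [isOrd_unique2 hc hc']
    have h1 : (0 : ℚ) ≤ ((v.ord T.a + T.m * c' : ℤ) : ℚ) := by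
      push_cast
      rw [← hq]
      exact mul_nonneg hm0.le hq0
    exact_mod_cast h1
  · intro q hq
    obtain ⟨h, hh, hv⟩ := hP.cartier q hq y
    exact ⟨h, hh, fun v hvd hvO => hv v hvd fun f hf => hvO ⟨f, hf⟩⟩
  · refine le_trans (Set.encard_le_encard ?_) hs
    rintro v ⟨h1, h2, c, hc, hc2⟩
    refine ⟨h1, h2, ((v.ord T.a + T.m * c : ℤ) : ℚ) / T.m, ⟨c, hc, ?_⟩, ?_⟩
    · rw [mul_div_cancel₀ _ hm0.ne']
      push_cast
      ring
    · apply div_nonpos_of_nonpos_of_nonneg _ hm0.le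
      exact_mod_cast hc2
  · intro v hvV
    obtain ⟨x, hx, hxy⟩ := Y.vo_sub y v hvV
    have hvd : v ∈ Y.Div := ⟨x, hx⟩
    have h1 := hv ⟨v, hvd⟩ x hx hxy
    rw [hD' v hvd]
    rw [Finsupp.smul_apply, nsmul_eq_mul] at h1
    exact h1
  · rintro n' hn' hn'n ⟨z, hz, hzv⟩
    refine Nat.find_min hD hn'n ⟨hn', z, hz, fun v x hx hxy => ?_⟩
    have h1 : (v : DVal k K) ∈ VO k K (Y.loc y) := by
      refine Y.sub_vo y v v.2 fun f => ?_
      have h2 : (f : K) ∈ Y.loc x := Model.loc_le hxy f.2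
      change 0 ≤ (v : DVal k K).ord (f : K)
      by_cases hf0 : (f : K) = 0
      · rw [hf0, (v : DVal k K).ord_zero]
      · exact (hx _ hf0).2 h2
    have h2 := hzv v h1
    rw [hD' v v.2] at h2
    rw [h2, Finsupp.smul_apply, nsmul_eq_mul]

theorem total_index {d p ρ s : ℕ} (htr : Algebra.trdeg k K = d) {X Y : Model k K} (T : Triv X d)
    (hlc : T.IsLC p) (hY : Y.KTrivial d)
    (hYX : ∀ v ∈ Y.Div, ∃ q : ℚ, T.HasDiscr v q ∧ 0 ≤ q)
    (P : AddSubgroup (DVal k K → ℤ)) (hP : Y.IsNeg d P)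
    (hρ : Module.rank ℤ (X.Cl P) ≤ ρ) (hs : T.NonPos.encard ≤ s)
    (hy : ∀ y : Y.X, IsClosed {y} → IsQuotSing (k := k) d (Y.loc y)) :
    ∃ N, Y.IsTotalCartierIndex N ∧
      N ∣ T.m * (Finset.Icc 1 (2 * p * (ρ + s - 1) + 1)).lcm id := by
  set L := (Finset.Icc 1 (2 * p * (ρ + s - 1) + 1)).lcm id with hL
  have hL0 : 0 < L := by
    rw [Nat.pos_iff_ne_zero, hL, Ne, Finset.lcm_eq_zero_iff]
    rintro ⟨x, hx, hx0⟩
    rw [Finset.mem_Icc] at hx
    change x = 0 at hx0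
    omega
  refine exists_index (Nat.mul_pos T.m_pos hL0) fun D hD => isCartier_iff_closed.2 fun y hyc => ?_
  obtain ⟨n, hn, hnD⟩ := hD
  exact local_index htr T hlc hY hYX P hP hρ hs y (hy y hyc) D ⟨n, hn, hnD y⟩

end

end Run7.h342
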