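import Pool.Agent.Run7.h342.LMAIN2

/-!
# The global counting argument, general version
-/

set_option autoImplicit false
set_option linter.unusedSectionVars false

noncomputable section

namespace Run7.h342

open MvPowerSeries IsLocalRing

section cl

variable {k K : Type} [Field k] [Field K] [Algebra k K]

/-- rank of the class group after adding finitely many valuations -/
theorem rank_add2 (P : AddSubgroup (DVal k K → ℤ)) {A T : Set (DVal k K)} {ρ s : ℕ}
    (hρ : Module.rank ℤ ((A →₀ ℤ) ⧸ PDP P A) ≤ ρ) (hs : (T \ A).encard ≤ s) (hAT : A ⊆ T) :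
    Module.rank ℤ ((T →₀ ℤ) ⧸ PDP P T) ≤ (ρ + s : ℕ) := by
  classical
  have hfin : (T \ A).Finite := Set.finite_of_encard_le_coe hs
  let j : A → T := fun v => ⟨v, hAT v.2⟩
  have hj : Function.Injective j := fun a b h => Subtype.ext (congrArg (fun x : T => (x : DVal k K)) h)
  let R : (T →₀ ℤ) →ₗ[ℤ] (A →₀ ℤ) := Finsupp.lcomapDomain j hj
  have hR : ∀ (D : T →₀ ℤ) (v : A), R D v = D (j v) := fun D v => rfl
  have hRPD : PDP P T ≤ (PDP P A).comap R := by
    rintro D ⟨z, hz, p, hp, hD⟩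
    exact ⟨z, hz, p, hp, fun v => by rw [hR, hD]⟩
  let Rq : ((T →₀ ℤ) ⧸ PDP P T) →ₗ[ℤ] ((A →₀ ℤ) ⧸ PDP P A) := Submodule.mapQ _ _ R hRPD
  have h1 := LinearMap.rank_range_add_rank_ker Rq
  rw [← h1]
  have h2 : Module.rank ℤ (LinearMap.range Rq) ≤ ρ := (Submodule.rank_le _).trans hρ
  have h3 : Module.rank ℤ (LinearMap.ker Rq) ≤ s := by
    let F : Finset (DVal k K) := hfin.toFinset
    have hFT : ∀ v : {v // v ∈ F}, (v : DVal k K) ∈ T := fun v =>
      (hfin.mem_toFinset.1 (Subtype.property v)).1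
    let up : {v // v ∈ F} → T := fun v => ⟨(v : DVal k K), hFT v⟩
    let gen : {v // v ∈ F} → ((T →₀ ℤ) ⧸ PDP P T) := fun v =>
      Submodule.Quotient.mk (Finsupp.single (up v) 1)
    have h4 : LinearMap.ker Rq ≤ Submodule.span ℤ (Set.range gen) := by
      intro x hx
      obtain ⟨D, rfl⟩ := Submodule.Quotient.mk_surjective _ x
      rw [LinearMap.mem_ker] at hx
      have h5 : R D ∈ PDP P A := by
        rw [← Submodule.Quotient.mk_eq_zero]
        exact hx
      obtain ⟨z, hz, p, hp, hD⟩ := h5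
      -- `D` is equivalent to a divisor supported on `F`
      let E : T →₀ ℤ := Finsupp.onFinset (Finset.univ.image up)
        (fun v => D v - ((v : DVal k K).ord z + p v)) (by
          intro v hv
          rw [Finset.mem_image]
          by_cases hvP : (v : DVal k K) ∈ A
          · exfalso
            apply hv
            have := hD ⟨v, hvP⟩
            rw [hR] at this
            have h6 : j ⟨v, hvP⟩ = v := rfl
            rw [h6] at this
            rw [this, sub_self]
          · have hvF : (v : DVal k K) ∈ F := hfin.mem_toFinset.2 ⟨Subtype.property v, hvP⟩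
            exact ⟨Subtype.mk (v : DVal k K) hvF, Finset.mem_univ _, rfl⟩)
      have hE : (Submodule.Quotient.mk D : (T →₀ ℤ) ⧸ PDP P T) = Submodule.Quotient.mk E := by
        rw [Submodule.Quotient.eq]
        refine ⟨z, hz, p, hp, fun v => ?_⟩
        rw [Finsupp.sub_apply, Finsupp.onFinset_apply]
        ring
      rw [hE]
      have h7 : E = ∑ v ∈ E.support, E v • Finsupp.single v 1 := by
        conv_lhs => rw [← Finsupp.sum_single E, Finsupp.sum]
        refine Finset.sum_congr rfl fun v _ => ?_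
        rw [Finsupp.smul_single, smul_eq_mul, mul_one]
      rw [h7, ← Submodule.mkQ_apply, map_sum]
      refine Submodule.sum_mem _ fun v hv => ?_
      rw [map_smul]
      refine Submodule.smul_mem _ _ (Submodule.subset_span ?_)
      have h8 := Finsupp.support_onFinset_subset hv
      rw [Finset.mem_image] at h8
      obtain ⟨u, _, rfl⟩ := h8
      exact ⟨u, rfl⟩
    have h5 : Module.rank ℤ (Submodule.span ℤ (Set.range gen)) ≤ s := by
      refine (rank_span_le _).trans ?_
      refine Cardinal.mk_range_le.trans ?_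
      rw [Cardinal.mk_fintype, Fintype.card_coe]
      have h6 : (F.card : ℕ∞) ≤ s := by
        rw [← Set.encard_coe_eq_coe_finsetCard, Set.Finite.coe_toFinset]
        exact hs
      exact_mod_cast h6
    exact (Submodule.rank_mono h4).trans h5
  push_cast
  exact add_le_add h2 h3

end cl

section global

variable {k K : Type} [Field k] [CharZero k] [IsAlgClosed k] [Field K] [Algebra k K] {d : ℕ}
  {O : Type} [CommRing O] [IsDomain O] [Algebra k O] [Algebra O K] [IsScalarTower k O K]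
  [IsFractionRing O K]

theorem local_K2 (htr : Algebra.trdeg k K ≤ d) {V : Set (DVal k K)} (hV : KD O V)
    {G : Subgroup (GL (Fin d) k)}
    [Finite G] (hG : ∀ g ∈ G, g ≠ 1 → 2 ≤ ((g : Matrix (Fin d) (Fin d) k) - 1).rank)
    (hG3 : ∀ g ∈ G, (g : Matrix (Fin d) (Fin d) k).det = 1 →
      ((g : Matrix (Fin d) (Fin d) k) - 1).rank ≤ 3)
    {φ : O →ₐ[k] MvPowerSeries (Fin d) k} (H : LocDat O G φ)
    (b : Module.Basis (Fin d) K (Ω[K⁄k])) (a : K) (ha : a ≠ 0) (m : ℕ) (hm : 0 < m)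
    (hb : ∀ v ∈ V, ∃ c : ℤ, IsOrd b v c ∧ v.ord a + m * c = 0)
    (D : DVal k K → ℤ) (n : ℕ) (hn : 0 < n) (h : K) (hh : h ≠ 0)
    (hD : ∀ v ∈ V, v.ord h = n * D v)
    (hmin : ∀ n' : ℕ, 0 < n' → n' < n → ¬ ∃ z : K, z ≠ 0 ∧ ∀ v ∈ V, v.ord z = n' * D v)
    (j : ℕ) (hj : ¬ n ∣ m * j) :
    ∃ (v : DVal k K) (c e : ℤ), IsDivisorial d v ∧ (∀ x : O, 0 ≤ v.ord (algebraMap O K x)) ∧
      IsOrd b v c ∧ 1 ≤ e ∧ e * (v.ord a + m * c + m) ≤ m ∧
      ((n : ℤ) ∣ e * v.ord h - (m * j : ℕ) ∨ (n : ℤ) ∣ e * v.ord h + (m * j : ℕ)) := by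
  have hinj : Function.Injective (algebraMap O K) := IsFractionRing.injective O K
  have hne : ∀ a : O, a ≠ 0 → algebraMap O K a ≠ 0 :=
    fun a ha h => ha (hinj (by rw [h, map_zero]))
  obtain ⟨x, y, hy, hxy⟩ := IsFractionRing.div_surjective (A := O) h
  have hy0 : y ≠ 0 := nonZeroDivisors.ne_zero hy
  have hx0 : x ≠ 0 := by
    intro h0
    rw [h0, map_zero, zero_div] at hxy
    exact hh hxy.symm
  have hyK := hne y hy0
  have hkey : algebraMap O K (x * y ^ (n - 1)) = h * algebraMap O K y ^ n := by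
    rw [← hxy, map_mul, map_pow]
    have : algebraMap O K y ^ n = algebraMap O K y ^ (n - 1) * algebraMap O K y := by
      rw [← pow_succ, Nat.sub_add_cancel hn]
    rw [this]
    field_simp
  have hordkey : ∀ v : DVal k K, v.ord (algebraMap O K (x * y ^ (n - 1))) =
      v.ord h + n * v.ord (algebraMap O K y) := by
    intro v
    rw [hkey, v.map_mul _ _ hh (pow_ne_zero n hyK)]
    congr 1
    exact v.toV0.ord_pow _ _
  obtain ⟨v, c, e, h1, h2, h3, h4, h5, h6⟩ := local_O2 htr hV hG hG3 H b a ha m hm hb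
    (fun v => D v + v.ord (algebraMap O K y)) n hn (x * y ^ (n - 1))
    (mul_ne_zero hx0 (pow_ne_zero _ hy0)) (by
      intro v hv
      rw [hordkey, hD v hv]
      ring) (by
      rintro n' hn' hn'n ⟨z, hz, hzv⟩
      refine hmin n' hn' hn'n ⟨z / algebraMap O K y ^ n', div_ne_zero hz (pow_ne_zero _ hyK),
        fun v hv => ?_⟩
      have e1 : v.ord (z / algebraMap O K y ^ n') = v.ord z - v.ord (algebraMap O K y ^ n') :=
        v.toV0.ord_div _ _ hz (pow_ne_zero _ hyK)
      have e2 : v.ord (algebraMap O K y ^ n') = n' * v.ord (algebraMap O K y) :=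
        v.toV0.ord_pow _ _
      rw [e1, e2, hzv v hv]
      ring) j hj
  refine ⟨v, c, e, h1, h2, h3, h4, h5, ?_⟩
  rw [hordkey] at h6
  have h7 : e * (v.ord h + n * v.ord (algebraMap O K y)) =
      e * v.ord h + n * (e * v.ord (algebraMap O K y)) := by ring
  rw [h7] at h6
  rcases h6 with h6 | h6
  · left
    have h8 : e * v.ord h - (m * j : ℕ) =
        (e * v.ord h + n * (e * v.ord (algebraMap O K y)) - (m * j : ℕ)) -
        n * (e * v.ord (algebraMap O K y)) := by ring
    rw [h8]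
    exact dvd_sub h6 (Dvd.intro _ rfl)
  · right
    have h8 : e * v.ord h + (m * j : ℕ) =
        (e * v.ord h + n * (e * v.ord (algebraMap O K y)) + (m * j : ℕ)) -
        n * (e * v.ord (algebraMap O K y)) := by ring
    rw [h8]
    exact dvd_sub h6 (Dvd.intro _ rfl)

theorem isOrd_unique2 {b : Module.Basis (Fin d) K (Ω[K⁄k])} {v : DVal k K} {c c' : ℤ}
    (h : IsOrd b v c) (h' : IsOrd b v c') : c = c' := by
  have := IsLeast.unique h h'
  omega

/-- change of basis -/
theorem isOrd_change2 (b b' : Module.Basis (Fin d) K (Ω[K⁄k])) :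
    ∃ μ : K, μ ≠ 0 ∧ ∀ (v : DVal k K) (c : ℤ), IsOrd b v c → IsOrd b' v (c + v.ord μ) := by
  classical
  set μ := b.det b' with hμ
  have hμ0 : μ ≠ 0 := (b.isUnit_det b').ne_zero
  have hdet : ∀ ω : Fin d → Ω[K⁄k], b.det ω = μ * b'.det ω := by
    intro ω
    have h1 := AlternatingMap.eq_smul_basis_det b' b.det
    conv_lhs => rw [h1]
    rfl
  refine ⟨μ, hμ0, fun v c hc => ?_⟩
  obtain ⟨⟨g, hg, hB, hgc⟩, hmin⟩ := hc
  constructor
  · have hB' : b'.det (fun i => KaehlerDifferential.D k K (g i)) ≠ 0 := by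
      intro h0
      rw [hdet, h0, mul_zero] at hB
      exact hB rfl
    refine ⟨g, hg, hB', ?_⟩
    rw [hdet, v.map_mul _ _ hμ0 hB'] at hgc
    omega
  · rintro n ⟨g', hg', hB', hn⟩
    have hB2 : b.det (fun i => KaehlerDifferential.D k K (g' i)) ≠ 0 := by
      rw [hdet]
      exact mul_ne_zero hμ0 hB'
    have h1 := hmin ⟨g', hg', hB2, rfl⟩
    rw [hdet, v.map_mul _ _ hμ0 hB', hn] at h1
    omega

/-- the main bound -/
theorem global_bound2 (htr : Algebra.trdeg k K ≤ d) {PX PY : Set (DVal k K)}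
    (hconst : ∀ z : K, z ≠ 0 → (∀ v ∈ PY, 0 ≤ v.ord z) → ∃ c : k, algebraMap k K c = z)
    (hdivis : ∀ v ∈ PY, IsDivisorial d v)
    (bY : Module.Basis (Fin d) K (Ω[K⁄k])) (aY : K) (haY : aY ≠ 0) (mY : ℕ) (hmY : 0 < mY)
    (hY : ∀ v ∈ PY, ∃ c : ℤ, IsOrd bY v c ∧ v.ord aY + mY * c = 0)
    (b : Module.Basis (Fin d) K (Ω[K⁄k])) (a : K) (ha : a ≠ 0) (m : ℕ) (hm : 0 < m)
    (p : ℕ)
    (hlc : ∀ v, IsDivisorial d v → ∃ c : ℤ, IsOrd b v c ∧ m ≤ p * (v.ord a + m * c + m))
    (hYX : ∀ v ∈ PY, ∀ c : ℤ, IsOrd b v c → 0 ≤ v.ord a + m * c)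
    (P : AddSubgroup (DVal k K → ℤ))
    (hPc : ∀ q ∈ P, ∃ h : K, h ≠ 0 ∧ ∀ v, IsDivisorial d v →
      (∀ x : O, 0 ≤ v.ord (algebraMap O K x)) → q v = v.ord h)
    (hPe : ∀ q ∈ P, ∀ z : K, z ≠ 0 → (∀ v ∈ PY, 0 ≤ v.ord z + q v) → ∀ v ∈ PY, v.ord z + q v = 0)
    (ρ s : ℕ) (hρ : Module.rank ℤ ((PX →₀ ℤ) ⧸ PDP P PX) ≤ ρ)
    (hs : {v | IsDivisorial d v ∧ v ∉ PX ∧ ∃ c : ℤ, IsOrd b v c ∧
      v.ord a + m * c ≤ 0}.encard ≤ s)
    {V : Set (DVal k K)} (hV : KD O V) (hVP : V ⊆ PY)
    (hPV : ∀ v ∈ PY, (∀ x : O, 0 ≤ v.ord (algebraMap O K x)) → v ∈ V)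
    {G : Subgroup (GL (Fin d) k)}
    [Finite G] (hG : ∀ g ∈ G, g ≠ 1 → 2 ≤ ((g : Matrix (Fin d) (Fin d) k) - 1).rank)
    (hG3 : ∀ g ∈ G, (g : Matrix (Fin d) (Fin d) k).det = 1 →
      ((g : Matrix (Fin d) (Fin d) k) - 1).rank ≤ 3)
    {φ : O →ₐ[k] MvPowerSeries (Fin d) k} (H : LocDat O G φ)
    (D : DVal k K → ℤ) (n : ℕ) (hn : 0 < n) (h : K) (hh : h ≠ 0)
    (hD : ∀ v ∈ V, v.ord h = n * D v)
    (hmin : ∀ n' : ℕ, 0 < n' → n' < n → ¬ ∃ z : K, z ≠ 0 ∧ ∀ v ∈ V, v.ord z = n' * D v) :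
    n / n.gcd m ≤ 2 * p * (ρ + s - 1) + 1 := by
  classical
  set n1 := n / n.gcd m with hn1
  have hgpos : 0 < n.gcd m := Nat.gcd_pos_of_pos_left _ hn
  have hn1pos : 0 < n1 := Nat.div_pos (Nat.gcd_le_left m hn) hgpos
  have hndvd : ∀ j : ℕ, n ∣ m * j ↔ n1 ∣ j := by
    intro j
    have h1 : n = n.gcd m * n1 := (Nat.mul_div_cancel' (Nat.gcd_dvd_left n m)).symm
    obtain ⟨m1, hm1⟩ := Nat.gcd_dvd_right n m
    have hcop : Nat.Coprime n1 m1 := by
      have h2 := Nat.coprime_div_gcd_div_gcd (m := n) (n := m) hgpos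
      have h3 : m / n.gcd m = m1 := Nat.div_eq_of_eq_mul_right hgpos hm1
      rwa [h3] at h2
    constructor
    · intro h2
      have h3 : n.gcd m * n1 ∣ n.gcd m * (m1 * j) := by
        rw [← h1, ← mul_assoc, ← hm1]
        exact h2
      exact hcop.dvd_of_dvd_mul_left (Nat.dvd_of_mul_dvd_mul_left hgpos h3)
    · intro h2
      have h3 : n.gcd m * n1 ∣ m * j := mul_dvd_mul (Nat.gcd_dvd_right n m) h2
      rwa [← h1] at h3
  by_cases hn11 : n1 = 1
  · rw [hn11]
    omega
  have hn12 : 2 ≤ n1 := by omega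
  have hnn1 : n1 ≤ n := Nat.div_le_self _ _
  have hm0 : (0 : ℤ) < m := by exact_mod_cast hm
  have hmY0 : (0 : ℤ) < mY := by exact_mod_cast hmY
  obtain ⟨μ, hμ0, hμ⟩ := isOrd_change2 b bY
  -- crepancy
  have hcrep : ∀ v c, IsOrd b v c → (mY : ℤ) * (v.ord a + m * c) =
      m * (v.ord aY + mY * (c + v.ord μ)) := by
    set z := a ^ mY / (aY ^ m * μ ^ (m * mY)) with hz
    have hz0 : z ≠ 0 := div_ne_zero (pow_ne_zero _ ha)
      (mul_ne_zero (pow_ne_zero _ haY) (pow_ne_zero _ hμ0))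
    have hordz : ∀ v : DVal k K, v.ord z = mY * v.ord a - (m * v.ord aY +
        m * mY * v.ord μ) := by
      intro v
      have e1 : v.ord z = v.ord (a ^ mY) - v.ord (aY ^ m * μ ^ (m * mY)) :=
        v.toV0.ord_div _ _ (pow_ne_zero _ ha)
          (mul_ne_zero (pow_ne_zero _ haY) (pow_ne_zero _ hμ0))
      have e2 : v.ord (a ^ mY) = mY * v.ord a := v.toV0.ord_pow _ _
      have e3 : v.ord (aY ^ m) = m * v.ord aY := v.toV0.ord_pow _ _
      have e4 : v.ord (μ ^ (m * mY)) = (m * mY : ℕ) * v.ord μ := v.toV0.ord_pow _ _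
      rw [e1, v.map_mul _ _ (pow_ne_zero _ haY) (pow_ne_zero _ hμ0), e2, e3, e4]
      push_cast
      ring
    obtain ⟨c0, hc0⟩ := hconst z hz0 (by
      intro v hv
      obtain ⟨c, hc, _⟩ := hlc v (hdivis v hv)
      have hc1 := hYX v hv c hc
      obtain ⟨c', hc', hc1'⟩ := hY v hv
      have h1 := isOrd_unique2 hc' (hμ v c hc)
      rw [hordz]
      rw [h1] at hc1'
      have h2 : (mY : ℤ) * v.ord a - (m * v.ord aY + m * mY * v.ord μ) =
          mY * (v.ord a + m * c) - m * (v.ord aY + mY * (c + v.ord μ)) := by ring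
      rw [h2, hc1', mul_zero, sub_zero]
      exact mul_nonneg hmY0.le hc1)
    have hc00 : c0 ≠ 0 := by
      intro h0
      rw [h0, map_zero] at hc0
      exact hz0 hc0.symm
    intro v c _
    have h1 := hordz v
    rw [← hc0, v.const c0 hc00] at h1
    have h2 : (mY : ℤ) * (v.ord a + m * c) - m * (v.ord aY + mY * (c + v.ord μ)) =
        mY * v.ord a - (m * v.ord aY + m * mY * v.ord μ) := by ring
    linarith
  -- the discrepancies of the prime divisors of `Y` vanish
  have hPY0 : ∀ v ∈ PY, ∃ c : ℤ, IsOrd b v c ∧ v.ord a + m * c = 0 := by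
    intro v hv
    obtain ⟨c, hc, _⟩ := hlc v (hdivis v hv)
    refine ⟨c, hc, ?_⟩
    obtain ⟨c', hc', hc1'⟩ := hY v hv
    have h1 := isOrd_unique2 hc' (hμ v c hc)
    have h2 := hcrep v c hc
    rw [← h1, hc1', mul_zero] at h2
    rcases mul_eq_zero.1 h2 with h3 | h3
    · exact absurd h3 hmY0.ne'
    · exact h3
  -- the set of valuations
  set SX : Set (DVal k K) := {v | IsDivisorial d v ∧ v ∉ PX ∧ ∃ c : ℤ, IsOrd b v c ∧
      v.ord a + m * c ≤ 0} with hSX
  set T : Set (DVal k K) := PX ∪ SX with hT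
  have hrank : Module.rank ℤ ((T →₀ ℤ) ⧸ PDP P T) ≤ (ρ + s : ℕ) := by
    refine rank_add2 P hρ ?_ Set.subset_union_left
    refine le_trans (Set.encard_le_encard ?_) hs
    rintro v ⟨h1, h2⟩
    rcases h1 with h1 | h1
    · exact absurd h1 h2
    · exact h1
  have hPYT : PY ⊆ T := by
    intro v hv
    by_cases hvX : v ∈ PX
    · exact Or.inl hvX
    · right
      obtain ⟨c, hc, hc0⟩ := hPY0 v hv
      exact ⟨hdivis v hv, hvX, c, hc, hc0.le⟩
  have hbV : ∀ v ∈ V, ∃ c : ℤ, IsOrd b v c ∧ v.ord a + m * c = 0 :=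
    fun v hv => hPY0 v (hVP hv)
  -- the valuations provided by the local theorem
  have hloc : ∀ j : Fin (n1 / 2), ∃ (v : DVal k K) (e : ℕ), v ∈ T ∧ v ∉ PY ∧ IsDivisorial d v ∧
      (∀ x : O, 0 ≤ v.ord (algebraMap O K x)) ∧ e < p ∧
      ((n : ℤ) ∣ (e + 1 : ℕ) * v.ord h - (m * ((j : ℕ) + 1) : ℕ) ∨
        (n : ℤ) ∣ (e + 1 : ℕ) * v.ord h + (m * ((j : ℕ) + 1) : ℕ)) := by
    intro j
    have hj := j.2
    have hj1 : ¬ n ∣ m * ((j : ℕ) + 1) := by
      rw [hndvd]
      intro h1
      have := Nat.le_of_dvd (Nat.succ_pos _) h1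
      omega
    obtain ⟨v, c, e, hv1, hv2, hv3, he, hineq, hdvd⟩ := local_K2 htr hV hG hG3 H b a ha m hm hbV
      D n hn h hh hD hmin ((j : ℕ) + 1) hj1
    obtain ⟨c', hc', hc1'⟩ := hlc v hv1
    have h1 := isOrd_unique2 hv3 hc'
    rw [← h1] at hc1'
    set A := v.ord a + m * c + m with hA
    have hA0 : 0 < A := by
      by_contra hcon
      push Not at hcon
      have h2 : (p : ℤ) * A ≤ 0 := mul_nonpos_of_nonneg_of_nonpos (by positivity) hcon
      linarith
    have hep : e ≤ p := by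
      by_contra hcon
      push Not at hcon
      have h2 : (p : ℤ) * A < e * A := mul_lt_mul_of_pos_right hcon hA0
      linarith
    have hAm : A ≤ m := by nlinarith
    have he' : (((e - 1).toNat + 1 : ℕ) : ℤ) = e := by
      push_cast
      rw [Int.toNat_of_nonneg (by omega)]
      ring
    refine ⟨v, (e - 1).toNat, ?_, ?_, hv1, hv2, ?_, ?_⟩
    · by_cases hvX : v ∈ PX
      · exact Or.inl hvX
      · right
        exact ⟨hv1, hvX, c, hv3, by omega⟩
    · intro hvY
      have hvV := hPV v hvY hv2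
      have h5 := hD v hvV
      have h6 : (n : ℤ) ∣ e * v.ord h := by
        rw [h5]
        exact ⟨e * D v, by ring⟩
      have h7 : (n : ℤ) ∣ ((m * ((j : ℕ) + 1) : ℕ) : ℤ) := by
        rcases hdvd with h8 | h8
        · have := dvd_sub h6 h8
          rwa [sub_sub_cancel] at this
        · have := dvd_sub h8 h6
          rwa [add_sub_cancel_left] at this
      exact hj1 (by exact_mod_cast h7)
    · omega
    · rw [he']
      exact hdvd
  choose vj ej hvT hvPY hvdiv hvO hvp hvdvd using hloc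
  have hvinj : Function.Injective (fun j => (vj j, (⟨ej j, hvp j⟩ : Fin p))) := by
    intro i j hij
    rw [Prod.mk.injEq] at hij
    obtain ⟨hij1, hij2⟩ := hij
    have hij3 : ej i = ej j := congrArg Fin.val hij2
    have h1 := hvdvd i
    have h2 := hvdvd j
    rw [hij1, hij3] at h1
    have hi := i.2
    have hj := j.2
    apply Fin.ext
    have hsub : ∀ x y : ℕ, (n : ℤ) ∣ ((m * x : ℕ) : ℤ) - ((m * y : ℕ) : ℤ) → x < n1 → y < n1 →
        x = y := by
      intro x y hxy hx hy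
      rcases le_total x y with hle | hle
      · obtain ⟨t, rfl⟩ := Nat.exists_eq_add_of_le hle
        have h3 : ((m * x : ℕ) : ℤ) - ((m * (x + t) : ℕ) : ℤ) = -((m * t : ℕ) : ℤ) := by
          push_cast; ring
        rw [h3, dvd_neg] at hxy
        have h4 : n ∣ m * t := by exact_mod_cast hxy
        rw [hndvd] at h4
        rcases Nat.eq_zero_or_pos t with h5 | h5
        · omega
        · have := Nat.le_of_dvd h5 h4
          omega
      · obtain ⟨t, rfl⟩ := Nat.exists_eq_add_of_le hle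
        have h3 : ((m * (y + t) : ℕ) : ℤ) - ((m * y : ℕ) : ℤ) = ((m * t : ℕ) : ℤ) := by
          push_cast; ring
        rw [h3] at hxy
        have h4 : n ∣ m * t := by exact_mod_cast hxy
        rw [hndvd] at h4
        rcases Nat.eq_zero_or_pos t with h5 | h5
        · omega
        · have := Nat.le_of_dvd h5 h4
          omega
    have hadd : ∀ x y : ℕ, (n : ℤ) ∣ ((m * x : ℕ) : ℤ) + ((m * y : ℕ) : ℤ) → 0 < x → 0 < y →
        x ≤ n1 / 2 → y ≤ n1 / 2 → x = y := by
      intro x y hxy hx hy hx2 hy2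
      have h3 : ((m * x : ℕ) : ℤ) + ((m * y : ℕ) : ℤ) = ((m * (x + y) : ℕ) : ℤ) := by
        push_cast; ring
      rw [h3] at hxy
      have h4 : n ∣ m * (x + y) := by exact_mod_cast hxy
      rw [hndvd] at h4
      have := Nat.le_of_dvd (by omega) h4
      omega
    set X := ((ej j + 1 : ℕ) : ℤ) * (vj j).ord h with hX
    rcases h1 with h1 | h1 <;> rcases h2 with h2 | h2
    · have h3 := dvd_sub h2 h1
      have h4 := hsub ((i : ℕ) + 1) ((j : ℕ) + 1) (by
        have e : X - ((m * ((j : ℕ) + 1) : ℕ) : ℤ) - (X - ((m * ((i : ℕ) + 1) : ℕ) : ℤ)) =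
          ((m * ((i : ℕ) + 1) : ℕ) : ℤ) - ((m * ((j : ℕ) + 1) : ℕ) : ℤ) := by ring
        rwa [e] at h3) (by omega) (by omega)
      omega
    · have h3 := dvd_sub h2 h1
      have h4 := hadd ((i : ℕ) + 1) ((j : ℕ) + 1) (by
        have e : X + ((m * ((j : ℕ) + 1) : ℕ) : ℤ) - (X - ((m * ((i : ℕ) + 1) : ℕ) : ℤ)) =
          ((m * ((i : ℕ) + 1) : ℕ) : ℤ) + ((m * ((j : ℕ) + 1) : ℕ) : ℤ) := by ring
        rwa [e] at h3) (by omega) (by omega) (by omega) (by omega)
      omega
    · have h3 := dvd_sub h1 h2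
      have h4 := hadd ((i : ℕ) + 1) ((j : ℕ) + 1) (by
        have e : X + ((m * ((i : ℕ) + 1) : ℕ) : ℤ) - (X - ((m * ((j : ℕ) + 1) : ℕ) : ℤ)) =
          ((m * ((i : ℕ) + 1) : ℕ) : ℤ) + ((m * ((j : ℕ) + 1) : ℕ) : ℤ) := by ring
        rwa [e] at h3) (by omega) (by omega) (by omega) (by omega)
      omega
    · have h3 := dvd_sub h1 h2
      have h4 := hsub ((i : ℕ) + 1) ((j : ℕ) + 1) (by
        have e : X + ((m * ((i : ℕ) + 1) : ℕ) : ℤ) - (X + ((m * ((j : ℕ) + 1) : ℕ) : ℤ)) =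
          ((m * ((i : ℕ) + 1) : ℕ) : ℤ) - ((m * ((j : ℕ) + 1) : ℕ) : ℤ) := by ring
        rwa [e] at h3) (by omega) (by omega)
      omega
  -- the finite set of valuations
  set F : Finset (DVal k K) := Finset.univ.image vj with hF
  have hcardF : n1 / 2 ≤ F.card * p := by
    have h1 : Function.Injective (fun j : Fin (n1 / 2) =>
        ((⟨vj j, Finset.mem_image_of_mem vj (Finset.mem_univ j)⟩ : {v // v ∈ F}),
          (⟨ej j, hvp j⟩ : Fin p))) := by
      intro i j hij
      apply hvinj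
      rw [Prod.mk.injEq] at hij ⊢
      exact ⟨congrArg Subtype.val hij.1, hij.2⟩
    have h2 := Fintype.card_le_of_injective _ h1
    rwa [Fintype.card_fin, Fintype.card_prod, Fintype.card_coe, Fintype.card_fin] at h2
  have hFT : ∀ v ∈ F, v ∈ T ∧ v ∉ PY ∧ IsDivisorial d v ∧
      ∀ x : O, 0 ≤ v.ord (algebraMap O K x) := by
    intro v hv
    rw [hF, Finset.mem_image] at hv
    obtain ⟨j, _, rfl⟩ := hv
    exact ⟨hvT j, hvPY j, hvdiv j, hvO j⟩
  -- a prime divisor of `Y`
  obtain ⟨F0, hF0⟩ : ∃ F0, F0 ∈ V := by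
    by_contra hcon
    push Not at hcon
    exact hmin 1 one_pos (by omega) ⟨1, one_ne_zero, fun v hv => absurd hv (hcon v)⟩
  have hF0Y := hVP hF0
  -- independence
  let el : Option {v // v ∈ F} → T := fun o => match o with
    | none => ⟨F0, hPYT hF0Y⟩
    | some j => ⟨(j : DVal k K), (hFT (j : DVal k K) (Subtype.property j)).1⟩
  have hel : Function.Injective el := by
    intro o o' hoo
    rcases o with _ | i <;> rcases o' with _ | j
    · rfl
    · exfalso
      have h1 : F0 = (j : DVal k K) := congrArg (fun x : T => (x : DVal k K)) hoo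
      exact (hFT (j : DVal k K) (Subtype.property j)).2.1 (h1 ▸ hF0Y)
    · exfalso
      have h1 : (i : DVal k K) = F0 := congrArg (fun x : T => (x : DVal k K)) hoo
      exact (hFT (i : DVal k K) (Subtype.property i)).2.1 (h1.symm ▸ hF0Y)
    · have h1 : (i : DVal k K) = (j : DVal k K) := congrArg (fun x : T => (x : DVal k K)) hoo
      rw [Subtype.ext h1]
  have hli : LinearIndependent ℤ (fun o => (Submodule.Quotient.mk (Finsupp.single (el o) 1) :
      (T →₀ ℤ) ⧸ PDP P T)) := by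
    rw [Fintype.linearIndependent_iff]
    intro c hc
    have h1 : (∑ o, c o • Finsupp.single (el o) (1 : ℤ)) ∈ PDP P T := by
      rw [← Submodule.Quotient.mk_eq_zero, ← Submodule.mkQ_apply, map_sum]
      rw [← hc]
      refine Finset.sum_congr rfl fun o _ => ?_
      rw [map_smul]
      rfl
    obtain ⟨z, hz, q, hq, hzv⟩ := h1
    have hval : ∀ t : T, (∑ o, c o • Finsupp.single (el o) (1 : ℤ)) t =
        ∑ o, if el o = t then c o else 0 := by
      intro t
      rw [Finsupp.finsetSum_apply]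
      refine Finset.sum_congr rfl fun o _ => ?_
      rw [Finsupp.smul_apply, Finsupp.single_apply, smul_eq_mul]
      split_ifs
      · rw [mul_one]
      · rw [mul_zero]
    have hcoef : ∀ o, c o = (el o : DVal k K).ord z + q (el o) := by
      intro o
      rw [← hzv, hval, Finset.sum_eq_single o]
      · rw [if_pos rfl]
      · intro o' _ hne
        rw [if_neg (fun h => hne (hel h))]
      · intro h
        exact absurd (Finset.mem_univ o) h
    have hzero : ∀ v ∈ PY, v ≠ F0 → v.ord z + q v = 0 := by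
      intro v hv hne
      have h1 := hzv ⟨v, hPYT hv⟩
      rw [hval] at h1
      rw [← h1]
      refine Finset.sum_eq_zero fun o _ => ?_
      rw [if_neg]
      intro h2
      rcases o with _ | i
      · exact hne (congrArg (fun x : T => (x : DVal k K)) h2).symm
      · have h3 : (i : DVal k K) = v := congrArg (fun x : T => (x : DVal k K)) h2
        exact (hFT (i : DVal k K) (Subtype.property i)).2.1 (h3.symm ▸ hv)
    have hallPY : ∀ v ∈ PY, v.ord z + q v = 0 := by
      rcases le_total 0 (F0.ord z + q F0) with h1 | h1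
      · exact hPe q hq z hz fun v hv => by
          by_cases hv0 : v = F0
          · rw [hv0]; exact h1
          · rw [hzero v hv hv0]
      · intro v hv
        have hinv : ∀ v : DVal k K, v.ord z⁻¹ = - v.ord z := fun v => v.toV0.ord_inv z
        have h2 := hPe (-q) (P.neg_mem hq) z⁻¹ (inv_ne_zero hz) (fun v hv => by
          rw [hinv, Pi.neg_apply]
          by_cases hv0 : v = F0
          · rw [hv0]; omega
          · have := hzero v hv hv0
            omega) v hv
        rw [hinv, Pi.neg_apply] at h2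
        omega
    -- the local equation of `q`
    obtain ⟨hq0, hq1, hq2⟩ := hPc q hq
    have hunit : ∀ v : DVal k K, (∀ x : O, 0 ≤ v.ord (algebraMap O K x)) →
        v.ord z + v.ord hq0 = 0 := by
      have hzh : z * hq0 ≠ 0 := mul_ne_zero hz hq1
      have hVz : ∀ v ∈ V, v.ord (z * hq0) = 0 := by
        intro v hv
        rw [v.map_mul _ _ hz hq1, ← hq2 v (hdivis v (hVP hv)) (hV.nonneg v hv)]
        exact hallPY v (hVP hv)
      obtain ⟨x, hx⟩ := hV.mem (z * hq0) fun v hv => (hVz v hv).ge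
      obtain ⟨y, hy⟩ := hV.mem (z * hq0)⁻¹ fun v hv => by
        rw [show v.ord (z * hq0)⁻¹ = - v.ord (z * hq0) from v.toV0.ord_inv _, hVz v hv, neg_zero]
      intro v hv
      have h3 := hv x
      have h4 := hv y
      rw [hx] at h3
      rw [hy, show v.ord (z * hq0)⁻¹ = - v.ord (z * hq0) from v.toV0.ord_inv _] at h4
      rw [← v.map_mul _ _ hz hq1]
      omega
    intro o
    rw [hcoef o]
    rcases o with _ | i
    · exact hallPY F0 hF0Y
    · change (i : DVal k K).ord z + q (i : DVal k K) = 0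
      obtain ⟨_, _, h3, h4⟩ := hFT (i : DVal k K) (Subtype.property i)
      rw [hq2 _ h3 h4]
      exact hunit _ h4
  have hcard := hli.cardinal_le_rank.trans hrank
  rw [Cardinal.mk_fintype, Fintype.card_option, Fintype.card_coe] at hcard
  have hcard' : F.card + 1 ≤ ρ + s := by exact_mod_cast hcard
  have h1 : F.card ≤ ρ + s - 1 := by omega
  have h2 : n1 / 2 ≤ (ρ + s - 1) * p := hcardF.trans (Nat.mul_le_mul_right p h1)
  have h3 : 2 * p * (ρ + s - 1) = 2 * ((ρ + s - 1) * p) := by ring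
  rw [h3]
  omega

end global

end Run7.h342
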