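import Pool.Agent.Run7.h342.DESC

/-!
# The character attached to a divisor of index `n`
-/

set_option autoImplicit false
set_option linter.unusedSectionVars false

noncomputable section

namespace Run7.h342

open MvPowerSeries IsLocalRing

variable {k K : Type} [Field k] [Field K] [Algebra k K] {d : ℕ}
  {O : Type} [CommRing O] [IsDomain O] [Algebra k O] [Algebra O K] [IsFractionRing O K]

theorem sum_lin_mem (G : Subgroup (GL (Fin d) k)) [Fintype G] (f : MvPowerSeries (Fin d) k) :
    ∑ g : G, lin ((g : GL (Fin d) k) : Matrix (Fin d) (Fin d) k) f ∈ invS G := by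
  intro h hh
  rw [map_sum]
  have h1 : ∀ g : G, lin (h : Matrix (Fin d) (Fin d) k)
      (lin ((g : GL (Fin d) k) : Matrix (Fin d) (Fin d) k) f) =
      lin (((g * ⟨h, hh⟩ : G) : GL (Fin d) k) : Matrix (Fin d) (Fin d) k) f := by
    intro g
    rw [lin_lin]
    rfl
  rw [Finset.sum_congr rfl fun g _ => h1 g]
  exact Fintype.sum_equiv (Equiv.mulRight (⟨h, hh⟩ : G)) _ _ (fun g => rfl)

theorem index_char [CharZero k] {V : Set (DVal k K)} (hV : KD O V) {G : Subgroup (GL (Fin d) k)}
    [Finite G] {φ : O →ₐ[k] MvPowerSeries (Fin d) k} (H : LocDat O G φ)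
    (ι : K →+* FractionRing (MvPowerSeries (Fin d) k))
    (hι : ∀ x, ι (algebraMap O K x) = algebraMap _ _ (φ x))
    (D : DVal k K → ℤ) (n : ℕ) (hn : 0 < n) (h : O) (hh : h ≠ 0)
    (hD : ∀ v ∈ V, v.ord (algebraMap O K h) = n * D v)
    (hmin : ∀ n' : ℕ, 0 < n' → n' < n → ¬ ∃ z : K, z ≠ 0 ∧ ∀ v ∈ V, v.ord z = n' * D v) :
    ∃ f ε : MvPowerSeries (Fin d) k, IsUnit ε ∧ φ h = ε * f ^ n ∧ ∃ g ∈ G,
      ∃ u : MvPowerSeries (Fin d) k, lin (g : Matrix (Fin d) (Fin d) k) f = u * f ∧
        IsPrimitiveRoot (constantCoeff u) n := by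
  classical
  have := Fintype.ofFinite G
  have hinj : Function.Injective (algebraMap O K) := IsFractionRing.injective O K
  have hne : ∀ a : O, a ≠ 0 → algebraMap O K a ≠ 0 :=
    fun a ha h => ha (hinj (by rw [h, map_zero]))
  have hφ0 : ∀ a : O, a ≠ 0 → φ a ≠ 0 := fun a ha h => ha (H.inj (by rw [h, map_zero]))
  have hn' : (0 : ℤ) < n := by exact_mod_cast hn
  obtain ⟨ε, f, hε, hf⟩ := pow_of_mult n (φ h) (hφ0 h hh) (by
    intro p hp
    rcases prime_restr hV H ι hι p hp with h1 | ⟨v, hv, e, he, h1⟩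
    · have h2 := h1 _ (hne h hh)
      rw [hι, V0.ofPrime_algebraMap p hp _ (hφ0 h hh)] at h2
      have h3 : multiplicity p (φ h) = 0 := by exact_mod_cast h2
      rw [h3]
      exact dvd_zero n
    · have h2 := h1 _ (hne h hh)
      rw [hι, V0.ofPrime_algebraMap p hp _ (hφ0 h hh), hD v hv] at h2
      have h3 : (n : ℤ) ∣ (multiplicity p (φ h) : ℤ) := ⟨e * D v, by rw [h2]; ring⟩
      exact_mod_cast h3)
  have hf0 : f ≠ 0 := by
    intro h0
    rw [h0, zero_pow hn.ne', mul_zero] at hf
    exact hφ0 h hh hf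
  -- the cocycle
  have hU : ∀ g : G, ∃ u : MvPowerSeries (Fin d) k,
      lin ((g : GL (Fin d) k) : Matrix (Fin d) (Fin d) k) f = u * f := by
    intro g
    have hgi := lin_cancel' (g : GL (Fin d) k) f
    have hg0 : lin ((g : GL (Fin d) k) : Matrix (Fin d) (Fin d) k) f ≠ 0 := by
      intro h0
      rw [h0, map_zero] at hgi
      exact hf0 hgi.symm
    have h1 : lin ((g : GL (Fin d) k) : Matrix (Fin d) (Fin d) k) (φ h) = φ h :=
      H.inv h (g : GL (Fin d) k) (Subtype.property g)
    have h2 : lin ((g : GL (Fin d) k) : Matrix (Fin d) (Fin d) k) ε *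
        lin ((g : GL (Fin d) k) : Matrix (Fin d) (Fin d) k) f ^ n = ε * f ^ n := by
      rw [← map_pow, ← map_mul, ← hf, h1]
    have h3 : f ∣ lin ((g : GL (Fin d) k) : Matrix (Fin d) (Fin d) k) f := by
      refine dvd_of_primes hf0 (fun p hp => ?_) hg0
      have h4 := congrArg (multiplicity p) h2
      have hgε := hε.map (lin ((g : GL (Fin d) k) : Matrix (Fin d) (Fin d) k))
      rw [multiplicity_mul hp (fin_mult hp (mul_ne_zero hgε.ne_zero (pow_ne_zero n hg0))),
        multiplicity_mul hp (fin_mult hp (mul_ne_zero hε.ne_zero (pow_ne_zero n hf0))),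
        (fin_mult hp hg0).multiplicity_pow hp, (fin_mult hp hf0).multiplicity_pow hp,
        multiplicity_of_isUnit_right hp.not_isUnit hε,
        multiplicity_of_isUnit_right hp.not_isUnit hgε, zero_add, zero_add] at h4
      exact (Nat.eq_of_mul_eq_mul_left hn h4).ge
    obtain ⟨u, hu⟩ := h3
    exact ⟨u, by rw [hu, mul_comm]⟩
  choose U hU using hU
  have hUmul : ∀ g g' : G, U (g * g') =
      lin ((g' : GL (Fin d) k) : Matrix (Fin d) (Fin d) k) (U g) * U g' := by
    intro g g'
    have h1 : lin (((g * g' : G) : GL (Fin d) k) : Matrix (Fin d) (Fin d) k) f =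
        lin ((g' : GL (Fin d) k) : Matrix (Fin d) (Fin d) k)
          (lin ((g : GL (Fin d) k) : Matrix (Fin d) (Fin d) k) f) := by
      rw [lin_lin]
      rfl
    rw [hU, hU, map_mul, hU, ← mul_assoc] at h1
    exact mul_right_cancel₀ hf0 h1
  have hU1 : U 1 = 1 := by
    have h1 := hU 1
    rw [OneMemClass.coe_one, Units.val_one, lin_one] at h1
    have h2 : 1 * f = U 1 * f := by rw [one_mul]; exact h1
    exact (mul_right_cancel₀ hf0 h2).symm
  let χ0 : G →* k :=
    { toFun := fun g => constantCoeff (U g)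
      map_one' := by
        change constantCoeff (U 1) = 1
        rw [hU1, map_one]
      map_mul' := by
        intro g g'
        change constantCoeff (U (g * g')) = _
        rw [hUmul, map_mul, constantCoeff_lin] }
  let χ : G →* kˣ := χ0.toHomUnits
  have hχ : ∀ g, ((χ g : kˣ) : k) = constantCoeff (U g) := fun g => rfl
  have hχn : ∀ g, χ g ^ n = 1 := by
    intro g
    ext
    rw [Units.val_pow_eq_pow_val, hχ, Units.val_one]
    have h1 : lin ((g : GL (Fin d) k) : Matrix (Fin d) (Fin d) k) (φ h) = φ h :=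
      H.inv h (g : GL (Fin d) k) (Subtype.property g)
    rw [hf, map_mul, map_pow, hU, mul_pow, ← mul_assoc] at h1
    have h2 := mul_right_cancel₀ (pow_ne_zero n hf0) h1
    have h3 := congrArg constantCoeff h2
    rw [map_mul, map_pow, constantCoeff_lin] at h3
    have h4 : constantCoeff ε ≠ 0 :=
      ((MvPowerSeries.isUnit_iff_constantCoeff).1 hε).ne_zero
    have h5 : constantCoeff ε * constantCoeff (U g) ^ n = constantCoeff ε * 1 := by
      rw [mul_one]; exact h3
    exact mul_left_cancel₀ h4 h5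
  have hcyc : IsCyclic χ.range := inferInstance
  obtain ⟨c0, hc0⟩ := hcyc.exists_generator
  obtain ⟨g0, hg0⟩ := c0.2
  set n' := orderOf (χ g0) with hn'def
  have hn'dvd : n' ∣ n := orderOf_dvd_of_pow_eq_one (hχn g0)
  have hn'pos : 0 < n' := Nat.pos_of_dvd_of_pos hn'dvd hn
  have hall : ∀ g, χ g ^ n' = 1 := by
    intro g
    obtain ⟨m, hm⟩ := Subgroup.mem_zpowers_iff.1 (hc0 ⟨χ g, ⟨g, rfl⟩⟩)
    have h1 : (c0 : kˣ) ^ m = χ g := congrArg (Subtype.val) hm
    rw [← h1, ← hg0, ← zpow_natCast, ← zpow_mul, mul_comm, zpow_mul, zpow_natCast,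
      hn'def, pow_orderOf_eq_one, one_zpow]
  rcases (Nat.le_of_dvd hn hn'dvd).lt_or_eq with hlt | heq
  · exfalso
    apply hmin n' hn'pos hlt
    -- the invariant function
    set q : k := (Fintype.card G : k)⁻¹ with hq
    have hcard : (Fintype.card G : k) ≠ 0 := by exact_mod_cast Fintype.card_ne_zero
    set W : MvPowerSeries (Fin d) k := q • ∑ g : G, U g ^ n' with hW
    have hWc : constantCoeff W = 1 := by
      rw [hW, MvPowerSeries.constantCoeff_smul, map_sum]
      have h1 : ∀ g : G, constantCoeff (U g ^ n') = 1 := by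
        intro g
        rw [map_pow, ← hχ, ← Units.val_pow_eq_pow_val, hall g, Units.val_one]
      rw [Finset.sum_congr rfl fun g _ => h1 g, Finset.sum_const, Finset.card_univ, nsmul_eq_mul,
        mul_one, smul_eq_mul, hq, inv_mul_cancel₀ hcard]
    have hWu : IsUnit W := by
      rw [MvPowerSeries.isUnit_iff_constantCoeff, hWc]
      exact isUnit_one
    set F : MvPowerSeries (Fin d) k := W * f ^ n' with hF
    have hFinv : F ∈ invS G := by
      have h1 : F = q • ∑ g : G, lin ((g : GL (Fin d) k) : Matrix (Fin d) (Fin d) k) (f ^ n') := by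
        rw [hF, hW, smul_mul_assoc, Finset.sum_mul]
        congr 1
        refine Finset.sum_congr rfl fun g _ => ?_
        rw [map_pow, hU, mul_pow]
      rw [h1]
      exact Subalgebra.smul_mem _ (sum_lin_mem G _) q
    obtain ⟨εi, hεi⟩ := hε.exists_right_inv
    have hεiu : IsUnit εi := IsUnit.of_mul_eq_one ε (by rw [mul_comm]; exact hεi)
    have hFN : F ^ n = (W ^ n * εi ^ n') * φ (h ^ n') := by
      rw [map_pow, hf, hF, mul_pow, mul_pow, ← pow_mul, ← pow_mul, mul_comm n' n]
      have : εi ^ n' * ε ^ n' = 1 := by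
        rw [← mul_pow, mul_comm, hεi, one_pow]
      calc W ^ n * f ^ (n * n') = W ^ n * (εi ^ n' * ε ^ n') * f ^ (n * n') := by
            rw [this, mul_one]
        _ = _ := by ring
    have hDn : ∀ v ∈ V, 0 ≤ D v := by
      intro v hv
      have h1 := hV.nonneg v hv h
      rw [hD v hv] at h1
      exact nonneg_of_mul_nonneg_right h1 hn'
    obtain ⟨z, hz0, hz⟩ := descent hV H ι hι (fun v => n' * D v)
      (fun v hv => mul_nonneg (by positivity) (hDn v hv)) F hFinv n hn (h ^ n')
      (pow_ne_zero _ hh) (W ^ n * εi ^ n') ((hWu.pow n).mul (hεiu.pow n')) hFN (by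
        intro v hv
        have h1 : v.ord (algebraMap O K (h ^ n')) = n' * v.ord (algebraMap O K h) := by
          rw [map_pow]; exact v.toV0.ord_pow _ _
        rw [h1, hD v hv]
        ring)
    exact ⟨algebraMap O K z, hne z hz0, hz⟩
  · refine ⟨f, ε, hε, hf, g0, Subtype.property g0, U g0, hU g0, ?_⟩
    rw [← hχ, IsPrimitiveRoot.coe_units_iff, ← heq, hn'def]
    exact IsPrimitiveRoot.orderOf _

end Run7.h342
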