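import Pool.Agent.Run7.h342.IDX

/-!
# Jacobians of functions on a quasi-etale quotient
-/

set_option autoImplicit false
set_option linter.unusedSectionVars false

noncomputable section

namespace Run7.h342

open MvPowerSeries IsLocalRing

variable {k : Type} [Field k] {d : ℕ}

theorem dvd_of_coeff (D : Derivation k (MvPowerSeries (Fin d) k) (MvPowerSeries (Fin d) k))
    (p f : MvPowerSeries (Fin d) k) (P : Polynomial (MvPowerSeries (Fin d) k))
    (hc : ∀ i, p ∣ D (P.coeff i)) :
    p ∣ D (P.eval f) - P.derivative.eval f * D f := by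
  have h1 : D (P.eval f) = ∑ i ∈ Finset.range (P.natDegree + 1),
      (P.coeff i * D (f ^ i) + f ^ i * D (P.coeff i)) := by
    rw [Polynomial.eval_eq_sum_range, map_sum]
    refine Finset.sum_congr rfl fun i _ => ?_
    rw [Derivation.leibniz]
    rfl
  have h2 : P.derivative.eval f * D f = ∑ i ∈ Finset.range (P.natDegree + 1),
      P.coeff i * D (f ^ i) := by
    rw [Polynomial.derivative_eval, Polynomial.sum_over_range _ (by intro n; simp),
      Finset.sum_mul]
    refine Finset.sum_congr rfl fun i _ => ?_
    rw [Derivation.leibniz_pow]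
    simp only [nsmul_eq_mul, smul_eq_mul]
    ring
  rw [h1, h2, ← Finset.sum_sub_distrib]
  refine Finset.dvd_sum fun i _ => ?_
  rw [add_sub_cancel_left]
  exact Dvd.dvd.mul_left (hc i) _

theorem constantCoeff_pderiv_mul (p c : MvPowerSeries (Fin d) k) (j : Fin d)
    (hp : constantCoeff p = 0) :
    constantCoeff (pderiv k j (p * c)) = constantCoeff c * constantCoeff (pderiv k j p) := by
  rw [Derivation.leibniz, map_add, smul_eq_mul, smul_eq_mul, map_mul, map_mul, hp, zero_mul,
    zero_add]

/-- a linear automorphism which is not a pseudo-reflection is unramified in codimension one -/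
theorem unram (g : Matrix (Fin d) (Fin d) k) (hg : 2 ≤ (g - 1).rank)
    (p : MvPowerSeries (Fin d) k) (hp : Prime p) :
    ∃ i, ¬ p ∣ lin g (X i) - X i := by
  by_contra hcon
  push Not at hcon
  have hp0 : constantCoeff p = 0 := by
    by_contra h
    exact hp.not_isUnit ((MvPowerSeries.isUnit_iff_constantCoeff).2 (isUnit_iff_ne_zero.2 h))
  choose c hc using hcon
  have h1 : g - 1 = Matrix.vecMulVec (fun i => constantCoeff (c i))
      (fun j => constantCoeff (pderiv k j p)) := by
    ext i j
    rw [Matrix.vecMulVec_apply, ← constantCoeff_pderiv_mul p (c i) j hp0, ← hc i, map_sub,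
      lin_X, map_sum, map_sub, map_sum]
    have h2 : ∀ l, constantCoeff (pderiv k j (g i l • (X l : MvPowerSeries (Fin d) k))) =
        if l = j then g i l else 0 := by
      intro l
      rw [Derivation.map_smul, pderiv_X, MvPowerSeries.constantCoeff_smul]
      by_cases hl : l = j
      · rw [if_pos hl, hl, Pi.single_eq_same, map_one, smul_eq_mul, mul_one]
      · rw [if_neg hl, Pi.single_eq_of_ne hl, map_zero, smul_zero]
    rw [Finset.sum_congr rfl fun l _ => h2 l, Finset.sum_ite_eq' Finset.univ j,
      if_pos (Finset.mem_univ j), pderiv_X]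
    by_cases hij : i = j
    · rw [hij, Pi.single_eq_same, map_one, Matrix.sub_apply, Matrix.one_apply_eq]
    · rw [Pi.single_eq_of_ne hij, map_zero, Matrix.sub_apply, Matrix.one_apply_ne hij]
  rw [h1] at hg
  have := Matrix.rank_vecMulVec_le (fun i => constantCoeff (c i))
      (fun j => constantCoeff (pderiv k j p))
  omega

/-- Krull's intersection theorem modulo a prime element -/
theorem krull_prime (p : MvPowerSeries (Fin d) k) (hp : Prime p) (x : MvPowerSeries (Fin d) k)
    (hx : ∀ N : ℕ, ∃ y ∈ maximalIdeal (MvPowerSeries (Fin d) k) ^ N, p ∣ x - y) : p ∣ x := by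
  have hP : (Ideal.span {p}).IsPrime := (Ideal.span_singleton_prime hp.ne_zero).2 hp
  have : IsDomain (MvPowerSeries (Fin d) k ⧸ Ideal.span {p}) := Ideal.Quotient.isDomain _
  have : Nontrivial (MvPowerSeries (Fin d) k ⧸ Ideal.span {p}) := inferInstance
  set π := Ideal.Quotient.mk (Ideal.span {p}) with hπ
  set I := (maximalIdeal (MvPowerSeries (Fin d) k)).map π with hI
  have hsur : Function.Surjective π := Ideal.Quotient.mk_surjective
  have hItop : I ≠ ⊤ := by
    intro h
    have h1 : (1 : MvPowerSeries (Fin d) k ⧸ Ideal.span {p}) ∈ I := h ▸ Submodule.mem_top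
    rw [hI, Ideal.mem_map_iff_of_surjective π hsur] at h1
    obtain ⟨y, hy, hy1⟩ := h1
    have h2 : y - 1 ∈ Ideal.span {p} := by
      rw [← Ideal.Quotient.eq_zero_iff_mem, map_sub, map_one]
      change π y - 1 = 0
      rw [hy1, sub_self]
    have h3 : Ideal.span {p} ≤ maximalIdeal (MvPowerSeries (Fin d) k) :=
      le_maximalIdeal hP.ne_top
    have h4 : (1 : MvPowerSeries (Fin d) k) ∈ maximalIdeal (MvPowerSeries (Fin d) k) := by
      have := sub_mem hy (h3 h2)
      rwa [sub_sub_cancel] at this
    exact (maximalIdeal.isMaximal (MvPowerSeries (Fin d) k)).ne_top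
      ((Ideal.eq_top_iff_one _).2 h4)
  have h1 : π x ∈ (⨅ i : ℕ, I ^ i : Ideal _) := by
    rw [Ideal.mem_iInf]
    intro N
    obtain ⟨y, hy, hxy⟩ := hx N
    have h2 : π x = π y := by
      rw [hπ, Ideal.Quotient.eq, Ideal.mem_span_singleton]
      exact hxy
    rw [h2, hI, ← Ideal.map_pow]
    exact Ideal.mem_map_of_mem π hy
  rw [Ideal.iInf_pow_eq_bot_of_isDomain I hItop] at h1
  have h2 : π x = 0 := h1
  rw [hπ, Ideal.Quotient.eq_zero_iff_mem, Ideal.mem_span_singleton] at h2
  exact h2

/-- from vanishing of all Jacobians modulo `p` to a derivation -/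
theorem exists_derivation {T : Type} (F : T → MvPowerSeries (Fin d) k)
    (p : MvPowerSeries (Fin d) k) (hp : Prime p)
    (h : ∀ z : Fin d → T, p ∣ Matrix.det (Matrix.of fun i j => pderiv k i (F (z j)))) :
    ∃ lam : Fin d → MvPowerSeries (Fin d) k, (∃ i, ¬ p ∣ lam i) ∧
      ∀ t, p ∣ ∑ i, lam i * pderiv k i (F t) := by
  classical
  have hP : (Ideal.span {p}).IsPrime := (Ideal.span_singleton_prime hp.ne_zero).2 hp
  have : IsDomain (MvPowerSeries (Fin d) k ⧸ Ideal.span {p}) := Ideal.Quotient.isDomain _
  set π := Ideal.Quotient.mk (Ideal.span {p}) with hπ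
  have hπ0 : ∀ x, π x = 0 ↔ p ∣ x := fun x => by
    rw [hπ, Ideal.Quotient.eq_zero_iff_mem, Ideal.mem_span_singleton]
  set A := MvPowerSeries (Fin d) k ⧸ Ideal.span {p} with hA
  set κ := FractionRing A with hκ
  have hinj : Function.Injective (algebraMap A κ) := IsFractionRing.injective A κ
  let vec : T → (Fin d → κ) := fun t i => algebraMap A κ (π (pderiv k i (F t)))
  set W : Submodule κ (Fin d → κ) := Submodule.span κ (Set.range vec) with hW
  have hWne : W ≠ ⊤ := by
    intro htop
    -- extract a basis from the spanning family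
    obtain ⟨z, hz⟩ : ∃ z : Fin d → T, LinearIndependent κ (fun j => vec (z j)) := by
      obtain ⟨b, hb1⟩ : ∃ (b : Module.Basis ((linearIndepOn_empty κ id).extend
          (Set.empty_subset (Set.range vec))) κ (Fin d → κ)), ∀ i, b i ∈ Set.range vec := by
        refine ⟨Module.Basis.ofSpan (K := κ) (s := Set.range vec) (by rw [← hW, htop]), ?_⟩
        intro i
        exact Module.Basis.ofSpan_subset _ ⟨i, rfl⟩
      have hfin : Fintype ((linearIndepOn_empty κ id).extend
          (Set.empty_subset (Set.range vec))) := FiniteDimensional.fintypeBasisIndex b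
      have hcard : Fintype.card ((linearIndepOn_empty κ id).extend
          (Set.empty_subset (Set.range vec))) = d := by
        rw [← Module.finrank_eq_card_basis b, Module.finrank_fin_fun]
      let e := (Fintype.equivFinOfCardEq hcard).symm
      choose z hz using fun i => hb1 i
      refine ⟨fun j => z (e j), ?_⟩
      have h1 : (fun j => vec (z (e j))) = fun j => b (e j) := by
        funext j
        exact hz (e j)
      rw [h1]
      exact b.linearIndependent.comp e e.injective
    have h1 := (hπ0 _).2 (h z)
    rw [RingHom.map_det] at h1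
    have h2 : algebraMap A κ ((π.mapMatrix (Matrix.of fun i j => pderiv k i (F (z j)))).det) = 0 := by
      rw [h1, map_zero]
    rw [RingHom.map_det] at h2
    have h3 : ((algebraMap A κ).mapMatrix (π.mapMatrix
        (Matrix.of fun i j => pderiv k i (F (z j))))) = (Matrix.of fun j => vec (z j)).transpose := by
      ext i j
      rfl
    rw [h3, Matrix.det_transpose] at h2
    have h4 : IsUnit (Matrix.of fun j => vec (z j)) :=
      Matrix.linearIndependent_rows_iff_isUnit.1 hz
    rw [Matrix.isUnit_iff_isUnit_det, h2] at h4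
    exact not_isUnit_zero h4
  obtain ⟨f, hf0, hWf⟩ := Submodule.exists_le_ker_of_lt_top W (lt_top_iff_ne_top.2 hWne)
  -- coefficients of the functional
  let c : Fin d → κ := fun i => f (Pi.single i 1)
  have hfc : ∀ v : Fin d → κ, f v = ∑ i, c i * v i := by
    intro v
    conv_lhs => rw [← Finset.univ_sum_single v]
    rw [map_sum]
    refine Finset.sum_congr rfl fun i _ => ?_
    have : (Pi.single i (v i) : Fin d → κ) = v i • Pi.single i 1 := by
      rw [← Pi.single_smul, smul_eq_mul, mul_one]
    rw [this, map_smul, smul_eq_mul, mul_comm]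
  obtain ⟨⟨b, hb⟩, hbc⟩ := IsLocalization.exist_integer_multiples_of_finite
    (nonZeroDivisors A) c
  have hb0 : b ≠ 0 := nonZeroDivisors.ne_zero hb
  choose a ha using hbc
  choose lam hlam using fun i => Ideal.Quotient.mk_surjective (I := Ideal.span {p}) (a i)
  have hai : ∀ i, algebraMap A κ (a i) = algebraMap A κ b * c i := by
    intro i
    rw [ha i]
    rw [Algebra.smul_def]
  refine ⟨lam, ?_, fun t => ?_⟩
  · by_contra hcon
    push Not at hcon
    apply hf0
    ext i
    rw [LinearMap.comp_apply, LinearMap.zero_comp, LinearMap.zero_apply]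
    have h1 : a i = 0 := by
      rw [← hlam i]
      exact (hπ0 _).2 (hcon i)
    have h2 := hai i
    rw [h1, map_zero] at h2
    rcases mul_eq_zero.1 h2.symm with h3 | h3
    · exact absurd (hinj (by rw [h3, map_zero])) hb0
    · exact h3
  · rw [← hπ0]
    apply hinj
    rw [map_zero, map_sum, map_sum]
    have h1 : f (vec t) = 0 := hWf (Submodule.subset_span ⟨t, rfl⟩)
    rw [hfc] at h1
    have h2 : ∑ i, (algebraMap A κ) (π (lam i * pderiv k i (F t))) =
        algebraMap A κ b * ∑ i, c i * vec t i := by
      rw [Finset.mul_sum]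
      refine Finset.sum_congr rfl fun i _ => ?_
      rw [map_mul, map_mul]
      have h3 : π (lam i) = a i := hlam i
      rw [h3, hai i]
      ring
    rw [h2, h1, mul_zero]

end Run7.h342
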