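import Pool.Agent.Run7.h342.JAC

/-!
# Existence of functions downstairs with a unit Jacobian in codimension one
-/

set_option autoImplicit false
set_option linter.unusedSectionVars false

noncomputable section

namespace Run7.h342

open MvPowerSeries IsLocalRing

variable {k : Type} [Field k] {d : ℕ}

/-- the linear form with coefficients `t` -/
def lf (t : Fin d → k) : MvPowerSeries (Fin d) k := ∑ i, t i • X i

theorem lf_add (s t : Fin d → k) : lf (s + t) = lf s + lf t := by
  simp [lf, add_smul, Finset.sum_add_distrib]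

theorem lf_smul (c : k) (t : Fin d → k) : lf (c • t) = c • lf t := by
  simp [lf, Finset.smul_sum, smul_smul]

theorem lf_single (i : Fin d) : lf (Pi.single i (1 : k)) = X i := by
  classical
  rw [lf, Finset.sum_eq_single i]
  · rw [Pi.single_eq_same, one_smul]
  · intro j _ hj
    rw [Pi.single_eq_of_ne hj, zero_smul]
  · intro h
    exact absurd (Finset.mem_univ i) h

/-- general linear form avoiding finitely many conditions -/
theorem exists_general [Infinite k] (p : MvPowerSeries (Fin d) k) {I : Type} [Finite I]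
    (L : I → (MvPowerSeries (Fin d) k →ₗ[k] MvPowerSeries (Fin d) k))
    (hL : ∀ a, ∃ i, ¬ p ∣ L a (X i)) : ∃ t : Fin d → k, ∀ a, ¬ p ∣ L a (lf t) := by
  classical
  have := Fintype.ofFinite I
  let W : I → Submodule k (Fin d → k) := fun a =>
    { carrier := {t | p ∣ L a (lf t)}
      add_mem' := by
        intro s t hs ht
        change p ∣ L a (lf (s + t))
        rw [lf_add, map_add]
        exact dvd_add hs ht
      zero_mem' := by
        change p ∣ L a (lf 0)
        have : lf (0 : Fin d → k) = 0 := by simp [lf]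
        rw [this, map_zero]
        exact dvd_zero p
      smul_mem' := by
        intro c t ht
        change p ∣ L a (lf (c • t))
        rw [lf_smul, map_smul, Algebra.smul_def]
        exact Dvd.dvd.mul_left ht _ }
  have hW : ∀ a, W a ≠ ⊤ := by
    intro a htop
    obtain ⟨i, hi⟩ := hL a
    have h1 : (Pi.single i (1 : k) : Fin d → k) ∈ W a := htop ▸ Submodule.mem_top
    have h2 : p ∣ L a (lf (Pi.single i (1 : k))) := h1
    rw [lf_single] at h2
    exact hi h2
  have h1 := Submodule.iUnion_ssubset_of_forall_ne_top_of_card_lt Finset.univ W hW (by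
    rw [ENat.card_eq_top_of_infinite]
    exact ENat.natCast_lt_top _)
  rw [Set.ssubset_univ_iff, Ne, Set.eq_univ_iff_forall] at h1
  push Not at h1
  obtain ⟨t, ht⟩ := h1
  refine ⟨t, fun a hcon => ht ?_⟩
  simp only [Finset.mem_univ, Set.iUnion_true, Set.mem_iUnion]
  exact ⟨a, hcon⟩

theorem coeff_prod_mem (G : Subgroup (GL (Fin d) k)) [Fintype G] (f : MvPowerSeries (Fin d) k)
    (i : ℕ) : (∏ g : G, (Polynomial.X - Polynomial.C
      (lin ((g : GL (Fin d) k) : Matrix (Fin d) (Fin d) k) f))).coeff i ∈ invS G := by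
  intro h hh
  have h1 : lin (h : Matrix (Fin d) (Fin d) k) ((∏ g : G, (Polynomial.X - Polynomial.C
      (lin ((g : GL (Fin d) k) : Matrix (Fin d) (Fin d) k) f))).coeff i) =
      ((∏ g : G, (Polynomial.X - Polynomial.C
      (lin ((g : GL (Fin d) k) : Matrix (Fin d) (Fin d) k) f))).map
        (lin (h : Matrix (Fin d) (Fin d) k) : _ →+* MvPowerSeries (Fin d) k)).coeff i := by
    rw [Polynomial.coeff_map]
    rfl
  rw [h1, Polynomial.map_prod]
  congr 1
  have h2 : ∀ g : G, (Polynomial.X - Polynomial.C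
      (lin ((g : GL (Fin d) k) : Matrix (Fin d) (Fin d) k) f)).map
        (lin (h : Matrix (Fin d) (Fin d) k) : _ →+* MvPowerSeries (Fin d) k) =
      Polynomial.X - Polynomial.C
        (lin (((g * ⟨h, hh⟩ : G) : GL (Fin d) k) : Matrix (Fin d) (Fin d) k) f) := by
    intro g
    rw [Polynomial.map_sub, Polynomial.map_X, Polynomial.map_C]
    congr 2
    change lin (h : Matrix (Fin d) (Fin d) k)
      (lin ((g : GL (Fin d) k) : Matrix (Fin d) (Fin d) k) f) = _
    rw [lin_lin]
    rfl
  rw [Finset.prod_congr rfl fun g _ => h2 g]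
  exact Fintype.prod_equiv (Equiv.mulRight (⟨h, hh⟩ : G)) _ _ (fun g => rfl)

/-- a derivation of the power series ring mapping all invariants into the prime ideal `(p)` maps
everything into `(p)` -/
theorem derivation_dvd [Infinite k] (G : Subgroup (GL (Fin d) k)) [Finite G]
    (hG : ∀ g ∈ G, g ≠ 1 → 2 ≤ ((g : Matrix (Fin d) (Fin d) k) - 1).rank)
    (p : MvPowerSeries (Fin d) k) (hp : Prime p)
    (D : Derivation k (MvPowerSeries (Fin d) k) (MvPowerSeries (Fin d) k))
    (hD : ∀ c ∈ invS G, p ∣ D c) (i : Fin d) : p ∣ D (X i) := by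
  classical
  have := Fintype.ofFinite G
  by_contra hcon
  obtain ⟨t, ht⟩ := exists_general p (I := Option {g : G // g ≠ 1})
    (fun a => match a with
      | none => (D : MvPowerSeries (Fin d) k →ₗ[k] MvPowerSeries (Fin d) k)
      | some g => (lin (((g : G) : GL (Fin d) k) : Matrix (Fin d) (Fin d) k)).toLinearMap -
          LinearMap.id) (by
      intro a
      rcases a with _ | ⟨g, hg⟩
      · exact ⟨i, hcon⟩
      · exact unram _ (hG (g : GL (Fin d) k) (Subtype.property g) (fun h => hg (by
          ext1; exact h))) p hp)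
  set f := lf t with hf
  have ht0 : ¬ p ∣ D f := ht none
  have htg : ∀ g : G, g ≠ 1 → ¬ p ∣ lin ((g : GL (Fin d) k) : Matrix (Fin d) (Fin d) k) f - f :=
    fun g hg => ht (some ⟨g, hg⟩)
  set P : Polynomial (MvPowerSeries (Fin d) k) := ∏ g : G, (Polynomial.X - Polynomial.C
      (lin ((g : GL (Fin d) k) : Matrix (Fin d) (Fin d) k) f)) with hP
  set Q : Polynomial (MvPowerSeries (Fin d) k) := ∏ g ∈ Finset.univ.erase (1 : G),
    (Polynomial.X - Polynomial.C
      (lin ((g : GL (Fin d) k) : Matrix (Fin d) (Fin d) k) f)) with hQ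
  have hPQ : P = (Polynomial.X - Polynomial.C f) * Q := by
    rw [hP, ← Finset.mul_prod_erase Finset.univ _ (Finset.mem_univ (1 : G))]
    rw [OneMemClass.coe_one, Units.val_one, lin_one]
  have h0 : P.eval f = 0 := by
    rw [hPQ, Polynomial.eval_mul]
    simp
  have h1 : P.derivative.eval f = Q.eval f := by
    rw [hPQ, Polynomial.derivative_mul]
    simp
  have h2 := dvd_of_coeff D p f P (fun i => hD _ (coeff_prod_mem G f i))
  rw [h0, map_zero, zero_sub, dvd_neg, h1] at h2
  rcases hp.dvd_or_dvd h2 with h3 | h3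
  · rw [hQ, Polynomial.eval_prod] at h3
    obtain ⟨g, hg, h4⟩ := (hp.dvd_finsetProd_iff _).1 h3
    have hg1 : g ≠ 1 := Finset.ne_of_mem_erase hg
    rw [Polynomial.eval_sub, Polynomial.eval_X, Polynomial.eval_C] at h4
    exact htg g hg1 (by rw [← dvd_neg, neg_sub]; exact h4)
  · exact ht0 h3

theorem exists_unit_jac [Infinite k] {O : Type} [CommRing O] [Algebra k O]
    {G : Subgroup (GL (Fin d) k)} [Finite G]
    (hG : ∀ g ∈ G, g ≠ 1 → 2 ≤ ((g : Matrix (Fin d) (Fin d) k) - 1).rank)
    {φ : O →ₐ[k] MvPowerSeries (Fin d) k} (H : LocDat O G φ)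
    (p : MvPowerSeries (Fin d) k) (hp : Prime p) :
    ∃ z : Fin d → O, ¬ p ∣ Matrix.det (Matrix.of fun i j => pderiv k i (φ (z j))) := by
  classical
  by_contra hcon
  push Not at hcon
  obtain ⟨lam, ⟨i, hi⟩, hlam⟩ := exists_derivation (fun x : O => φ x) p hp hcon
  let D : Derivation k (MvPowerSeries (Fin d) k) (MvPowerSeries (Fin d) k) :=
    ∑ i, lam i • pderiv k i
  have hDapp : ∀ x, D x = ∑ i, lam i * pderiv k i x := by
    intro x
    have h1 := congrFun (map_sum (Derivation.coeFnAddMonoidHom (R := k)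
      (A := MvPowerSeries (Fin d) k) (M := MvPowerSeries (Fin d) k))
      (fun i => lam i • pderiv k i) Finset.univ) x
    rw [Finset.sum_apply] at h1
    exact h1
  have hDX : D (X i) = lam i := by
    rw [hDapp, Finset.sum_eq_single i]
    · rw [pderiv_X_self, mul_one]
    · intro j _ hj
      rw [pderiv_X_of_ne hj.symm, mul_zero]
    · intro h
      exact absurd (Finset.mem_univ i) h
  apply hi
  rw [← hDX]
  refine derivation_dvd G hG p hp D (fun c hc => krull_prime p hp _ fun N => ?_) i
  obtain ⟨x, hx⟩ := H.dens c hc (N + 1)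
  refine ⟨D (c - φ x), ?_, ?_⟩
  · rw [hDapp]
    exact Ideal.sum_mem _ fun j _ => Ideal.mul_mem_left _ _ (pderiv_mem_pow j hx)
  · rw [map_sub, sub_sub_cancel, hDapp]
    exact hlam x

end Run7.h342
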