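import Pool.Agent.Run7.h342.JAC2

/-!
# Comparison of the canonical forms
-/

set_option autoImplicit false
set_option linter.unusedSectionVars false

noncomputable section

namespace Run7.h342

open MvPowerSeries IsLocalRing

theorem exists_der_ext {R A K : Type} [CommRing R] [CommRing A] [IsDomain A]
    [Field K] [Algebra R A] [Algebra A K] [Algebra R K] [IsScalarTower R A K]
    [IsFractionRing A K] (d : Derivation R A K) :
    ∃ D : Derivation R K K, ∀ a, D (algebraMap A K a) = d a := by
  let l : Ω[A⁄R] →ₗ[A] K := d.liftKaehlerDifferential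
  have h : ∀ x : nonZeroDivisors A, IsUnit (algebraMap A (Module.End A K) x) := by
    intro x
    rw [Module.End.isUnit_iff]
    have hx : algebraMap A K x ≠ 0 :=
      IsFractionRing.to_map_ne_zero_of_mem_nonZeroDivisors x.2
    constructor
    · intro a b hab
      simp only [Module.algebraMap_end_apply, Algebra.smul_def] at hab
      exact mul_left_cancel₀ hx hab
    · intro a
      refine ⟨(algebraMap A K x)⁻¹ * a, ?_⟩
      simp only [Module.algebraMap_end_apply, Algebra.smul_def]
      field_simp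
  let l' : Ω[K⁄R] →ₗ[A] K :=
    IsLocalizedModule.lift (nonZeroDivisors A) (KaehlerDifferential.map R R A K) l h
  let l'' : Ω[K⁄R] →ₗ[K] K := LinearMap.extendScalarsOfIsLocalization (nonZeroDivisors A) K l'
  refine ⟨l''.compDer (KaehlerDifferential.D R K), fun a => ?_⟩
  have h1 : KaehlerDifferential.D R K (algebraMap A K a) =
      KaehlerDifferential.map R R A K (KaehlerDifferential.D R A a) := by
    simp
  change l' (KaehlerDifferential.D R K (algebraMap A K a)) = d a
  rw [h1]
  have := IsLocalizedModule.lift_apply (nonZeroDivisors A) (KaehlerDifferential.map R R A K) l h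
    (KaehlerDifferential.D R A a)
  rw [this]
  simp [l]

/-- the partial derivatives on the field of fractions of the power series ring -/
theorem exists_partials (k : Type) [Field k] (d : ℕ) :
    ∃ Dl : Fin d → Derivation k (FractionRing (MvPowerSeries (Fin d) k))
      (FractionRing (MvPowerSeries (Fin d) k)),
      ∀ i (f : MvPowerSeries (Fin d) k), Dl i (algebraMap _ _ f) =
        algebraMap (MvPowerSeries (Fin d) k) _ (pderiv k i f) := by
  have h : ∀ i : Fin d, ∃ D : Derivation k (FractionRing (MvPowerSeries (Fin d) k))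
      (FractionRing (MvPowerSeries (Fin d) k)),
      ∀ f : MvPowerSeries (Fin d) k, D (algebraMap _ _ f) =
        algebraMap (MvPowerSeries (Fin d) k) _ (pderiv k i f) := by
    intro i
    obtain ⟨D, hD⟩ := exists_der_ext (R := k) (A := MvPowerSeries (Fin d) k)
      (K := FractionRing (MvPowerSeries (Fin d) k))
      ((Algebra.linearMap (MvPowerSeries (Fin d) k)
        (FractionRing (MvPowerSeries (Fin d) k))).compDer (pderiv k i))
    exact ⟨D, hD⟩
  choose Dl hDl using h
  exact ⟨Dl, hDl⟩

theorem exists_delta {k K L : Type} [Field k] [Field K] [Field L] [Algebra k K] [Algebra k L]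
    {d : ℕ} (ι : K →ₐ[k] L) (Dl : Fin d → Derivation k L L)
    (b : Module.Basis (Fin d) K (Ω[K⁄k])) :
    ∃ Δ : L, ∀ g : Fin d → K, Matrix.det (Matrix.of fun i j => Dl i (ι (g j))) =
      Δ * ι (b.det (fun j => KaehlerDifferential.D k K (g j))) := by
  classical
  let _ : Algebra K L := ι.toRingHom.toAlgebra
  have : IsScalarTower k K L := IsScalarTower.of_algebraMap_eq' (by
    ext x
    exact (ι.commutes x).symm)
  let l : Fin d → (Ω[K⁄k] →ₗ[K] L) := fun i => ((Dl i).compAlgebraMap K).liftKaehlerDifferential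
  have hl : ∀ i x, l i (KaehlerDifferential.D k K x) = Dl i (ι x) := by
    intro i x
    exact Derivation.liftKaehlerDifferential_comp_D _ x
  refine ⟨Matrix.det (Matrix.of fun i m => l i (b m)), fun g => ?_⟩
  set ω : Fin d → Ω[K⁄k] := fun j => KaehlerDifferential.D k K (g j) with hω
  have h1 : (Matrix.of fun i j => Dl i (ι (g j))) =
      (Matrix.of fun i m => l i (b m)) * (ι.toRingHom.mapMatrix (b.toMatrix ω)) := by
    ext i j
    rw [Matrix.mul_apply, Matrix.of_apply, ← hl]
    have h2 : KaehlerDifferential.D k K (g j) = ∑ m, b.repr (ω j) m • b m := (b.sum_repr (ω j)).symm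
    rw [h2, map_sum]
    refine Finset.sum_congr rfl fun m _ => ?_
    rw [map_smul, Algebra.smul_def, mul_comm]
    rfl
  rw [h1, Matrix.det_mul, ← RingHom.map_det, Module.Basis.det_apply]
  rfl

variable {L : Type} [Field L]

theorem V0.ge_alg_zero {w : V0 L} {k : Type} [Field k] [Algebra k L] (D : Derivation k L L) {x y : L}
    (hy : y ≠ 0) (hwy : w.ord y = 0) (hx : w.Ge 0 x) (hDx : w.Ge 0 (D x)) (hDy : w.Ge 0 (D y)) :
    w.Ge 0 (D (x / y)) := by
  have h1 : D (x / y) = (D x * y - x * D y) / y ^ 2 := by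
    rw [Derivation.leibniz_div]
    simp only [smul_eq_mul]
    field_simp
  rw [h1, div_eq_mul_inv]
  have h2 : w.Ge 0 (y ^ 2)⁻¹ := by
    intro _
    rw [w.ord_inv, w.ord_pow, hwy]
    simp
  have hy' : w.Ge 0 y := fun _ => hwy.ge
  have h3 : w.Ge (0 + 0) (D x * y - x * D y) := (hDx.mul hy').sub (hx.mul hDy)
  exact (h3.mul h2).mono (by norm_num)

variable {k K : Type} [Field k] [Infinite k] [Field K] [Algebra k K] {d : ℕ}
  {O : Type} [CommRing O] [IsDomain O] [Algebra k O] [Algebra O K] [IsFractionRing O K]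

/-- `Δ ^ m * a` is a unit -/
theorem unit_delta {V : Set (DVal k K)} (hV : KD O V) {G : Subgroup (GL (Fin d) k)}
    [Finite G] (hG : ∀ g ∈ G, g ≠ 1 → 2 ≤ ((g : Matrix (Fin d) (Fin d) k) - 1).rank)
    {φ : O →ₐ[k] MvPowerSeries (Fin d) k} (H : LocDat O G φ)
    (ι : K →ₐ[k] FractionRing (MvPowerSeries (Fin d) k))
    (hι : ∀ x, ι (algebraMap O K x) = algebraMap _ _ (φ x))
    (Dl : Fin d → Derivation k (FractionRing (MvPowerSeries (Fin d) k))
      (FractionRing (MvPowerSeries (Fin d) k)))
    (hDl : ∀ i (f : MvPowerSeries (Fin d) k), Dl i (algebraMap _ _ f) =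
        algebraMap (MvPowerSeries (Fin d) k) _ (pderiv k i f))
    (b : Module.Basis (Fin d) K (Ω[K⁄k])) (Δ : FractionRing (MvPowerSeries (Fin d) k))
    (hΔ : ∀ g : Fin d → K, Matrix.det (Matrix.of fun i j => Dl i (ι (g j))) =
      Δ * ι (b.det (fun j => KaehlerDifferential.D k K (g j))))
    (hΔ0 : Δ ≠ 0) (a : K) (ha : a ≠ 0) (m : ℕ)
    (hb : ∀ v ∈ V, ∃ c : ℤ, IsOrd b v c ∧ v.ord a + m * c = 0) :
    ∃ s : MvPowerSeries (Fin d) k, IsUnit s ∧ algebraMap _ _ s = Δ ^ m * ι a := by
  classical
  have hinj : Function.Injective (algebraMap O K) := IsFractionRing.injective O K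
  have hι0 : ∀ x : K, x ≠ 0 → ι x ≠ 0 := fun x hx => (map_ne_zero ι).2 hx
  have hSinj : Function.Injective (algebraMap (MvPowerSeries (Fin d) k)
      (FractionRing (MvPowerSeries (Fin d) k))) := IsFractionRing.injective _ _
  refine unit_of_primes (S := MvPowerSeries (Fin d) k) (Δ ^ m * ι a)
    (mul_ne_zero (pow_ne_zero m hΔ0) (hι0 a ha)) fun p hp => ?_
  set w := V0.ofPrime (FractionRing (MvPowerSeries (Fin d) k)) p hp with hw
  rw [w.map_mul _ _ (pow_ne_zero m hΔ0) (hι0 a ha), w.ord_pow]
  obtain ⟨z, hz⟩ := exists_unit_jac hG H p hp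
  set jz := b.det (fun j => KaehlerDifferential.D k K (algebraMap O K (z j))) with hjz
  have h1 : Δ * ι jz = algebraMap (MvPowerSeries (Fin d) k) _
      (Matrix.det (Matrix.of fun i j => pderiv k i (φ (z j)))) := by
    rw [hjz, ← hΔ fun j => algebraMap O K (z j), RingHom.map_det]
    congr 1
    ext i j
    rw [Matrix.of_apply, hι, hDl]
    rfl
  set δ := Matrix.det (Matrix.of fun i j => pderiv k i (φ (z j))) with hδ
  have hδ0 : δ ≠ 0 := fun h => hz (h ▸ dvd_zero p)
  have hδL : algebraMap (MvPowerSeries (Fin d) k)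
      (FractionRing (MvPowerSeries (Fin d) k)) δ ≠ 0 :=
    fun h => hδ0 (hSinj (by rw [h, map_zero]))
  have hwδ : w.ord (algebraMap (MvPowerSeries (Fin d) k) _ δ) = 0 := by
    rw [hw, V0.ofPrime_algebraMap p hp δ hδ0, multiplicity_eq_zero.2 hz]
    rfl
  have hjz0 : jz ≠ 0 := by
    intro h
    rw [h, map_zero, mul_zero] at h1
    exact hδL h1.symm
  have h2 : w.ord Δ + w.ord (ι jz) = 0 := by
    rw [← w.map_mul _ _ hΔ0 (hι0 _ hjz0), h1, hwδ]
  rcases prime_restr hV H ι.toRingHom hι p hp with h | ⟨v, hv, e, he, h⟩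
  · have h3 : w.ord (ι jz) = 0 := h jz hjz0
    have h4 : w.ord (ι a) = 0 := h a ha
    have h5 : w.ord Δ = 0 := by omega
    rw [h4, h5, mul_zero, add_zero]
  · have h3 : w.ord (ι jz) = e * v.ord jz := h jz hjz0
    have h4 : w.ord (ι a) = e * v.ord a := h a ha
    obtain ⟨c, hc, hac⟩ := hb v hv
    have h5 : -c ≤ v.ord jz := hc.2 ⟨fun j => algebraMap O K (z j),
      fun i => hV.nonneg v hv _, hjz0, rfl⟩
    obtain ⟨g, hg, hg0, hgc⟩ := hc.1
    have h6 : w.Ge 0 (Matrix.det (Matrix.of fun i j => Dl i (ι (g j)))) := by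
      have : w.Ge (∑ j : Fin d, 0) (Matrix.det (Matrix.of fun i j => Dl i (ι (g j)))) := by
        refine V0.Ge.det fun i j => ?_
        rw [Matrix.of_apply]
        obtain ⟨x, y, hy0, hy, hxy⟩ := hV.frac v hv (g j) (hg j)
        rw [hxy, map_div₀]
        have hDS : ∀ x : O, w.Ge 0 (Dl i (ι (algebraMap O K x))) := by
          intro x
          rw [hι, hDl]
          exact fun _ => V0.ofPrime_nonneg p hp _
        refine V0.ge_alg_zero (Dl i) (hι0 _ hy0) ?_ ?_ (hDS x) (hDS y)
        · have : w.ord (ι (algebraMap O K y)) = e * v.ord (algebraMap O K y) := h _ hy0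
          rw [this, hy, mul_zero]
        · rw [hι]
          exact fun _ => V0.ofPrime_nonneg p hp _
      rwa [Finset.sum_const_zero] at this
    rw [hΔ] at h6
    have h7 := h6 (mul_ne_zero hΔ0 (hι0 _ hg0))
    rw [w.map_mul _ _ hΔ0 (hι0 _ hg0)] at h7
    have h8 : w.ord (ι (b.det (fun j => KaehlerDifferential.D k K (g j)))) =
      e * v.ord (b.det (fun j => KaehlerDifferential.D k K (g j))) := h _ hg0
    rw [h8, hgc] at h7
    rw [h3] at h2
    have h9 : e * -c ≤ e * v.ord jz := mul_le_mul_of_nonneg_left h5 he.le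
    have h10 : w.ord Δ = e * c := by
      have : e * -c = -(e * c) := by ring
      rw [this] at h7 h9
      omega
    rw [h10, h4]
    calc (m : ℤ) * (e * c) + e * v.ord a = e * (v.ord a + m * c) := by ring
      _ = 0 := by rw [hac, mul_zero]

end Run7.h342
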