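import Pool.Agent.Run7.h342.DEF

/-!
# Valuations of a normal noetherian domain
-/

set_option autoImplicit false
set_option linter.unusedSectionVars false
set_option linter.unusedTactic false

noncomputable section

namespace Run7.h342

/-- The ring theoretic Hartogs lemma. -/
theorem hartogs_prime {R K : Type*} [CommRing R] [IsDomain R] [IsNoetherianRing R]
    [IsIntegrallyClosed R] [Field K] [Algebra R K] [IsFractionRing R K] (φ : K)
    (hφ : φ ∉ (algebraMap R K).range) :
    ∃ P : Ideal R, P.IsPrime ∧ P.height = 1 ∧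
      ∀ b, b ∉ P → algebraMap R K b * φ ∉ (algebraMap R K).range := by
  classical
  let J : R → Ideal R := fun r =>
    { carrier := {a | algebraMap R K a * (algebraMap R K r * φ) ∈ (algebraMap R K).range}
      add_mem' := by
        intro a b ha hb
        simp only [Set.mem_ofPred_eq, map_add, add_mul] at *
        exact add_mem ha hb
      zero_mem' := by simp
      smul_mem' := by
        intro c a ha
        simp only [Set.mem_ofPred_eq, smul_eq_mul, map_mul, mul_assoc] at *
        exact mul_mem ⟨c, rfl⟩ ha }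
  have hJ : ∀ r a, a ∈ J r ↔ algebraMap R K a * (algebraMap R K r * φ) ∈ (algebraMap R K).range :=
    fun r a => Iff.rfl
  have hne : ({I : Ideal R | ∃ r, algebraMap R K r * φ ∉ (algebraMap R K).range ∧ I = J r}).Nonempty :=
    ⟨J 1, 1, by rwa [map_one, one_mul], rfl⟩
  obtain ⟨P, ⟨r, hr, hPr⟩, hmax⟩ := set_has_maximal_iff_noetherian.mpr
    (inferInstanceAs (IsNoetherian R R)) _ hne
  have hPtop : P ≠ ⊤ := by
    intro h
    have h1 : (1 : R) ∈ P := by rw [h]; trivial
    rw [hPr, hJ, map_one, one_mul] at h1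
    exact hr h1
  have hprime : Ideal.IsPrime P := by
    refine ⟨hPtop, ?_⟩
    intro a b hab
    by_contra hc
    push Not at hc
    obtain ⟨ha, hb⟩ := hc
    have h1 : algebraMap R K (b * r) * φ ∉ (algebraMap R K).range := by
      intro h
      apply hb
      rw [hPr, hJ]
      rwa [map_mul, mul_assoc] at h
    have h2 : P ≤ J (b * r) := by
      intro c hc
      rw [hPr, hJ] at hc
      rw [hJ]
      have h3 : algebraMap R K c * (algebraMap R K (b * r) * φ) =
          algebraMap R K b * (algebraMap R K c * (algebraMap R K r * φ)) := by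
        rw [map_mul]; ring
      rw [h3]
      exact mul_mem ⟨b, rfl⟩ hc
    have h3 : a ∈ J (b * r) := by
      rw [hPr, hJ] at hab
      rw [hJ]
      have h4 : algebraMap R K a * (algebraMap R K (b * r) * φ) =
          algebraMap R K (a * b) * (algebraMap R K r * φ) := by
        rw [map_mul, map_mul]; ring
      rwa [h4]
    exact hmax (J (b * r)) ⟨_, h1, rfl⟩ (lt_of_le_of_ne h2 (fun h => ha (by rw [h]; exact h3)))
  have hPbot : P ≠ ⊥ := by
    obtain ⟨s, t, ht, rfl⟩ := IsFractionRing.div_surjective (A := R) φ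
    intro h
    have ht0 : t ≠ 0 := nonZeroDivisors.ne_zero ht
    have ht0' : algebraMap R K t ≠ 0 := by
      rwa [Ne, FaithfulSMul.algebraMap_eq_zero_iff]
    have h1 : t ∈ P := by
      rw [hPr, hJ]
      refine ⟨r * s, ?_⟩
      rw [map_mul]
      field_simp
    rw [h, Ideal.mem_bot] at h1
    exact ht0 h1
  have hex : ∃ π ∈ P, ∃ u, u ∉ P ∧ algebraMap R K π * (algebraMap R K r * φ) = algebraMap R K u := by
    by_contra hc
    push Not at hc
    apply hr
    have hint : IsIntegral R (algebraMap R K r * φ) := by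
      refine isIntegral_of_smul_mem_submodule (P.map (Algebra.linearMap R K)) ?_ ?_ _ ?_
      · intro h
        apply hPbot
        rw [eq_bot_iff]
        intro a ha
        have h1 : algebraMap R K a ∈ Submodule.map (Algebra.linearMap R K) P :=
          Submodule.mem_map_of_mem (f := Algebra.linearMap R K) ha
        rw [h, Submodule.mem_bot, FaithfulSMul.algebraMap_eq_zero_iff] at h1
        exact h1
      · exact Submodule.FG.map _ (IsNoetherian.noetherian P)
      · rintro n ⟨a, ha, rfl⟩
        have h1 := ha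
        rw [hPr] at h1
        obtain ⟨u, hu⟩ := (hJ r a).1 h1
        refine ⟨u, ?_, ?_⟩
        · by_contra hu'
          exact hc a ha u hu' hu.symm
        · change algebraMap R K u = (algebraMap R K r * φ) * algebraMap R K a
          rw [hu]; ring
    obtain ⟨y, hy⟩ := IsIntegrallyClosed.isIntegral_iff.mp hint
    exact ⟨y, hy⟩
  obtain ⟨π, hπ, u, hu, hπu⟩ := hex
  have hmin : P ∈ (Ideal.span {π}).minimalPrimes := by
    refine ⟨⟨hprime, (Ideal.span_singleton_le_iff_mem _).mpr hπ⟩, ?_⟩
    rintro Q ⟨hQ, hQπ⟩ hQP a ha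
    have hπQ : π ∈ Q := hQπ (Ideal.mem_span_singleton_self π)
    have h1 := ha
    rw [hPr] at h1
    obtain ⟨a', ha'⟩ := (hJ r a).1 h1
    have h2 : a * u = π * a' := by
      apply FaithfulSMul.algebraMap_injective R K
      rw [map_mul, map_mul, ← hπu, ha']
      ring
    have h3 : a * u ∈ Q := by
      rw [h2]
      exact Q.mul_mem_right _ hπQ
    rcases hQ.mem_or_mem h3 with h | h
    · exact h
    · exact absurd (hQP h) hu
  refine ⟨P, hprime, ?_, ?_⟩
  · apply le_antisymm
    · exact Ideal.height_le_one_of_isPrincipal_of_mem_minimalPrimes _ P hmin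
    · rw [Order.one_le_iff_ne_zero, Ne, Ideal.height_eq_zero_iff_eq_bot]
      exact hPbot
  · intro b hb hbφ
    apply hb
    rw [hPr, hJ]
    have h3 : algebraMap R K b * (algebraMap R K r * φ) =
        algebraMap R K r * (algebraMap R K b * φ) := by ring
    rw [h3]
    exact mul_mem ⟨r, rfl⟩ hbφ

variable {k K : Type} [Field k] [Field K] [Algebra k K]

theorem DVal.ord_inv (v : DVal k K) (x : K) : v.ord x⁻¹ = - v.ord x := v.toV0.ord_inv x

theorem DVal.ord_one (v : DVal k K) : v.ord 1 = 0 := v.toV0.ord_one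

theorem DVal.ord_div (v : DVal k K) (x y : K) (hx : x ≠ 0) (hy : y ≠ 0) :
    v.ord (x / y) = v.ord x - v.ord y := v.toV0.ord_div x y hx hy

theorem DVal.ord_zpow (v : DVal k K) (x : K) (n : ℤ) : v.ord (x ^ n) = n * v.ord x :=
  v.toV0.ord_zpow x n

/-- a normalized valuation is determined by its valuation ring -/
theorem DVal.ext_of_nonneg {v w : DVal k K} (h : ∀ f : K, f ≠ 0 → (0 ≤ v.ord f ↔ 0 ≤ w.ord f)) :
    v = w := by
  obtain ⟨t, ht0, ht⟩ := v.surj
  have hzero : ∀ f : K, f ≠ 0 → v.ord f = 0 → w.ord f = 0 := by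
    intro f hf hvf
    have h1 := (h f hf).1 hvf.ge
    have h2 := (h f⁻¹ (inv_ne_zero hf)).1 (by rw [v.ord_inv, hvf, neg_zero])
    rw [w.ord_inv] at h2
    omega
  have key : ∀ f : K, f ≠ 0 → w.ord f = v.ord f * w.ord t := by
    intro f hf
    have h1 := hzero (f / t ^ (v.ord f)) (div_ne_zero hf (zpow_ne_zero _ ht0)) (by
      rw [v.ord_div _ _ hf (zpow_ne_zero _ ht0), v.ord_zpow, ht, mul_one, sub_self])
    rw [w.ord_div _ _ hf (zpow_ne_zero _ ht0), w.ord_zpow] at h1
    linarith
  obtain ⟨u, hu0, hu⟩ := w.surj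
  have h1 := key u hu0
  rw [hu] at h1
  have h2 : 0 ≤ w.ord t := (h t ht0).1 (by rw [ht]; exact zero_le_one)
  have h3 : w.ord t = 1 := by
    have h4 : w.ord t ∣ 1 := ⟨v.ord u, by rw [h1]; ring⟩
    exact Int.eq_one_of_dvd_one h2 h4
  refine DVal.ext' fun x hx => ?_
  rw [key x hx, h3, mul_one]

/-- the valuation attached to a discrete valuation ring with fraction field `K` -/
theorem exists_dval_of_dvr (A : Type) [CommRing A] [IsDomain A] [IsDiscreteValuationRing A]
    [Algebra k A] [Algebra A K] [IsScalarTower k A K] [IsFractionRing A K] :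
    ∃ v : DVal k K, ∀ f : K, f ≠ 0 → (0 ≤ v.ord f ↔ f ∈ (algebraMap A K).range) := by
  classical
  obtain ⟨ϖ, hϖ⟩ := IsDiscreteValuationRing.exists_irreducible A
  have hp : Prime ϖ := hϖ.prime
  have hinj : Function.Injective (algebraMap A K) := IsFractionRing.injective A K
  set w := V0.ofPrime K ϖ hp with hw
  have hne : ∀ a : A, a ≠ 0 → algebraMap A K a ≠ 0 :=
    fun a ha h => ha (hinj (by rw [h, map_zero]))
  have hunit : ∀ a : A, IsUnit a → w.ord (algebraMap A K a) = 0 := by
    intro a ha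
    rw [hw, V0.ofPrime_algebraMap ϖ hp a ha.ne_zero,
      multiplicity_of_isUnit_right hp.not_isUnit ha]
    rfl
  refine ⟨⟨w.ord, w.ord_zero, w.map_mul, w.map_add,
    ⟨algebraMap A K ϖ, hne ϖ hϖ.ne_zero, ?_⟩, ?_⟩, ?_⟩
  · rw [hw, V0.ofPrime_algebraMap ϖ hp ϖ hϖ.ne_zero, multiplicity_self]
    rfl
  · intro c hc
    rw [IsScalarTower.algebraMap_apply k A K]
    exact hunit _ ((isUnit_iff_ne_zero.2 hc).map _)
  · intro f hf
    constructor
    · intro h
      change 0 ≤ w.ord f at h
      rcases ValuationRing.isInteger_or_isInteger A f with h1 | ⟨a, ha⟩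
      · exact h1
      · by_cases hu : IsUnit a
        · obtain ⟨u, rfl⟩ := hu
          refine ⟨(↑u⁻¹ : A), ?_⟩
          have h2 : algebraMap A K (↑u⁻¹ : A) * algebraMap A K u = 1 := by
            rw [← map_mul, Units.inv_mul, map_one]
          rw [ha] at h2
          rw [← mul_inv_eq_one₀ hf]
          exact h2
        · exfalso
          have ha0 : a ≠ 0 := by
            rintro rfl
            rw [map_zero] at ha
            exact inv_ne_zero hf ha.symm
          have h2 : a ∈ IsLocalRing.maximalIdeal A := (IsLocalRing.mem_maximalIdeal a).mpr hu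
          rw [(IsDiscreteValuationRing.irreducible_iff_uniformizer ϖ).1 hϖ,
            Ideal.mem_span_singleton] at h2
          have h3 := (V0.ofPrime_pos_iff (L := K) ϖ hp a ha0).2 h2
          rw [ha, V0.ord_inv] at h3
          have h4 : w = V0.ofPrime K ϖ hp := rfl
          rw [← h4] at h3
          omega
    · rintro ⟨a, rfl⟩
      exact V0.ofPrime_nonneg ϖ hp a

/-- the valuations attached to the height one primes of a ring -/
def VO (k K : Type) [Field k] [Field K] [Algebra k K] (O : Type) [CommRing O] [Algebra O K] :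
    Set (DVal k K) :=
  {v | ∃ p : Ideal O, p.IsPrime ∧ p.height = 1 ∧ ∀ f : K, f ≠ 0 →
    (0 ≤ v.ord f ↔ ∃ a b : O, b ∉ p ∧ f = algebraMap O K a / algebraMap O K b)}

variable {O : Type} [CommRing O] [IsDomain O] [IsNoetherianRing O] [IsIntegrallyClosed O]
  [Algebra k O] [Algebra O K] [IsScalarTower k O K] [IsFractionRing O K]

omit [Algebra k O] [IsScalarTower k O K] [IsIntegrallyClosed O] [IsNoetherianRing O] in
theorem vo_zero {v : DVal k K} {p : Ideal O} (hp : p.IsPrime)
    (h : ∀ f : K, f ≠ 0 → (0 ≤ v.ord f ↔ ∃ a b : O, b ∉ p ∧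
      f = algebraMap O K a / algebraMap O K b)) (x : O) (hx : x ≠ 0) :
    v.ord (algebraMap O K x) = 0 ↔ x ∉ p := by
  have hinj : Function.Injective (algebraMap O K) := IsFractionRing.injective O K
  have hne : ∀ a : O, a ≠ 0 → algebraMap O K a ≠ 0 :=
    fun a ha h => ha (hinj (by rw [h, map_zero]))
  constructor
  · intro h0 hxp
    have h1 := (h (algebraMap O K x)⁻¹ (inv_ne_zero (hne x hx))).1 (by
      rw [v.ord_inv, h0, neg_zero])
    obtain ⟨a, b, hb, hab⟩ := h1
    have hb0 : b ≠ 0 := fun hb1 => hb (hb1 ▸ p.zero_mem)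
    apply hb
    have h2 : b = a * x := by
      apply hinj
      have h3 := hne b hb0
      have h4 := hne x hx
      rw [map_mul]
      rw [eq_div_iff h3] at hab
      rw [← hab, inv_mul_eq_div, div_mul_cancel₀ _ h4]
    rw [h2]
    exact p.mul_mem_left _ hxp
  · intro hxp
    have h1 : 0 ≤ v.ord (algebraMap O K x) := (h _ (hne x hx)).2 ⟨x, 1,
      (Ideal.ne_top_iff_one p).1 hp.ne_top, by rw [map_one, div_one]⟩
    have h2 : 0 ≤ v.ord (algebraMap O K x)⁻¹ := (h _ (inv_ne_zero (hne x hx))).2 ⟨1, x, hxp, by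
      rw [map_one, one_div]⟩
    rw [v.ord_inv] at h2
    omega

omit [Algebra k O] [IsScalarTower k O K] [IsIntegrallyClosed O] [IsNoetherianRing O] in
theorem vo_nonneg {v : DVal k K} {p : Ideal O} (hp : p.IsPrime)
    (h : ∀ f : K, f ≠ 0 → (0 ≤ v.ord f ↔ ∃ a b : O, b ∉ p ∧
      f = algebraMap O K a / algebraMap O K b)) (x : O) : 0 ≤ v.ord (algebraMap O K x) := by
  by_cases hx : algebraMap O K x = 0
  · rw [hx, v.ord_zero]
  · exact (h _ hx).2 ⟨x, 1, (Ideal.ne_top_iff_one p).1 hp.ne_top, by rw [map_one, div_one]⟩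

/-- every prime of height one has a valuation -/
theorem exists_vo (p : Ideal O) (hp : p.IsPrime) (hht : p.height = 1) :
    ∃ v : DVal k K, ∀ f : K, f ≠ 0 → (0 ≤ v.ord f ↔ ∃ a b : O, b ∉ p ∧
      f = algebraMap O K a / algebraMap O K b) := by
  let A := Localization.AtPrime p
  let _ : Algebra A K := (IsLocalization.lift (M := p.primeCompl) (g := algebraMap O K)
    (fun y => by
      have hy : (y : O) ≠ 0 := fun h => y.2 (h ▸ p.zero_mem)
      exact (isUnit_iff_ne_zero.2 (fun h => hy ((IsFractionRing.injective O K)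
        (by rw [h, map_zero])))))).toAlgebra
  have hAK : ∀ x : O, algebraMap A K (algebraMap O A x) = algebraMap O K x := fun x =>
    IsLocalization.lift_eq _ x
  have : IsScalarTower O A K := IsScalarTower.of_algebraMap_eq fun x => (hAK x).symm
  have : IsFractionRing A K := IsFractionRing.isFractionRing_of_isDomain_of_isLocalization
    p.primeCompl A K
  have : IsScalarTower k A K := IsScalarTower.of_algebraMap_eq fun c => by
    rw [IsScalarTower.algebraMap_apply k O A, hAK, ← IsScalarTower.algebraMap_apply k O K]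
  have hnoeth : IsNoetherianRing A := IsLocalization.isNoetherianRing p.primeCompl A inferInstance
  have hic : IsIntegrallyClosed A :=
    isIntegrallyClosed_of_isLocalization A p.primeCompl p.primeCompl_le_nonZeroDivisors
  have hdim : ringKrullDim A = 1 := by
    rw [IsLocalization.AtPrime.ringKrullDim_eq_height p, hht]
    rfl
  have hnf : ¬ IsField A := by
    intro hf
    rw [ringKrullDim_eq_zero_of_isField hf] at hdim
    exact absurd hdim (by decide)
  have hle : Ring.KrullDimLE 1 A := by
    rw [Ring.krullDimLE_iff, hdim]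
    rfl
  have hdvr : IsDiscreteValuationRing A := by
    have h5 := (IsDiscreteValuationRing.TFAE A hnf).out 3 0
    apply h5.mp
    refine ⟨hic, IsLocalRing.maximalIdeal _, ⟨?_, inferInstance⟩, ?_⟩
    · intro h
      exact hnf (IsLocalRing.isField_iff_maximalIdeal_eq.mpr h)
    · rintro P ⟨hP, hP'⟩
      exact IsLocalRing.eq_maximalIdeal
        (Ring.krullDimLE_one_iff_of_noZeroDivisors.mp hle P hP hP')
  obtain ⟨v, hv⟩ := exists_dval_of_dvr (k := k) (K := K) A
  refine ⟨v, fun f hf => ?_⟩
  rw [hv f hf]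
  constructor
  · rintro ⟨s, rfl⟩
    obtain ⟨⟨a, b⟩, hab⟩ := IsLocalization.surj p.primeCompl s
    refine ⟨a, b, b.2, ?_⟩
    have hb : algebraMap O K b ≠ 0 := by
      intro h
      exact b.2 ((IsFractionRing.injective O K) (by rw [h, map_zero] : algebraMap O K b =
        algebraMap O K 0) ▸ p.zero_mem)
    rw [eq_div_iff hb, ← hAK, ← hAK, ← map_mul]
    exact congrArg _ hab
  · rintro ⟨a, b, hb, rfl⟩
    refine ⟨IsLocalization.mk' A a (⟨b, hb⟩ : p.primeCompl), ?_⟩
    have hb0 : algebraMap O K b ≠ 0 := by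
      intro h
      exact hb ((IsFractionRing.injective O K) (by rw [h, map_zero] : algebraMap O K b =
        algebraMap O K 0) ▸ p.zero_mem)
    rw [eq_div_iff hb0, ← hAK, ← hAK, ← map_mul]
    congr 1
    exact IsLocalization.mk'_spec A a (⟨b, hb⟩ : p.primeCompl)

theorem kd_VO : KD O (VO k K O) := by
  classical
  have hinj : Function.Injective (algebraMap O K) := IsFractionRing.injective O K
  have hne : ∀ a : O, a ≠ 0 → algebraMap O K a ≠ 0 :=
    fun a ha h => ha (hinj (by rw [h, map_zero]))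
  have huniq : ∀ (v w : DVal k K) (p : Ideal O),
      (∀ f : K, f ≠ 0 → (0 ≤ v.ord f ↔ ∃ a b : O, b ∉ p ∧
        f = algebraMap O K a / algebraMap O K b)) →
      (∀ f : K, f ≠ 0 → (0 ≤ w.ord f ↔ ∃ a b : O, b ∉ p ∧
        f = algebraMap O K a / algebraMap O K b)) → v = w := by
    intro v w p h1 h2
    exact DVal.ext_of_nonneg fun f hf => (h1 f hf).trans (h2 f hf).symm
  have hle : ∀ p q : Ideal O, p.IsPrime → q.IsPrime → p.height = 1 → q.height = 1 → p ≤ q →
      p = q := by
    intro p q hp hq h1 h2 h3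
    by_contra hne
    have h4 : p < q := lt_of_le_of_ne h3 hne
    have h5 := Ideal.height_strict_mono_of_isPrime_of_isPrime h4
    rw [h1, h2] at h5
    exact lt_irrefl _ h5
  refine ⟨?_, ?_, ?_, ?_, ?_, ?_⟩
  · rintro v ⟨p, hp, _, h⟩ x
    exact vo_nonneg hp h x
  · intro z hz
    by_cases hz0 : z = 0
    · exact ⟨0, by rw [hz0, map_zero]⟩
    by_contra hcon
    obtain ⟨P, hP, hht, hb⟩ := hartogs_prime (R := O) z (fun ⟨x, hx⟩ => hcon ⟨x, hx⟩)
    obtain ⟨v, hv⟩ := exists_vo (k := k) (K := K) P hP hht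
    obtain ⟨a, b, hbP, hab⟩ := (hv z hz0).1 (hz v ⟨P, hP, hht, hv⟩)
    apply hb b hbP
    have hb0 : algebraMap O K b ≠ 0 := hne b (fun h => hbP (h ▸ P.zero_mem))
    exact ⟨a, by rw [hab]; field_simp⟩
  · rintro v ⟨p, hp, _, h⟩ z hz
    by_cases hz0 : z = 0
    · refine ⟨0, 1, by rw [map_one]; exact one_ne_zero, by rw [map_one]; exact v.ord_one, ?_⟩
      rw [hz0, map_zero, zero_div]
    · obtain ⟨a, b, hb, hab⟩ := (h z hz0).1 hz
      have hb0 : b ≠ 0 := fun h => hb (h ▸ p.zero_mem)
      exact ⟨a, b, hne b hb0, (vo_zero hp h b hb0).2 hb, hab⟩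
  · have key : ∀ a : O, a ≠ 0 → {v | v ∈ VO k K O ∧ v.ord (algebraMap O K a) ≠ 0}.Finite := by
      intro a ha
      have hfin : (Ideal.span {a}).minimalPrimes.Finite :=
        Ideal.finite_minimalPrimes_of_isNoetherianRing O _
      have hch : ∀ v : DVal k K, ∃ p : Ideal O, v ∈ VO k K O → p.IsPrime ∧ p.height = 1 ∧
          ∀ f : K, f ≠ 0 → (0 ≤ v.ord f ↔ ∃ a b : O, b ∉ p ∧
            f = algebraMap O K a / algebraMap O K b) := by
        intro v
        by_cases hv : v ∈ VO k K O
        · obtain ⟨p, hp⟩ := hv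
          exact ⟨p, fun _ => hp⟩
        · exact ⟨⊥, fun h => absurd h hv⟩
      choose pr hpr using hch
      refine Set.Finite.of_finite_image (f := pr) (hfin.subset ?_) ?_
      · rintro _ ⟨v, ⟨hv, hva⟩, rfl⟩
        obtain ⟨hp, hht, h⟩ := hpr v hv
        have hap : a ∈ pr v := by
          by_contra hcon
          exact hva ((vo_zero hp h a ha).2 hcon)
        refine ⟨⟨hp, (Ideal.span_singleton_le_iff_mem _).mpr hap⟩, ?_⟩
        rintro Q ⟨hQ, hQa⟩ hQP
        have haQ : a ∈ Q := hQa (Ideal.mem_span_singleton_self a)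
        by_contra hnle
        have h4 : Q < pr v := lt_of_le_not_ge hQP hnle
        have h5 := Ideal.height_strict_mono_of_isPrime_of_isPrime h4
        rw [hht, Order.lt_one_iff, Ideal.height_eq_zero_iff_eq_bot] at h5
        rw [h5] at haQ
        exact ha haQ
      · rintro v ⟨hv, _⟩ w ⟨hw, _⟩ hvw
        have h1 := (hpr v hv).2.2
        have h2 := (hpr w hw).2.2
        rw [hvw] at h1
        exact huniq v w _ h1 h2
    intro z hz
    obtain ⟨a, b, hb, hab⟩ := IsFractionRing.div_surjective (A := O) z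
    have hb0 : b ≠ 0 := nonZeroDivisors.ne_zero hb
    have ha0 : a ≠ 0 := by
      intro h
      rw [h, map_zero, zero_div] at hab
      exact hz hab.symm
    refine ((key a ha0).union (key b hb0)).subset ?_
    rintro v ⟨hv, hvz⟩
    by_contra hcon
    rw [Set.mem_union, not_or] at hcon
    obtain ⟨h1, h2⟩ := hcon
    have h3 : v.ord (algebraMap O K a) = 0 := by
      by_contra h
      exact h1 ⟨hv, h⟩
    have h4 : v.ord (algebraMap O K b) = 0 := by
      by_contra h
      exact h2 ⟨hv, h⟩
    apply hvz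
    rw [← hab, v.ord_div _ _ (hne a ha0) (hne b hb0), h3, h4, sub_self]
  · rintro v ⟨p, hp, hht, h⟩ v' ⟨p', hp', hht', h'⟩ hvv
    have hpp : ¬ p ≤ p' := by
      intro hle'
      have := hle p p' hp hp' hht hht' hle'
      rw [this] at h
      exact hvv (huniq v v' p' h h')
    rw [SetLike.not_le_iff_exists] at hpp
    obtain ⟨x, hx, hx'⟩ := hpp
    have hx0 : x ≠ 0 := fun h0 => hx' (h0 ▸ p'.zero_mem)
    refine ⟨x, ?_, hne x hx0, (vo_zero hp' h' x hx0).2 hx'⟩
    have h1 := vo_nonneg hp h x
    have h2 : v.ord (algebraMap O K x) ≠ 0 := fun h0 => (vo_zero hp h x hx0).1 h0 hx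
    omega
  · rintro v ⟨p, hp, hht, h⟩ q hq hq0 hqv x hx
    have hqp : q ≤ p := by
      intro y hy
      by_cases hy0 : y = 0
      · rw [hy0]; exact p.zero_mem
      by_contra hyp
      have := hqv y hy hy0
      rw [(vo_zero hp h y hy0).2 hyp] at this
      exact lt_irrefl _ this
    have hqp' : q = p := by
      by_contra hne'
      have h4 : q < p := lt_of_le_of_ne hqp hne'
      have h5 := Ideal.height_strict_mono_of_isPrime_of_isPrime h4
      rw [hht, Order.lt_one_iff, Ideal.height_eq_zero_iff_eq_bot] at h5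
      exact hq0 h5
    rw [hqp']
    by_contra hxp
    have hx0 : x ≠ 0 := by
      intro h0
      rw [h0, map_zero, v.ord_zero] at hx
      exact lt_irrefl _ hx
    rw [(vo_zero hp h x hx0).2 hxp] at hx
    exact lt_irrefl _ hx

end Run7.h342
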