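import Pool.Agent.Run7.h342.CONJ

/-!
# The local theorem
-/

set_option autoImplicit false
set_option linter.unusedSectionVars false
set_option linter.unusedTactic false

noncomputable section

namespace Run7.h342

open MvPowerSeries IsLocalRing

theorem exists_iota {k K O : Type} [Field k] [Field K] [Algebra k K] {d : ℕ}
    [CommRing O] [IsDomain O] [Algebra k O] [Algebra O K] [IsScalarTower k O K]
    [IsFractionRing O K] (φ : O →ₐ[k] MvPowerSeries (Fin d) k) (hφ : Function.Injective φ) :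
    ∃ ι : K →ₐ[k] FractionRing (MvPowerSeries (Fin d) k),
      ∀ x, ι (algebraMap O K x) = algebraMap _ _ (φ x) := by
  set al := algebraMap (MvPowerSeries (Fin d) k) (FractionRing (MvPowerSeries (Fin d) k))
    with hal
  have hinj : Function.Injective (al.comp (φ : O →+* MvPowerSeries (Fin d) k)) :=
    (IsFractionRing.injective (MvPowerSeries (Fin d) k)
      (FractionRing (MvPowerSeries (Fin d) k))).comp hφ
  let ι0 : K →+* FractionRing (MvPowerSeries (Fin d) k) := IsFractionRing.lift hinj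
  have hι0 : ∀ x, ι0 (algebraMap O K x) = al (φ x) := fun x =>
    IsFractionRing.lift_algebraMap hinj x
  refine ⟨{ ι0 with
    commutes' := fun c => ?_ }, hι0⟩
  change ι0 (algebraMap k K c) = _
  rw [IsScalarTower.algebraMap_apply k O K, hι0, AlgHom.commutes,
    ← IsScalarTower.algebraMap_apply]

variable {k K : Type} [Field k] [CharZero k] [IsAlgClosed k] [Field K] [Algebra k K] {d : ℕ}
  {O : Type} [CommRing O] [IsDomain O] [Algebra k O] [Algebra O K] [IsScalarTower k O K]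
  [IsFractionRing O K]

theorem local_O (htr : Algebra.trdeg k K ≤ d) {V : Set (DVal k K)} (hV : KD O V)
    {G : Subgroup (GL (Fin d) k)}
    [Finite G] (hG : ∀ g ∈ G, g ≠ 1 → 2 ≤ ((g : Matrix (Fin d) (Fin d) k) - 1).rank ∧
      ((g : Matrix (Fin d) (Fin d) k) - 1).rank ≤ 3)
    {φ : O →ₐ[k] MvPowerSeries (Fin d) k} (H : LocDat O G φ)
    (b : Module.Basis (Fin d) K (Ω[K⁄k])) (a : K) (ha : a ≠ 0) (m : ℕ) (hm : 0 < m)
    (hb : ∀ v ∈ V, ∃ c : ℤ, IsOrd b v c ∧ v.ord a + m * c = 0)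
    (D : DVal k K → ℤ) (n : ℕ) (hn : 0 < n) (h : O) (hh : h ≠ 0)
    (hD : ∀ v ∈ V, v.ord (algebraMap O K h) = n * D v)
    (hmin : ∀ n' : ℕ, 0 < n' → n' < n → ¬ ∃ z : K, z ≠ 0 ∧ ∀ v ∈ V, v.ord z = n' * D v)
    (j : ℕ) (hj : 0 < j) (hjn : j < n) :
    ∃ (v : DVal k K) (c e : ℤ), IsDivisorial d v ∧ (∀ x : O, 0 ≤ v.ord (algebraMap O K x)) ∧
      IsOrd b v c ∧ 1 ≤ e ∧ 2 * e * (v.ord a + m * c + m) ≤ 3 * m ∧
      ((n : ℤ) ∣ e * v.ord (algebraMap O K h) - j ∨
        (n : ℤ) ∣ e * v.ord (algebraMap O K h) + j) := by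
  classical
  obtain ⟨ι, hι⟩ := exists_iota (K := K) φ H.inj
  obtain ⟨f, ε, hε, hf, g, hgG, u, hu, hun⟩ := index_char hV H ι.toRingHom hι D n hn h hh hD hmin
  -- diagonalize
  set r := orderOf (⟨g, hgG⟩ : G) with hr
  have hr0 : 0 < r := orderOf_pos _
  have hgr : (g : Matrix (Fin d) (Fin d) k) ^ r = 1 := by
    have h1 : (⟨g, hgG⟩ : G) ^ r = 1 := pow_orderOf_eq_one _
    have h2 : g ^ r = 1 := congrArg Subtype.val h1
    rw [← Units.val_pow_eq_pow_val, h2, Units.val_one]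
  have : NeZero r := ⟨hr0.ne'⟩
  have : NeZero (r : k) := ⟨by exact_mod_cast hr0.ne'⟩
  obtain ⟨ζ, hζ⟩ := HasEnoughRootsOfUnity.exists_primitiveRoot k r
  obtain ⟨C, a', hC⟩ := exists_diag (g : Matrix (Fin d) (Fin d) k) r hr0 hgr ζ hζ
  have hgd : ((C⁻¹ * g * C : GL (Fin d) k) : Matrix (Fin d) (Fin d) k) =
      Matrix.diagonal (fun i => ζ ^ a' i) := by
    rw [mul_assoc, Units.val_mul, Units.val_mul, hC, ← mul_assoc, ← Units.val_mul,
      inv_mul_cancel, Units.val_one, one_mul]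
  set g' : GL (Fin d) k := C⁻¹ * g * C with hg'
  have hg'G : g' ∈ cj C G := mem_cj.2 ⟨g, hgG, rfl⟩
  have H' := locDat_cj H C
  have hfin : Finite (cj C G) := by
    have : (cj C G : Set (GL (Fin d) k)) = (MulAut.conj C⁻¹).toMonoidHom '' (G : Set _) := rfl
    have h1 : Set.Finite (cj C G : Set (GL (Fin d) k)) := by
      rw [this]
      exact Set.Finite.image _ (Set.toFinite _)
    exact h1
  obtain ⟨ι', hι'⟩ := exists_iota (K := K) _ H'.inj
  have hG' : ∀ g ∈ cj C G, g ≠ 1 → 2 ≤ ((g : Matrix (Fin d) (Fin d) k) - 1).rank := by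
    intro g1 hg1 hne
    obtain ⟨g2, hg2, rfl⟩ := mem_cj.1 hg1
    rw [rank_cj]
    refine (hG g2 hg2 fun h0 => hne ?_).1
    rw [h0]
    group
  have hf' : ((lin (C : Matrix (Fin d) (Fin d) k)).comp φ) h =
      lin (C : Matrix (Fin d) (Fin d) k) ε * (lin (C : Matrix (Fin d) (Fin d) k) f) ^ n := by
    change lin _ (φ h) = _
    rw [hf, map_mul, map_pow]
  have hu' : lin (g' : Matrix (Fin d) (Fin d) k) (lin (C : Matrix (Fin d) (Fin d) k) f) =
      lin (C : Matrix (Fin d) (Fin d) k) u * lin (C : Matrix (Fin d) (Fin d) k) f := by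
    rw [hg', lin_cj, hu, map_mul]
  have hun' : IsPrimitiveRoot (constantCoeff (lin (C : Matrix (Fin d) (Fin d) k) u)) n := by
    rw [constantCoeff_lin]
    exact hun
  have main := fun J hJ => diag_local htr hV hG' H' ι' hι' b a ha m hm hb h hh n hn
    (lin (C : Matrix (Fin d) (Fin d) k) f) (lin (C : Matrix (Fin d) (Fin d) k) ε) (hε.map _) hf'
    g' hg'G a' r hr0 ζ hζ hgd (lin (C : Matrix (Fin d) (Fin d) k) u) hu' hun' J hJ
  set ξ := constantCoeff (lin (C : Matrix (Fin d) (Fin d) k) u) with hξ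
  have hn1 : ¬ n ∣ 1 := by
    intro h1
    have := Nat.dvd_one.1 h1
    omega
  obtain ⟨_, _, _, _, _, _, _, _, hnr, _⟩ := main 1 hn1
  obtain ⟨r', hr'⟩ := hnr
  have hrn : r / n = r' := by rw [hr', Nat.mul_div_cancel_left _ hn]
  have hη : IsPrimitiveRoot (ζ ^ (r / n)) n := by
    rw [hrn]
    exact hζ.pow hr0 (by rw [hr', mul_comm])
  set η := ζ ^ (r / n) with hηdef
  have : NeZero n := ⟨hn.ne'⟩
  obtain ⟨J, hJlt, hJ⟩ := hun'.eq_pow_of_pow_eq_one (ξ := η ^ j) (by
    rw [← pow_mul, mul_comm, pow_mul, hη.pow_eq_one, one_pow])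
  have hnJ : ¬ n ∣ J := by
    intro h1
    have h2 : ξ ^ J = 1 := (hun'.pow_eq_one_iff_dvd J).2 h1
    rw [h2] at hJ
    have h3 := hη.dvd_of_pow_eq_one j hJ.symm
    have := Nat.le_of_dvd hj h3
    omega
  have hξr : ξ ^ r = 1 := by
    rw [hr', pow_mul, hun'.pow_eq_one, one_pow]
  have hJ2 : ξ ^ ((r - 1) * J) * η ^ j = 1 := by
    rw [← hJ, ← pow_add]
    have : (r - 1) * J + J = r * J := by
      have : r - 1 + 1 = r := Nat.sub_add_cancel hr0
      calc (r - 1) * J + J = (r - 1 + 1) * J := by ring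
        _ = r * J := by rw [this]
    rw [this, pow_mul, hξr, one_pow]
  have hnJ2 : ¬ n ∣ (r - 1) * J := by
    intro h1
    have h2 : ξ ^ ((r - 1) * J) = 1 := (hun'.pow_eq_one_iff_dvd _).2 h1
    rw [h2, one_mul] at hJ2
    have h3 := hη.dvd_of_pow_eq_one j hJ2
    have := Nat.le_of_dvd hj h3
    omega
  have hη0 : η ≠ 0 := hη.ne_zero hn.ne'
  -- the sum of the weights
  have hsum : ∑ i, (((J * a' i) % r : ℕ) : ℤ) + ∑ i, ((((r - 1) * J * a' i) % r : ℕ) : ℤ) ≤
      3 * r := by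
    have hrk : ((g' : Matrix (Fin d) (Fin d) k) - 1).rank ≤ 3 := by
      rw [hg', rank_cj]
      by_cases h1 : g = 1
      · rw [h1, Units.val_one, sub_self, Matrix.rank_zero]
        omega
      · exact (hG g hgG h1).2
    have h1 : (g' : Matrix (Fin d) (Fin d) k) - 1 = Matrix.diagonal (fun i => ζ ^ a' i - 1) := by
      rw [hgd]
      ext i i'
      by_cases h : i = i'
      · rw [h, Matrix.sub_apply, Matrix.one_apply_eq, Matrix.diagonal_apply_eq,
          Matrix.diagonal_apply_eq]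
      · rw [Matrix.sub_apply, Matrix.one_apply_ne h, Matrix.diagonal_apply_ne _ h,
          Matrix.diagonal_apply_ne _ h, sub_zero]
    rw [h1, Matrix.rank_diagonal, Fintype.card_subtype] at hrk
    rw [← Finset.sum_add_distrib]
    have h2 : ∀ i, (((J * a' i) % r : ℕ) : ℤ) + ((((r - 1) * J * a' i) % r : ℕ) : ℤ) ≤
        if ζ ^ a' i - 1 ≠ 0 then (r : ℤ) else 0 := by
      intro i
      have h3 : (J * a' i + (r - 1) * J * a' i) % r = 0 := by
        have : J * a' i + (r - 1) * J * a' i = r * (J * a' i) := by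
          have : r = r - 1 + 1 := (Nat.sub_add_cancel hr0).symm
          conv_rhs => rw [this]
          ring
        rw [this]
        exact Nat.mul_mod_right r _
      rw [Nat.add_mod] at h3
      have h4 := Nat.mod_lt (J * a' i) hr0
      have h5 := Nat.mod_lt ((r - 1) * J * a' i) hr0
      by_cases h6 : ζ ^ a' i - 1 ≠ 0
      · rw [if_pos h6]
        obtain ⟨q, hq⟩ := Nat.dvd_of_mod_eq_zero h3
        have h7 : q < 2 := by
          by_contra h8
          push Not at h8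
          nlinarith
        have h8 : r * q ≤ r * 1 := Nat.mul_le_mul_left r (by omega)
        rw [mul_one] at h8
        have h9 : J * a' i % r + (r - 1) * J * a' i % r ≤ r := by omega
        exact_mod_cast h9
      · rw [if_neg h6]
        push Not at h6
        have h7 : r ∣ a' i := hζ.dvd_of_pow_eq_one _ (sub_eq_zero.1 h6)
        have h8 : J * a' i % r = 0 := Nat.mod_eq_zero_of_dvd (Dvd.dvd.mul_left h7 _)
        have h9 : (r - 1) * J * a' i % r = 0 := Nat.mod_eq_zero_of_dvd (Dvd.dvd.mul_left h7 _)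
        rw [h8, h9]
        simp
    refine (Finset.sum_le_sum fun i _ => h2 i).trans ?_
    rw [Finset.sum_ite, Finset.sum_const_zero, add_zero, Finset.sum_const, nsmul_eq_mul, mul_comm]
    rw [mul_comm]
    exact mul_le_mul_of_nonneg_right (by exact_mod_cast hrk) (by positivity)
  have hr0' : (0 : ℤ) < r := by exact_mod_cast hr0
  have hm0 : (0 : ℤ) < m := by exact_mod_cast hm
  have fin : ∀ (S X e : ℤ), 2 * S ≤ 3 * r → (r : ℤ) * e * X ≤ m * S → 2 * e * X ≤ 3 * m := by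
    intro S X e h1 h2
    have h3 : (r : ℤ) * (2 * e * X) ≤ r * (3 * m) := by nlinarith
    exact le_of_mul_le_mul_left h3 hr0'
  rcases le_or_gt (2 * ∑ i, (((J * a' i) % r : ℕ) : ℤ)) (3 * r) with hcase | hcase
  · obtain ⟨v, c, e, hv1, hv2, hv3, he, hineq, _, hpow⟩ := main J hnJ
    refine ⟨v, c, e, hv1, hv2, hv3, he, fin _ _ _ hcase hineq, Or.inl ?_⟩
    rw [hJ] at hpow
    rw [← hη.zpow_eq_one_iff_dvd, zpow_sub₀ hη0, hpow, zpow_natCast, div_self (pow_ne_zero _ hη0)]
  · obtain ⟨v, c, e, hv1, hv2, hv3, he, hineq, _, hpow⟩ := main _ hnJ2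
    refine ⟨v, c, e, hv1, hv2, hv3, he, fin _ _ _ (by omega) hineq, Or.inr ?_⟩
    rw [← hη.zpow_eq_one_iff_dvd, zpow_add₀ hη0, hpow, zpow_natCast]
    exact hJ2

end Run7.h342
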