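import Pool.Agent.Run7.h342.DEF

/-!
# Primes of the power series ring and primes of height one below
-/

set_option autoImplicit false
set_option linter.unusedSectionVars false

noncomputable section

namespace Run7.h342

open MvPowerSeries IsLocalRing

instance ufdInst (k : Type) [Field k] (d : ℕ) :
    UniqueFactorizationMonoid (MvPowerSeries (Fin d) k) := ufd_mv k d

variable {k K : Type} [Field k] [Field K] [Algebra k K] {d : ℕ}
  {O : Type} [CommRing O] [IsDomain O] [Algebra k O] [Algebra O K] [IsFractionRing O K]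

section cen

omit [IsDomain O] [Algebra k O] [IsFractionRing O K] in
variable (O) in
/-- centre of a valuation on `O` -/
def cen (v : DVal k K) (hv : ∀ x : O, 0 ≤ v.ord (algebraMap O K x)) : Ideal O where
  carrier := {x | algebraMap O K x = 0 ∨ 0 < v.ord (algebraMap O K x)}
  zero_mem' := Or.inl (map_zero _)
  add_mem' := by
    intro a b ha hb
    by_cases h0 : algebraMap O K (a + b) = 0
    · exact Or.inl h0
    right
    rw [map_add] at h0 ⊢
    rcases ha with ha | ha
    · rw [ha, zero_add] at h0 ⊢
      rcases hb with hb | hb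
      · exact absurd hb h0
      · exact hb
    rcases hb with hb | hb
    · rw [hb, add_zero]
      exact ha
    have h1 : algebraMap O K a ≠ 0 := fun h => by rw [h, v.ord_zero] at ha; exact lt_irrefl _ ha
    have h2 : algebraMap O K b ≠ 0 := fun h => by rw [h, v.ord_zero] at hb; exact lt_irrefl _ hb
    exact lt_of_lt_of_le (lt_min ha hb) (v.map_add _ _ h1 h2 h0)
  smul_mem' := by
    intro c x hx
    by_cases h0 : algebraMap O K (c • x) = 0
    · exact Or.inl h0
    right
    rw [smul_eq_mul, map_mul] at h0 ⊢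
    rcases hx with hx | hx
    · rw [hx, mul_zero] at h0
      exact absurd rfl h0
    rw [v.map_mul _ _ (left_ne_zero_of_mul h0) (right_ne_zero_of_mul h0)]
    have := hv c
    omega

end cen

theorem mem_cen {v : DVal k K} {hv : ∀ x : O, 0 ≤ v.ord (algebraMap O K x)} {x : O} :
    x ∈ cen O v hv ↔ algebraMap O K x = 0 ∨ 0 < v.ord (algebraMap O K x) := Iff.rfl

theorem cen_prime (v : DVal k K) (hv : ∀ x : O, 0 ≤ v.ord (algebraMap O K x)) :
    (cen O v hv).IsPrime := by
  constructor
  · rw [Ne, Ideal.eq_top_iff_one, mem_cen, map_one]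
    rintro (h | h)
    · exact one_ne_zero h
    · have h1 : v.ord 1 = 0 := v.toV0.ord_one
      rw [h1] at h
      exact lt_irrefl _ h
  · intro x y hxy
    rw [mem_cen, map_mul] at hxy
    rw [mem_cen, mem_cen]
    by_contra hcon
    push Not at hcon
    obtain ⟨⟨h1, h2⟩, h3, h4⟩ := hcon
    rcases hxy with h | h
    · exact mul_ne_zero h1 h3 h
    · rw [v.map_mul _ _ h1 h3] at h
      omega

/-- in the ring of invariants a common factor of two elements of `O` is trivial if the elements
are coprime in codimension one -/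
theorem no_common_factor {V : Set (DVal k K)} (hV : KD O V) {G : Subgroup (GL (Fin d) k)}
    [Fintype G] {φ : O →ₐ[k] MvPowerSeries (Fin d) k} (H : LocDat O G φ) (x y : O)
    (hx : x ≠ 0) (hy : y ≠ 0)
    (hxy : ∀ v ∈ V, v.ord (algebraMap O K x) = 0 ∨ v.ord (algebraMap O K y) = 0)
    (p : MvPowerSeries (Fin d) k) (hpx : p ∣ φ x) (hpy : p ∣ φ y) : IsUnit p := by
  have hinj : Function.Injective (algebraMap O K) := IsFractionRing.injective O K
  have hne : ∀ a : O, a ≠ 0 → algebraMap O K a ≠ 0 :=
    fun a ha h => ha (hinj (by rw [h, map_zero]))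
  set N := Fintype.card G with hN
  -- colon ideal statement
  have key : ∀ F ∈ invS G, ∀ Y ∈ invS G, F * φ (y ^ N) = Y * φ (x ^ N) →
      ∃ c ∈ invS G, F = φ (x ^ N) * c := by
    intro F hF Y hY hFY
    obtain ⟨s, z, c, hc, hsum, hz⟩ := H.flat (Fin 1) (fun _ => x ^ N) (fun _ => y ^ N) F hF
      (fun _ => ⟨Y, hY, hFY⟩)
    have hz' : ∀ j, ∃ t : O, z j = x ^ N * t := by
      intro j
      by_cases hzj : z j = 0
      · exact ⟨0, by rw [hzj, mul_zero]⟩
      obtain ⟨q, hq⟩ := hz j 0
      have hz0 := hne _ hzj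
      have hxN := hne _ (pow_ne_zero N hx)
      have hyN := hne _ (pow_ne_zero N hy)
      obtain ⟨t, ht⟩ := hV.mem (algebraMap O K (z j) / algebraMap O K (x ^ N)) (by
        intro v hv
        have h1 : v.ord (algebraMap O K (z j) / algebraMap O K (x ^ N)) =
            v.ord (algebraMap O K (z j)) - v.ord (algebraMap O K (x ^ N)) :=
          v.toV0.ord_div _ _ hz0 hxN
        rw [h1]
        have h2 : v.ord (algebraMap O K (x ^ N)) = N * v.ord (algebraMap O K x) := by
          rw [map_pow]; exact v.toV0.ord_pow _ _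
        have h3 : v.ord (algebraMap O K (y ^ N)) = N * v.ord (algebraMap O K y) := by
          rw [map_pow]; exact v.toV0.ord_pow _ _
        rcases hxy v hv with h4 | h4
        · rw [h2, h4, mul_zero, sub_zero]
          exact hV.nonneg v hv _
        · have h5 := congrArg (fun t => v.ord (algebraMap O K t)) hq
          simp only [map_mul] at h5
          have hq0 : algebraMap O K q ≠ 0 := by
            intro h
            have := congrArg (algebraMap O K) hq
            rw [map_mul, map_mul, h, mul_zero] at this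
            exact mul_ne_zero hz0 hyN this
          rw [v.map_mul _ _ hz0 hyN, v.map_mul _ _ hxN hq0, h3, h4, mul_zero, add_zero] at h5
          have := hV.nonneg v hv q
          omega)
      refine ⟨t, hinj ?_⟩
      rw [map_mul, ht, mul_div_cancel₀ _ hxN]
    choose t ht using hz'
    refine ⟨∑ j, c j * φ (t j), Subalgebra.sum_mem _ fun j _ =>
      Subalgebra.mul_mem _ (hc j) (H.inv _), ?_⟩
    rw [hsum, Finset.mul_sum]
    refine Finset.sum_congr rfl fun j _ => ?_
    conv_lhs => rw [ht j]
    rw [map_mul]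
    ring
  obtain ⟨a', ha'⟩ := hpx
  obtain ⟨b', hb'⟩ := hpy
  have h1 : φ (x ^ N) = nrm G p * nrm G a' := by
    rw [← nrm_mul, ← ha', nrm_inv G (H.inv x), map_pow]
  have h2 : φ (y ^ N) = nrm G p * nrm G b' := by
    rw [← nrm_mul, ← hb', nrm_inv G (H.inv y), map_pow]
  have hφx : φ (x ^ N) ≠ 0 := by
    intro h
    exact pow_ne_zero N hx (H.inj (by rw [h, map_zero]))
  have hNp : nrm G p ≠ 0 := fun h => hφx (by rw [h1, h, zero_mul])
  obtain ⟨c, hc, hc2⟩ := key (nrm G a') (nrm_mem G a') (nrm G b') (nrm_mem G b') (by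
    rw [h1, h2]
    ring)
  have h3 : nrm G p * c = 1 := by
    have h4 : φ (x ^ N) * (nrm G p * c) = φ (x ^ N) * 1 := by
      rw [mul_one]
      conv_rhs => rw [h1, hc2]
      ring
    exact mul_left_cancel₀ hφx h4
  exact isUnit_of_dvd_unit (dvd_nrm G p) (IsUnit.of_mul_eq_one _ h3)

/-- the valuation of a prime element restricts to zero or to a multiple of a valuation in `V` -/
theorem prime_restr {V : Set (DVal k K)} (hV : KD O V) {G : Subgroup (GL (Fin d) k)}
    [Finite G] {φ : O →ₐ[k] MvPowerSeries (Fin d) k} (H : LocDat O G φ)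
    (ι : K →+* FractionRing (MvPowerSeries (Fin d) k))
    (hι : ∀ x, ι (algebraMap O K x) = algebraMap _ _ (φ x))
    (p : MvPowerSeries (Fin d) k) (hp : Prime p) :
    (∀ x : K, x ≠ 0 → (V0.ofPrime (FractionRing (MvPowerSeries (Fin d) k)) p hp).ord (ι x) = 0) ∨
    ∃ v ∈ V, ∃ e : ℤ, 0 < e ∧ ∀ x : K, x ≠ 0 →
      (V0.ofPrime (FractionRing (MvPowerSeries (Fin d) k)) p hp).ord (ι x) = e * v.ord x := by
  classical
  have := Fintype.ofFinite G
  have hinj : Function.Injective (algebraMap O K) := IsFractionRing.injective O K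
  have hne : ∀ a : O, a ≠ 0 → algebraMap O K a ≠ 0 :=
    fun a ha h => ha (hinj (by rw [h, map_zero]))
  set w := V0.ofPrime (FractionRing (MvPowerSeries (Fin d) k)) p hp with hw
  have hφ0 : ∀ a : O, a ≠ 0 → φ a ≠ 0 := fun a ha h => ha (H.inj (by rw [h, map_zero]))
  have hι0 : ∀ x : K, x ≠ 0 → ι x ≠ 0 := fun x hx => (map_ne_zero ι).2 hx
  have hwx : ∀ x : O, x ≠ 0 → (0 < w.ord (ι (algebraMap O K x)) ↔ p ∣ φ x) := by
    intro x hx
    rw [hι]
    exact V0.ofPrime_pos_iff p hp (φ x) (hφ0 x hx)
  have hwn : ∀ x : O, 0 ≤ w.ord (ι (algebraMap O K x)) := by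
    intro x
    rw [hι]
    exact V0.ofPrime_nonneg p hp _
  by_cases hcase : ∀ x : O, x ≠ 0 → ¬ p ∣ φ x
  · left
    intro x hx
    obtain ⟨a, b, hb, hab⟩ := IsFractionRing.div_surjective (A := O) x
    have hb0 : b ≠ 0 := nonZeroDivisors.ne_zero hb
    have ha0 : a ≠ 0 := by
      intro h
      rw [h, map_zero, zero_div] at hab
      exact hx hab.symm
    rw [← hab, map_div₀, w.ord_div _ _ (hι0 _ (hne a ha0)) (hι0 _ (hne b hb0))]
    have h1 := hwn a
    have h2 := hwn b
    have h3 : ¬ 0 < w.ord (ι (algebraMap O K a)) := fun h => hcase a ha0 ((hwx a ha0).1 h)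
    have h4 : ¬ 0 < w.ord (ι (algebraMap O K b)) := fun h => hcase b hb0 ((hwx b hb0).1 h)
    omega
  · right
    push Not at hcase
    obtain ⟨x0, hx0, hpx0⟩ := hcase
    -- the prime below
    let J : Ideal O := (Ideal.span {p}).comap (φ : O →+* MvPowerSeries (Fin d) k)
    have hJ : ∀ x, x ∈ J ↔ p ∣ φ x := fun x => Ideal.mem_span_singleton
    have hJp : J.IsPrime := by
      have : (Ideal.span {p}).IsPrime := (Ideal.span_singleton_prime hp.ne_zero).2 hp
      exact Ideal.comap_isPrime _ _
    have hJ0 : J ≠ ⊥ := by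
      intro h
      have : x0 ∈ J := (hJ x0).2 hpx0
      rw [h] at this
      exact hx0 this
    have hex : ∃ v ∈ V, ∀ x ∈ J, x ≠ 0 → 0 < v.ord (algebraMap O K x) := by
      by_contra hcon
      push Not at hcon
      set T := (hV.fin (algebraMap O K x0) (hne x0 hx0)).toFinset with hT
      have hTm : ∀ v, v ∈ T ↔ v ∈ V ∧ v.ord (algebraMap O K x0) ≠ 0 := by
        intro v
        rw [hT, Set.Finite.mem_toFinset]
        rfl
      let f : DVal k K → Ideal O := fun v =>
        if hv : v ∈ V then cen O v (hV.nonneg v hv) else ⊥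
      have hf : ∀ v ∈ V, ∀ x, x ∈ f v ↔ algebraMap O K x = 0 ∨ 0 < v.ord (algebraMap O K x) := by
        intro v hv x
        simp only [f, dif_pos hv]
        exact mem_cen
      have hnot : ¬ ((J : Set O) ⊆ ⋃ i ∈ (↑T : Set (DVal k K)), f i) := by
        intro hsub
        by_cases hTe : T = ∅
        · rw [hTe] at hsub
          simp only [Finset.coe_empty, Set.mem_empty_iff_false, Set.iUnion_of_empty,
            Set.iUnion_empty] at hsub
          exact hsub ((hJ x0).2 hpx0)
        obtain ⟨v0, hv0⟩ := Finset.nonempty_iff_ne_empty.2 hTe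
        rw [Ideal.subset_union_prime v0 v0 (by
          intro i hi _ _
          have hi' := ((hTm i).1 hi).1
          simp only [f, dif_pos hi']
          exact cen_prime i _)] at hsub
        obtain ⟨v, hv, hle⟩ := hsub
        have hvV := ((hTm v).1 hv).1
        obtain ⟨y, hyJ, hy0, hy⟩ := hcon v hvV
        rcases (hf v hvV y).1 (hle hyJ) with h | h
        · exact hne y hy0 h
        · exact absurd h (not_lt.2 hy)
      rw [Set.not_subset] at hnot
      obtain ⟨y, hyJ, hy⟩ := hnot
      have hy' : ∀ v ∈ T, ¬ y ∈ f v := by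
        intro v hv hcon2
        exact hy (Set.mem_biUnion (show v ∈ (↑T : Set (DVal k K)) from hv) hcon2)
      have hy1 : ∀ v ∈ V, v.ord (algebraMap O K x0) = 0 ∨ v.ord (algebraMap O K y) = 0 := by
        intro v hv
        by_cases h : v.ord (algebraMap O K x0) = 0
        · exact Or.inl h
        right
        have h1 := hy' v ((hTm v).2 ⟨hv, h⟩)
        rw [hf v hv, not_or] at h1
        have h2 := hV.nonneg v hv y
        have h3 := h1.2
        omega
      have hy0 : y ≠ 0 := by
        intro h0
        -- if y = 0 then T must be empty, so x0 is a unit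
        have hTe : T = ∅ := by
          rw [Finset.eq_empty_iff_forall_notMem]
          intro v hv
          have hvV := ((hTm v).1 hv).1
          apply hy' v hv
          rw [hf v hvV, h0, map_zero]
          exact Or.inl rfl
        obtain ⟨t, ht⟩ := hV.mem (algebraMap O K x0)⁻¹ (by
          intro v hv
          have h1 : v.ord (algebraMap O K x0)⁻¹ = - v.ord (algebraMap O K x0) :=
            v.toV0.ord_inv _
          have h2 : v.ord (algebraMap O K x0) = 0 := by
            by_contra h
            have : v ∈ T := (hTm v).2 ⟨hv, h⟩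
            rw [hTe] at this
            exact absurd this (Finset.notMem_empty v)
          rw [h1, h2, neg_zero])
        have h3 : x0 * t = 1 := hinj (by
          rw [map_mul, ht, map_one, mul_inv_cancel₀ (hne x0 hx0)])
        have h4 : IsUnit (φ x0) := (IsUnit.of_mul_eq_one t h3).map φ
        exact hp.not_isUnit (isUnit_of_dvd_unit hpx0 h4)
      exact hp.not_isUnit (no_common_factor hV H x0 y hx0 hy0 hy1 p hpx0 ((hJ y).1 hyJ))
    obtain ⟨v, hv, hvJ⟩ := hex
    have hback : ∀ x, 0 < v.ord (algebraMap O K x) → p ∣ φ x := fun x hx =>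
      (hJ x).1 (hV.ht v hv J hJp hJ0 hvJ x hx)
    have hzero : ∀ z : K, z ≠ 0 → v.ord z = 0 → w.ord (ι z) = 0 := by
      intro z hz hvz
      obtain ⟨a, b, hb0, hb, hab⟩ := hV.frac v hv z hvz.ge
      have ha0 : algebraMap O K a ≠ 0 := by
        intro h
        rw [h, zero_div] at hab
        exact hz hab
      have ha : v.ord (algebraMap O K a) = 0 := by
        have h1 : v.ord z = v.ord (algebraMap O K a) - v.ord (algebraMap O K b) := by
          rw [hab]
          exact v.toV0.ord_div _ _ ha0 hb0
        omega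
      have hva : ∀ a : O, algebraMap O K a ≠ 0 → v.ord (algebraMap O K a) = 0 →
          w.ord (ι (algebraMap O K a)) = 0 := by
        intro a ha0 ha
        have ha1 : a ≠ 0 := fun h => ha0 (by rw [h, map_zero])
        have h1 : ¬ 0 < w.ord (ι (algebraMap O K a)) := by
          intro h
          have h2 := hvJ a ((hJ a).2 ((hwx a ha1).1 h)) ha1
          omega
        have := hwn a
        omega
      rw [hab, map_div₀, w.ord_div _ _ (hι0 _ ha0) (hι0 _ hb0), hva a ha0 ha, hva b hb0 hb]
      rfl
    obtain ⟨t, ht0, ht⟩ := v.surj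
    refine ⟨v, hv, w.ord (ι t), ?_, ?_⟩
    · obtain ⟨a, b, hb0, hb, hab⟩ := hV.frac v hv t (by rw [ht]; exact zero_le_one)
      have ha0 : algebraMap O K a ≠ 0 := by
        intro h
        rw [h, zero_div] at hab
        exact ht0 hab
      have ha : v.ord (algebraMap O K a) = 1 := by
        have h1 : v.ord t = v.ord (algebraMap O K a) - v.ord (algebraMap O K b) := by
          rw [hab]
          exact v.toV0.ord_div _ _ ha0 hb0
        omega
      have ha1 : a ≠ 0 := fun h => ha0 (by rw [h, map_zero])
      rw [hab, map_div₀, w.ord_div _ _ (hι0 _ ha0) (hι0 _ hb0), hzero _ hb0 hb, sub_zero]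
      exact (hwx a ha1).2 (hback a (by rw [ha]; exact one_pos))
    · intro x hx
      have h1 : v.ord (x / t ^ (v.ord x)) = 0 := by
        have h2 : v.ord (x / t ^ (v.ord x)) = v.ord x - v.ord (t ^ (v.ord x)) :=
          v.toV0.ord_div _ _ hx (zpow_ne_zero _ ht0)
        have h3 : v.ord (t ^ (v.ord x)) = v.ord x * v.ord t := v.toV0.ord_zpow _ _
        rw [h2, h3, ht, mul_one, sub_self]
      have h4 := hzero _ (div_ne_zero hx (zpow_ne_zero _ ht0)) h1
      rw [map_div₀, w.ord_div _ _ (hι0 _ hx) (hι0 _ (zpow_ne_zero _ ht0)), map_zpow₀,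
        w.ord_zpow] at h4
      linarith

end Run7.h342
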