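import Pool.Agent.Run7.h342.RES

/-!
# Improving tuples of functions by polynomial relations
-/

set_option autoImplicit false
set_option linter.unusedSectionVars false

noncomputable section

namespace Run7.h342

open MvPolynomial

variable {k K : Type} [Field k] [Field K] [Algebra k K] {d : ℕ}

theorem chain_rule (g : Fin d → K) (P : MvPolynomial (Fin d) k) :
    KaehlerDifferential.D k K (aeval g P) =
      ∑ i, aeval g (pderiv i P) • KaehlerDifferential.D k K (g i) := by
  classical
  induction P using MvPolynomial.induction_on with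
  | C a =>
    rw [MvPolynomial.aeval_C]
    simp
  | add p q hp hq =>
    rw [map_add, map_add, hp, hq, ← Finset.sum_add_distrib]
    refine Finset.sum_congr rfl fun i _ => ?_
    rw [map_add, map_add, add_smul]
  | mul_X p j hp =>
    rw [map_mul, Derivation.leibniz, hp, aeval_X]
    have h1 : ∀ i, aeval g (pderiv i (p * X j)) • KaehlerDifferential.D k K (g i) =
        (aeval g p * (if i = j then 1 else 0)) • KaehlerDifferential.D k K (g i) +
          g j • (aeval g (pderiv i p) • KaehlerDifferential.D k K (g i)) := by
      intro i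
      rw [Derivation.leibniz, map_add, add_smul]
      congr 1
      · rw [smul_eq_mul, map_mul, pderiv_X]
        congr 2
        by_cases h : i = j
        · rw [h, Pi.single_eq_same, if_pos rfl, map_one]
        · rw [Pi.single_eq_of_ne (Ne.symm h), if_neg h, map_zero]
      · rw [smul_eq_mul, map_mul, aeval_X, smul_smul]
    rw [Finset.sum_congr rfl fun i _ => h1 i, Finset.sum_add_distrib, ← Finset.smul_sum]
    congr 1
    rw [Finset.sum_eq_single j]
    · rw [if_pos rfl, mul_one]
    · intro i _ hi
      rw [if_neg hi, mul_zero, zero_smul]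
    · intro h
      exact absurd (Finset.mem_univ j) h

theorem totalDegree_pderiv_lt (P : MvPolynomial (Fin d) k) (i : Fin d) (h : pderiv i P ≠ 0) :
    (pderiv i P).totalDegree < P.totalDegree := by
  have hne : (pderiv i P).support.Nonempty := MvPolynomial.support_nonempty.2 h
  rw [MvPolynomial.totalDegree, Finset.sup_lt_iff (by
    rw [bot_eq_zero]
    obtain ⟨m, hm⟩ := hne
    rw [MvPolynomial.mem_support_iff, MvPolynomial.coeff_pderiv] at hm
    have h1 : m + Finsupp.single i 1 ∈ P.support :=
      MvPolynomial.mem_support_iff.2 (left_ne_zero_of_mul hm)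
    have h2 := MvPolynomial.le_totalDegree h1
    rw [Finsupp.sum_add_index' (by intro; rfl) (by intros; rfl), Finsupp.sum_single_index rfl] at h2
    omega)]
  intro m hm
  rw [MvPolynomial.mem_support_iff, MvPolynomial.coeff_pderiv] at hm
  have h1 : m + Finsupp.single i 1 ∈ P.support :=
    MvPolynomial.mem_support_iff.2 (left_ne_zero_of_mul hm)
  have h2 := MvPolynomial.le_totalDegree h1
  rw [Finsupp.sum_add_index' (by intro; rfl) (by intros; rfl), Finsupp.sum_single_index rfl] at h2
  omega

/-- polynomials in regular functions are regular -/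
theorem aeval_ge (v : DVal k K) (g : Fin d → K) (hg : ∀ i, 0 ≤ v.ord (g i))
    (P : MvPolynomial (Fin d) k) : v.toV0.Ge 0 (aeval g P) := by
  have hw : ∀ c : k, c ≠ 0 → v.toV0.ord (algebraMap k K c) = 0 := v.const
  let A := vring v.toV0 hw
  let g' : Fin d → A := fun i => ⟨g i, fun _ => hg i⟩
  have h1 : (aeval g P : K) = ((aeval g' P : A) : K) :=
    MvPolynomial.aeval_algebraMap_apply (A := A) (B := K) g' P
  rw [h1]
  exact (aeval g' P : A).2

theorem better_tuple [CharZero k] (htr : Algebra.trdeg k K ≤ d) (v : DVal k K)
    (b : Module.Basis (Fin d) K (Ω[K⁄k])) (g : Fin d → K) (hg : ∀ i, 0 ≤ v.ord (g i))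
    (hB : b.det (fun i => KaehlerDifferential.D k K (g i)) ≠ 0) :
    ∃ (l : Fin d) (g' : Fin d → K), (∀ i, v.toV0.Ge 0 (g' i)) ∧ v.toV0.Ge 1 (g' l) ∧
      b.det (fun i => KaehlerDifferential.D k K (g' i)) ≠ 0 ∧
      v.ord (b.det (fun i => KaehlerDifferential.D k K (g' i))) =
        v.ord (b.det (fun i => KaehlerDifferential.D k K (g i))) := by
  classical
  obtain ⟨x1, hx10, hx11⟩ := v.surj
  -- minimal degree relation
  have hex : ∃ n : ℕ, ∃ P : MvPolynomial (Fin d) k, P ≠ 0 ∧
      ¬ (aeval g P ≠ 0 ∧ v.toV0.ord (aeval g P) = 0) ∧ P.totalDegree = n := by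
    obtain ⟨P, hP, h⟩ := exists_rel htr v.toV0 ⟨x1, hx10, by
      change v.ord x1 ≠ 0
      rw [hx11]
      exact one_ne_zero⟩ g
    exact ⟨_, P, hP, h, rfl⟩
  obtain ⟨P, hP0, hPbad, hPdeg⟩ := Nat.find_spec hex
  have hmin : ∀ Q : MvPolynomial (Fin d) k, Q ≠ 0 → Q.totalDegree < P.totalDegree →
      aeval g Q ≠ 0 ∧ v.ord (aeval g Q) = 0 := by
    intro Q hQ hdeg
    by_contra hcon
    refine Nat.find_min hex (m := Q.totalDegree) ?_ ⟨Q, hQ, hcon, rfl⟩
    rw [← hPdeg]
    exact hdeg
  -- a variable on which `P` depends
  obtain ⟨l, hl⟩ : ∃ l, pderiv l P ≠ 0 := by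
    by_contra hcon
    push Not at hcon
    have hc : ∀ m ∈ P.support, m = 0 := by
      intro m hm
      by_contra hne
      obtain ⟨i, hi⟩ : ∃ i, m i ≠ 0 := by
        by_contra h
        push Not at h
        exact hne (Finsupp.ext h)
      have h1 : coeff (m - Finsupp.single i 1) (pderiv i P) = 0 := by rw [hcon i, coeff_zero]
      rw [coeff_pderiv] at h1
      have h2 : m - Finsupp.single i 1 + Finsupp.single i 1 = m :=
        tsub_add_cancel_of_le (by
          rw [Finsupp.single_le_iff]
          omega)
      rw [h2] at h1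
      rcases mul_eq_zero.1 h1 with h3 | h3
      · exact (mem_support_iff.1 hm) h3
      · have h4 : ((((m - Finsupp.single i 1 : Fin d →₀ ℕ) i : ℕ) + 1 : ℕ) : k) = 0 := by
          push_cast
          exact h3
        rw [Nat.cast_eq_zero] at h4
        omega
    have hPC : P = C (coeff 0 P) := by
      ext m
      rw [coeff_C]
      by_cases h : 0 = m
      · rw [if_pos h, h]
      · rw [if_neg h]
        by_contra hne
        exact h (hc m (mem_support_iff.2 hne)).symm
    have hc0 : coeff 0 P ≠ 0 := by
      intro h
      rw [h, C_0] at hPC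
      exact hP0 hPC
    apply hPbad
    rw [hPC, aeval_C]
    exact ⟨(map_ne_zero _).2 hc0, v.const _ hc0⟩
  obtain ⟨hl1, hl2⟩ := hmin _ hl (totalDegree_pderiv_lt P l hl)
  have hdet : b.det (fun i => KaehlerDifferential.D k K (Function.update g l (aeval g P) i)) =
      aeval g (pderiv l P) * b.det (fun i => KaehlerDifferential.D k K (g i)) := by
    have h1 : (fun i => KaehlerDifferential.D k K (Function.update g l (aeval g P) i)) =
        Function.update (fun i => KaehlerDifferential.D k K (g i)) l
          (∑ i, aeval g (pderiv i P) • KaehlerDifferential.D k K (g i)) := by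
      funext i
      by_cases h : i = l
      · rw [h, Function.update_self, Function.update_self, chain_rule]
      · rw [Function.update_of_ne h, Function.update_of_ne h]
    rw [h1, AlternatingMap.map_update_sum, Finset.sum_eq_single l]
    · rw [AlternatingMap.map_update_smul, smul_eq_mul]
      congr 2
      exact Function.update_eq_self l _
    · intro i _ hi
      rw [AlternatingMap.map_update_smul]
      have := AlternatingMap.map_update_self (f := b.det)
        (v := fun i => KaehlerDifferential.D k K (g i)) (i := l) (j := i) (Ne.symm hi)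
      rw [this, smul_zero]
    · intro h
      exact absurd (Finset.mem_univ l) h
  refine ⟨l, Function.update g l (aeval g P), fun i => ?_, ?_, ?_, ?_⟩
  · by_cases h : i = l
    · rw [h, Function.update_self]
      exact aeval_ge v g hg P
    · rw [Function.update_of_ne h]
      exact fun _ => hg i
  · rw [Function.update_self]
    intro h0
    have h1 := aeval_ge v g hg P h0
    by_contra hlt
    apply hPbad
    refine ⟨h0, ?_⟩
    omega
  · rw [hdet]
    exact mul_ne_zero hl1 hB
  · rw [hdet, v.map_mul _ _ hl1 hB, hl2, zero_add]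

end Run7.h342
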