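import Pool.Agent.Run7.h342.WGT

/-!
# Transcendence degrees of residue fields
-/

set_option autoImplicit false
set_option linter.unusedSectionVars false

noncomputable section

namespace Run7.h342

open MvPolynomial

/-- elements of a valued field of transcendence degree at most `d` satisfy a relation modulo the
maximal ideal -/
theorem exists_rel {k K : Type} [Field k] [Field K] [Algebra k K] {d : ℕ}
    (htr : Algebra.trdeg k K ≤ d) (w : V0 K) (hx : ∃ x : K, x ≠ 0 ∧ w.ord x ≠ 0)
    (g : Fin d → K) : ∃ P : MvPolynomial (Fin d) k, P ≠ 0 ∧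
      ¬ (aeval g P ≠ 0 ∧ w.ord (aeval g P) = 0) := by
  by_contra hcon
  push Not at hcon
  have hind : AlgebraicIndependent k g := by
    rw [algebraicIndependent_iff]
    intro P hP
    by_contra h
    exact (hcon P h).1 hP
  have htb : IsTranscendenceBasis k g := by
    apply hind.isTranscendenceBasis_of_trdeg_le_of_finite
    rw [Cardinal.mk_fin]
    exact htr
  have halg := htb.isAlgebraic_field
  obtain ⟨x, hx0, hx⟩ := hx
  apply hx
  refine w.ord_eq_zero_of_algebraic
    (algebraMap (IntermediateField.adjoin k (Set.range g)) K) ?_ hx0 ?_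
  · intro c hc
    obtain ⟨r, s, hrs⟩ := (IntermediateField.mem_adjoin_range_iff k g (c : K)).1 c.2
    change w.ord (c : K) = 0
    have hc' : (c : K) ≠ 0 := by
      intro h
      exact hc (Subtype.ext h)
    have hr : r ≠ 0 := by
      intro h
      rw [h, map_zero, zero_div] at hrs
      exact hc' hrs
    have hs : s ≠ 0 := by
      intro h
      rw [h, map_zero, div_zero] at hrs
      exact hc' hrs
    rw [hrs, w.ord_div _ _ (hcon r hr).1 (hcon s hs).1, (hcon r hr).2, (hcon s hs).2, sub_zero]
  · obtain ⟨P, hP, hP2⟩ := halg.isAlgebraic x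
    exact ⟨P, hP, hP2⟩

theorem indep_of_alg {k κK κ : Type} [Field k] [Field κK] [Field κ] [Algebra k κK]
    [Algebra κK κ] [Algebra k κ] [IsScalarTower k κK κ] {e : ℕ} (ub : Fin e → κ)
    (hub : AlgebraicIndependent k ub) (halg : ∀ i, IsAlgebraic κK (ub i)) :
    ∃ x : Fin e → κK, AlgebraicIndependent k x := by
  let ue : Fin e → algebraicClosure κK κ := fun i => ⟨ub i, mem_algebraicClosure_iff.2 (halg i)⟩
  have hue : AlgebraicIndependent k ue := by
    apply AlgebraicIndependent.of_comp ((algebraicClosure κK κ).val.restrictScalars k)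
    exact hub
  have h1 : (e : Cardinal) ≤ Algebra.trdeg k (algebraicClosure κK κ) := by
    have := hue.cardinalMk_le_trdeg
    rwa [Cardinal.mk_fin] at this
  have h2 : Algebra.trdeg k (algebraicClosure κK κ) = Algebra.trdeg k κK := by
    rw [← trdeg_add_eq k κK (A := algebraicClosure κK κ),
      trdeg_eq_zero (R := κK) (A := algebraicClosure κK κ), add_zero]
  rw [h2] at h1
  obtain ⟨I, x, hx⟩ := exists_isTranscendenceBasis' k κK
  have h3 : (e : Cardinal) ≤ Cardinal.mk I := by
    rwa [hx.cardinalMk_eq_trdeg]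
  rw [← Cardinal.mk_fin e, Cardinal.le_def] at h3
  obtain ⟨emb⟩ := h3
  exact ⟨x ∘ emb, hx.1.comp emb emb.injective⟩

section resid

variable {k K L : Type} [Field k] [Field K] [Field L] [Algebra k K] [Algebra k L]

/-- the valuation ring, as a subalgebra -/
def vring (w : V0 L) (hw : ∀ c : k, c ≠ 0 → w.ord (algebraMap k L c) = 0) : Subalgebra k L where
  carrier := {x | w.Ge 0 x}
  mul_mem' := by
    intro a b ha hb
    exact (V0.Ge.mul ha hb).mono (by norm_num)
  add_mem' := fun ha hb => V0.Ge.add ha hb
  algebraMap_mem' := by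
    intro c h
    have : c ≠ 0 := fun h0 => h (by rw [h0, map_zero])
    rw [hw c this]

/-- the maximal ideal of the valuation ring -/
def vmax (w : V0 L) (hw : ∀ c : k, c ≠ 0 → w.ord (algebraMap k L c) = 0) :
    Ideal (vring w hw) where
  carrier := {x | w.Ge 1 (x : L)}
  add_mem' := fun ha hb => V0.Ge.add ha hb
  zero_mem' := V0.Ge.zero 1
  smul_mem' := by
    intro c x hx
    have h1 : w.Ge 0 (c : L) := c.2
    exact (V0.Ge.mul h1 hx).mono (by norm_num)

theorem mem_vmax {w : V0 L} {hw : ∀ c : k, c ≠ 0 → w.ord (algebraMap k L c) = 0}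
    {x : vring w hw} : x ∈ vmax w hw ↔ w.Ge 1 (x : L) := Iff.rfl

instance vmax_max (w : V0 L) (hw : ∀ c : k, c ≠ 0 → w.ord (algebraMap k L c) = 0) :
    (vmax w hw).IsMaximal := by
  rw [Ideal.isMaximal_iff]
  constructor
  · intro h
    have h1 : w.Ge 1 (1 : L) := h
    have := h1 one_ne_zero
    rw [w.ord_one] at this
    omega
  · intro J x hle hx hxJ
    have hx1 : (x : L) ≠ 0 := by
      intro h
      apply hx
      change w.Ge 1 (x : L)
      rw [h]
      exact V0.Ge.zero 1
    have hx2 : w.ord (x : L) = 0 := by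
      have h1 : w.Ge 0 (x : L) := x.2
      have h2 := h1 hx1
      by_contra hne
      apply hx
      intro _
      omega
    let y : vring w hw := ⟨(x : L)⁻¹, by
      intro _
      rw [w.ord_inv, hx2, neg_zero]⟩
    have : (1 : vring w hw) = y * x := by
      apply Subtype.ext
      change (1 : L) = (x : L)⁻¹ * x
      rw [inv_mul_cancel₀ hx1]
    rw [this]
    exact J.mul_mem_left _ hxJ

theorem exists_indep (ι : K →ₐ[k] L) (w : V0 L)
    (hw : ∀ c : k, c ≠ 0 → w.ord (algebraMap k L c) = 0) {e : ℕ} (u : Fin e → L)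
    (hu : ∀ i, ∃ P : Polynomial K, P ≠ 0 ∧ P.eval₂ (ι : K →+* L) (u i) = 0)
    (hind : ∀ P : MvPolynomial (Fin e) k, P ≠ 0 → aeval u P ≠ 0 ∧ w.ord (aeval u P) = 0) :
    ∃ t : Fin e → K, ∀ P : MvPolynomial (Fin e) k, P ≠ 0 →
      ι (aeval t P) ≠ 0 ∧ w.ord (ι (aeval t P)) = 0 := by
  classical
  have hind0 : ∀ i, u i ≠ 0 ∧ w.ord (u i) = 0 := by
    intro i
    have := hind (X i) (X_ne_zero i)
    rwa [aeval_X] at this
  -- residue fields
  let A := vring w hw
  let m := vmax w hw
  let κ := A ⧸ m
  let _ : Field κ := Ideal.Quotient.field m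
  let AK : Subalgebra k K := A.comap ι
  let f : AK →ₐ[k] A := (ι.comp AK.val).codRestrict A (fun x => x.2)
  let mK : Ideal AK := m.comap f
  have hfval : ∀ x : AK, ((f x : A) : L) = ι (x : K) := fun x => rfl
  have hmK : ∀ x : AK, x ∈ mK ↔ w.Ge 1 (ι (x : K)) := fun x => Iff.rfl
  have hmKmax : mK.IsMaximal := by
    rw [Ideal.isMaximal_iff]
    constructor
    · intro h
      have h1 : w.Ge 1 (ι ((1 : AK) : K)) := h
      have h2 : ι ((1 : AK) : K) = 1 := map_one ι
      rw [h2] at h1
      have := h1 one_ne_zero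
      rw [w.ord_one] at this
      omega
    · intro J x hle hx hxJ
      have hx1 : ι (x : K) ≠ 0 := by
        intro h
        apply hx
        rw [hmK, h]
        exact V0.Ge.zero 1
      have hx1' : (x : K) ≠ 0 := fun h => hx1 (by rw [h, map_zero])
      have hx2 : w.ord (ι (x : K)) = 0 := by
        have h1 : w.Ge 0 (ι (x : K)) := x.2
        have h2 := h1 hx1
        by_contra hne
        apply hx
        intro _
        change 1 ≤ w.ord (ι (x : K))
        omega
      let y : AK := ⟨(x : K)⁻¹, by
        change w.Ge 0 (ι (x : K)⁻¹)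
        intro _
        rw [map_inv₀, w.ord_inv, hx2, neg_zero]⟩
      have : (1 : AK) = y * x := by
        apply Subtype.ext
        change (1 : K) = (x : K)⁻¹ * x
        rw [inv_mul_cancel₀ hx1']
      rw [this]
      exact J.mul_mem_left _ hxJ
  let κK := AK ⧸ mK
  let _ : Field κK := Ideal.Quotient.field mK
  let ψ : κK →ₐ[k] κ := Ideal.quotientMapₐ m f le_rfl
  have hψ : ∀ x : AK, ψ (Ideal.Quotient.mk mK x) = Ideal.Quotient.mk m (f x) := fun x => rfl
  let _ : Algebra κK κ := ψ.toRingHom.toAlgebra
  have hψalg : ∀ x : κK, algebraMap κK κ x = ψ x := fun x => rfl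
  have : IsScalarTower k κK κ := IsScalarTower.of_algebraMap_eq' (by
    ext x
    exact (ψ.commutes x).symm)
  -- residues of `u`
  let uA : Fin e → A := fun i => ⟨u i, fun _ => (hind0 i).2.ge⟩
  let ub : Fin e → κ := fun i => Ideal.Quotient.mk m (uA i)
  have haeval : ∀ P : MvPolynomial (Fin e) k, ((aeval uA P : A) : L) = aeval u P := by
    intro P
    have := MvPolynomial.aeval_algebraMap_apply (A := A) (B := L) uA P
    exact this.symm
  have hub : AlgebraicIndependent k ub := by
    rw [algebraicIndependent_iff]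
    intro P hP
    by_contra h
    obtain ⟨h1, h2⟩ := hind P h
    have h3 : aeval ub P = Ideal.Quotient.mk m (aeval uA P) := by
      have := MvPolynomial.aeval_algebraMap_apply (A := A) (B := κ) uA P
      exact this
    rw [h3, Ideal.Quotient.eq_zero_iff_mem, mem_vmax, haeval] at hP
    have := hP h1
    omega
  -- the residues are algebraic over `κK`
  have halg : ∀ i, IsAlgebraic κK (ub i) := by
    intro i
    obtain ⟨P, hP, hPu⟩ := hu i
    -- choose a coefficient with minimal order
    have hne : P.support.Nonempty := Polynomial.support_nonempty.2 hP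
    obtain ⟨j0, hj0, hmin⟩ := Finset.exists_min_image P.support
      (fun j => w.ord (ι (P.coeff j))) hne
    have hc0 : P.coeff j0 ≠ 0 := Polynomial.mem_support_iff.1 hj0
    have hιc0 : ι (P.coeff j0) ≠ 0 := (map_ne_zero ι).2 hc0
    have hcoef : ∀ j, w.Ge 0 (ι (P.coeff j / P.coeff j0)) := by
      intro j h
      have hj : P.coeff j ≠ 0 := by
        intro h0
        rw [h0, zero_div, map_zero] at h
        exact h rfl
      rw [map_div₀, w.ord_div _ _ ((map_ne_zero ι).2 hj) hιc0]
      have := hmin j (Polynomial.mem_support_iff.2 hj)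
      omega
    let c : ℕ → AK := fun j => ⟨P.coeff j / P.coeff j0, hcoef j⟩
    let Q : Polynomial κK := ∑ j ∈ Finset.range (P.natDegree + 1),
      Polynomial.monomial j (Ideal.Quotient.mk mK (c j))
    have hQc : Q.coeff j0 = Ideal.Quotient.mk mK (c j0) := by
      rw [Polynomial.finsetSum_coeff, Finset.sum_eq_single j0]
      · rw [Polynomial.coeff_monomial, if_pos rfl]
      · intro j _ hj
        rw [Polynomial.coeff_monomial, if_neg hj]
      · intro h
        exfalso
        apply h
        rw [Finset.mem_range]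
        exact Nat.lt_succ_of_le (Polynomial.le_natDegree_of_mem_supp j0 hj0)
    refine ⟨Q, ?_, ?_⟩
    · intro h0
      rw [h0, Polynomial.coeff_zero] at hQc
      have h1 := (Ideal.Quotient.eq_zero_iff_mem).1 hQc.symm
      rw [hmK] at h1
      have h2 : ((c j0 : AK) : K) = 1 := div_self hc0
      rw [h2, map_one] at h1
      have := h1 one_ne_zero
      rw [w.ord_one] at this
      omega
    · have h1 : Polynomial.aeval (ub i) Q = Ideal.Quotient.mk m
          (∑ j ∈ Finset.range (P.natDegree + 1), f (c j) * uA i ^ j) := by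
        rw [map_sum, map_sum]
        refine Finset.sum_congr rfl fun j _ => ?_
        rw [Polynomial.aeval_monomial, map_mul, map_pow]
        rfl
      rw [h1]
      have h2 : (∑ j ∈ Finset.range (P.natDegree + 1), f (c j) * uA i ^ j : A) = 0 := by
        apply Subtype.ext
        rw [AddSubmonoidClass.coe_finsetSum]
        have h3 : ∀ j, ((f (c j) * uA i ^ j : A) : L) =
            (ι (P.coeff j0))⁻¹ * (ι (P.coeff j) * u i ^ j) := by
          intro j
          change ι (P.coeff j / P.coeff j0) * u i ^ j = _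
          rw [map_div₀]
          ring
        rw [Finset.sum_congr rfl fun j _ => h3 j, ← Finset.mul_sum]
        have h4 : ∑ j ∈ Finset.range (P.natDegree + 1), ι (P.coeff j) * u i ^ j = 0 := by
          rw [← hPu, Polynomial.eval₂_eq_sum_range]
          rfl
        rw [h4, mul_zero]
        rfl
      rw [h2, map_zero]
  obtain ⟨x, hy⟩ := indep_of_alg ub hub halg
  choose t ht using fun i => Ideal.Quotient.mk_surjective (I := mK) (x i)
  refine ⟨fun i => (t i : K), fun P hP => ?_⟩
  have h4 : (aeval (fun i => (t i : K)) P : K) = ((aeval t P : AK) : K) := by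
    have := MvPolynomial.aeval_algebraMap_apply (A := AK) (B := K) t P
    exact this
  have h5 : aeval x P = Ideal.Quotient.mk mK (aeval t P) := by
    have := MvPolynomial.aeval_algebraMap_apply (A := AK) (B := κK) t P
    have h6 : (algebraMap AK κK ∘ t) = x := by
      funext i
      exact ht i
    rw [← h6]
    exact this
  have h6 : aeval x P ≠ 0 := fun h => hP ((algebraicIndependent_iff.1 hy) P h)
  have h7 : ¬ w.Ge 1 (ι ((aeval t P : AK) : K)) := by
    intro h
    apply h6
    rw [h5, Ideal.Quotient.eq_zero_iff_mem]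
    exact h
  rw [h4]
  have h8 : ι ((aeval t P : AK) : K) ≠ 0 := by
    intro h
    apply h7
    rw [h]
    exact V0.Ge.zero 1
  refine ⟨h8, ?_⟩
  have h9 : w.Ge 0 (ι ((aeval t P : AK) : K)) := (aeval t P : AK).2
  have h10 := h9 h8
  by_contra hne
  apply h7
  intro _
  omega

end resid

end Run7.h342
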