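import Pool.Agent.Run7.h342.SDEF

/-!
# Charts of a model
-/

set_option autoImplicit false

noncomputable section

namespace Run7.h342

open AlgebraicGeometry CategoryTheory

variable {k K : Type} [Field k] [Field K] [Algebra k K]

/-- Affine charts. -/
theorem Model.exists_chart (M : Model k K) (y : M.X) :
    ∃ (A : Type) (_ : CommRing A) (_ : IsDomain A) (_ : Algebra k A) (_ : Algebra A K)
      (_ : IsScalarTower k A K) (_ : Algebra.FiniteType k A) (_ : IsFractionRing A K)
      (pt : PrimeSpectrum A → M.X) (q : PrimeSpectrum A), pt q = y ∧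
      (∀ p p' : PrimeSpectrum A, p ≤ p' → pt p ⤳ pt p') ∧
      (∀ (p : PrimeSpectrum A) (f : K), f ∈ M.loc (pt p) ↔
        ∃ a b : A, b ∉ p.asIdeal ∧ f = algebraMap A K a / algebraMap A K b) := by
  obtain ⟨U, hU, hyU, -⟩ := exists_isAffineOpen_mem_and_subset (X := M.X) (x := y) (U := ⊤) trivial
  have hneU : Nonempty U := ⟨⟨y, hyU⟩⟩
  have htop : U ≤ M.str ⁻¹ᵁ ⊤ := le_top
  let ι0 : k →+* Γ(M.X, U) := (M.str.appLE ⊤ U htop).hom.comp
    (Scheme.ΓSpecIso (CommRingCat.of k)).inv.hom
  let _ : Algebra k Γ(M.X, U) := ι0.toAlgebra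
  have hft : ι0.FiniteType := by
    have h1 : (M.str.appLE ⊤ U htop).hom.FiniteType :=
      M.str.finiteType_appLE (isAffineOpen_top _) hU htop
    refine h1.comp (RingHom.FiniteType.of_surjective _ ?_)
    exact (ConcreteCategory.bijective_of_isIso (Scheme.ΓSpecIso (CommRingCat.of k)).inv).2
  have hft' : Algebra.FiniteType k Γ(M.X, U) := hft
  have hfr := functionField_isFractionRing_of_isAffineOpen M.X U hU
  let ψ0 : Γ(M.X, U) →+* K := (M.toK : M.X.functionField →+* K).comp
    (algebraMap Γ(M.X, U) M.X.functionField)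
  have hψ0 : ∀ a : k, ψ0 (ι0 a) = algebraMap k K a := by
    intro a
    rw [← M.toK_const a]
    refine congrArg M.toK ?_
    have hg := (genericPoint_spec M.X).mem_open_set_iff U.isOpen
    exact M.X.presheaf.germ_res_apply (homOfLE (le_top : U ≤ ⊤)) (genericPoint M.X)
      (hg.mpr (by simpa using hneU))
      (M.str.appTop.hom ((Scheme.ΓSpecIso (CommRingCat.of k)).inv.hom a))
  let algK : Algebra Γ(M.X, U) K := ψ0.toAlgebra
  have hAK : ∀ a : Γ(M.X, U), algebraMap Γ(M.X, U) K a =
      M.toK (algebraMap Γ(M.X, U) M.X.functionField a) := fun a => rfl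
  have htow : IsScalarTower k Γ(M.X, U) K := IsScalarTower.of_algebraMap_eq fun c => (hψ0 c).symm
  have hfrK : IsFractionRing Γ(M.X, U) K := by
    refine IsLocalization.isLocalization_of_algEquiv (S := M.X.functionField) _
      ({ M.toK with commutes' := fun a => rfl } : M.X.functionField ≃ₐ[Γ(M.X, U)] K)
  refine ⟨Γ(M.X, U), inferInstance, inferInstance, inferInstance, algK, htow, hft', hfrK,
    fun p => hU.fromSpec p, hU.primeIdealOf ⟨y, hyU⟩, hU.fromSpec_primeIdealOf _, ?_, ?_⟩
  · intro p p' hpp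
    exact ((PrimeSpectrum.le_iff_specializes p p').1 hpp).map hU.fromSpec.continuous
  · intro p f
    have hx : hU.fromSpec p ∈ U := by
      have h1 : hU.fromSpec p ∈ Set.range hU.fromSpec := ⟨p, rfl⟩
      rwa [hU.range_fromSpec] at h1
    let _ : Algebra Γ(M.X, U) (M.X.presheaf.stalk (hU.fromSpec p)) :=
      TopCat.Presheaf.algebra_section_stalk M.X.presheaf ⟨hU.fromSpec p, hx⟩
    have hloc : IsLocalization.AtPrime (M.X.presheaf.stalk (hU.fromSpec p)) p.asIdeal :=
      hU.isLocalization_stalk' p hx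
    have hcomp : ∀ a : Γ(M.X, U), M.stalkToK (hU.fromSpec p)
        (algebraMap Γ(M.X, U) (M.X.presheaf.stalk (hU.fromSpec p)) a) =
        algebraMap Γ(M.X, U) K a := by
      intro a
      rw [hAK]
      refine congrArg M.toK ?_
      exact Scheme.algebraMap_germ_eq_germToFunctionField M.X hx a
    have hne : ∀ b : Γ(M.X, U), b ∉ p.asIdeal → algebraMap Γ(M.X, U) K b ≠ 0 := by
      intro b hb h0
      have h1 : b = 0 := (IsFractionRing.injective Γ(M.X, U) K) (by rw [h0, map_zero])
      exact hb (h1 ▸ p.asIdeal.zero_mem)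
    constructor
    · rintro ⟨s, rfl⟩
      obtain ⟨⟨a, b⟩, hab⟩ := IsLocalization.surj p.asIdeal.primeCompl s
      refine ⟨a, b, b.2, ?_⟩
      rw [eq_div_iff (hne b b.2), ← hcomp, ← hcomp, ← map_mul]
      exact congrArg _ hab
    · rintro ⟨a, b, hb, rfl⟩
      refine ⟨IsLocalization.mk' _ a (⟨b, hb⟩ : p.asIdeal.primeCompl), ?_⟩
      rw [eq_div_iff (hne b hb), ← hcomp, ← hcomp, ← map_mul]
      congr 1
      exact IsLocalization.mk'_spec _ a (⟨b, hb⟩ : p.asIdeal.primeCompl)

end Run7.h342
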