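import Pool.Agent.Run7.h342.SCH1

/-!
# Centres of valuations
-/

set_option autoImplicit false

noncomputable section

namespace Run7.h342

open AlgebraicGeometry CategoryTheory

variable {k K : Type} [Field k] [Field K] [Algebra k K]

/-- constants as a map to the stalk -/
def Model.cstHom (M : Model k K) (x : M.X) : CommRingCat.of k ⟶ M.X.presheaf.stalk x :=
  (Scheme.ΓSpecIso (CommRingCat.of k)).inv ≫ M.str.appTop ≫ M.X.presheaf.germ ⊤ x trivial

theorem Model.cstHom_apply (M : Model k K) (x : M.X) (c : k) :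
    (M.cstHom x).hom c = M.cst x c := rfl

theorem Model.fromSpecStalk_str (M : Model k K) (x : M.X) :
    M.X.fromSpecStalk x ≫ M.str = Spec.map (M.cstHom x) := by
  rw [Model.cstHom, Spec.map_comp, Spec.map_comp, ← Scheme.fromSpecStalk_toSpecΓ,
    Category.assoc, Category.assoc]
  congr 1
  rw [← Category.assoc, ← Scheme.toSpecΓ_naturality, Category.assoc, ← SpecMap_ΓSpecIso_hom,
    ← Spec.map_comp, Iso.inv_hom_id, Spec.map_id, Category.comp_id]

/-- the map from the spectrum of `K` -/
def Model.gen (M : Model k K) : Spec (CommRingCat.of K) ⟶ M.X :=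
  Spec.map (CommRingCat.ofHom (M.toK : M.X.functionField →+* K)) ≫
    M.X.fromSpecStalk (genericPoint M.X)

theorem Model.gen_eq (M : Model k K) (x : M.X) :
    Spec.map (CommRingCat.ofHom (M.stalkToK x)) ≫ M.X.fromSpecStalk x = M.gen := by
  have h1 : CommRingCat.ofHom (M.stalkToK x) =
      M.X.presheaf.stalkSpecializes ((genericPoint_spec M.X).specializes trivial) ≫
      CommRingCat.ofHom (M.toK : M.X.functionField →+* K) := rfl
  rw [h1, Spec.map_comp, Category.assoc, Scheme.SpecMap_stalkSpecializes_fromSpecStalk]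
  rfl

/-- the constants in a valuation ring -/
def cstV (V : ValuationSubring K) (hV : ∀ c : k, algebraMap k K c ∈ V) : k →+* V where
  toFun := fun a => ⟨algebraMap k K a, hV a⟩
  map_one' := Subtype.ext (map_one _)
  map_mul' := fun a b => Subtype.ext (map_mul _ a b)
  map_zero' := Subtype.ext (map_zero _)
  map_add' := fun a b => Subtype.ext (map_add _ a b)

theorem Model.gen_str (M : Model k K) (V : ValuationSubring K)
    (hV : ∀ c : k, algebraMap k K c ∈ V) :
    M.gen ≫ M.str = Spec.map (CommRingCat.ofHom (algebraMap V K)) ≫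
      Spec.map (CommRingCat.ofHom (cstV V hV)) := by
  rw [Model.gen, Category.assoc, M.fromSpecStalk_str, ← Spec.map_comp, ← Spec.map_comp]
  congr 1
  ext c
  have h1 := M.stalkToK_cst (genericPoint M.X) c
  have h2 : M.stalkToK (genericPoint M.X) (M.cst (genericPoint M.X) c) =
      M.toK (M.cst (genericPoint M.X) c) := by
    have h3 := M.toK_const c
    rw [h1, ← h3]
    rfl
  have h4 : M.toK (M.cst (genericPoint M.X) c) = algebraMap k K c := h2.symm.trans h1
  exact h4

/-- the valuative square -/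
def Model.sq (M : Model k K) (V : ValuationSubring K) (hV : ∀ c : k, algebraMap k K c ∈ V) :
    ValuativeCommSq M.str where
  R := V
  K := K
  i₁ := M.gen
  i₂ := Spec.map (CommRingCat.ofHom (cstV V hV))
  commSq := ⟨M.gen_str V hV⟩

theorem Model.center_aux (M : Model k K) (V : ValuationSubring K)
    (L : Spec (CommRingCat.of V) ⟶ M.X)
    (hL : Spec.map (CommRingCat.ofHom (algebraMap V K)) ≫ L = M.gen) :
    ∀ f ∈ M.loc (L (IsLocalRing.closedPoint V)), f ∈ V := by
  rintro f ⟨s, rfl⟩
  have e1 : Spec.map (CommRingCat.ofHom (M.stalkToK (L (IsLocalRing.closedPoint V)))) ≫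
      M.X.fromSpecStalk (L (IsLocalRing.closedPoint V)) =
      Spec.map (Scheme.stalkClosedPointTo L ≫ CommRingCat.ofHom (algebraMap V K)) ≫
        M.X.fromSpecStalk (L (IsLocalRing.closedPoint V)) := by
    rw [M.gen_eq, Spec.map_comp, Category.assoc,
      Scheme.Spec_stalkClosedPointTo_fromSpecStalk]
    exact hL.symm
  have e2 : CommRingCat.ofHom (M.stalkToK (L (IsLocalRing.closedPoint V))) =
      Scheme.stalkClosedPointTo L ≫ CommRingCat.ofHom (algebraMap V K) :=
    Spec.map_injective ((cancel_mono (M.X.fromSpecStalk (L (IsLocalRing.closedPoint V)))).1 e1)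
  have e3 : M.stalkToK (L (IsLocalRing.closedPoint V)) s =
      algebraMap V K ((Scheme.stalkClosedPointTo L).hom s) :=
    congrArg (fun G => G.hom s) e2
  rw [e3]
  exact ((Scheme.stalkClosedPointTo L).hom s : V).2

/-- existence of the centre -/
theorem Model.exists_center (M : Model k K) (V : ValuationSubring K)
    (hV : ∀ c : k, algebraMap k K c ∈ V) : ∃ y : M.X, ∀ f ∈ M.loc y, f ∈ V := by
  have hprop : IsProper M.str := M.proper
  rw [IsProper.eq_valuativeCriterion] at hprop
  have hval : ValuativeCriterion M.str := hprop.1.1.1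
  obtain ⟨⟨⟨L, hL1, hL2⟩⟩⟩ := hval.existence (M.sq V hV)
  exact ⟨_, M.center_aux V L hL1⟩

/-- uniqueness of the centre -/
theorem Model.center_unique (M : Model k K) (V : ValuationSubring K)
    (hV : ∀ c : k, algebraMap k K c ∈ V) (y y' : M.X)
    (h1 : ∀ f ∈ M.loc y, f ∈ V) (h2 : ∀ f ∈ M.loc y, f⁻¹ ∈ V → f ≠ 0 → f⁻¹ ∈ M.loc y)
    (h1' : ∀ f ∈ M.loc y', f ∈ V) (h2' : ∀ f ∈ M.loc y', f⁻¹ ∈ V → f ≠ 0 → f⁻¹ ∈ M.loc y') :
    y = y' := by
  have hval : ValuativeCriterion.Uniqueness M.str := IsSeparated.valuativeCriterion M.str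
  have hss : Subsingleton (M.sq V hV).commSq.LiftStruct := hval (M.sq V hV)
  have key : ∀ x : M.X, (∀ f ∈ M.loc x, f ∈ V) → (∀ f ∈ M.loc x, f⁻¹ ∈ V → f ≠ 0 → f⁻¹ ∈ M.loc x) →
      ∃ L : (M.sq V hV).commSq.LiftStruct, L.l (IsLocalRing.closedPoint V) = x := by
    intro x hx1 hx2
    let g : M.X.presheaf.stalk x →+* V := (M.stalkToK x).codRestrict V.toSubring
      (fun a => hx1 _ ⟨a, rfl⟩)
    have hg : ∀ a, ((g a : V) : K) = M.stalkToK x a := fun a => rfl
    have hgl : IsLocalHom g := by
      constructor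
      intro a ha
      have ha0 : M.stalkToK x a ≠ 0 := by
        intro h0
        have h3 : g a = 0 := Subtype.ext h0
        rw [h3] at ha
        exact not_isUnit_zero ha
      obtain ⟨u, hu⟩ := ha.exists_right_inv
      have h3 : M.stalkToK x a * (u : K) = 1 := congrArg (fun z : V => (z : K)) hu
      have h4 : (M.stalkToK x a)⁻¹ = u := by
        rw [inv_eq_of_mul_eq_one_right h3]
      obtain ⟨b, hb⟩ := hx2 _ ⟨a, rfl⟩ (by rw [h4]; exact u.2) ha0
      refine IsUnit.of_mul_eq_one b ?_
      apply M.stalkToK_injective x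
      rw [map_mul, map_one, hb, mul_inv_cancel₀ ha0]
    refine ⟨⟨Spec.map (CommRingCat.ofHom g) ≫ M.X.fromSpecStalk x, ?_, ?_⟩, ?_⟩
    · change Spec.map (CommRingCat.ofHom (algebraMap V K)) ≫ Spec.map (CommRingCat.ofHom g) ≫
        M.X.fromSpecStalk x = M.gen
      rw [← Category.assoc, ← Spec.map_comp, ← CommRingCat.ofHom_comp, ← M.gen_eq x]
      rfl
    · change (Spec.map (CommRingCat.ofHom g) ≫ M.X.fromSpecStalk x) ≫ M.str =
        Spec.map (CommRingCat.ofHom (cstV V hV))
      rw [Category.assoc, M.fromSpecStalk_str, ← Spec.map_comp]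
      congr 1
      ext c
      exact M.stalkToK_cst x c
    · change (Spec.map (CommRingCat.ofHom g) ≫ M.X.fromSpecStalk x) (IsLocalRing.closedPoint V) = x
      rw [Scheme.Hom.comp_apply]
      have h5 : Spec.map (CommRingCat.ofHom g) (IsLocalRing.closedPoint V) =
          IsLocalRing.closedPoint (M.X.presheaf.stalk x) := by
        exact Spec_closedPoint
      rw [h5, Scheme.fromSpecStalk_closedPoint]
  obtain ⟨L, hL⟩ := key y h1 h2
  obtain ⟨L', hL'⟩ := key y' h1' h2'
  rw [← hL, ← hL', Subsingleton.elim L L']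

end Run7.h342
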