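import Pool.Agent.Run7.h342.SCH2
import Pool.Agent.N769.BK.DIM

/-!
# Prime divisors of a model
-/

set_option autoImplicit false

noncomputable section

namespace Run7.h342

open AlgebraicGeometry CategoryTheory

variable {k K : Type} [Field k] [Field K] [Algebra k K]

instance Model.noeth (M : Model k K) (y : M.X) : IsNoetherianRing (M.loc y) := by
  have h1 : IsLocallyNoetherian M.X := LocallyOfFiniteType.isLocallyNoetherian M.str
  exact isNoetherianRing_of_ringEquiv _ (M.stalkEquiv y)

instance Model.intcl (M : Model k K) (y : M.X) : IsIntegrallyClosed (M.loc y) := by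
  have := M.normal y
  exact IsIntegrallyClosed.of_equiv (M.stalkEquiv y)

instance Model.frac (M : Model k K) (y : M.X) : IsFractionRing (M.loc y) K := by
  refine IsFractionRing.of_field _ _ fun z => ?_
  obtain ⟨a, b, -, hab⟩ := IsFractionRing.div_surjective (A := M.X.presheaf.stalk y)
    (M.toK.symm z)
  refine ⟨M.stalkEquiv y a, M.stalkEquiv y b, ?_⟩
  have h1 := congrArg M.toK hab
  rw [map_div₀, RingEquiv.apply_symm_apply] at h1
  exact h1.symm

theorem Model.algebraMap_loc (M : Model k K) (y : M.X) (a : M.loc y) :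
    algebraMap (M.loc y) K a = a := rfl

/-- the valuation ring of a valuation -/
def DVal.vr (v : DVal k K) : ValuationSubring K where
  carrier := {f | 0 ≤ v.ord f}
  mul_mem' := by
    intro a b ha hb
    change 0 ≤ v.ord a at ha
    change 0 ≤ v.ord b at hb
    change 0 ≤ v.ord (a * b)
    by_cases ha0 : a = 0
    · rw [ha0, zero_mul, v.ord_zero]
    by_cases hb0 : b = 0
    · rw [hb0, mul_zero, v.ord_zero]
    rw [v.map_mul _ _ ha0 hb0]
    omega
  one_mem' := by
    change 0 ≤ v.ord 1
    rw [v.ord_one]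
  add_mem' := by
    intro a b ha hb
    change 0 ≤ v.ord a at ha
    change 0 ≤ v.ord b at hb
    change 0 ≤ v.ord (a + b)
    by_cases ha0 : a = 0
    · rwa [ha0, zero_add]
    by_cases hb0 : b = 0
    · rwa [hb0, add_zero]
    by_cases hab : a + b = 0
    · rw [hab, v.ord_zero]
    exact (le_min ha hb).trans (v.map_add a b ha0 hb0 hab)
  zero_mem' := by
    change 0 ≤ v.ord 0
    rw [v.ord_zero]
  neg_mem' := by
    intro a ha
    change 0 ≤ v.ord a at ha
    change 0 ≤ v.ord (-a)
    rwa [show v.ord (-a) = v.ord a from v.toV0.ord_neg a]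
  mem_or_inv_mem' := by
    intro x
    change 0 ≤ v.ord x ∨ 0 ≤ v.ord x⁻¹
    rw [v.ord_inv]
    omega

theorem DVal.mem_vr {v : DVal k K} {f : K} : f ∈ v.vr ↔ 0 ≤ v.ord f := Iff.rfl

theorem DVal.const_mem (v : DVal k K) (c : k) : algebraMap k K c ∈ v.vr := by
  rw [DVal.mem_vr]
  by_cases hc : c = 0
  · rw [hc, map_zero, v.ord_zero]
  · rw [v.const c hc]

/-- the height one condition from a valuation -/
theorem height_one_of_val {O : Type} [CommRing O] [IsDomain O] [IsNoetherianRing O]
    [Algebra O K] [IsFractionRing O K] (v : DVal k K) (p : Ideal O) (hp : p.IsPrime)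
    (h : ∀ f : K, f ≠ 0 → (0 ≤ v.ord f ↔ ∃ a b : O, b ∉ p ∧
      f = algebraMap O K a / algebraMap O K b)) : p.height = 1 := by
  have hinj : Function.Injective (algebraMap O K) := IsFractionRing.injective O K
  have hne : ∀ a : O, a ≠ 0 → algebraMap O K a ≠ 0 :=
    fun a ha h => ha (hinj (by rw [h, map_zero]))
  have hpos : ∀ x ∈ p, x ≠ 0 → 0 < v.ord (algebraMap O K x) := by
    intro x hx hx0
    have h1 := vo_nonneg hp h x
    have h2 : v.ord (algebraMap O K x) ≠ 0 := fun h0 => (vo_zero hp h x hx0).1 h0 hx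
    omega
  have hPbot : p ≠ ⊥ := by
    intro hb
    obtain ⟨t, ht0, ht⟩ := v.surj
    obtain ⟨a, b, -, hab⟩ := IsFractionRing.div_surjective (A := O) t⁻¹
    have hab0 : algebraMap O K a / algebraMap O K b ≠ 0 := by
      rw [hab]
      exact inv_ne_zero ht0
    have hb0 : b ≠ 0 := by
      rintro rfl
      rw [map_zero, div_zero] at hab0
      exact hab0 rfl
    have h1 := (h t⁻¹ (inv_ne_zero ht0)).2 ⟨a, b, by rw [hb, Ideal.mem_bot]; exact hb0, hab.symm⟩
    rw [v.ord_inv, ht] at h1
    omega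
  obtain ⟨f, hf, hf0⟩ := Submodule.exists_mem_ne_zero_of_ne_bot hPbot
  have hmin : p ∈ (Ideal.span {f}).minimalPrimes := by
    refine ⟨⟨hp, (Ideal.span_singleton_le_iff_mem _).mpr hf⟩, ?_⟩
    rintro Q ⟨hQ, hQf⟩ hQP x hx
    have hfQ : f ∈ Q := hQf (Ideal.mem_span_singleton_self f)
    by_cases hx0 : x = 0
    · rw [hx0]
      exact Q.zero_mem
    have hvx := hpos x hx hx0
    have hvf := hpos f hf hf0
    obtain ⟨n, hn⟩ : ∃ n : ℕ, v.ord (algebraMap O K f) ≤ n * v.ord (algebraMap O K x) := by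
      refine ⟨(v.ord (algebraMap O K f)).toNat, ?_⟩
      rw [Int.toNat_of_nonneg hvf.le]
      nlinarith
    have hxn : algebraMap O K x ^ n ≠ 0 := pow_ne_zero _ (hne x hx0)
    have e1 : v.ord (algebraMap O K x ^ n) = n * v.ord (algebraMap O K x) := v.toV0.ord_pow _ _
    obtain ⟨a, b, hb, hab⟩ := (h (algebraMap O K x ^ n / algebraMap O K f)
      (div_ne_zero hxn (hne f hf0))).1 (by
        rw [v.ord_div _ _ hxn (hne f hf0), e1]
        omega)
    have hb0 : b ≠ 0 := fun h0 => hb (h0 ▸ p.zero_mem)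
    rw [div_eq_div_iff (hne f hf0) (hne b hb0)] at hab
    have h2 : x ^ n * b = a * f := by
      apply hinj
      rw [map_mul, map_mul, map_pow, hab]
    have h3 : x ^ n * b ∈ Q := by
      rw [h2]
      exact Q.mul_mem_left _ hfQ
    rcases hQ.mem_or_mem h3 with h4 | h4
    · exact hQ.mem_of_pow_mem n h4
    · exact absurd (hQP h4) hb
  apply le_antisymm
  · exact Ideal.height_le_one_of_isPrincipal_of_mem_minimalPrimes _ p hmin
  · rw [Order.one_le_iff_ne_zero, Ne, Ideal.height_eq_zero_iff_eq_bot]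
    exact hPbot

end Run7.h342
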