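import Pool.Agent.Run7.h342.SCH3

/-!
# Prime divisors of a model and height one primes
-/

set_option autoImplicit false

noncomputable section

namespace Run7.h342

open AlgebraicGeometry CategoryTheory

variable {k K : Type} [Field k] [Field K] [Algebra k K]

/-- comparison of the local rings -/
theorem loc_compare {A : Type} [CommRing A] [Algebra A K] [IsFractionRing A K] {O : Subalgebra k K}
    (q : Ideal A) (hO : ∀ f : K, f ∈ O ↔ ∃ a b : A, b ∉ q ∧ f = algebraMap A K a / algebraMap A K b)
    (p : Ideal O) (hp : p.IsPrime) (p' : Ideal A) (hp' : ∀ a : A, a ∈ p' ↔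
      ∃ x ∈ p, (x : K) = algebraMap A K a) (hqt : q.IsPrime) (f : K) :
    (∃ a b : O, b ∉ p ∧ f = algebraMap O K a / algebraMap O K b) ↔
      ∃ a b : A, b ∉ p' ∧ f = algebraMap A K a / algebraMap A K b := by
  have hinj : Function.Injective (algebraMap A K) := IsFractionRing.injective A K
  have hone : (1 : A) ∉ q := (Ideal.ne_top_iff_one q).1 hqt.ne_top
  have hA : ∀ a : A, algebraMap A K a ∈ O := fun a => (hO _).2 ⟨a, 1, hone, by
    rw [map_one, div_one]⟩
  constructor
  · rintro ⟨α, β, hβ, rfl⟩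
    obtain ⟨a, b, hb, hab⟩ := (hO α).1 α.2
    obtain ⟨c, e, he, hce⟩ := (hO β).1 β.2
    have hb0 : algebraMap A K b ≠ 0 := by
      intro h0
      have h1 : b = 0 := hinj (by rw [h0, map_zero])
      exact hb (h1 ▸ q.zero_mem)
    have he0 : algebraMap A K e ≠ 0 := by
      intro h0
      have h1 : e = 0 := hinj (by rw [h0, map_zero])
      exact he (h1 ▸ q.zero_mem)
    have hunit : ∀ b : A, b ∉ q → b ∉ p' := by
      intro b hb hbp
      have hb0 : algebraMap A K b ≠ 0 := by
        intro h0
        have h1 : b = 0 := hinj (by rw [h0, map_zero])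
        exact hb (h1 ▸ q.zero_mem)
      obtain ⟨x, hx, hxb⟩ := (hp' b).1 hbp
      have h1 : (algebraMap A K b)⁻¹ ∈ O := (hO _).2 ⟨1, b, hb, by rw [map_one, one_div]⟩
      have h2 : (⟨_, h1⟩ : O) * x = 1 := by
        apply Subtype.ext
        change (algebraMap A K b)⁻¹ * (x : K) = 1
        rw [hxb, inv_mul_cancel₀ hb0]
      apply hp.ne_top
      rw [Ideal.eq_top_iff_one, ← h2]
      exact p.mul_mem_left _ hx
    have hc : c ∉ p' := by
      intro hcp
      obtain ⟨x, hx, hxc⟩ := (hp' c).1 hcp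
      apply hβ
      have h1 : (algebraMap A K e)⁻¹ ∈ O := (hO _).2 ⟨1, e, he, by rw [map_one, one_div]⟩
      have h2 : β = (⟨_, h1⟩ : O) * x := by
        apply Subtype.ext
        change (β : K) = (algebraMap A K e)⁻¹ * (x : K)
        rw [hxc, hce, div_eq_inv_mul]
      rw [h2]
      exact p.mul_mem_left _ hx
    have hc0 : algebraMap A K c ≠ 0 := by
      intro h0
      have h1 : c = 0 := hinj (by rw [h0, map_zero])
      exact hc (h1 ▸ p'.zero_mem)
    have hp'p : p'.IsPrime ∨ True := Or.inr trivial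
    have hmul : b * c ∉ p' := by
      intro hbc
      obtain ⟨x, hx, hxbc⟩ := (hp' _).1 hbc
      have h1 : x = (⟨algebraMap A K b, hA b⟩ : O) * ⟨algebraMap A K c, hA c⟩ := by
        apply Subtype.ext
        change (x : K) = algebraMap A K b * algebraMap A K c
        rw [hxbc, map_mul]
      rw [h1] at hx
      rcases hp.mem_or_mem hx with h2 | h2
      · exact hunit b hb ((hp' b).2 ⟨_, h2, rfl⟩)
      · exact hc ((hp' c).2 ⟨_, h2, rfl⟩)
    refine ⟨a * e, b * c, hmul, ?_⟩
    change (α : K) / (β : K) = _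
    rw [hab, hce, map_mul, map_mul]
    field_simp
  · rintro ⟨a, b, hb, rfl⟩
    exact ⟨⟨_, hA a⟩, ⟨_, hA b⟩, fun h => hb ((hp' b).2 ⟨_, h, rfl⟩), rfl⟩

/-- height one primes of the local ring are prime divisors through the point -/
theorem Model.vo_sub (M : Model k K) (y : M.X) (v : DVal k K) (hv : v ∈ VO k K (M.loc y)) :
    ∃ x : M.X, M.IsValOf v x ∧ x ⤳ y := by
  obtain ⟨p, hp, hht, h⟩ := hv
  obtain ⟨A, _, _, _, _, _, _, _, pt, q, hq, hspec, hloc⟩ := M.exists_chart y
  subst hq
  have hinj : Function.Injective (algebraMap A K) := IsFractionRing.injective A K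
  have hone : (1 : A) ∉ q.asIdeal := (Ideal.ne_top_iff_one _).1 q.isPrime.ne_top
  have hA : ∀ a : A, algebraMap A K a ∈ M.loc (pt q) := fun a => (hloc q _).2 ⟨a, 1, hone, by
    rw [map_one, div_one]⟩
  let j : A →+* M.loc (pt q) := (algebraMap A K).codRestrict (M.loc (pt q)).toSubring hA
  let p' : PrimeSpectrum A := ⟨p.comap j, Ideal.comap_isPrime j p⟩
  have hp' : ∀ a : A, a ∈ p'.asIdeal ↔ ∃ x ∈ p, (x : K) = algebraMap A K a := by
    intro a
    constructor
    · intro ha
      exact ⟨j a, ha, rfl⟩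
    · rintro ⟨x, hx, hxa⟩
      have h1 : x = j a := Subtype.ext hxa
      rw [h1] at hx
      exact hx
  have hle : p' ≤ q := by
    intro a ha
    by_contra haq
    have ha0 : algebraMap A K a ≠ 0 := by
      intro h0
      have h1 : a = 0 := hinj (by rw [h0, map_zero])
      exact haq (h1 ▸ q.asIdeal.zero_mem)
    have h1 : (algebraMap A K a)⁻¹ ∈ M.loc (pt q) := (hloc q _).2 ⟨1, a, haq, by
      rw [map_one, one_div]⟩
    have h2 : (⟨_, h1⟩ : M.loc (pt q)) * j a = 1 := by
      apply Subtype.ext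
      change (algebraMap A K a)⁻¹ * algebraMap A K a = 1
      exact inv_mul_cancel₀ ha0
    apply hp.ne_top
    rw [Ideal.eq_top_iff_one, ← h2]
    exact p.mul_mem_left _ ha
  refine ⟨pt p', ?_, hspec _ _ hle⟩
  intro f hf
  rw [h f hf, hloc p' f]
  exact loc_compare q.asIdeal (hloc q) p hp p'.asIdeal hp' q.isPrime f

/-- conversely -/
theorem Model.sub_vo (M : Model k K) (y : M.X) (v : DVal k K) (hv : v ∈ M.Div)
    (hvy : ∀ f : M.loc y, 0 ≤ v.ord (algebraMap (M.loc y) K f)) : v ∈ VO k K (M.loc y) := by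
  obtain ⟨x, hx⟩ := hv
  obtain ⟨A, _, _, _, _, _, _, _, pt, q, hq, hspec, hloc⟩ := M.exists_chart y
  subst hq
  have hinj : Function.Injective (algebraMap A K) := IsFractionRing.injective A K
  have hone : (1 : A) ∉ q.asIdeal := (Ideal.ne_top_iff_one _).1 q.isPrime.ne_top
  have hA : ∀ a : A, algebraMap A K a ∈ M.loc (pt q) := fun a => (hloc q _).2 ⟨a, 1, hone, by
    rw [map_one, div_one]⟩
  -- the prime
  let p : Ideal (M.loc (pt q)) :=
    { carrier := {f | (f : K) = 0 ∨ 0 < v.ord f}
      zero_mem' := Or.inl rfl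
      add_mem' := by
        intro a b ha hb
        change (a : K) = 0 ∨ 0 < v.ord a at ha
        change (b : K) = 0 ∨ 0 < v.ord b at hb
        change (a : K) + (b : K) = 0 ∨ 0 < v.ord ((a : K) + (b : K))
        by_cases ha0 : (a : K) = 0
        · rw [ha0, zero_add]
          exact hb
        by_cases hb0 : (b : K) = 0
        · rw [hb0, add_zero]
          exact ha
        by_cases hab : (a : K) + (b : K) = 0
        · exact Or.inl hab
        right
        have h1 := ha.resolve_left ha0
        have h2 := hb.resolve_left hb0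
        exact (lt_min h1 h2).trans_le (v.map_add _ _ ha0 hb0 hab)
      smul_mem' := by
        intro c a ha
        change (a : K) = 0 ∨ 0 < v.ord a at ha
        change (c : K) * (a : K) = 0 ∨ 0 < v.ord ((c : K) * (a : K))
        by_cases hca : (c : K) * (a : K) = 0
        · exact Or.inl hca
        right
        have hc0 := left_ne_zero_of_mul hca
        have ha0 := right_ne_zero_of_mul hca
        rw [v.map_mul _ _ hc0 ha0]
        have h1 := ha.resolve_left ha0
        have h2 := hvy c
        change 0 ≤ v.ord (c : K) at h2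
        omega }
  have hmem : ∀ f : M.loc (pt q), f ∈ p ↔ (f : K) = 0 ∨ 0 < v.ord f := fun f => Iff.rfl
  have hp : p.IsPrime := by
    refine ⟨?_, ?_⟩
    · intro h
      have h1 : (1 : M.loc (pt q)) ∈ p := by rw [h]; trivial
      rw [hmem] at h1
      rcases h1 with h1 | h1
      · exact one_ne_zero h1
      · change 0 < v.ord 1 at h1
        rw [v.ord_one] at h1
        exact lt_irrefl _ h1
    · intro a b hab
      by_contra hc
      rw [not_or, hmem, hmem, not_or, not_or] at hc
      obtain ⟨⟨ha0, ha⟩, hb0, hb⟩ := hc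
      rw [hmem] at hab
      have h1 := hvy a
      have h2 := hvy b
      change 0 ≤ v.ord (a : K) at h1
      change 0 ≤ v.ord (b : K) at h2
      rcases hab with h3 | h3
      · exact mul_ne_zero ha0 hb0 h3
      · change 0 < v.ord ((a : K) * (b : K)) at h3
        rw [v.map_mul _ _ ha0 hb0] at h3
        omega
  let j : A →+* M.loc (pt q) := (algebraMap A K).codRestrict (M.loc (pt q)).toSubring hA
  let p' : PrimeSpectrum A := ⟨p.comap j, Ideal.comap_isPrime j p⟩
  have hp' : ∀ a : A, a ∈ p'.asIdeal ↔ ∃ x ∈ p, (x : K) = algebraMap A K a := by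
    intro a
    constructor
    · intro ha
      exact ⟨j a, ha, rfl⟩
    · rintro ⟨x, hx, hxa⟩
      have h1 : x = j a := Subtype.ext hxa
      rw [h1] at hx
      exact hx
  have hp'2 : ∀ a : A, a ∈ p'.asIdeal ↔ (algebraMap A K a = 0 ∨ 0 < v.ord (algebraMap A K a)) :=
    fun a => Iff.rfl
  have hcmp := loc_compare q.asIdeal (hloc q) p hp p'.asIdeal hp' q.isPrime
  have hne : ∀ b : A, b ∉ p'.asIdeal → algebraMap A K b ≠ 0 ∧ v.ord (algebraMap A K b) = 0 := by
    intro b hb
    rw [hp'2, not_or] at hb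
    have h1 := hvy ⟨_, hA b⟩
    change 0 ≤ v.ord (algebraMap A K b) at h1
    exact ⟨hb.1, by omega⟩
  have hord : ∀ a b : A, b ∉ p'.asIdeal → algebraMap A K a ≠ 0 →
      v.ord (algebraMap A K a / algebraMap A K b) = v.ord (algebraMap A K a) := by
    intro a b hb ha
    rw [v.ord_div _ _ ha (hne b hb).1, (hne b hb).2, sub_zero]
  -- the two points are equal
  have hxx : x = pt p' := by
    refine M.center_unique v.vr v.const_mem x (pt p') ?_ ?_ ?_ ?_
    · intro f hf
      rw [DVal.mem_vr]
      by_cases hf0 : f = 0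
      · rw [hf0, v.ord_zero]
      · exact (hx f hf0).2 hf
    · intro f _ hf' hf0
      exact (hx _ (inv_ne_zero hf0)).1 hf'
    · intro f hf
      rw [DVal.mem_vr]
      obtain ⟨a, b, hb, rfl⟩ := (hloc p' f).1 hf
      by_cases ha0 : algebraMap A K a = 0
      · rw [ha0, zero_div, v.ord_zero]
      · rw [hord a b hb ha0]
        exact hvy ⟨_, hA a⟩
    · intro f hf hfi hf0
      obtain ⟨a, b, hb, rfl⟩ := (hloc p' f).1 hf
      have ha0 : algebraMap A K a ≠ 0 := fun h0 => hf0 (by rw [h0, zero_div])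
      refine (hloc p' _).2 ⟨b, a, ?_, by rw [inv_div]⟩
      rw [hp'2, not_or]
      refine ⟨ha0, ?_⟩
      rw [DVal.mem_vr, v.ord_inv, hord a b hb ha0] at hfi
      omega
  have hval : ∀ f : K, f ≠ 0 → (0 ≤ v.ord f ↔ ∃ a b : M.loc (pt q), b ∉ p ∧
      f = algebraMap (M.loc (pt q)) K a / algebraMap (M.loc (pt q)) K b) := by
    intro f hf
    rw [hx f hf, hxx, hloc p' f]
    exact (hcmp f).symm
  exact ⟨p, hp, height_one_of_val v p hp hval, hval⟩

end Run7.h342
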