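import Pool.Agent.Run7.h342.SCH4

/-!
# Regular functions are constant; prime divisors are divisorial
-/

set_option autoImplicit false

noncomputable section

namespace Run7.h342

open AlgebraicGeometry CategoryTheory

variable {k K : Type} [Field k] [Field K] [Algebra k K]

theorem Model.vo_sub_div (M : Model k K) (y : M.X) : VO k K (M.loc y) ⊆ M.Div := by
  intro v hv
  obtain ⟨x, hx, -⟩ := M.vo_sub y v hv
  exact ⟨x, hx⟩

theorem const_of_algebraic [IsAlgClosed k] (z : K) (halg : IsAlgebraic k z) :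
    ∃ c : k, algebraMap k K c = z := by
  refine ⟨-(minpoly k z).coeff 0, ?_⟩
  have hi : IsIntegral k z := halg.isIntegral
  have hq : (minpoly k z).leadingCoeff = 1 := minpoly.monic hi
  have h : (minpoly k z).degree = 1 := IsAlgClosed.degree_eq_one_of_irreducible k
    (minpoly.irreducible hi)
  have h1 : Polynomial.aeval z (minpoly k z) = 0 := minpoly.aeval k z
  rw [Polynomial.eq_X_add_C_of_degree_eq_one h, hq, Polynomial.C_1, one_mul, Polynomial.aeval_add,
    Polynomial.aeval_X, Polynomial.aeval_C, add_eq_zero_iff_eq_neg] at h1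
  rw [map_neg]
  exact h1.symm

/-- a rational function without poles is constant -/
theorem Model.const_of_nonneg [IsAlgClosed k] (M : Model k K) (z : K)
    (hz : ∀ v ∈ M.Div, 0 ≤ v.ord z) : ∃ c : k, algebraMap k K c = z := by
  have hloc : ∀ y : M.X, z ∈ M.loc y := by
    intro y
    have hkd : KD (M.loc y) (VO k K (M.loc y)) := kd_VO
    obtain ⟨x, hx⟩ := hkd.mem z fun v hv => hz v (M.vo_sub_div y hv)
    rw [← hx]
    exact x.2
  by_cases halg : IsAlgebraic k z
  · exact const_of_algebraic z halg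
  · exfalso
    have hz0 : z ≠ 0 := by
      rintro rfl
      exact halg isAlgebraic_zero
    let A : Subalgebra k K := Algebra.adjoin k {z⁻¹}
    let w : A := ⟨z⁻¹, Algebra.subset_adjoin rfl⟩
    have hI : Ideal.span {w} ≠ ⊤ := by
      rw [Ne, Ideal.span_singleton_eq_top]
      intro hu
      obtain ⟨u, hu1⟩ := hu.exists_right_inv
      have h1 : z⁻¹ * (u : K) = 1 := congrArg (fun t : A => (t : K)) hu1
      have h3 : (u : K) ∈ Algebra.adjoin k {z⁻¹} := u.2
      rw [Algebra.adjoin_singleton_eq_range_aeval] at h3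
      obtain ⟨P, hP⟩ := h3
      have hP' : Polynomial.aeval z⁻¹ P = (u : K) := hP
      apply halg
      rw [← IsAlgebraic.inv_iff]
      refine ⟨Polynomial.X * P - 1, ?_, ?_⟩
      · intro h0
        have h4 := congrArg (fun Q => Polynomial.coeff Q 0) h0
        simp at h4
      · rw [map_sub, map_mul, Polynomial.aeval_X, map_one, hP', h1, sub_self]
    obtain ⟨V, hV1, hV2⟩ := Ideal.image_subset_nonunits_valuationSubring (A := A.toSubring)
      (Ideal.span {w}) hI
    obtain ⟨y, hy⟩ := M.exists_center V (fun c => hV1 (A.algebraMap_mem c))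
    have h1 : z ∈ V := hy z (hloc y)
    have h2 : z⁻¹ ∈ V.nonunits := hV2 ⟨w, Ideal.mem_span_singleton_self w, rfl⟩
    rw [ValuationSubring.inv_mem_nonunits_iff] at h2
    exact h2.elim hz0 fun h => h h1

/-- prime divisors are divisorial valuations -/
theorem Model.divisorial (M : Model k K) {d : ℕ} (hd : (d : Cardinal) ≤ Algebra.trdeg k K)
    {v : DVal k K} (hv : v ∈ M.Div) : IsDivisorial d v := by
  obtain ⟨x, hx⟩ := hv
  obtain ⟨A, _, _, _, _, _, _, _, pt, q, hq, hspec, hloc⟩ := M.exists_chart x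
  subst hq
  have hval : ∀ f : K, f ≠ 0 → (0 ≤ v.ord f ↔ ∃ a b : A, b ∉ q.asIdeal ∧
      f = algebraMap A K a / algebraMap A K b) := fun f hf => by rw [hx f hf, hloc q f]
  have hnoeth : IsNoetherianRing A := Algebra.FiniteType.isNoetherianRing k A
  have hht := height_one_of_val v q.asIdeal q.isPrime hval
  have hinj : Function.Injective (algebraMap A K) := IsFractionRing.injective A K
  -- the prime is minimal over a principal ideal
  have hqbot : q.asIdeal ≠ ⊥ := by
    intro h
    rw [h, Ideal.height_bot] at hht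
    exact zero_ne_one hht
  obtain ⟨f, hf, hf0⟩ := Submodule.exists_mem_ne_zero_of_ne_bot hqbot
  have hmin : q.asIdeal ∈ (Ideal.span {f}).minimalPrimes := by
    refine ⟨⟨q.isPrime, (Ideal.span_singleton_le_iff_mem _).mpr hf⟩, ?_⟩
    rintro Q ⟨hQ, hQf⟩ hQP
    by_contra hnle
    have h4 : Q < q.asIdeal := lt_of_le_not_ge hQP hnle
    have h5 := Ideal.height_strict_mono_of_isPrime_of_isPrime h4
    rw [hht, Order.lt_one_iff, Ideal.height_eq_zero_iff_eq_bot] at h5
    have h6 : f ∈ Q := hQf (Ideal.mem_span_singleton_self f)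
    rw [h5] at h6
    exact hf0 h6
  have hdim := Pool.Agent.N769.BK.DIM.dom (F := k) f q.asIdeal hmin
  have htr : Algebra.trdeg k K = Algebra.trdeg k A := by
    have halg : Algebra.IsAlgebraic A K := IsLocalization.isAlgebraic K (nonZeroDivisors A)
    have hfai : FaithfulSMul k A := inferInstance
    have hfai2 : FaithfulSMul A K := (faithfulSMul_iff_algebraMap_injective A K).2 hinj
    rw [← trdeg_add_eq k A (A := K), trdeg_eq_zero (R := A) (A := K), add_zero]
  have h1 : (d : Cardinal) ≤ Algebra.trdeg k (A ⧸ q.asIdeal) + 1 := by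
    rw [← htr] at hdim
    exact hd.trans hdim
  have h2 : ((d - 1 : ℕ) : Cardinal) ≤ Algebra.trdeg k (A ⧸ q.asIdeal) := by
    rcases Nat.eq_zero_or_pos d with hd0 | hd0
    · rw [hd0]
      simp
    · obtain ⟨e, rfl⟩ : ∃ e, d = e + 1 := ⟨d - 1, by omega⟩
      rw [Nat.add_sub_cancel]
      have h3 : Algebra.trdeg k (A ⧸ q.asIdeal) < Cardinal.aleph0 :=
        trdeg_lt_aleph0_of_finiteType
      obtain ⟨n, hn⟩ := Cardinal.lt_aleph0.1 h3
      rw [hn] at h1 ⊢
      have h4 : e + 1 ≤ n + 1 := by exact_mod_cast h1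
      exact_mod_cast Nat.le_of_succ_le_succ h4
  obtain ⟨ι, u, hu⟩ := exists_isTranscendenceBasis' k (A := A ⧸ q.asIdeal)
  rw [← hu.cardinalMk_eq_trdeg] at h2
  have h3 : Cardinal.mk (Fin (d - 1)) ≤ Cardinal.mk ι := by rwa [Cardinal.mk_fin]
  obtain ⟨em⟩ := h3
  choose t ht using fun i => Ideal.Quotient.mk_surjective (I := q.asIdeal) (u (em i))
  refine ⟨fun i => algebraMap A K (t i), fun P hP => ?_⟩
  have hind : AlgebraicIndependent k (u ∘ em) := hu.1.comp em em.injective
  have h4 : MvPolynomial.aeval t P ∉ q.asIdeal := by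
    intro hmem
    apply hP
    apply hind.eq_zero_of_aeval_eq_zero
    have h5 : MvPolynomial.aeval (u ∘ em) P = Ideal.Quotient.mkₐ k q.asIdeal
        (MvPolynomial.aeval t P) := by
      rw [MvPolynomial.comp_aeval_apply]
      congr 2
      funext i
      exact (ht i).symm
    rw [h5]
    exact Ideal.Quotient.eq_zero_iff_mem.2 hmem
  have h5 : MvPolynomial.aeval (fun i => algebraMap A K (t i)) P =
      algebraMap A K (MvPolynomial.aeval t P) := by
    have := MvPolynomial.comp_aeval_apply (IsScalarTower.toAlgHom k A K) (f := t) P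
    exact this.symm
  have h6 : MvPolynomial.aeval t P ≠ 0 := fun h => h4 (h ▸ q.asIdeal.zero_mem)
  rw [h5]
  exact ⟨fun h => h6 (hinj (by rw [h, map_zero])), (vo_zero q.isPrime hval _ h6).2 h4⟩

end Run7.h342
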