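import Pool.Agent.Run7.h342.GLOB2
import Pool.Agent.Run7.h342.ADIC
import Pool.Agent.Run7.h342.KDN

/-!
# Proper normal models of a function field
-/

set_option autoImplicit false

noncomputable section

namespace Run7.h342

open AlgebraicGeometry CategoryTheory MvPowerSeries

variable {k K : Type} [Field k] [Field K] [Algebra k K]

theorem Model.mem_loc {M : Model k K} {x : M.X} {f : K} :
    f ∈ M.loc x ↔ ∃ a, M.stalkToK x a = f := Iff.rfl

theorem Model.stalkToK_injective (M : Model k K) (x : M.X) :
    Function.Injective (M.stalkToK x) :=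
  M.toK.injective.comp (IsFractionRing.injective (M.X.presheaf.stalk x) M.X.functionField)

/-- the stalk is isomorphic to the local ring in `K` -/
def Model.stalkEquiv (M : Model k K) (x : M.X) : M.X.presheaf.stalk x ≃+* M.loc x :=
  RingEquiv.ofBijective ((M.stalkToK x).codRestrict (M.loc x).toSubring (fun a => ⟨a, rfl⟩))
    ⟨fun _ _ h => M.stalkToK_injective x (congrArg Subtype.val h), fun ⟨_, a, h⟩ =>
      ⟨a, Subtype.ext h⟩⟩

end Run7.h342
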