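import Pool.Agent.H40.BP.AUT
import Pool.Agent.H40.BP.CPL
import Mathlib

/-!
# Power series rings over a field are factorial
-/

set_option autoImplicit false

noncomputable section

namespace Run7.h342

open IsLocalRing Polynomial

theorem coe_isUnit_of_dist {B : Type} [CommRing B] [IsDomain B] [IsLocalRing B]
    {g a b : B[X]} (hg : g.IsDistinguishedAt (maximalIdeal B)) (hab : g = a * b)
    (hu : IsUnit (a : PowerSeries B)) : IsUnit a := by
  have hlead : a.leadingCoeff * b.leadingCoeff = 1 := by
    rw [← Polynomial.leadingCoeff_mul, ← hab]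
    exact hg.monic
  have hla : IsUnit a.leadingCoeff := IsUnit.of_mul_eq_one _ hlead
  have h0 : IsUnit (a.coeff 0) := by
    have := PowerSeries.isUnit_iff_constantCoeff.1 hu
    simpa using this
  have hmap := hg.map_eq_X_pow
  rw [hab, Polynomial.map_mul] at hmap
  set φ := Ideal.Quotient.mk (maximalIdeal B) with hφ
  have : Fact ((maximalIdeal B).IsMaximal) := ⟨inferInstance⟩
  let _ : Field (B ⧸ maximalIdeal B) := Ideal.Quotient.field _
  have hdvd : a.map φ ∣ (Polynomial.X : (B ⧸ maximalIdeal B)[X]) ^ (a * b).natDegree :=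
    ⟨_, hmap.symm⟩
  obtain ⟨i, hi, hass⟩ := (dvd_prime_pow Polynomial.prime_X _).1 hdvd
  have hi0 : i = 0 := by
    by_contra hne
    have h1 : (Polynomial.X : (B ⧸ maximalIdeal B)[X]) ∣ a.map φ :=
      (dvd_pow_self _ hne).trans hass.symm.dvd
    rw [Polynomial.X_dvd_iff, Polynomial.coeff_map] at h1
    exact (h0.map φ).ne_zero h1
  rw [hi0, pow_zero] at hass
  have h2 : IsUnit (a.map φ) := by
    rw [← associated_one_iff_isUnit]
    exact hass
  have h3 : (a.map φ).natDegree = 0 := Polynomial.natDegree_eq_zero_of_isUnit h2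
  have h4 : (a.map φ).natDegree = a.natDegree := by
    apply Polynomial.natDegree_map_of_leadingCoeff_ne_zero
    exact (hla.map φ).ne_zero
  rw [h4] at h3
  rw [Polynomial.eq_C_of_natDegree_eq_zero h3]
  exact h0.map Polynomial.C

theorem prime_of_dist {B : Type} [CommRing B] [IsDomain B] [IsLocalRing B]
    [UniqueFactorizationMonoid B] [IsAdicComplete (maximalIdeal B) B]
    {g : B[X]} (hg : g.IsDistinguishedAt (maximalIdeal B))
    (hirr : Irreducible (g : PowerSeries B)) : Prime (g : PowerSeries B) := by
  have h1 : Irreducible g := by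
    constructor
    · intro hu
      exact hirr.not_isUnit (hu.map (Polynomial.coeToPowerSeries.ringHom : B[X] →+* _))
    · intro a b hab
      have h2 : (g : PowerSeries B) = (a : PowerSeries B) * (b : PowerSeries B) := by
        rw [hab, Polynomial.coe_mul]
      rcases hirr.isUnit_or_isUnit h2 with h | h
      · exact Or.inl (coe_isUnit_of_dist hg hab h)
      · exact Or.inr (coe_isUnit_of_dist hg (hab.trans (mul_comm _ _)) h)
  have h2 : Prime g := h1.prime
  have h3 : (Ideal.span {g}).IsPrime := (Ideal.span_singleton_prime h2.ne_zero).2 h2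
  have e := hg.algEquivQuotient
  have h4 : IsDomain (B[X] ⧸ Ideal.span {g}) := Ideal.Quotient.isDomain _
  have h5 : IsDomain (PowerSeries B ⧸ Ideal.span {(g : PowerSeries B)}) :=
    e.symm.toMulEquiv.isDomain _
  have h6 : (Ideal.span {(g : PowerSeries B)}).IsPrime :=
    (Ideal.Quotient.isDomain_iff_prime _).1 h5
  exact (Ideal.span_singleton_prime hirr.ne_zero).1 h6

theorem ufd_step {B : Type} [CommRing B] [IsDomain B] [IsLocalRing B]
    [UniqueFactorizationMonoid B] [IsAdicComplete (maximalIdeal B) B]
    {f : PowerSeries B} (hf : ∃ k, IsUnit (PowerSeries.coeff k f)) (hirr : Irreducible f) :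
    Prime f := by
  obtain ⟨k, hk⟩ := hf
  have h0 : f.map (residue B) ≠ 0 := by
    intro h
    have := congrArg (PowerSeries.coeff k) h
    rw [PowerSeries.coeff_map, map_zero] at this
    exact (hk.map (residue B)).ne_zero this
  obtain ⟨g, h, hgh⟩ := PowerSeries.exists_isWeierstrassFactorization h0
  have h1 : f = (g : PowerSeries B) * h := hgh.eq_mul
  have h2 : IsUnit h := hgh.isUnit
  have hass : Associated (g : PowerSeries B) f := by
    rw [h1]
    exact (associated_mul_unit_right _ _ h2)
  exact hass.prime_iff.1 (prime_of_dist hgh.isDistinguishedAt (hass.irreducible_iff.2 hirr))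

instance dom_mv (k : Type) [Field k] (n : ℕ) : IsDomain (MvPowerSeries (Fin n) k) :=
  NoZeroDivisors.to_isDomain _

theorem ufd_mv (k : Type) [Field k] (n : ℕ) :
    UniqueFactorizationMonoid (MvPowerSeries (Fin n) k) := by
  induction n with
  | zero =>
    have e : MvPowerSeries (Fin 0) k ≃ₐ[k] k := MvPowerSeries.isEmptyEquiv _ _
    exact e.symm.toMulEquiv.uniqueFactorizationMonoid inferInstance
  | succ n ih =>
    have hN : IsNoetherianRing (MvPowerSeries (Fin (n + 1)) k) := inferInstance
    have hkc : IsAdicComplete (maximalIdeal k) k := by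
      have : maximalIdeal k = ⊥ := IsLocalRing.maximalIdeal_eq_bot
      rw [this]
      infer_instance
    have hC := Pool.Agent.H40.BP.t_CPL n k
    have hw : WfDvdMonoid (MvPowerSeries (Fin (n + 1)) k) := inferInstance
    refine UniqueFactorizationMonoid.of_exists_prime_factors ?_
    intro a ha
    obtain ⟨s, hs, hs2⟩ := WfDvdMonoid.exists_factors a ha
    refine ⟨s, fun b hb => ?_, hs2⟩
    have hirr := hs b hb
    have hb0 : b ≠ 0 := hirr.ne_zero
    obtain ⟨ν, hν⟩ : ∃ ν, MvPowerSeries.coeff ν b ≠ 0 := by
      by_contra hcon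
      push Not at hcon
      exact hb0 (MvPowerSeries.ext (fun ν => by rw [hcon ν, map_zero]))
    obtain ⟨σ, m, hm⟩ := Pool.Agent.H40.BP.t_AUT n k b ⟨ν, (isUnit_iff_ne_zero.2 hν)⟩
    set e : MvPowerSeries (Fin (n + 1)) k ≃+* PowerSeries (MvPowerSeries (Fin n) k) :=
      σ.trans (MvPowerSeries.finSuccEquiv k n).toRingEquiv with he
    have hcoe : IsUnit (PowerSeries.coeff m (e b)) := by
      rw [MvPowerSeries.isUnit_iff_constantCoeff]
      have h1 : MvPowerSeries.coeff 0 (PowerSeries.coeff m
          (MvPowerSeries.finSuccEquiv k n (σ b))) =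
          MvPowerSeries.coeff ((0 : Fin n →₀ ℕ).cons m) (σ b) :=
        MvPowerSeries.coeff_coeff_finSuccEquiv _
      have h2 : (0 : Fin n →₀ ℕ).cons m = Finsupp.single 0 m := by
        ext i
        refine Fin.cases ?_ (fun j => ?_) i
        · simp
        · simp
      rw [h2] at h1
      rw [← h1] at hm
      rw [MvPowerSeries.coeff_zero_eq_constantCoeff_apply] at hm
      exact hm
    have h3 : Irreducible (e b) := (MulEquiv.irreducible_iff e.toMulEquiv).2 hirr
    have h4 := ufd_step ⟨m, hcoe⟩ h3
    exact (MulEquiv.prime_iff e.toMulEquiv).1 h4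

end Run7.h342
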