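import Mathlib

/-!
# Integer valued valuations
-/

set_option autoImplicit false

noncomputable section

namespace Run7.h342

/-- integer valued valuation (the value at zero is set to zero) -/
structure V0 (L : Type) [Field L] where
  ord : L → ℤ
  ord_zero : ord 0 = 0
  map_mul : ∀ x y, x ≠ 0 → y ≠ 0 → ord (x * y) = ord x + ord y
  map_add : ∀ x y, x ≠ 0 → y ≠ 0 → x + y ≠ 0 → min (ord x) (ord y) ≤ ord (x + y)

namespace V0

variable {L : Type} [Field L] (w : V0 L)

theorem ord_one : w.ord 1 = 0 := by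
  have := w.map_mul 1 1 one_ne_zero one_ne_zero
  rw [one_mul] at this
  omega

theorem ord_neg_one : w.ord (-1) = 0 := by
  have h : (-1 : L) ≠ 0 := neg_ne_zero.2 one_ne_zero
  have := w.map_mul (-1) (-1) h h
  rw [neg_mul_neg, one_mul, w.ord_one] at this
  omega

theorem ord_neg (x : L) : w.ord (-x) = w.ord x := by
  by_cases hx : x = 0
  · rw [hx, neg_zero]
  · rw [← neg_one_mul, w.map_mul _ _ (neg_ne_zero.2 one_ne_zero) hx, w.ord_neg_one, zero_add]

theorem ord_inv (x : L) : w.ord x⁻¹ = - w.ord x := by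
  by_cases hx : x = 0
  · rw [hx, inv_zero, w.ord_zero, neg_zero]
  · have := w.map_mul x x⁻¹ hx (inv_ne_zero hx)
    rw [mul_inv_cancel₀ hx, w.ord_one] at this
    omega

theorem ord_div (x y : L) (hx : x ≠ 0) (hy : y ≠ 0) : w.ord (x / y) = w.ord x - w.ord y := by
  rw [div_eq_mul_inv, w.map_mul _ _ hx (inv_ne_zero hy), w.ord_inv]
  ring

theorem ord_pow (x : L) (n : ℕ) : w.ord (x ^ n) = n * w.ord x := by
  by_cases hx : x = 0
  · rcases Nat.eq_zero_or_pos n with rfl | hn
    · rw [pow_zero, w.ord_one]; simp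
    · rw [hx, zero_pow hn.ne', w.ord_zero, mul_zero]
  · induction n with
    | zero => rw [pow_zero, w.ord_one]; simp
    | succ n ih =>
      rw [pow_succ, w.map_mul _ _ (pow_ne_zero n hx) hx, ih]
      push_cast
      ring

theorem ord_zpow (x : L) (n : ℤ) : w.ord (x ^ n) = n * w.ord x := by
  rcases n with n | n
  · rw [Int.ofNat_eq_natCast, zpow_natCast, w.ord_pow]
  · rw [zpow_negSucc, w.ord_inv, w.ord_pow, Int.negSucc_eq]
    push_cast
    ring

theorem ord_prod {ι : Type*} (s : Finset ι) (f : ι → L) (hf : ∀ i ∈ s, f i ≠ 0) :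
    w.ord (∏ i ∈ s, f i) = ∑ i ∈ s, w.ord (f i) := by
  classical
  induction s using Finset.induction_on with
  | empty => rw [Finset.prod_empty, Finset.sum_empty, w.ord_one]
  | insert a s ha ih =>
    rw [Finset.prod_insert ha, Finset.sum_insert ha, w.map_mul _ _ (hf a (Finset.mem_insert_self _ _))
      (Finset.prod_ne_zero_iff.2 fun i hi => hf i (Finset.mem_insert_of_mem hi)),
      ih fun i hi => hf i (Finset.mem_insert_of_mem hi)]

/-- `x` has order at least `c` (or is zero) -/
def Ge (c : ℤ) (x : L) : Prop := x ≠ 0 → c ≤ w.ord x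

variable {w}

theorem Ge.zero (c : ℤ) : w.Ge c 0 := fun h => absurd rfl h

theorem Ge.add {c : ℤ} {x y : L} (hx : w.Ge c x) (hy : w.Ge c y) : w.Ge c (x + y) := by
  intro h
  by_cases hx0 : x = 0
  · rw [hx0, zero_add] at h ⊢
    exact hy h
  by_cases hy0 : y = 0
  · rw [hy0, add_zero] at h ⊢
    exact hx h
  exact le_trans (le_min (hx hx0) (hy hy0)) (w.map_add x y hx0 hy0 h)

theorem Ge.neg {c : ℤ} {x : L} (hx : w.Ge c x) : w.Ge c (-x) := by
  intro h
  rw [w.ord_neg]
  exact hx (fun h0 => h (by rw [h0, neg_zero]))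

theorem Ge.sub {c : ℤ} {x y : L} (hx : w.Ge c x) (hy : w.Ge c y) : w.Ge c (x - y) := by
  rw [sub_eq_add_neg]
  exact hx.add hy.neg

theorem Ge.mul {a b : ℤ} {x y : L} (hx : w.Ge a x) (hy : w.Ge b y) : w.Ge (a + b) (x * y) := by
  intro h
  have hx0 := left_ne_zero_of_mul h
  have hy0 := right_ne_zero_of_mul h
  rw [w.map_mul x y hx0 hy0]
  exact add_le_add (hx hx0) (hy hy0)

theorem Ge.mono {a b : ℤ} (hab : a ≤ b) {x : L} (hx : w.Ge b x) : w.Ge a x :=
  fun h => hab.trans (hx h)

theorem Ge.sum {ι : Type*} {s : Finset ι} {f : ι → L} {c : ℤ} (h : ∀ i ∈ s, w.Ge c (f i)) :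
    w.Ge c (∑ i ∈ s, f i) := by
  classical
  induction s using Finset.induction_on with
  | empty => rw [Finset.sum_empty]; exact Ge.zero c
  | insert a s ha ih =>
    rw [Finset.sum_insert ha]
    exact (h a (Finset.mem_insert_self _ _)).add (ih fun i hi => h i (Finset.mem_insert_of_mem hi))

theorem Ge.one : w.Ge 0 (1 : L) := fun _ => by rw [w.ord_one]

theorem Ge.prod {ι : Type*} {s : Finset ι} {f : ι → L} {c : ι → ℤ}
    (h : ∀ i ∈ s, w.Ge (c i) (f i)) : w.Ge (∑ i ∈ s, c i) (∏ i ∈ s, f i) := by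
  classical
  induction s using Finset.induction_on with
  | empty => rw [Finset.sum_empty, Finset.prod_empty]; exact Ge.one
  | insert a s ha ih =>
    rw [Finset.sum_insert ha, Finset.prod_insert ha]
    exact (h a (Finset.mem_insert_self _ _)).mul (ih fun i hi => h i (Finset.mem_insert_of_mem hi))

theorem Ge.pow {c : ℤ} {x : L} (h : w.Ge c x) (n : ℕ) : w.Ge (n * c) (x ^ n) := by
  intro h0
  rw [w.ord_pow]
  rcases Nat.eq_zero_or_pos n with rfl | hn
  · simp
  · have : x ≠ 0 := fun hx => h0 (by rw [hx, zero_pow hn.ne'])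
    exact mul_le_mul_of_nonneg_left (h this) (by positivity)

/-- a determinant whose `j`-th column has order at least `c j` -/
theorem Ge.det {n : Type*} [DecidableEq n] [Fintype n] {M : Matrix n n L} {c : n → ℤ}
    (h : ∀ i j, w.Ge (c j) (M i j)) : w.Ge (∑ j, c j) M.det := by
  rw [Matrix.det_apply]
  refine Ge.sum fun σ _ => ?_
  have h1 : w.Ge (∑ j, c j) (∏ i, M (σ i) i) := Ge.prod fun i _ => h _ _
  rcases Int.units_eq_one_or (Equiv.Perm.sign σ) with h2 | h2
  · rw [h2, one_smul]; exact h1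
  · rw [h2, Units.neg_smul, one_smul]; exact h1.neg

theorem ord_add_eq_left {x y : L} (hx : x ≠ 0) (h : y ≠ 0 → w.ord x < w.ord y) :
    x + y ≠ 0 ∧ w.ord (x + y) = w.ord x := by
  by_cases hy : y = 0
  · rw [hy, add_zero]; exact ⟨hx, rfl⟩
  have hlt := h hy
  have hne : x + y ≠ 0 := by
    intro h0
    have : x = -y := eq_neg_of_add_eq_zero_left h0
    rw [this, w.ord_neg] at hlt
    exact lt_irrefl _ hlt
  refine ⟨hne, le_antisymm ?_ ?_⟩
  · by_contra hcon
    push Not at hcon
    have h1 := w.map_add (x + y) (-y) hne (neg_ne_zero.2 hy) (by rwa [add_neg_cancel_right])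
    rw [add_neg_cancel_right, w.ord_neg] at h1
    have : w.ord x < min (w.ord (x + y)) (w.ord y) := lt_min hcon hlt
    omega
  · have := w.map_add x y hx hy hne
    rwa [min_eq_left hlt.le] at this

variable (w)

/-- a valuation trivial on a subfield is trivial on elements algebraic over it -/
theorem ord_eq_zero_of_algebraic {F : Type} [Field F] (f : F →+* L)
    (hF : ∀ c : F, c ≠ 0 → w.ord (f c) = 0) {x : L} (hx0 : x ≠ 0)
    (hx : ∃ P : Polynomial F, P ≠ 0 ∧ P.eval₂ f x = 0) : w.ord x = 0 := by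
  -- general fact: negative order is impossible for integral elements
  have key : ∀ y : L, y ≠ 0 → (∃ P : Polynomial F, P ≠ 0 ∧ P.eval₂ f y = 0) → 0 ≤ w.ord y := by
    intro y hy0 ⟨P, hP, hPy⟩
    by_contra hneg
    push Not at hneg
    set n := P.natDegree with hn
    have hlc : P.leadingCoeff ≠ 0 := Polynomial.leadingCoeff_ne_zero.2 hP
    have hx1 : f P.leadingCoeff * y ^ n ≠ 0 :=
      mul_ne_zero ((map_ne_zero f).2 hlc) (pow_ne_zero _ hy0)
    have hord1 : w.ord (f P.leadingCoeff * y ^ n) = n * w.ord y := by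
      rw [w.map_mul _ _ ((map_ne_zero f).2 hlc) (pow_ne_zero _ hy0), hF _ hlc, w.ord_pow, zero_add]
    have hsum : P.eval₂ f y = f P.leadingCoeff * y ^ n +
        ∑ i ∈ Finset.range n, f (P.coeff i) * y ^ i := by
      rw [Polynomial.eval₂_eq_sum_range, Finset.sum_range_succ, add_comm]
      rfl
    have hrest : w.Ge (n * w.ord y + 1) (∑ i ∈ Finset.range n, f (P.coeff i) * y ^ i) := by
      refine Ge.sum fun i hi h0 => ?_
      have h1 := left_ne_zero_of_mul h0
      have h2 := right_ne_zero_of_mul h0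
      have h3 : P.coeff i ≠ 0 := fun h => h1 (by rw [h, map_zero])
      rw [w.map_mul _ _ h1 h2, hF _ h3, w.ord_pow, zero_add]
      have h4 : (i : ℤ) + 1 ≤ n := by
        have := Finset.mem_range.1 hi
        omega
      nlinarith
    have := ord_add_eq_left (w := w) hx1 (fun h0 => by
      have := hrest h0
      rw [hord1]
      omega)
    exact this.1 (hsum ▸ hPy)
  apply le_antisymm
  · have h1 := key x⁻¹ (inv_ne_zero hx0) (by
      obtain ⟨P, hP, hPx⟩ := hx
      refine ⟨P.reverse, Polynomial.reverse_eq_zero.not.2 hP, ?_⟩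
      have hu : Invertible x := invertibleOfNonzero hx0
      have := (Polynomial.eval₂_reverse_eq_zero_iff f x P).2 hPx
      rwa [invOf_eq_inv] at this)
    rw [w.ord_inv] at h1
    omega
  · exact key x hx0 hx

end V0

section domain

variable {S L : Type} [CommRing S] [IsDomain S] [Field L] [Algebra S L] [IsFractionRing S L]

/-- extension of an additive order function to the fraction field -/
def V0.ofDomain (o : S → ℤ) (hmul : ∀ x y, x ≠ 0 → y ≠ 0 → o (x * y) = o x + o y)
    (hadd : ∀ x y, x ≠ 0 → y ≠ 0 → x + y ≠ 0 → min (o x) (o y) ≤ o (x + y)) : V0 L := by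
  classical
  have hex : ∀ x : L, ∃ p : S × S, p.2 ≠ 0 ∧ x = algebraMap S L p.1 / algebraMap S L p.2 := by
    intro x
    obtain ⟨a, b, hb, h⟩ := IsFractionRing.div_surjective (A := S) x
    exact ⟨(a, b), nonZeroDivisors.ne_zero hb, h.symm⟩
  let pr : L → S × S := fun x => (hex x).choose
  have hpr2 : ∀ x, (pr x).2 ≠ 0 := fun x => (hex x).choose_spec.1
  have hpr : ∀ x, x = algebraMap S L (pr x).1 / algebraMap S L (pr x).2 :=
    fun x => (hex x).choose_spec.2
  have hinj : Function.Injective (algebraMap S L) := IsFractionRing.injective S L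
  have hne : ∀ a : S, a ≠ 0 → algebraMap S L a ≠ 0 :=
    fun a ha h => ha (hinj (by rw [h, map_zero]))
  have hpr1 : ∀ x, x ≠ 0 → (pr x).1 ≠ 0 := by
    intro x hx h
    apply hx
    rw [hpr x, h, map_zero, zero_div]
  -- well definedness
  have hwd : ∀ a b : S, a ≠ 0 → b ≠ 0 → ∀ x : L, x = algebraMap S L a / algebraMap S L b →
      o (pr x).1 - o (pr x).2 = o a - o b := by
    intro a b ha hb x hx
    have hx0 : x ≠ 0 := by
      rw [hx]
      exact div_ne_zero (hne a ha) (hne b hb)
    have h1 : algebraMap S L (pr x).1 / algebraMap S L (pr x).2 =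
        algebraMap S L a / algebraMap S L b := by rw [← hpr x, hx]
    rw [div_eq_div_iff (hne _ (hpr2 x)) (hne b hb), ← _root_.map_mul, ← _root_.map_mul] at h1
    have h2 := congrArg o (hinj h1)
    rw [hmul _ _ (hpr1 x hx0) hb, hmul _ _ ha (hpr2 x)] at h2
    omega
  exact
  { ord := fun x => if x = 0 then 0 else o (pr x).1 - o (pr x).2
    ord_zero := by simp
    map_mul := by
      intro x y hx hy
      rw [if_neg hx, if_neg hy, if_neg (mul_ne_zero hx hy)]
      have h1 : x * y = algebraMap S L ((pr x).1 * (pr y).1) /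
          algebraMap S L ((pr x).2 * (pr y).2) := by
        conv_lhs => rw [hpr x, hpr y]
        rw [_root_.map_mul, _root_.map_mul, div_mul_div_comm]
      rw [hwd _ _ (mul_ne_zero (hpr1 x hx) (hpr1 y hy)) (mul_ne_zero (hpr2 x) (hpr2 y)) _ h1,
        hmul _ _ (hpr1 x hx) (hpr1 y hy), hmul _ _ (hpr2 x) (hpr2 y)]
      ring
    map_add := by
      intro x y hx hy hxy
      rw [if_neg hx, if_neg hy, if_neg hxy]
      have h1 : x + y = algebraMap S L ((pr x).1 * (pr y).2 + (pr x).2 * (pr y).1) /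
          algebraMap S L ((pr x).2 * (pr y).2) := by
        conv_lhs => rw [hpr x, hpr y]
        rw [div_add_div _ _ (hne _ (hpr2 x)) (hne _ (hpr2 y)), _root_.map_mul, _root_.map_add,
          _root_.map_mul, _root_.map_mul]
      have hnum : (pr x).1 * (pr y).2 + (pr x).2 * (pr y).1 ≠ 0 := by
        intro h
        apply hxy
        rw [h1, h, map_zero, zero_div]
      have ha : (pr x).1 * (pr y).2 ≠ 0 := mul_ne_zero (hpr1 x hx) (hpr2 y)
      have hb : (pr x).2 * (pr y).1 ≠ 0 := mul_ne_zero (hpr2 x) (hpr1 y hy)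
      rw [hwd _ _ hnum (mul_ne_zero (hpr2 x) (hpr2 y)) _ h1]
      have h2 := hadd _ _ ha hb hnum
      rw [hmul _ _ (hpr1 x hx) (hpr2 y), hmul _ _ (hpr2 x) (hpr1 y hy)] at h2
      rw [hmul _ _ (hpr2 x) (hpr2 y)]
      rcases le_total (o (pr x).1 + o (pr y).2) (o (pr x).2 + o (pr y).1) with h | h
      · rw [min_eq_left h] at h2
        rw [min_eq_left (by omega)]
        omega
      · rw [min_eq_right h] at h2
        rw [min_eq_right (by omega)]
        omega }

theorem V0.ofDomain_algebraMap (o : S → ℤ)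
    (hmul : ∀ x y, x ≠ 0 → y ≠ 0 → o (x * y) = o x + o y)
    (hadd : ∀ x y, x ≠ 0 → y ≠ 0 → x + y ≠ 0 → min (o x) (o y) ≤ o (x + y)) (a : S)
    (ha : a ≠ 0) : (V0.ofDomain (L := L) o hmul hadd).ord (algebraMap S L a) = o a := by
  classical
  have hinj : Function.Injective (algebraMap S L) := IsFractionRing.injective S L
  have h1 : algebraMap S L a ≠ 0 := fun h => ha (hinj (by rw [h, map_zero]))
  have hex : ∀ x : L, ∃ p : S × S, p.2 ≠ 0 ∧ x = algebraMap S L p.1 / algebraMap S L p.2 := by
    intro x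
    obtain ⟨a, b, hb, h⟩ := IsFractionRing.div_surjective (A := S) x
    exact ⟨(a, b), nonZeroDivisors.ne_zero hb, h.symm⟩
  change (if algebraMap S L a = 0 then 0 else o (hex (algebraMap S L a)).choose.1 -
    o (hex (algebraMap S L a)).choose.2) = o a
  rw [if_neg h1]
  obtain ⟨h2, h3⟩ := (hex (algebraMap S L a)).choose_spec
  set q := (hex (algebraMap S L a)).choose with hq
  have h4 : algebraMap S L q.2 ≠ 0 := fun h => h2 (hinj (by rw [h, map_zero]))
  rw [eq_div_iff h4, ← _root_.map_mul] at h3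
  have h5 := congrArg o (hinj h3)
  rw [hmul _ _ ha h2] at h5
  omega

end domain

section prime

variable {S L : Type} [CommRing S] [IsDomain S] [WfDvdMonoid S] [Field L] [Algebra S L]
  [IsFractionRing S L]

theorem fin_mult {p : S} (hp : Prime p) {a : S} (ha : a ≠ 0) : FiniteMultiplicity p a :=
  FiniteMultiplicity.of_not_isUnit hp.not_isUnit ha

variable (L) in
/-- the valuation of the fraction field attached to a prime element -/
def V0.ofPrime (p : S) (hp : Prime p) : V0 L :=
  V0.ofDomain (fun a => (multiplicity p a : ℤ))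
    (fun x y hx hy => by
      rw [multiplicity_mul hp (fin_mult hp (mul_ne_zero hx hy))]
      push_cast
      rfl)
    (fun x y hx hy hxy => by
      have h1 := min_le_emultiplicity_add (p := p) (a := x) (b := y)
      rw [(fin_mult hp hx).emultiplicity_eq_multiplicity,
        (fin_mult hp hy).emultiplicity_eq_multiplicity,
        (fin_mult hp hxy).emultiplicity_eq_multiplicity] at h1
      rcases le_total (multiplicity p x) (multiplicity p y) with h | h
      · rw [min_eq_left (Nat.cast_le.2 h), Nat.cast_le] at h1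
        rw [min_eq_left (Nat.cast_le.2 h)]
        exact_mod_cast h1
      · rw [min_eq_right (Nat.cast_le.2 h), Nat.cast_le] at h1
        rw [min_eq_right (Nat.cast_le.2 h)]
        exact_mod_cast h1)

theorem V0.ofPrime_algebraMap (p : S) (hp : Prime p) (a : S) (ha : a ≠ 0) :
    (V0.ofPrime L p hp).ord (algebraMap S L a) = multiplicity p a :=
  V0.ofDomain_algebraMap _ _ _ a ha

theorem V0.ofPrime_nonneg (p : S) (hp : Prime p) (a : S) :
    0 ≤ (V0.ofPrime L p hp).ord (algebraMap S L a) := by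
  by_cases ha : a = 0
  · rw [ha, map_zero, V0.ord_zero]
  · rw [V0.ofPrime_algebraMap p hp a ha]
    positivity

theorem V0.ofPrime_pos_iff (p : S) (hp : Prime p) (a : S) (ha : a ≠ 0) :
    0 < (V0.ofPrime L p hp).ord (algebraMap S L a) ↔ p ∣ a := by
  rw [V0.ofPrime_algebraMap p hp a ha]
  rw [Nat.cast_pos]
  exact ⟨dvd_of_multiplicity_pos, multiplicity_pos_of_dvd⟩

end prime

section ufd

variable {S L : Type} [CommRing S] [IsDomain S] [UniqueFactorizationMonoid S] [Field L]
  [Algebra S L] [IsFractionRing S L]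

/-- elements of the fraction field which are regular at all primes belong to the ring -/
theorem mem_of_primes (x : L) (hx : ∀ (p : S) (hp : Prime p), 0 ≤ (V0.ofPrime L p hp).ord x) :
    ∃ s : S, algebraMap S L s = x := by
  by_cases hx0 : x = 0
  · exact ⟨0, by rw [hx0, map_zero]⟩
  obtain ⟨a, b, hab, hbx⟩ := IsFractionRing.exists_reduced_fraction (A := S) x
  have hinj : Function.Injective (algebraMap S L) := IsFractionRing.injective S L
  have hb0 : (b : S) ≠ 0 := nonZeroDivisors.ne_zero b.2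
  have hxa : algebraMap S L a = x * algebraMap S L b := by
    rw [← hbx, IsLocalization.mk'_spec]
  have ha0 : a ≠ 0 := by
    intro h
    rw [h, map_zero] at hxa
    exact mul_ne_zero hx0 (fun h => hb0 (hinj (by rw [h, map_zero]))) hxa.symm
  have hbu : IsUnit (b : S) := by
    by_contra hcon
    obtain ⟨p, hp, hpb⟩ := WfDvdMonoid.exists_irreducible_factor hcon hb0
    have hp' := hp.prime
    have h1 : ¬ p ∣ a := by
      intro hpa
      exact hp.not_isUnit (hab hpa hpb)
    have h2 := hx p hp'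
    have h3 : (V0.ofPrime L p hp').ord x = (V0.ofPrime L p hp').ord (algebraMap S L a) -
        (V0.ofPrime L p hp').ord (algebraMap S L b) := by
      rw [hxa, (V0.ofPrime L p hp').map_mul _ _ hx0
        (fun h => hb0 (hinj (by rw [h, map_zero])))]
      ring
    have h4 := (V0.ofPrime_pos_iff (L := L) p hp' b hb0).2 hpb
    have h5 : ¬ 0 < (V0.ofPrime L p hp').ord (algebraMap S L a) :=
      fun h => h1 ((V0.ofPrime_pos_iff (L := L) p hp' a ha0).1 h)
    omega
  obtain ⟨u, hu⟩ := hbu
  refine ⟨a * (u⁻¹ : Sˣ), ?_⟩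
  rw [_root_.map_mul, hxa, ← hu, mul_assoc, ← _root_.map_mul, Units.mul_inv, map_one, mul_one]

/-- units -/
theorem unit_of_primes (x : L) (hx0 : x ≠ 0)
    (hx : ∀ (p : S) (hp : Prime p), (V0.ofPrime L p hp).ord x = 0) :
    ∃ s : S, IsUnit s ∧ algebraMap S L s = x := by
  have hinj : Function.Injective (algebraMap S L) := IsFractionRing.injective S L
  obtain ⟨s, hs⟩ := mem_of_primes (S := S) x (fun p hp => (hx p hp).ge)
  obtain ⟨t, ht⟩ := mem_of_primes (S := S) x⁻¹ (fun p hp => by
    rw [V0.ord_inv, hx p hp, neg_zero])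
  refine ⟨s, IsUnit.of_mul_eq_one t (hinj ?_), hs⟩
  rw [_root_.map_mul, hs, ht, mul_inv_cancel₀ hx0, map_one]

theorem dvd_of_primes {a b : S} (ha : a ≠ 0)
    (h : ∀ p : S, Prime p → multiplicity p a ≤ multiplicity p b) (hb : b ≠ 0) : a ∣ b := by
  have hinj : Function.Injective (algebraMap S (FractionRing S)) :=
    IsFractionRing.injective S (FractionRing S)
  have hne : ∀ a : S, a ≠ 0 → algebraMap S (FractionRing S) a ≠ 0 :=
    fun a ha h => ha (hinj (by rw [h, map_zero]))
  obtain ⟨s, hs⟩ := mem_of_primes (S := S) (algebraMap S (FractionRing S) b /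
    algebraMap S (FractionRing S) a) (fun p hp => by
      rw [V0.ord_div _ _ _ (hne b hb) (hne a ha), V0.ofPrime_algebraMap p hp b hb,
        V0.ofPrime_algebraMap p hp a ha]
      have := h p hp
      omega)
  refine ⟨s, hinj ?_⟩
  rw [_root_.map_mul, hs, mul_div_cancel₀ _ (hne a ha)]

theorem associated_of_primes {a b : S} (ha : a ≠ 0) (hb : b ≠ 0)
    (h : ∀ p : S, Prime p → multiplicity p a = multiplicity p b) : Associated a b :=
  associated_of_dvd_dvd (dvd_of_primes ha (fun p hp => (h p hp).le) hb)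
    (dvd_of_primes hb (fun p hp => (h p hp).ge) ha)

/-- an element all of whose multiplicities are divisible by `n` is an `n`-th power up to a
unit -/
theorem pow_of_mult (n : ℕ) (a : S) (ha : a ≠ 0)
    (h : ∀ p : S, Prime p → n ∣ multiplicity p a) : ∃ (u f : S), IsUnit u ∧ a = u * f ^ n := by
  revert ha h
  refine WellFounded.induction (r := DvdNotUnit) wellFounded_dvdNotUnit
    (C := fun a => a ≠ 0 → (∀ p : S, Prime p → n ∣ multiplicity p a) →
      ∃ (u f : S), IsUnit u ∧ a = u * f ^ n) a ?_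
  intro a ih ha h
  by_cases hu : IsUnit a
  · exact ⟨a, 1, hu, by rw [one_pow, mul_one]⟩
  obtain ⟨p, hp, hpa⟩ := WfDvdMonoid.exists_irreducible_factor hu ha
  have hp' := hp.prime
  have hpos : 0 < multiplicity p a := multiplicity_pos_of_dvd hpa
  obtain ⟨q, hq⟩ := h p hp'
  have hn : 0 < n := by
    rcases Nat.eq_zero_or_pos n with h0 | h0
    · rw [h0, zero_mul] at hq
      omega
    · exact h0
  have hq0 : 0 < q := by
    rcases Nat.eq_zero_or_pos q with h0 | h0
    · rw [h0, mul_zero] at hq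
      omega
    · exact h0
  have hdvd : p ^ n ∣ a := by
    refine (pow_dvd_pow p ?_).trans (pow_multiplicity_dvd p a)
    rw [hq]
    exact Nat.le_mul_of_pos_right n hq0
  obtain ⟨b, hb⟩ := hdvd
  have hb0 : b ≠ 0 := by
    intro h0
    rw [h0, mul_zero] at hb
    exact ha hb
  have hpn : p ^ n ≠ 0 := pow_ne_zero _ hp'.ne_zero
  obtain ⟨u, f, hu', hf⟩ := ih b ⟨hb0, p ^ n, fun hcon =>
      hp'.not_isUnit ((isUnit_pow_iff hn.ne').1 hcon), by rw [hb]; ring⟩ hb0 (by
    intro p' hp2
    have h1 : multiplicity p' a = n * multiplicity p' p + multiplicity p' b := by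
      rw [hb, multiplicity_mul hp2 (fin_mult hp2 (mul_ne_zero hpn hb0)),
        (fin_mult hp2 hp'.ne_zero).multiplicity_pow hp2]
    have h2 := h p' hp2
    rw [h1] at h2
    exact (Nat.dvd_add_right (Dvd.intro _ rfl)).1 h2)
  refine ⟨u, p * f, hu', ?_⟩
  rw [hb, hf, mul_pow]
  ring

end ufd

end Run7.h342
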