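import Pool.Agent.Run7.h342.JAC3

/-!
# Weighted valuations
-/

set_option autoImplicit false
set_option linter.unusedSectionVars false

noncomputable section

namespace Run7.h342

open MvPowerSeries IsLocalRing

variable {k : Type} [Field k] {d : ℕ}

/-- weight of a monomial -/
def wt (b : Fin d → ℕ) (m : Fin d →₀ ℕ) : ℕ := ∑ i, b i * m i

theorem wt_eq (b : Fin d → ℕ) (m : Fin d →₀ ℕ) : Finsupp.weight b m = wt b m := by
  rw [Finsupp.weight_apply, Finsupp.sum_fintype _ _ (by intro i; simp), wt]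
  refine Finset.sum_congr rfl fun i _ => ?_
  rw [smul_eq_mul, mul_comm]

theorem wt_add (b : Fin d → ℕ) (m m' : Fin d →₀ ℕ) : wt b (m + m') = wt b m + wt b m' := by
  simp [wt, mul_add, Finset.sum_add_distrib]

theorem wt_zero (b : Fin d → ℕ) : wt b 0 = 0 := by
  simp [wt]

theorem wt_single (b : Fin d → ℕ) (i : Fin d) (n : ℕ) : wt b (Finsupp.single i n) = b i * n := by
  classical
  rw [wt, Finset.sum_eq_single i]
  · rw [Finsupp.single_eq_same]
  · intro j _ hj
    rw [Finsupp.single_eq_of_ne hj, mul_zero]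
  · intro h
    exact absurd (Finset.mem_univ i) h

/-- the weight of a nonzero power series -/
def wo (b : Fin d → ℕ) (f : MvPowerSeries (Fin d) k) : ℕ := (weightedOrder b f).toNat

theorem wo_coe (b : Fin d → ℕ) {f : MvPowerSeries (Fin d) k} (hf : f ≠ 0) :
    (wo b f : ℕ∞) = weightedOrder b f :=
  (ne_zero_iff_weightedOrder_finite b).1 hf

theorem exists_wo (b : Fin d → ℕ) {f : MvPowerSeries (Fin d) k} (hf : f ≠ 0) :
    ∃ m, coeff m f ≠ 0 ∧ wt b m = wo b f := by
  obtain ⟨m, hm, h⟩ := exists_coeff_ne_zero_and_weightedOrder b (wo_coe b hf)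
  refine ⟨m, hm, ?_⟩
  rw [wt_eq, ← wo_coe b hf] at h
  exact_mod_cast h

theorem wo_le (b : Fin d → ℕ) {f : MvPowerSeries (Fin d) k} {m : Fin d →₀ ℕ}
    (hm : coeff m f ≠ 0) : wo b f ≤ wt b m := by
  have hf : f ≠ 0 := fun h => hm (by rw [h, map_zero])
  have h := weightedOrder_le b hm
  rw [wt_eq, ← wo_coe b hf] at h
  exact_mod_cast h

theorem le_wo (b : Fin d → ℕ) {f : MvPowerSeries (Fin d) k} (hf : f ≠ 0) {c : ℕ}
    (h : ∀ m, coeff m f ≠ 0 → c ≤ wt b m) : c ≤ wo b f := by
  obtain ⟨m, hm, h1⟩ := exists_wo b hf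
  rw [← h1]
  exact h m hm

theorem wo_mul (b : Fin d → ℕ) {f g : MvPowerSeries (Fin d) k} (hf : f ≠ 0) (hg : g ≠ 0) :
    wo b (f * g) = wo b f + wo b g := by
  have h := weightedOrder_mul b f g
  rw [← wo_coe b hf, ← wo_coe b hg, ← wo_coe b (mul_ne_zero hf hg)] at h
  exact_mod_cast h

theorem wo_add (b : Fin d → ℕ) {f g : MvPowerSeries (Fin d) k}
    (hfg : f + g ≠ 0) : min (wo b f) (wo b g) ≤ wo b (f + g) := by
  refine le_wo b hfg fun m hm => ?_
  rw [map_add] at hm
  by_cases h : coeff m f = 0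
  · rw [h, zero_add] at hm
    exact (min_le_right _ _).trans (wo_le b hm)
  · exact (min_le_left _ _).trans (wo_le b h)

/-- the weighted valuation -/
def wv (b : Fin d → ℕ) : V0 (FractionRing (MvPowerSeries (Fin d) k)) :=
  V0.ofDomain (S := MvPowerSeries (Fin d) k) (fun f => (wo b f : ℤ))
    (fun x y hx hy => by rw [wo_mul b hx hy]; push_cast; rfl)
    (fun x y hx hy hxy => by
      have := wo_add b hxy
      rcases le_total (wo b x) (wo b y) with h | h
      · rw [min_eq_left h] at this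
        rw [min_eq_left (by exact_mod_cast h)]
        exact_mod_cast this
      · rw [min_eq_right h] at this
        rw [min_eq_right (by exact_mod_cast h)]
        exact_mod_cast this)

theorem wv_alg (b : Fin d → ℕ) {f : MvPowerSeries (Fin d) k} (hf : f ≠ 0) :
    (wv b).ord (algebraMap _ (FractionRing (MvPowerSeries (Fin d) k)) f) = wo b f :=
  V0.ofDomain_algebraMap (S := MvPowerSeries (Fin d) k) _ _ _ f hf

theorem alg_ne {f : MvPowerSeries (Fin d) k} (hf : f ≠ 0) :
    algebraMap _ (FractionRing (MvPowerSeries (Fin d) k)) f ≠ 0 := fun h =>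
  hf ((IsFractionRing.injective (MvPowerSeries (Fin d) k)
    (FractionRing (MvPowerSeries (Fin d) k))) (by rw [h, map_zero]))

theorem wv_ge_of (b : Fin d → ℕ) {f : MvPowerSeries (Fin d) k} {c : ℕ}
    (h : ∀ m, coeff m f ≠ 0 → c ≤ wt b m) :
    (wv b).Ge c (algebraMap _ (FractionRing (MvPowerSeries (Fin d) k)) f) := by
  intro h0
  have hf : f ≠ 0 := fun h1 => h0 (by rw [h1, map_zero])
  rw [wv_alg b hf]
  exact_mod_cast le_wo b hf h

theorem wv_nonneg (b : Fin d → ℕ) (f : MvPowerSeries (Fin d) k) :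
    (wv b).Ge 0 (algebraMap _ (FractionRing (MvPowerSeries (Fin d) k)) f) := by
  have := wv_ge_of b (f := f) (c := 0) (fun m _ => Nat.zero_le _)
  exact_mod_cast this

theorem wv_unit (b : Fin d → ℕ) {f : MvPowerSeries (Fin d) k} (hf : IsUnit f) :
    (wv b).ord (algebraMap _ (FractionRing (MvPowerSeries (Fin d) k)) f) = 0 := by
  rw [wv_alg b hf.ne_zero]
  have h1 : coeff 0 f ≠ 0 := by
    rw [coeff_zero_eq_constantCoeff_apply]
    exact ((MvPowerSeries.isUnit_iff_constantCoeff).1 hf).ne_zero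
  have h2 := wo_le b h1
  rw [wt_zero] at h2
  have : wo b f = 0 := by omega
  rw [this]
  rfl

theorem wv_const (b : Fin d → ℕ) {c : k} (hc : c ≠ 0) :
    (wv b).ord (algebraMap k (FractionRing (MvPowerSeries (Fin d) k)) c) = 0 := by
  rw [IsScalarTower.algebraMap_apply k (MvPowerSeries (Fin d) k)]
  exact wv_unit b ((isUnit_iff_ne_zero.2 hc).map _)

theorem wv_X (b : Fin d → ℕ) (i : Fin d) :
    (wv b).ord (algebraMap (MvPowerSeries (Fin d) k)
      (FractionRing (MvPowerSeries (Fin d) k)) (X i)) = b i := by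
  classical
  have h0 : coeff (Finsupp.single i 1) (X i : MvPowerSeries (Fin d) k) ≠ 0 := by
    rw [coeff_X, if_pos rfl]
    exact one_ne_zero
  have hX : (X i : MvPowerSeries (Fin d) k) ≠ 0 := fun h => h0 (by rw [h, map_zero])
  rw [wv_alg b hX]
  have h1 : wo b (X i : MvPowerSeries (Fin d) k) ≤ b i := by
    have := wo_le b h0
    rwa [wt_single, mul_one] at this
  have h2 : b i ≤ wo b (X i : MvPowerSeries (Fin d) k) := by
    refine le_wo b hX fun m hm => ?_
    rw [coeff_X] at hm
    have : m = Finsupp.single i 1 := by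
      by_contra h
      rw [if_neg h] at hm
      exact hm rfl
    rw [this, wt_single, mul_one]
  have : wo b (X i : MvPowerSeries (Fin d) k) = b i := le_antisymm h1 h2
  rw [this]

theorem coeff_X_mul_pderiv (i : Fin d) (f : MvPowerSeries (Fin d) k) (m : Fin d →₀ ℕ) :
    coeff m (X i * pderiv k i f) = (m i : k) * coeff m f := by
  classical
  rw [X, coeff_monomial_mul]
  by_cases h : Finsupp.single i 1 ≤ m
  · rw [if_pos h, one_mul, coeff_pderiv, tsub_add_cancel_of_le h, Finsupp.tsub_apply,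
      Finsupp.single_eq_same]
    have h1 : 1 ≤ m i := by
      have := h i
      rwa [Finsupp.single_eq_same] at this
    have h2 : ((m i - 1 : ℕ) : k) + 1 = (m i : k) := by
      rw [Nat.cast_sub h1]
      simp
    rw [h2, mul_comm]
  · rw [if_neg h]
    have h1 : m i = 0 := by
      by_contra h2
      apply h
      rw [Finsupp.single_le_iff]
      omega
    rw [h1, Nat.cast_zero, zero_mul]

variable (Dl : Fin d → Derivation k (FractionRing (MvPowerSeries (Fin d) k))
      (FractionRing (MvPowerSeries (Fin d) k)))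
    (hDl : ∀ i (f : MvPowerSeries (Fin d) k), Dl i (algebraMap _ _ f) =
        algebraMap (MvPowerSeries (Fin d) k) _ (pderiv k i f))

include hDl in
/-- logarithmic derivatives do not lower the weight -/
theorem wv_logder (b : Fin d → ℕ) (i : Fin d) (z : FractionRing (MvPowerSeries (Fin d) k))
    (c : ℤ) (hz : (wv b).Ge c z) :
    (wv b).Ge c (algebraMap (MvPowerSeries (Fin d) k) _ (X i) * Dl i z) := by
  set w := wv (k := k) b with hw
  by_cases hz0 : z = 0
  · rw [hz0, map_zero, mul_zero]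
    exact V0.Ge.zero c
  obtain ⟨f, g, hg, hfg⟩ := IsFractionRing.div_surjective (A := MvPowerSeries (Fin d) k) z
  have hg0 : g ≠ 0 := nonZeroDivisors.ne_zero hg
  have hf0 : f ≠ 0 := by
    intro h
    rw [h, map_zero, zero_div] at hfg
    exact hz0 hfg.symm
  have key : ∀ f : MvPowerSeries (Fin d) k, f ≠ 0 → w.Ge (wo b f)
      (algebraMap (MvPowerSeries (Fin d) k) _ (X i) * Dl i (algebraMap _ _ f)) := by
    intro f hf
    rw [hDl, ← map_mul]
    refine wv_ge_of b fun m hm => ?_
    rw [coeff_X_mul_pderiv] at hm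
    exact wo_le b (right_ne_zero_of_mul hm)
  have hord : w.ord z = wo b f - wo b g := by
    rw [← hfg, w.ord_div _ _ (alg_ne hf0) (alg_ne hg0), hw, wv_alg b hf0, wv_alg b hg0]
  have hcz : c ≤ wo b f - wo b g := by
    rw [← hord]
    exact hz hz0
  have h1 : algebraMap (MvPowerSeries (Fin d) k) _ (X i) * Dl i z =
      ((algebraMap (MvPowerSeries (Fin d) k) _ (X i) * Dl i (algebraMap _ _ f)) *
        algebraMap _ _ g - algebraMap _ _ f *
        (algebraMap (MvPowerSeries (Fin d) k) _ (X i) * Dl i (algebraMap _ _ g))) *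
        (algebraMap (MvPowerSeries (Fin d) k)
          (FractionRing (MvPowerSeries (Fin d) k)) g)⁻¹ ^ 2 := by
    rw [← hfg, Derivation.leibniz_div]
    simp only [smul_eq_mul]
    ring
  rw [h1]
  have h2 : w.Ge (wo b f) (algebraMap _ (FractionRing (MvPowerSeries (Fin d) k)) f) :=
    fun _ => (wv_alg b hf0).ge
  have h3 : w.Ge (wo b g) (algebraMap _ (FractionRing (MvPowerSeries (Fin d) k)) g) :=
    fun _ => (wv_alg b hg0).ge
  have h4 : w.Ge (-(2 * (wo b g : ℤ))) ((algebraMap (MvPowerSeries (Fin d) k)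
      (FractionRing (MvPowerSeries (Fin d) k)) g)⁻¹ ^ 2) := by
    intro _
    rw [w.ord_pow, w.ord_inv, hw, wv_alg b hg0]
    push_cast
    linarith
  have h5 := ((key f hf0).mul h3).sub (h2.mul (key g hg0))
  exact (h5.mul h4).mono (by omega)

include hDl in
/-- lower bound for the weight of a Jacobian -/
theorem wv_jac (b : Fin d → ℕ) (g : Fin d → FractionRing (MvPowerSeries (Fin d) k))
    (c : Fin d → ℤ) (hg : ∀ j, (wv b).Ge (c j) (g j)) :
    (wv b).Ge (∑ j, c j - ∑ i, (b i : ℤ)) (Matrix.det (Matrix.of fun i j => Dl i (g j))) := by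
  classical
  set w := wv (k := k) b with hw
  set J := Matrix.det (Matrix.of fun i j => Dl i (g j)) with hJ
  set x : Fin d → FractionRing (MvPowerSeries (Fin d) k) :=
    fun i => algebraMap (MvPowerSeries (Fin d) k) _ (X i) with hx
  have hX : ∀ i, (X i : MvPowerSeries (Fin d) k) ≠ 0 := by
    intro i h
    have h0 : coeff (Finsupp.single i 1) (X i : MvPowerSeries (Fin d) k) ≠ 0 := by
      rw [coeff_X, if_pos rfl]
      exact one_ne_zero
    exact h0 (by rw [h, map_zero])
  have h1 : Matrix.det (Matrix.of fun i j => x i * Dl i (g j)) = (∏ i, x i) * J := by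
    have := Matrix.det_mul_column x (Matrix.of fun i j => Dl i (g j))
    simpa using this
  have h2 : w.Ge (∑ j, c j) (Matrix.det (Matrix.of fun i j => x i * Dl i (g j))) := by
    refine V0.Ge.det fun i j => ?_
    rw [Matrix.of_apply]
    exact wv_logder Dl hDl b i (g j) (c j) (hg j)
  intro hJ0
  rw [h1] at h2
  have hx0 : ∀ i ∈ Finset.univ, x i ≠ 0 := fun i _ => alg_ne (hX i)
  have hprod : ∏ i, x i ≠ 0 := Finset.prod_ne_zero_iff.2 hx0
  have h3 := h2 (mul_ne_zero hprod hJ0)
  rw [w.map_mul _ _ hprod hJ0, w.ord_prod _ _ hx0] at h3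
  have h4 : ∑ i, w.ord (x i) = ∑ i, (b i : ℤ) := Finset.sum_congr rfl fun i _ => wv_X b i
  omega

/-- weights modulo `r` of invariants under a diagonal automorphism -/
theorem wt_mod {r : ℕ} {ζ : k} (hζ : IsPrimitiveRoot ζ r) (a : Fin d → ℕ) (J : ℕ) {ξ : k} {m : Fin d →₀ ℕ}
    (hm : ∏ i, (ζ ^ a i) ^ m i = ξ) : ζ ^ wt (fun i => (J * a i) % r) m = ξ ^ J := by
  rw [← hm, ← Finset.prod_pow, wt, ← Finset.prod_pow_eq_pow_sum]
  refine Finset.prod_congr rfl fun i _ => ?_
  have h1 : ζ ^ ((J * a i) % r) = ζ ^ (J * a i) := by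
    conv_rhs => rw [← Nat.mod_add_div (J * a i) r, pow_add, pow_mul, hζ.pow_eq_one, one_pow,
      mul_one]
  rw [pow_mul, h1]
  rw [← pow_mul, ← pow_mul, ← pow_mul]
  congr 1
  ring

end Run7.h342
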